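import Pool.Agent.W_7d29a1_NS.DefsN72
import Pool.Agent.W_7d29a1_S90.RpT73

/-!
Theorem NS, leaf AVG: the half planes `{x | u ≤ x j}`, `u` an integer.
-/

namespace Pool.Agent.W_7d29a1_NS

open MeasureTheory ProbabilityTheory Filter Topology Pool.Agent.W_MP_7d29a1_pr
  Pool.Agent.W_7d29a1_h46 Pool.Agent.W_7d29a1_h46u Pool.Agent.W_7d29a1_D2.B35
  Pool.Agent.W_7d29a1_Q29 Pool.Agent.W_7d29a1_S90

variable {d n : ℕ} {ρ : Measure ℝ}

/-! ### Counting integers -/

lemma cntlo71 {p : ℤ → Prop} {_ : DecidablePred p} {a lam g : ℝ} {b lo hi : ℤ}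
    (hp : ∀ u, p u ↔ ¬((u : ℝ) ≤ a ↔ u ≤ b)) (hlam : 0 ≤ lam) (hg : 0 ≤ g)
    (hab : lam ≤ |a - b|) (hlo : (lo : ℝ) ≤ b - lam) (hhi : (b : ℝ) + lam ≤ hi) :
    (lam - 1) * g ≤ ∑ u ∈ Finset.Icc lo hi, if p u then g else 0 := by
  obtain ⟨k, hk⟩ : ∃ k : ℕ, k = ⌊lam⌋₊ := ⟨_, rfl⟩
  have hk1 : (k : ℝ) ≤ lam := by
    rw [hk]
    exact Nat.floor_le hlam
  have hk2 : lam < k + 1 := by
    rw [hk]
    exact Nat.lt_floor_add_one lam
  have hsub : ∃ c : ℤ, Finset.Ioc c (c + k) ⊆ (Finset.Icc lo hi).filter p := by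
    rcases le_abs.1 hab with h1 | h1
    · refine ⟨b, fun u hu => ?_⟩
      rw [Finset.mem_Ioc] at hu
      have h2 : (u : ℝ) ≤ b + k := by exact_mod_cast hu.2
      have h3 : (b : ℝ) < u := by exact_mod_cast hu.1
      rw [Finset.mem_filter, Finset.mem_Icc, hp]
      refine ⟨⟨?_, ?_⟩, ?_⟩
      · have h4 : (lo : ℝ) ≤ u := by linarith
        exact_mod_cast h4
      · have h4 : (u : ℝ) ≤ hi := by linarith
        exact_mod_cast h4
      · intro h4
        have h5 := h4.1 (by linarith)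
        omega
    · refine ⟨b - k, fun u hu => ?_⟩
      rw [Finset.mem_Ioc, sub_add_cancel] at hu
      have h2 : (u : ℝ) ≤ b := by exact_mod_cast hu.2
      have h3 : (b : ℝ) - k < u := by exact_mod_cast hu.1
      rw [Finset.mem_filter, Finset.mem_Icc, hp]
      refine ⟨⟨?_, ?_⟩, ?_⟩
      · have h4 : (lo : ℝ) ≤ u := by linarith
        exact_mod_cast h4
      · have h4 : (u : ℝ) ≤ hi := by linarith
        exact_mod_cast h4
      · intro h4
        have h5 := h4.2 hu.2
        linarith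
  obtain ⟨c, hc⟩ := hsub
  have hcard : k ≤ ((Finset.Icc lo hi).filter p).card := by
    have h1 := Finset.card_le_card hc
    rw [Int.card_Ioc] at h1
    have h2 : (c + (k : ℤ) - c).toNat = k := by simp
    rwa [h2] at h1
  rw [← Finset.sum_filter, Finset.sum_const, nsmul_eq_mul]
  refine mul_le_mul_of_nonneg_right ?_ hg
  have h2 : (k : ℝ) ≤ (((Finset.Icc lo hi).filter p).card : ℝ) := by exact_mod_cast hcard
  linarith

lemma cnthi71 {p : ℤ → Prop} {_ : DecidablePred p} {a : ℝ} {b lo hi : ℤ}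
    (hp : ∀ u, p u ↔ ¬((u : ℝ) ≤ a ↔ u ≤ b)) :
    ∑ u ∈ Finset.Icc lo hi, (if p u then (1 : ℝ) else 0) ≤ |a - b| + 1 := by
  have hsub : (Finset.Icc lo hi).filter p ⊆ Finset.Ioc b ⌊a⌋ ∪ Finset.Ioc ⌊a⌋ b := by
    intro u hu
    rw [Finset.mem_filter, hp] at hu
    rw [Finset.mem_union, Finset.mem_Ioc, Finset.mem_Ioc]
    by_cases h1 : u ≤ b
    · right
      refine ⟨?_, h1⟩
      by_contra h2
      rw [not_lt, Int.le_floor] at h2
      exact hu.2 ⟨fun _ => h1, fun _ => h2⟩
    · left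
      refine ⟨by omega, ?_⟩
      by_contra h2
      rw [Int.le_floor] at h2
      exact hu.2 ⟨fun h3 => absurd h3 h2, fun h3 => absurd h3 h1⟩
  have h1 := (Finset.card_le_card hsub).trans (Finset.card_union_le _ _)
  rw [Int.card_Ioc, Int.card_Ioc] at h1
  have h2 : ((((Finset.Icc lo hi).filter p).card : ℕ) : ℝ) ≤
      (((⌊a⌋ - b).toNat + (b - ⌊a⌋).toNat : ℕ) : ℝ) := by exact_mod_cast h1
  rw [← Finset.sum_filter, Finset.sum_const, nsmul_eq_mul, mul_one]
  refine h2.trans ?_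
  have h3 := Int.floor_le a
  have h4 := Int.lt_floor_add_one a
  rcases le_total b ⌊a⌋ with h5 | h5
  · have h6 : (⌊a⌋ - b).toNat + (b - ⌊a⌋).toNat = (⌊a⌋ - b).toNat := by omega
    have h7 : (((⌊a⌋ - b).toNat : ℕ) : ℝ) = (⌊a⌋ : ℝ) - b := by
      have h8 : (((⌊a⌋ - b).toNat : ℕ) : ℤ) = ⌊a⌋ - b := Int.toNat_of_nonneg (by omega)
      exact_mod_cast h8
    rw [h6, h7]
    have := le_abs_self (a - b)
    linarith
  · have h6 : (⌊a⌋ - b).toNat + (b - ⌊a⌋).toNat = (b - ⌊a⌋).toNat := by omega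
    have h7 : (((b - ⌊a⌋).toNat : ℕ) : ℝ) = (b : ℝ) - ⌊a⌋ := by
      have h8 : (((b - ⌊a⌋).toNat : ℕ) : ℤ) = b - ⌊a⌋ := Int.toNat_of_nonneg (by omega)
      exact_mod_cast h8
    rw [h6, h7]
    have := neg_le_abs (a - b)
    linarith

/-! ### Linearity -/

lemma pe2_lin71 (hd : 0 < d) (β : ℝ) (h : Vec d) (η : Env d) (c : ℝ)
    (f1 : (Fin n → Step d) → (Fin n → Step d) → ℝ) (f2 f3 : (Fin n → Step d) → ℝ) :
    pe2 β h η (fun s s' => c * (f1 s s' - f2 s' - f3 s')) =
      c * (pe2 β h η f1 - pe β h η f2 - pe β h η f3) := by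
  unfold pe2
  have h1 : ∀ s : Fin n → Step d, pe β h η (fun s' => c * (f1 s s' - f2 s' - f3 s')) =
      c * (pe β h η (f1 s) - pe β h η f2 - pe β h η f3) := by
    intro s
    rw [pe_mul73 β h η c fun s' => f1 s s' - f2 s' - f3 s',
      pe_sub73 β h η (fun s' => f1 s s' - f2 s') f3, pe_sub73 β h η (f1 s) f2]
  simp only [h1]
  rw [pe_mul73 β h η c fun s => pe β h η (f1 s) - pe β h η f2 - pe β h η f3,
    pe_sub73 β h η (fun s => pe β h η (f1 s) - pe β h η f2) (fun _ => pe β h η f3),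
    pe_sub73 β h η (fun s => pe β h η (f1 s)) (fun _ => pe β h η f2), pe_const73 hd,
    pe_const73 hd]

lemma pe2_sum71 {ι : Type*} (S : Finset ι) (β : ℝ) (h : Vec d) (η : Env d)
    (f : ι → (Fin n → Step d) → (Fin n → Step d) → ℝ) :
    ∑ i ∈ S, pe2 β h η (f i) = pe2 β h η (fun s s' => ∑ i ∈ S, f i s s') := by
  unfold pe2
  rw [← pe_sum73 S β h η fun i s => pe β h η fun s' => f i s s']
  congr 1
  funext s
  exact (pe_sum73 S β h η fun i s' => f i s s').symm

lemma int_pe2_71 [IsProbabilityMeasure ρ] (hd : 0 < d) (β : ℝ) (h : Vec d)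
    {f : Env d → (Fin n → Step d) → (Fin n → Step d) → ℝ}
    (hf : ∀ s s', Measurable fun η => f η s s') {C : ℝ} (hC : ∀ η s s', |f η s s'| ≤ C) :
    Integrable (fun η : Env d => pe2 β h η (f η)) (law d ρ) := by
  unfold pe2
  exact integrable_pe73 hd β h (f := fun η s => pe β h η (f η s))
    (fun s => measurable_pe73 β h (f := fun η s' => f η s s') (hf s)) (C := C)
    fun η s => abs_pe_le73 hd β h η (hC η s)

lemma int_lin71 {α : Type*} [MeasurableSpace α] {μ : Measure α} {p q r : α → ℝ} (c : ℝ)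
    (hp : Integrable p μ) (hq : Integrable q μ) (hr : Integrable r μ) :
    c * ((∫ x, p x ∂μ) - (∫ x, q x ∂μ) - ∫ x, r x ∂μ) = ∫ x, c * (p x - q x - r x) ∂μ := by
  have h1 : Integrable (fun x => p x - q x) μ := hp.sub hq
  rw [integral_const_mul, integral_sub h1 hr, integral_sub hp hq]

open Classical in
/-- Leaf AVG. -/
theorem avgP71 [IsProbabilityMeasure ρ] (β : ℝ) : AvgP ρ β := by
  intro h n τ t j m M K lam G hτ ht hl1 hlK hGm hG
  have hd : 0 < 2 := by norm_num
  have hcoord : ∀ (v : Vec 2), |v j| ≤ ‖v‖ := fun v => by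
    have := PiLp.norm_apply_le v j
    rwa [Real.norm_eq_abs] at this
  have hinc : ∀ s' : Fin n → Step 2, |(pos s' τ j : ℝ) + m j - (pos s' t j : ℝ)| ≤
      inc τ t m s' := by
    intro s'
    have h1 := hcoord (emb (pos s' t) - emb (pos s' τ) - m)
    have h2 : (emb (pos s' t) - emb (pos s' τ) - m) j =
        (pos s' t j : ℝ) - (pos s' τ j : ℝ) - m j := rfl
    rw [h2] at h1
    have h3 : (pos s' τ j : ℝ) + m j - (pos s' t j : ℝ) =
        -((pos s' t j : ℝ) - (pos s' τ j : ℝ) - m j) := by ring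
    rw [h3, abs_neg]
    exact h1
  constructor
  · -- the separated replicas
    have hmF : ∀ u : ℤ, ∀ s s' : Fin n → Step 2, Measurable fun η : Env 2 =>
        (if ¬ ((u : ℝ) ≤ (pos s τ j : ℝ) + m j ↔ u ≤ pos s' t j) then G (pos s τ) η else 0) := by
      intro u s s'
      split_ifs
      · exact measurable_const
      · exact hGm _
    have hbF : ∀ u : ℤ, ∀ (η : Env 2) (s s' : Fin n → Step 2),
        |(if ¬ ((u : ℝ) ≤ (pos s τ j : ℝ) + m j ↔ u ≤ pos s' t j) then G (pos s τ) η else 0)| ≤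
          1 := by
      intro u η s s'
      split_ifs
      · simp
      · rw [abs_of_nonneg (hG _ _).1]
        exact (hG _ _).2
    have hm1 : ∀ s s' : Fin n → Step 2, Measurable fun η : Env 2 =>
        (if 2 * lam ≤ |(pos s τ j : ℝ) - (pos s' τ j : ℝ)| then G (pos s τ) η else 0) := by
      intro s s'
      split_ifs
      · exact hGm _
      · exact measurable_const
    have hb1 : ∀ (η : Env 2) (s s' : Fin n → Step 2),
        |(if 2 * lam ≤ |(pos s τ j : ℝ) - (pos s' τ j : ℝ)| then G (pos s τ) η else 0)| ≤ 1 := by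
      intro η s s'
      split_ifs
      · rw [abs_of_nonneg (hG _ _).1]
        exact (hG _ _).2
      · simp
    have hI1 := int_pe2_71 (ρ := ρ) hd β h hm1 hb1
    have hI2 : Integrable (fun η : Env 2 => pe β h η (fun s : Fin n → Step 2 =>
      if lam < inc τ t m s then (1 : ℝ) else 0)) (law 2 ρ) := integrable_pe_fun73 hd β h _
    have hI3 : Integrable (fun η : Env 2 => pe β h η (fun s : Fin n → Step 2 =>
      if K - lam < ‖emb (pos s t) - M‖ then (1 : ℝ) else 0)) (law 2 ρ) :=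
      integrable_pe_fun73 hd β h _
    rw [← integral_finsetSum _ fun u _ => int_pe2_71 (ρ := ρ) hd β h (hmF u) (hbF u)]
    unfold Tl
    rw [int_lin71 (lam - 1) hI1 hI2 hI3]
    refine integral_mono (((hI1.sub hI2).sub hI3).const_mul _)
      (integrable_finsetSum _ fun u _ => int_pe2_71 (ρ := ρ) hd β h (hmF u) (hbF u)) fun η => ?_
    show (lam - 1) * (pe2 β h η (fun s s' : Fin n → Step 2 =>
        if 2 * lam ≤ |(pos s τ j : ℝ) - (pos s' τ j : ℝ)| then G (pos s τ) η else 0) -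
        pe β h η (fun s : Fin n → Step 2 => if lam < inc τ t m s then (1 : ℝ) else 0) -
        pe β h η (fun s : Fin n → Step 2 =>
          if K - lam < ‖emb (pos s t) - M‖ then (1 : ℝ) else 0)) ≤
      ∑ u ∈ Finset.Icc ⌊M j - K⌋ ⌈M j + K⌉, pe2 β h η (fun s s' : Fin n → Step 2 =>
        if ¬ ((u : ℝ) ≤ (pos s τ j : ℝ) + m j ↔ u ≤ pos s' t j) then G (pos s τ) η else 0)
    rw [pe2_sum71, ← pe2_lin71 hd]
    refine pe2_mono73 hd β h η fun s s' => ?_
    have hg0 := (hG (pos s τ) η).1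
    have hg1 := (hG (pos s τ) η).2
    have hnn : 0 ≤ ∑ u ∈ Finset.Icc ⌊M j - K⌋ ⌈M j + K⌉,
        (if ¬ ((u : ℝ) ≤ (pos s τ j : ℝ) + m j ↔ u ≤ pos s' t j) then G (pos s τ) η else 0) :=
      Finset.sum_nonneg fun u _ => by split_ifs <;> simp [hg0]
    have hneg : ∀ x y z : ℝ, x ≤ 1 → 0 ≤ y → 0 ≤ z → 1 ≤ y + z → (lam - 1) * (x - y - z) ≤ 0 :=
      fun x y z hx hy hz hyz => mul_nonpos_of_nonneg_of_nonpos (by linarith) (by linarith)
    have hf1 : (if 2 * lam ≤ |(pos s τ j : ℝ) - (pos s' τ j : ℝ)| then G (pos s τ) η else 0) ≤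
        1 := (le_abs_self _).trans (hb1 η s s')
    by_cases c2 : lam < inc τ t m s'
    · refine le_trans (hneg _ _ _ hf1 ?_ ?_ ?_) hnn
      · rw [if_pos c2]; norm_num
      · split_ifs <;> norm_num
      · rw [if_pos c2]
        split_ifs <;> norm_num
    · by_cases c3 : K - lam < ‖emb (pos s' t) - M‖
      · refine le_trans (hneg _ _ _ hf1 ?_ ?_ ?_) hnn
        · split_ifs <;> norm_num
        · rw [if_pos c3]; norm_num
        · rw [if_pos c3, if_neg c2]
          norm_num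
      · rw [if_neg c2, if_neg c3, sub_zero, sub_zero]
        by_cases c1 : 2 * lam ≤ |(pos s τ j : ℝ) - (pos s' τ j : ℝ)|
        · rw [if_pos c1]
          rw [not_lt] at c2 c3
          have h1 := (hinc s').trans c2
          have h2 := (hcoord (emb (pos s' t) - M)).trans c3
          have h3 : (emb (pos s' t) - M) j = (pos s' t j : ℝ) - M j := rfl
          rw [h3] at h2
          have h4 := Int.floor_le (M j - K)
          have h5 := Int.le_ceil (M j + K)
          have h6 := abs_le.1 h1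
          have h7 := abs_le.1 h2
          refine cntlo71 (a := (pos s τ j : ℝ) + m j) (b := pos s' t j) (fun u => Iff.rfl)
            (by linarith) hg0 ?_ (by linarith) (by linarith)
          have h8 := abs_sub_abs_le_abs_sub ((pos s τ j : ℝ) - (pos s' τ j : ℝ))
            (-((pos s' τ j : ℝ) + m j - (pos s' t j : ℝ)))
          rw [abs_neg] at h8
          have h9 : (pos s τ j : ℝ) - (pos s' τ j : ℝ) -
              -((pos s' τ j : ℝ) + m j - (pos s' t j : ℝ)) =
              (pos s τ j : ℝ) + m j - (pos s' t j : ℝ) := by ring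
          rw [h9] at h8
          linarith
        · rw [if_neg c1, mul_zero]
          exact hnn
  · -- the two ends of one walk
    have hI1 : ∀ u : ℤ, Integrable (fun η : Env 2 => pe β h η (fun s : Fin n → Step 2 =>
      if ¬ ((u : ℝ) ≤ (pos s τ j : ℝ) + m j ↔ u ≤ pos s t j) then (1 : ℝ) else 0)) (law 2 ρ) :=
      fun u => integrable_pe_fun73 hd β h _
    have hI2 : Integrable (fun η : Env 2 => pe β h η (fun s : Fin n → Step 2 => inc τ t m s))
      (law 2 ρ) := integrable_pe_fun73 hd β h _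
    have h1 : (∫ η, pe β h η (fun s : Fin n → Step 2 => inc τ t m s) ∂(law 2 ρ)) + 1 =
        ∫ η, (pe β h η (fun s : Fin n → Step 2 => inc τ t m s) + 1) ∂(law 2 ρ) := by
      rw [integral_add hI2 (integrable_const 1)]
      simp
    rw [← integral_finsetSum _ fun u _ => hI1 u, h1]
    refine integral_mono (integrable_finsetSum _ fun u _ => hI1 u)
      (hI2.add (integrable_const 1)) fun η => ?_
    show ∑ u ∈ Finset.Icc ⌊M j - K⌋ ⌈M j + K⌉, pe β h η (fun s : Fin n → Step 2 =>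
        if ¬ ((u : ℝ) ≤ (pos s τ j : ℝ) + m j ↔ u ≤ pos s t j) then (1 : ℝ) else 0) ≤
      pe β h η (fun s : Fin n → Step 2 => inc τ t m s) + 1
    rw [← pe_sum73]
    have h2 : pe β h η (fun s : Fin n → Step 2 => inc τ t m s) + 1 =
        pe β h η (fun s : Fin n → Step 2 => inc τ t m s + 1) := by
      rw [pe_add73 β h η (fun s : Fin n → Step 2 => inc τ t m s) (fun _ => 1), pe_const73 hd]
    rw [h2]
    refine pe_mono73 hd β h η fun s => ?_
    refine (cnthi71 (a := (pos s τ j : ℝ) + m j) (b := pos s t j) (fun u => Iff.rfl)).trans ?_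
    have := hinc s
    linarith

end Pool.Agent.W_7d29a1_NS
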