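import Pool.Agent.W_7d29a1_NS.VarP63

/-!
Preparation for the end of Theorem NS.
-/

namespace Pool.Agent.W_7d29a1_NS

open MeasureTheory ProbabilityTheory Filter Topology Pool.Agent.W_MP_7d29a1_pr
  Pool.Agent.W_7d29a1_h46 Pool.Agent.W_7d29a1_h46u Pool.Agent.W_7d29a1_D2.B35
  Pool.Agent.W_7d29a1_Q29 Pool.Agent.W_7d29a1_Q29.D85 Pool.Agent.W_7d29a1_S90

variable {d : ℕ} {ρ : Measure ℝ} [IsProbabilityMeasure ρ]

open Classical in
/-- The distance of two replicas at the times `t` and `e`. -/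
lemma rpq63 (hd : 0 < d) (β : ℝ) (h : Vec d) (n t e : ℕ) (m : Vec d) (r s : ℝ) :
    Rp ρ β h n e r ≤ Rp ρ β h n t (r - 2 * s) + 2 * Tl ρ β h n t e m s := by
  set A : (Fin n → Step d) → (Fin n → Step d) → ℝ := fun w w' =>
    if r - 2 * s < ‖emb (pos w t) - emb (pos w' t)‖ then (1 : ℝ) else 0 with hA
  set B : (Fin n → Step d) → ℝ := fun w => if s < inc t e m w then (1 : ℝ) else 0 with hB
  have hpt : ∀ w w' : Fin n → Step d,
      (if r < ‖emb (pos w e) - emb (pos w' e)‖ then (1 : ℝ) else 0) ≤ A w w' + B w + B w' := by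
    intro w w'
    simp only [hA, hB]
    have htri : ‖emb (pos w e) - emb (pos w' e)‖ ≤
        ‖emb (pos w t) - emb (pos w' t)‖ + inc t e m w + inc t e m w' := by
      unfold inc
      have e1 : emb (pos w e) - emb (pos w' e) =
          (emb (pos w t) - emb (pos w' t)) + (emb (pos w e) - emb (pos w t) - m) -
            (emb (pos w' e) - emb (pos w' t) - m) := by abel
      rw [e1]
      exact (norm_sub_le _ _).trans (by gcongr; exact norm_add_le _ _)
    split_ifs <;> linarith
  have hpe : ∀ η : Env d, pe2 β h η (fun w w' : Fin n → Step d =>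
      if r < ‖emb (pos w e) - emb (pos w' e)‖ then (1 : ℝ) else 0) ≤
      pe2 β h η A + 2 * pe β h η B := by
    intro η
    refine (pe2_mono73 hd β h η hpt).trans (le_of_eq ?_)
    unfold pe2
    have h1 : ∀ w : Fin n → Step d, pe β h η (fun w' => A w w' + B w + B w') =
        pe β h η (fun w' => A w w') + B w + pe β h η B := by
      intro w
      rw [pe_add73 β h η (fun w' => A w w' + B w) B, pe_add73 β h η (fun w' => A w w')
        (fun _ => B w), pe_const73 hd]
    simp only [h1]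
    rw [pe_add73 β h η (fun w => pe β h η (fun w' => A w w') + B w) (fun _ => pe β h η B),
      pe_add73 β h η (fun w => pe β h η (fun w' => A w w')) B, pe_const73 hd]
    ring
  unfold Rp Tl
  rw [← integral_const_mul, ← integral_add (integrable_pe2_fun73 hd β h _)
    ((integrable_pe_fun73 hd β h _).const_mul 2)]
  exact integral_mono (integrable_pe2_fun73 hd β h _)
    ((integrable_pe2_fun73 hd β h _).add ((integrable_pe_fun73 hd β h _).const_mul 2)) hpe

open Classical in
/-- Chebyshev for a window. -/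
lemma tlq63 (hd : 0 < d) (β : ℝ) (h : Vec d) (n t e : ℕ) (m : Vec d) {s B : ℝ} (hs : 0 < s)
    (hB : ∫ η, pe β h η (fun w : Fin n → Step d => inc t e m w ^ 2) ∂(law d ρ) ≤ B) :
    Tl ρ β h n t e m s ≤ B / s ^ 2 := by
  rw [le_div_iff₀ (by positivity)]
  refine le_trans ?_ hB
  unfold Tl
  rw [← integral_mul_const]
  refine integral_mono ((integrable_pe_fun73 hd β h _).mul_const _)
    (integrable_pe_fun73 hd β h _) fun η => ?_
  show pe β h η (fun w : Fin n → Step d => if s < inc t e m w then (1 : ℝ) else 0) * s ^ 2 ≤ _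
  rw [mul_comm, ← pe_mul73]
  refine pe_mono73 hd β h η fun w => ?_
  show s ^ 2 * (if s < inc t e m w then (1 : ℝ) else 0) ≤ inc t e m w ^ 2
  split_ifs with h1
  · rw [mul_one]
    exact pow_le_pow_left₀ hs.le h1.le 2
  · rw [mul_zero]
    exact sq_nonneg _

/-- The mean of the increment. -/
lemma incq63 (hd : 0 < d) (β : ℝ) (h : Vec d) (n t e : ℕ) (m : Vec d) {s : ℝ} (hs : 0 < s)
    (hB : ∫ η, pe β h η (fun w : Fin n → Step d => inc t e m w ^ 2) ∂(law d ρ) ≤ s ^ 2) :
    ∫ η, pe β h η (fun w : Fin n → Step d => inc t e m w) ∂(law d ρ) ≤ s := by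
  have h1 : ∀ η : Env d, pe β h η (fun w : Fin n → Step d => inc t e m w) ≤
      (2 * s)⁻¹ * pe β h η (fun w : Fin n → Step d => inc t e m w ^ 2) + s / 2 := by
    intro η
    rw [← pe_mul73, ← pe_const73 (n := n) hd β h η (s / 2), ← pe_add73]
    refine pe_mono73 hd β h η fun w => ?_
    have h2 : 0 ≤ (inc t e m w - s) ^ 2 := sq_nonneg _
    rw [← sub_nonneg]
    have h3 : (2 * s)⁻¹ * inc t e m w ^ 2 + s / 2 - inc t e m w =
        (2 * s)⁻¹ * (inc t e m w - s) ^ 2 := by
      field_simp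
      ring
    rw [h3]
    positivity
  have h4 := integral_mono (μ := law d ρ) (integrable_pe_fun73 hd β h _)
    (((integrable_pe_fun73 hd β h (fun w : Fin n → Step d => inc t e m w ^ 2)).const_mul
      (2 * s)⁻¹).add (integrable_const (s / 2))) h1
  refine h4.trans ?_
  show ∫ η, ((2 * s)⁻¹ * pe β h η (fun w : Fin n → Step d => inc t e m w ^ 2) + s / 2)
    ∂(law d ρ) ≤ s
  rw [integral_add ((integrable_pe_fun73 hd β h _).const_mul _) (integrable_const _),
    integral_const_mul]
  have h7 : ∫ _η : Env d, (s / 2) ∂(law d ρ) = s / 2 := by simp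
  rw [h7]
  have h5 : (2 * s)⁻¹ * (∫ η, pe β h η (fun w : Fin n → Step d => inc t e m w ^ 2) ∂(law d ρ)) ≤
      (2 * s)⁻¹ * s ^ 2 := mul_le_mul_of_nonneg_left hB (by positivity)
  have h6 : (2 * s)⁻¹ * s ^ 2 = s / 2 := by
    field_simp
  linarith

open Classical in
/-- The predictable weight: the sites of conditional probability at least `ε`. -/
noncomputable def Gw (ρ : Measure ℝ) (β : ℝ) (h : Vec d) (n : ℕ) (ε : ℝ) (t : ℕ) (y : Site d)
    (η : Env d) : ℝ := if ε ≤ cE ρ (Pa d (t - 1)) (Qt β h n t y) η then (1 : ℝ) else 0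

lemma gw_meas63 (β : ℝ) (h : Vec d) (n : ℕ) (ε : ℝ) (t : ℕ) (y : Site d) :
    Measurable (Gw ρ β h n ε t y) := by
  unfold Gw
  refine Measurable.ite ?_ measurable_const measurable_const
  exact measurableSet_le measurable_const (measurable_cE (measurable_Qt39 β h n t y) _)

omit [IsProbabilityMeasure ρ] in
lemma gw_bd63 (β : ℝ) (h : Vec d) (n : ℕ) (ε : ℝ) (t : ℕ) (y : Site d) (η : Env d) :
    0 ≤ Gw ρ β h n ε t y η ∧ Gw ρ β h n ε t y η ≤ 1 := by
  unfold Gw
  split_ifs <;> norm_num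

omit [IsProbabilityMeasure ρ] in
lemma gw_dep63 (β : ℝ) (h : Vec d) (n : ℕ) (ε : ℝ) (t : ℕ) (y : Site d) :
    DependsOn (Gw ρ β h n ε t y) (Pa d (t - 1)) := by
  intro η η' hη
  unfold Gw
  rw [cE_dep (Pa d (t - 1)) (Qt β h n t y) hη]

/-- There are at most `1 / ε` such sites. -/
lemma gw_sum63 (hd : 0 < d) (β : ℝ) (h : Vec d) {n t : ℕ} (htn : t ≤ n) {ε : ℝ} (hε : 0 < ε) :
    ∫ η, ∑ y ∈ boxF d n, Gw ρ β h n ε t y η ∂(law d ρ) ≤ 1 / ε := by
  have hgi : ∀ y ∈ boxF d n, Integrable (Gw ρ β h n ε t y) (law d ρ) := fun y _ =>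
    int_bd39 (gw_meas63 β h n ε t y) (gw_bd63 β h n ε t y)
  have h2 : ∀ η : Env d, ∑ y ∈ boxF d n, Gw ρ β h n ε t y η ≤ 1 / ε := by
    intro η
    rw [le_div_iff₀ hε, Finset.sum_mul]
    have h3 : ∀ y ∈ boxF d n, Gw ρ β h n ε t y η * ε ≤
        cE ρ (Pa d (t - 1)) (Qt β h n t y) η := by
      intro y _
      have h4 : 0 ≤ cE ρ (Pa d (t - 1)) (Qt β h n t y) η :=
        cE_nonneg (fun _ => Qt_nonneg39 _ _ _ _ _ _) _ _
      unfold Gw
      split_ifs with h6
      · simpa using h6
      · simpa using h4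
    refine (Finset.sum_le_sum h3).trans (le_of_eq ?_)
    unfold cE
    have hi : ∀ y : Site d, Integrable
        (fun ξ : Env d => Qt β h n t y (spl (Pa d (t - 1)) η ξ)) (law d ρ) := fun y => by
      refine Integrable.mono' (integrable_const (1 : ℝ)) ?_
        (Eventually.of_forall fun ξ => by
          rw [Real.norm_eq_abs, abs_of_nonneg (Qt_nonneg39 β h n t y _)]
          exact Qt_le_one39 β h htn y _)
      exact ((measurable_Qt39 β h n t y).comp
        (measurable_spl_right (Pa d (t - 1)) η)).aestronglyMeasurable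
    rw [← integral_finsetSum _ fun y _ => hi y]
    have h7 : ∀ ξ : Env d, ∑ y ∈ boxF d n, Qt β h n t y (spl (Pa d (t - 1)) η ξ) = 1 :=
      fun ξ => Qt_sum_box39 hd β h htn htn _
    simp only [h7]
    simp
  have h8 := integral_mono (integrable_finsetSum _ hgi) (integrable_const (1 / ε)) h2
  simpa using h8

lemma int_pe2_63 (hd : 0 < d) (β : ℝ) (h : Vec d) {n : ℕ}
    {f : Env d → (Fin n → Step d) → (Fin n → Step d) → ℝ}
    (hf : ∀ s s', Measurable fun η => f η s s') (hb : ∀ η s s', 0 ≤ f η s s' ∧ f η s s' ≤ 1) :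
    Integrable (fun η : Env d => pe2 β h η (f η)) (law d ρ) := by
  refine int_bd39 ?_ fun η => pe2_bd39 hd β h η (hb η)
  unfold pe2
  exact measurable_pe73 β h fun s => measurable_pe73 β h fun s' => hf s s'

open Classical in
/-- Separated replicas with `S_t` at a heavy site, by coordinates. -/
lemma sep63 (β : ℝ) (h : Vec 2) (n t : ℕ) {l D ε : ℝ} (hD : 0 ≤ D)
    (hlD : 2 * l ^ 2 ≤ D ^ 2) :
    Rp ρ β h n t D - Ty ρ β h n t D ε ≤
      ∑ j : Fin 2, ∫ η, pe2 β h η (fun s s' : Fin n → Step 2 =>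
        if l ≤ |(pos s t j : ℝ) - (pos s' t j : ℝ)| then Gw ρ β h n ε t (pos s t) η else 0)
          ∂(law 2 ρ) := by
  have hmE : Measurable fun η : Env 2 => η := measurable_id
  have hcm : ∀ y : Site 2, Measurable fun η : Env 2 =>
      cE ρ (Pa 2 (t - 1)) (Qt β h n t y) η := fun y => measurable_cE (measurable_Qt39 β h n t y) _
  have i1 : Integrable (fun η : Env 2 => pe2 β h η (fun s s' : Fin n → Step 2 =>
      if D < ‖emb (pos s t) - emb (pos s' t)‖ then (1 : ℝ) else 0)) (law 2 ρ) :=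
    integrable_pe2_fun73 (by norm_num) β h _
  have i2 : Integrable (fun η : Env 2 => pe2 β h η (fun s s' : Fin n → Step 2 =>
      if D < ‖emb (pos s t) - emb (pos s' t)‖ ∧
        cE ρ (Pa 2 (t - 1)) (Qt β h n t (pos s t)) η < ε then (1 : ℝ) else 0)) (law 2 ρ) := by
    refine int_pe2_63 (by norm_num) β h (fun s s' => ?_) fun η s s' => by
      split_ifs <;> norm_num
    by_cases h1 : D < ‖emb (pos s t) - emb (pos s' t)‖
    · simp only [h1, true_and]
      exact Measurable.ite (measurableSet_lt (hcm _) measurable_const) measurable_const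
        measurable_const
    · simp only [h1, false_and, if_false]
      exact measurable_const
  have i3 : ∀ j : Fin 2, Integrable (fun η : Env 2 => pe2 β h η (fun s s' : Fin n → Step 2 =>
      if l ≤ |(pos s t j : ℝ) - (pos s' t j : ℝ)| then Gw ρ β h n ε t (pos s t) η else 0))
      (law 2 ρ) := by
    intro j
    refine int_pe2_63 (by norm_num) β h (fun s s' => ?_) fun η s s' => by
      split_ifs
      · exact gw_bd63 _ _ _ _ _ _ _
      · norm_num
    split_ifs
    · exact gw_meas63 _ _ _ _ _ _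
    · exact measurable_const
  unfold Rp Ty
  rw [← integral_finsetSum _ fun j _ => i3 j, ← integral_sub i1 i2]
  refine integral_mono (i1.sub i2) (integrable_finsetSum _ fun j _ => i3 j) fun η => ?_
  show pe2 β h η _ - pe2 β h η _ ≤ ∑ j : Fin 2, pe2 β h η _
  rw [sub_le_iff_le_add, Fin.sum_univ_two]
  have e1 : ∀ f g k : (Fin n → Step 2) → (Fin n → Step 2) → ℝ,
      pe2 β h η f + pe2 β h η g + pe2 β h η k = pe2 β h η fun s s' => f s s' + g s s' + k s s' := by
    intro f g k
    unfold pe2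
    rw [← pe_add73, ← pe_add73]
    congr 1
    funext s
    rw [← pe_add73, ← pe_add73]
  rw [e1]
  refine pe2_mono73 (by norm_num) β h η fun s s' => ?_
  by_cases h1 : D < ‖emb (pos s t) - emb (pos s' t)‖
  · by_cases h2 : cE ρ (Pa 2 (t - 1)) (Qt β h n t (pos s t)) η < ε
    · simp only [h1, h2, and_self, if_true]
      have b0 : ∀ j : Fin 2, 0 ≤ (if l ≤ |(pos s t j : ℝ) - (pos s' t j : ℝ)| then
          Gw ρ β h n ε t (pos s t) η else 0) := fun j => by
        split_ifs
        · exact (gw_bd63 _ _ _ _ _ _ _).1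
        · exact le_rfl
      linarith [b0 0, b0 1]
    · have hG : Gw ρ β h n ε t (pos s t) η = 1 := by
        unfold Gw
        rw [if_pos (not_lt.1 h2)]
      simp only [h1, h2, and_false, if_true, if_false, hG, add_zero]
      by_contra hcon
      push Not at hcon
      have h3 : ∀ j : Fin 2, |(pos s t j : ℝ) - (pos s' t j : ℝ)| < l := by
        intro j
        by_contra h4
        push Not at h4
        have b0 : ∀ j : Fin 2, (0 : ℝ) ≤ (if l ≤ |(pos s t j : ℝ) - (pos s' t j : ℝ)| then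
          (1 : ℝ) else 0) := fun j => by
          split_ifs <;> norm_num
        have b1 : (if l ≤ |(pos s t j : ℝ) - (pos s' t j : ℝ)| then (1 : ℝ) else 0) = 1 :=
          if_pos h4
        fin_cases j
        · simp only [Fin.zero_eta] at b1
          linarith [b0 1]
        · simp only [Fin.mk_one] at b1
          linarith [b0 0]
      have h5 : ‖emb (pos s t) - emb (pos s' t)‖ ^ 2 =
          ((pos s t 0 : ℝ) - (pos s' t 0 : ℝ)) ^ 2 + ((pos s t 1 : ℝ) - (pos s' t 1 : ℝ)) ^ 2 := by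
        rw [EuclideanSpace.norm_sq_eq, Fin.sum_univ_two]
        simp only [Real.norm_eq_abs, sq_abs]
        rfl
      have h6 : ∀ j : Fin 2, ((pos s t j : ℝ) - (pos s' t j : ℝ)) ^ 2 ≤ l ^ 2 := fun j =>
        sq_le_sq' (by linarith [(abs_lt.1 (h3 j)).1]) (by linarith [(abs_lt.1 (h3 j)).2])
      have h7 : D ^ 2 < ‖emb (pos s t) - emb (pos s' t)‖ ^ 2 := pow_lt_pow_left₀ h1 hD two_ne_zero
      linarith [h6 0, h6 1]
  · have b0 : ∀ j : Fin 2, 0 ≤ (if l ≤ |(pos s t j : ℝ) - (pos s' t j : ℝ)| then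
          Gw ρ β h n ε t (pos s t) η else 0) := fun j => by
      split_ifs
      · exact (gw_bd63 _ _ _ _ _ _ _).1
      · exact le_rfl
    simp only [h1, false_and, if_false]
    linarith [b0 0, b0 1]

end Pool.Agent.W_7d29a1_NS
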