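import Pool.Agent.W_7d29a1_NS.DefsN72
import Pool.Agent.W_7d29a1_S90.RpT73
import Pool.Agent.W_7d29a1_S90.SiI39
import Pool.Agent.W_7d29a1_S90.StM86

/-!
Theorem NS, leaf CHN: the chain of the blocks.
-/

namespace Pool.Agent.W_7d29a1_NS

open MeasureTheory ProbabilityTheory Filter Topology Pool.Agent.W_MP_7d29a1_pr
  Pool.Agent.W_7d29a1_h46 Pool.Agent.W_7d29a1_h46u Pool.Agent.W_7d29a1_D2.B35
  Pool.Agent.W_7d29a1_Q29 Pool.Agent.W_7d29a1_S90

variable {d : ℕ} {ρ : Measure ℝ}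

/-- The tower rule, pointwise. -/
lemma cE_cE24 [IsProbabilityMeasure ρ] {F : Env d → ℝ} (hm : Measurable F) {b : ℝ}
    (hb : ∀ η, |F η| ≤ b) {S T : Set (ℕ × Site d)} (hST : S ⊆ T) (η : Env d) :
    cE ρ S (cE ρ T F) η = cE ρ S F η := by
  have h1 : ∀ ξ ζ : Env d, spl T (spl S η ξ) ζ = spl S η (spl T ξ ζ) := by
    intro ξ ζ
    funext p
    by_cases hp : p ∈ S
    · rw [spl_mem _ _ (hST hp), spl_mem _ _ hp, spl_mem _ _ hp]
    · rw [spl_not_mem (S := S) _ (spl T ξ ζ) hp]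
      by_cases hq : p ∈ T
      · rw [spl_mem _ _ hq, spl_mem _ _ hq, spl_not_mem _ _ hp]
      · rw [spl_not_mem _ _ hq, spl_not_mem _ _ hq]
  have h2 := LawU_integral (F := fun g => F (spl S η g)) (mp_spl (ρ := ρ) T)
    (integrable_spl hm hb S η).aestronglyMeasurable
  have h3 : Integrable (fun w : Env d × Env d => F (spl S η (spl T w.1 w.2)))
      ((law d ρ).prod (law d ρ)) :=
    (mp_spl (ρ := ρ) T).integrable_comp_of_integrable (integrable_spl hm hb S η)
  show ∫ ξ, (∫ ζ, F (spl T (spl S η ξ) ζ) ∂(law d ρ)) ∂(law d ρ) =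
    ∫ ξ, F (spl S η ξ) ∂(law d ρ)
  rw [← h2, integral_prod _ h3]
  simp only [h1]

/-- Jensen for the square root. -/
lemma cE_sqrt24 [IsProbabilityMeasure ρ] {F : Env d → ℝ} (hm : Measurable F) {b : ℝ}
    (h0 : ∀ η, 0 ≤ F η) (hb : ∀ η, F η ≤ b) (S : Set (ℕ × Site d)) (η : Env d) :
    cE ρ S (fun ξ => Real.sqrt (F ξ)) η ≤ Real.sqrt (cE ρ S F η) := by
  have hb' : ∀ η, |F η| ≤ b := fun η => by rw [abs_of_nonneg (h0 η)]; exact hb η
  have i1 := integrable_spl (ρ := ρ) hm hb' S η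
  have i2 := integrable_spl (ρ := ρ) (F := fun ξ => Real.sqrt (F ξ)) hm.sqrt (b := Real.sqrt b)
    (fun ξ => by
      rw [abs_of_nonneg (Real.sqrt_nonneg _)]
      exact Real.sqrt_le_sqrt (hb ξ)) S η
  exact Real.strictConcaveOn_sqrt.concaveOn.le_map_integral Real.continuous_sqrt.continuousOn
    isClosed_Ici (Eventually.of_forall fun ξ => h0 _) i1 i2

/-- Cauchy-Schwarz from the fine labels `F` to the coarse labels `K`. -/
lemma coarse24 {X κ κ' : Type*} [DecidableEq X] [DecidableEq κ] [DecidableEq κ'] (U : Finset X)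
    (F : X → κ) (K : X → κ') (hFK : ∀ x z, F x = F z → K x = K z) (p : κ → ℝ)
    (hp : ∀ b, 0 ≤ p b) (P : κ' → ℝ)
    (hP : ∀ x ∈ U, ∑ b ∈ (U.filter (fun z => K z = K x)).image F, p b ≤ P (K x))
    (E : X → ℝ) (hE : ∀ x, 0 ≤ E x) (hEK : ∀ x z, K x = K z → E x = E z) :
    ∑ x ∈ U, Real.sqrt (p (F x) / ((U.filter (fun z => F z = F x)).card : ℝ)) * E x ≤
      ∑ x ∈ U, Real.sqrt (P (K x) / ((U.filter (fun z => K z = K x)).card : ℝ)) * E x := by
  rw [← Finset.sum_fiberwise_of_maps_to (s := U) (t := U.image K) (g := K)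
      (fun x hx => Finset.mem_image_of_mem K hx),
    ← Finset.sum_fiberwise_of_maps_to (s := U) (t := U.image K) (g := K)
      (fun x hx => Finset.mem_image_of_mem K hx)]
  refine Finset.sum_le_sum fun B hB => ?_
  obtain ⟨x₀, hx₀, rfl⟩ := Finset.mem_image.1 hB
  set V := U.filter (fun z => K z = K x₀) with hV
  have hVm : ∀ x ∈ V, x ∈ U ∧ K x = K x₀ := fun x hx => Finset.mem_filter.1 hx
  have hx₀V : x₀ ∈ V := Finset.mem_filter.2 ⟨hx₀, rfl⟩
  have hVc : (0 : ℝ) < V.card := by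
    have := Finset.card_pos.2 ⟨x₀, hx₀V⟩
    exact_mod_cast this
  have hPV := hP x₀ hx₀
  have hP0 : 0 ≤ P (K x₀) := (Finset.sum_nonneg fun b _ => hp b).trans hPV
  -- left
  have hcard : ∀ x ∈ V, (U.filter (fun z => F z = F x)) = V.filter (fun z => F z = F x) := by
    intro x hx
    ext z
    simp only [hV, Finset.mem_filter]
    constructor
    · rintro ⟨h1, h2⟩
      exact ⟨⟨h1, (hFK z x h2).trans (hVm x hx).2⟩, h2⟩
    · rintro ⟨⟨h1, _⟩, h2⟩
      exact ⟨h1, h2⟩
  have hL1 : ∑ x ∈ V, Real.sqrt (p (F x) / ((U.filter (fun z => F z = F x)).card : ℝ)) * E x =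
      E x₀ * ∑ x ∈ V, Real.sqrt (p (F x) / ((V.filter (fun z => F z = F x)).card : ℝ)) := by
    rw [Finset.mul_sum]
    refine Finset.sum_congr rfl fun x hx => ?_
    rw [hcard x hx, hEK x x₀ (hVm x hx).2, mul_comm]
  have hsum : ∑ x ∈ V, p (F x) / ((V.filter (fun z => F z = F x)).card : ℝ) =
      ∑ b ∈ V.image F, p b := by
    rw [← Finset.sum_fiberwise_of_maps_to (s := V) (t := V.image F) (g := F)
      (fun x hx => Finset.mem_image_of_mem F hx)]
    refine Finset.sum_congr rfl fun b hb => ?_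
    obtain ⟨x₁, hx₁, rfl⟩ := Finset.mem_image.1 hb
    have h1 : ∀ x ∈ V.filter (fun z => F z = F x₁),
        p (F x) / ((V.filter (fun z => F z = F x)).card : ℝ) =
          p (F x₁) / ((V.filter (fun z => F z = F x₁)).card : ℝ) := by
      intro x hx
      rw [(Finset.mem_filter.1 hx).2]
    rw [Finset.sum_congr rfl h1, Finset.sum_const, nsmul_eq_mul]
    have h2 : (0 : ℝ) < ((V.filter (fun z => F z = F x₁)).card : ℝ) := by
      have h3 : 0 < (V.filter (fun z => F z = F x₁)).card :=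
        Finset.card_pos.2 ⟨x₁, Finset.mem_filter.2 ⟨hx₁, rfl⟩⟩
      exact_mod_cast h3
    field_simp
  have hcs : ∑ x ∈ V, Real.sqrt (p (F x) / ((V.filter (fun z => F z = F x)).card : ℝ)) ≤
      Real.sqrt V.card * Real.sqrt (P (K x₀)) := by
    have h1 := Real.sum_sqrt_mul_sqrt_le V (f := fun _ => (1 : ℝ))
      (g := fun x => p (F x) / ((V.filter (fun z => F z = F x)).card : ℝ))
      (fun _ => zero_le_one) (fun x => div_nonneg (hp _) (Nat.cast_nonneg _))
    simp only [Real.sqrt_one, one_mul, Finset.sum_const, nsmul_eq_mul, mul_one] at h1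
    refine h1.trans ?_
    rw [hsum]
    exact mul_le_mul_of_nonneg_left (Real.sqrt_le_sqrt hPV) (Real.sqrt_nonneg _)
  -- right
  have hR1 : ∑ x ∈ V, Real.sqrt (P (K x) / ((U.filter (fun z => K z = K x)).card : ℝ)) * E x =
      E x₀ * (Real.sqrt V.card * Real.sqrt (P (K x₀))) := by
    have h1 : ∀ x ∈ V, Real.sqrt (P (K x) / ((U.filter (fun z => K z = K x)).card : ℝ)) * E x =
        Real.sqrt (P (K x₀) / (V.card : ℝ)) * E x₀ := by
      intro x hx
      rw [hEK x x₀ (hVm x hx).2, (hVm x hx).2]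
    rw [Finset.sum_congr rfl h1, Finset.sum_const, nsmul_eq_mul, Real.sqrt_div hP0]
    have h2 : Real.sqrt (V.card : ℝ) ^ 2 = V.card := Real.sq_sqrt (Nat.cast_nonneg _)
    have h3 : 0 < Real.sqrt (V.card : ℝ) := Real.sqrt_pos.2 hVc
    field_simp
    rw [h2]
    ring
  rw [hL1, hR1]
  exact mul_le_mul_of_nonneg_left hcs (hE x₀)

open Classical in
/-- The probability that the label of `S_t` is `b`. -/
noncomputable def ql (β : ℝ) (h : Vec d) (n t : ℕ) {κ : Type*} (F : Site d → κ) (b : κ)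
    (η : Env d) : ℝ :=
  pe β h η (fun s : Fin n → Step d => if F (pos s t) = b then (1 : ℝ) else 0)

lemma ql_meas24 (β : ℝ) (h : Vec d) (n t : ℕ) {κ : Type*} (F : Site d → κ) (b : κ) :
    Measurable (ql β h n t F b) := meas_pe39 β h _

lemma ql_bd24 (hd : 0 < d) (β : ℝ) (h : Vec d) (n t : ℕ) {κ : Type*} (F : Site d → κ) (b : κ)
    (η : Env d) : 0 ≤ ql β h n t F b η ∧ ql β h n t F b η ≤ 1 :=
  pe_bd39 hd β h η fun s => by split_ifs <;> norm_num

lemma ql_abs24 (hd : 0 < d) (β : ℝ) (h : Vec d) (n t : ℕ) {κ : Type*} (F : Site d → κ) (b : κ)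
    (η : Env d) : |ql β h n t F b η| ≤ 1 := by
  rw [abs_of_nonneg (ql_bd24 hd β h n t F b η).1]
  exact (ql_bd24 hd β h n t F b η).2

lemma qb_eq24 (β : ℝ) (h : Vec d) (n t i : ℕ) (o b : Site d) :
    qb β h n t i o b = ql β h n t (blk i o) b := by
  funext η
  unfold qb ql
  congr 1
  funext s
  split_ifs <;> rfl

lemma ql_site24 (β : ℝ) (h : Vec d) {n t : ℕ} (ht : t ≤ n) (x : Site d) :
    Qt β h n t x = ql β h n t id x := by
  classical
  funext η
  unfold ql pe
  rw [Qt_eq39 β h ht]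
  congr 1
  refine Finset.sum_congr rfl fun s _ => ?_
  simp only [id]
  split_ifs <;> simp

/-- The labels: the fine ones are contained in the coarse one. -/
lemma sumq24 [IsProbabilityMeasure ρ] (hd : 0 < d) (β : ℝ) (h : Vec d) (n t : ℕ)
    {κ κ' : Type*} [DecidableEq κ] (S : Set (ℕ × Site d)) (F : Site d → κ) (K : Site d → κ')
    (hFK : ∀ x z, F x = F z → K x = K z) (V : Finset (Site d)) (B : κ') (hV : ∀ z ∈ V, K z = B)
    (η : Env d) :
    ∑ b ∈ V.image F, cE ρ S (ql β h n t F b) η ≤ cE ρ S (ql β h n t K B) η := by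
  classical
  have hi : ∀ b ∈ V.image F, Integrable (fun ξ => ql β h n t F b (spl S η ξ)) (law d ρ) :=
    fun b _ => integrable_spl (ql_meas24 β h n t F b) (ql_abs24 hd β h n t F b) S η
  rw [← cE_sum _ η hi]
  refine cE_mono S (fun ξ => ?_) η (integrable_finsetSum _ hi)
    (integrable_spl (ql_meas24 β h n t K B) (ql_abs24 hd β h n t K B) S η)
  unfold ql
  rw [← pe_sum73]
  refine pe_mono73 hd β h ξ fun s => ?_
  by_cases hs : F (pos s t) ∈ V.image F
  · obtain ⟨z, hz, hzF⟩ := Finset.mem_image.1 hs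
    have h1 : K (pos s t) = B := (hFK _ _ hzF.symm).trans (hV z hz)
    refine (Finset.sum_eq_single_of_mem (F (pos s t)) hs ?_).le.trans ?_
    · intro b _ hb
      exact if_neg fun h2 => hb h2.symm
    · rw [if_pos h1, if_pos rfl]
  · refine (Finset.sum_eq_zero ?_).le.trans ?_
    · intro b hb
      exact if_neg fun h2 => hs (by rw [h2]; exact hb)
    · split_ifs <;> norm_num

lemma blk_blk24 {i j : ℕ} (hij : i ≤ j) (o : Site d) {x z : Site d}
    (h : blk i o x = blk i o z) : blk j o x = blk j o z := by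
  have h1 : ∀ y : Site d, ∀ k, blk j o y k = blk i o y k / 2 ^ (j - i) := by
    intro y k
    unfold blk
    rw [Int.ediv_ediv_of_nonneg (by positivity), ← pow_add, Nat.add_sub_cancel' hij]
  funext k
  rw [h1, h1, h]

section Chain

variable (ρ) (β : ℝ) (h : Vec d) (n t : ℕ) (a : ℕ → ℝ) (lev : ℕ → ℕ) (o : Site d)

lemma nb_eq24 (τ i : ℕ) (b : Site d) :
    nb ρ β h n t τ i o b = cE ρ (Pa d τ) (ql β h n t (blk i o) b) := by
  funext η
  unfold nb
  rw [qb_eq24]

lemma Pa_mono24 {u v : ℕ} (huv : u ≤ v) : Pa d u ⊆ Pa d v := fun _ hp => le_trans hp huv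

lemma nb_dep24 (τ i : ℕ) (b : Site d) : DependsOn (nb ρ β h n t τ i o b) (Pa d τ) := by
  rw [nb_eq24]
  exact cE_dep _ _

variable [IsProbabilityMeasure ρ]

lemma nb_meas24 (τ i : ℕ) (b : Site d) : Measurable (nb ρ β h n t τ i o b) := by
  rw [nb_eq24]
  exact measurable_cE (ql_meas24 _ _ _ _ _ _) _

omit [IsProbabilityMeasure ρ] in
lemma nb_nonneg24 (hd : 0 < d) (τ i : ℕ) (b : Site d) (η : Env d) :
    0 ≤ nb ρ β h n t τ i o b η := by
  rw [nb_eq24]
  exact cE_nonneg (fun ξ => (ql_bd24 hd β h n t _ _ ξ).1) _ _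

lemma nb_le24 (hd : 0 < d) (τ i : ℕ) (b : Site d) (η : Env d) :
    nb ρ β h n t τ i o b η ≤ 1 := by
  rw [nb_eq24]
  exact cE_le (ql_meas24 _ _ _ _ _ _) (fun ξ => (ql_bd24 hd β h n t _ _ ξ).1)
    (fun ξ => (ql_bd24 hd β h n t _ _ ξ).2) _ _

lemma Hi_meas24 (a : ℝ) (τ i : ℕ) (b : Site d) :
    MeasurableSet {η | Hi ρ β h n t a τ i o b η} := by
  unfold Hi
  exact measurableSet_le (measurable_cE (nb_meas24 ρ β h n t o τ i b).sqrt _)
    (measurable_const.mul (nb_meas24 ρ β h n t o (τ - 1) i b).sqrt)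

omit [IsProbabilityMeasure ρ] in
lemma Hi_dep24 (a : ℝ) (τ i : ℕ) (b : Site d) {η η' : Env d}
    (hη : ∀ p ∈ Pa d (τ - 1), η p = η' p) :
    Hi ρ β h n t a τ i o b η ↔ Hi ρ β h n t a τ i o b η' := by
  unfold Hi
  rw [cE_dep (Pa d (τ - 1)) (fun ξ => Real.sqrt (nb ρ β h n t τ i o b ξ)) hη,
    nb_dep24 ρ β h n t o (τ - 1) i b hη]

omit [IsProbabilityMeasure ρ] in
lemma Nh_succ24 {τ₀ k : ℕ} (hk : τ₀ ≤ k) (x : Site d) (η : Env d) :
    Nh ρ β h n t a lev o τ₀ (k + 1) x η = Nh ρ β h n t a lev o τ₀ k x η +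
      (open Classical in
        if Hi ρ β h n t (a (k + 1)) (k + 1) (lev (k + 1)) o (blk (lev (k + 1)) o x) η
          then a (k + 1) else 0) := by
  unfold Nh
  rw [Finset.sum_Ioc_succ_top hk]

lemma Nh_meas24 (τ₀ τ : ℕ) (x : Site d) : Measurable (Nh ρ β h n t a lev o τ₀ τ x) := by
  unfold Nh
  refine Finset.measurable_fun_sum _ fun σ _ => ?_
  exact Measurable.ite (Hi_meas24 ρ β h n t o (a σ) σ _ _) measurable_const measurable_const

omit [IsProbabilityMeasure ρ] in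
lemma Nh_dep24 {τ₀ τ k : ℕ} (hk : τ ≤ k + 1) (x : Site d) :
    DependsOn (Nh ρ β h n t a lev o τ₀ τ x) (Pa d k) := by
  intro η η' hη
  unfold Nh
  refine Finset.sum_congr rfl fun σ hσ => ?_
  have h1 : σ ≤ τ := (Finset.mem_Ioc.1 hσ).2
  have h2 := Hi_dep24 ρ β h n t o (a σ) σ (lev σ) (blk (lev σ) o x) (η := η) (η' := η')
    fun p hp => hη p (Pa_mono24 (by omega) hp)
  by_cases h3 : Hi ρ β h n t (a σ) σ (lev σ) o (blk (lev σ) o x) η
  · rw [if_pos h3, if_pos (h2.1 h3)]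
  · rw [if_neg h3, if_neg fun h4 => h3 (h2.2 h4)]

omit [IsProbabilityMeasure ρ] in
lemma Nh_abs24 (ha : ∀ σ, 0 ≤ a σ) (τ₀ τ : ℕ) (x : Site d) (η : Env d) :
    Nh ρ β h n t a lev o τ₀ τ x η ≤ ∑ σ ∈ Finset.Ioc τ₀ τ, a σ := by
  unfold Nh
  refine Finset.sum_le_sum fun σ _ => ?_
  split_ifs
  · exact le_rfl
  · exact ha σ

omit [IsProbabilityMeasure ρ] in
/-- `Nh` is constant on the blocks. -/
lemma Nh_blk24 (hlev : Antitone lev) {τ₀ τ i : ℕ} (hi : i ≤ lev τ) {x z : Site d}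
    (hxz : blk i o x = blk i o z) (η : Env d) :
    Nh ρ β h n t a lev o τ₀ τ x η = Nh ρ β h n t a lev o τ₀ τ z η := by
  unfold Nh
  refine Finset.sum_congr rfl fun σ hσ => ?_
  have h1 : i ≤ lev σ := hi.trans (hlev (Finset.mem_Ioc.1 hσ).2)
  rw [blk_blk24 h1 o hxz]

lemma int24 (hd : 0 < d) (ha : ∀ σ, 0 ≤ a σ) (τ₀ u v i : ℕ) (b x : Site d) :
    Integrable (fun η => Real.sqrt (nb ρ β h n t u i o b η) *
      Real.exp (Nh ρ β h n t a lev o τ₀ v x η)) (law d ρ) := by
  refine Integrable.mono' (integrable_const (Real.exp (∑ σ ∈ Finset.Ioc τ₀ v, a σ)))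
    (((nb_meas24 ρ β h n t o u i b).sqrt).mul
      (Nh_meas24 ρ β h n t a lev o τ₀ v x).exp).aestronglyMeasurable
    (Eventually.of_forall fun η => ?_)
  rw [Real.norm_eq_abs, abs_of_nonneg (mul_nonneg (Real.sqrt_nonneg _) (Real.exp_nonneg _))]
  calc _ ≤ 1 * Real.exp (∑ σ ∈ Finset.Ioc τ₀ v, a σ) := by
          refine mul_le_mul ?_ (Real.exp_le_exp.2 (Nh_abs24 ρ β h n t a lev o ha τ₀ v x η))
            (Real.exp_nonneg _) zero_le_one
          rw [← Real.sqrt_one]
          exact Real.sqrt_le_sqrt (nb_le24 ρ β h n t o hd u i b η)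
    _ = _ := one_mul _

/-- One row. -/
lemma row24 (hd : 0 < d) (ha : ∀ σ, 0 ≤ a σ) {τ₀ k : ℕ} (hk : τ₀ ≤ k) (x : Site d) :
    ∫ η, Real.sqrt (nb ρ β h n t (k + 1) (lev (k + 1)) o (blk (lev (k + 1)) o x) η) *
        Real.exp (Nh ρ β h n t a lev o τ₀ (k + 1) x η) ∂(law d ρ) ≤
      ∫ η, Real.sqrt (nb ρ β h n t k (lev (k + 1)) o (blk (lev (k + 1)) o x) η) *
        Real.exp (Nh ρ β h n t a lev o τ₀ k x η) ∂(law d ρ) := by
  classical
  set i := lev (k + 1) with hi
  set b := blk i o x with hb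
  have hint : ∀ (u v : ℕ), Integrable (fun η => Real.sqrt (nb ρ β h n t u i o b η) *
      Real.exp (Nh ρ β h n t a lev o τ₀ v x η)) (law d ρ) := fun u v =>
    int24 ρ β h n t a lev o hd ha τ₀ u v i b x
  have hdep : DependsOn (fun η => Real.exp (Nh ρ β h n t a lev o τ₀ (k + 1) x η)) (Pa d k) := by
    intro η η' hη
    show Real.exp _ = Real.exp _
    rw [Nh_dep24 ρ β h n t a lev o (le_refl (k + 1)) x hη]
  rw [int_mul_cE (Pa d k) (hint (k + 1) (k + 1)) hdep]
  have hs1 : ∀ η, cE ρ (Pa d k) (fun η => Real.sqrt (nb ρ β h n t (k + 1) i o b η)) η ≤ 1 :=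
    fun η => cE_le (nb_meas24 ρ β h n t o (k + 1) i b).sqrt (fun _ => Real.sqrt_nonneg _)
      (fun ξ => by
        rw [← Real.sqrt_one]
        exact Real.sqrt_le_sqrt (nb_le24 ρ β h n t o hd (k + 1) i b ξ)) _ η
  have hs0 : ∀ η, 0 ≤ cE ρ (Pa d k) (fun η => Real.sqrt (nb ρ β h n t (k + 1) i o b η)) η :=
    fun η => cE_nonneg (fun _ => Real.sqrt_nonneg _) _ η
  refine integral_mono ?_ (hint k k) fun η => ?_
  · refine Integrable.mono' (integrable_const (Real.exp (∑ σ ∈ Finset.Ioc τ₀ (k + 1), a σ)))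
      ((measurable_cE (nb_meas24 ρ β h n t o (k + 1) i b).sqrt _).mul
        (Nh_meas24 ρ β h n t a lev o τ₀ (k + 1) x).exp).aestronglyMeasurable
      (Eventually.of_forall fun η => ?_)
    rw [Real.norm_eq_abs, abs_of_nonneg (mul_nonneg (hs0 η) (Real.exp_nonneg _))]
    calc _ ≤ 1 * Real.exp (∑ σ ∈ Finset.Ioc τ₀ (k + 1), a σ) :=
            mul_le_mul (hs1 η) (Real.exp_le_exp.2 (Nh_abs24 ρ β h n t a lev o ha τ₀ (k + 1) x η))
              (Real.exp_nonneg _) zero_le_one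
      _ = _ := one_mul _
  · show cE ρ (Pa d k) (fun η => Real.sqrt (nb ρ β h n t (k + 1) i o b η)) η *
      Real.exp (Nh ρ β h n t a lev o τ₀ (k + 1) x η) ≤ _
    rw [Nh_succ24 ρ β h n t a lev o hk x η]
    by_cases hH : Hi ρ β h n t (a (k + 1)) (k + 1) i o b η
    · rw [if_pos hH, Real.exp_add]
      unfold Hi at hH
      rw [Nat.add_sub_cancel] at hH
      calc _ ≤ (Real.exp (-a (k + 1)) * Real.sqrt (nb ρ β h n t k i o b η)) *
            (Real.exp (Nh ρ β h n t a lev o τ₀ k x η) * Real.exp (a (k + 1))) :=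
            mul_le_mul_of_nonneg_right hH (by positivity)
        _ = (Real.exp (-a (k + 1)) * Real.exp (a (k + 1))) *
            (Real.sqrt (nb ρ β h n t k i o b η) *
              Real.exp (Nh ρ β h n t a lev o τ₀ k x η)) := by ring
        _ = _ := by rw [← Real.exp_add, neg_add_cancel, Real.exp_zero, one_mul]
    · rw [if_neg hH, add_zero]
      refine mul_le_mul_of_nonneg_right ?_ (Real.exp_nonneg _)
      refine (cE_sqrt24 (nb_meas24 ρ β h n t o (k + 1) i b)
        (nb_nonneg24 ρ β h n t o hd (k + 1) i b) (nb_le24 ρ β h n t o hd (k + 1) i b) _ η).trans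
        (le_of_eq ?_)
      congr 1
      rw [nb_eq24, nb_eq24]
      exact cE_cE24 (ql_meas24 _ _ _ _ _ _) (ql_abs24 hd β h n t _ _)
        (Pa_mono24 (Nat.le_succ k)) η

end Chain

/-- **Leaf CHN.** -/
theorem chn24 [IsProbabilityMeasure ρ] (hd : 0 < d) (β : ℝ) : ChnP d ρ β := by
  intro h n t τ₀ hτ htn a lev o U ha hlev _
  classical
  set c : ℕ → Site d → ℝ := fun i x =>
    ((U.filter (fun z => blk i o z = blk i o x)).card : ℝ) with hc
  set g : ℕ → ℕ → Site d → Env d → ℝ := fun k i x η =>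
    (Real.sqrt (c i x))⁻¹ * (Real.sqrt (nb ρ β h n t k i o (blk i o x) η) *
      Real.exp (Nh ρ β h n t a lev o τ₀ k x η)) with hg
  have hgi : ∀ k i x, Integrable (g k i x) (law d ρ) := fun k i x =>
    (int24 ρ β h n t a lev o hd ha τ₀ k k i (blk i o x) x).const_mul _
  have hge : ∀ k i x η, g k i x η =
      Real.sqrt (nb ρ β h n t k i o (blk i o x) η / c i x) *
        Real.exp (Nh ρ β h n t a lev o τ₀ k x η) := by
    intro k i x η
    rw [Real.sqrt_div (nb_nonneg24 ρ β h n t o hd k i _ η)]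
    simp only [hg]
    ring
  set Ψ : ℕ → ℕ → ℝ := fun k i => ∫ η, ∑ x ∈ U, g k i x η ∂(law d ρ) with hΨ
  -- one row
  have hrow : ∀ k, τ₀ ≤ k → Ψ (k + 1) (lev (k + 1)) ≤ Ψ k (lev (k + 1)) := by
    intro k hk
    simp only [hΨ]
    rw [integral_finsetSum _ fun x _ => hgi _ _ x, integral_finsetSum _ fun x _ => hgi _ _ x]
    refine Finset.sum_le_sum fun x _ => ?_
    simp only [hg]
    rw [integral_const_mul, integral_const_mul]
    exact mul_le_mul_of_nonneg_left (row24 ρ β h n t a lev o hd ha hk x)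
      (inv_nonneg.2 (Real.sqrt_nonneg _))
  -- from the level `i` to the level `j`
  have hco : ∀ k i j, i ≤ j → j ≤ lev k → Ψ k i ≤ Ψ k j := by
    intro k i j hij hj
    refine integral_mono (integrable_finsetSum _ fun x _ => hgi _ _ x)
      (integrable_finsetSum _ fun x _ => hgi _ _ x) fun η => ?_
    simp only [hge]
    refine coarse24 U (blk i o) (blk j o) (fun x z hxz => blk_blk24 hij o hxz)
      (fun b => nb ρ β h n t k i o b η) (fun b => nb_nonneg24 ρ β h n t o hd k i b η)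
      (fun b => nb ρ β h n t k j o b η) ?_
      (fun x => Real.exp (Nh ρ β h n t a lev o τ₀ k x η)) (fun x => Real.exp_nonneg _)
      (fun x z hxz => by
        show Real.exp _ = Real.exp _
        rw [Nh_blk24 ρ β h n t a lev o hlev hj hxz η])
    intro x _
    have h1 := sumq24 (ρ := ρ) hd β h n t (Pa d k) (blk i o) (blk j o)
      (fun x z hxz => blk_blk24 hij o hxz) (U.filter (fun z => blk j o z = blk j o x))
      (blk j o x) (fun z hz => (Finset.mem_filter.1 hz).2) η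
    simp only [nb_eq24]
    exact h1
  -- the start
  have hst : ∀ (κ : Type) (_ : DecidableEq κ) (F : Site d → κ) (S : Set (ℕ × Site d))
      (η : Env d),
      ∑ x ∈ U, Real.sqrt (cE ρ S (ql β h n t F (F x)) η /
        ((U.filter (fun z => F z = F x)).card : ℝ)) ≤ Real.sqrt U.card := by
    intro κ _ F S η
    have h1 := coarse24 U F (fun _ => ()) (fun _ _ _ => rfl)
      (fun b => cE ρ S (ql β h n t F b) η)
      (fun b => cE_nonneg (fun ξ => (ql_bd24 hd β h n t F b ξ).1) _ _)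
      (fun _ => (1 : ℝ)) ?_ (fun _ => 1) (fun _ => zero_le_one) (fun _ _ _ => rfl)
    · simp only [mul_one, Finset.filter_true_of_mem, implies_true, Finset.sum_const,
        nsmul_eq_mul] at h1
      refine h1.trans (le_of_eq ?_)
      rw [one_div, Real.sqrt_inv]
      rcases (Nat.cast_nonneg (α := ℝ) U.card).eq_or_lt with h2 | h2
      · rw [← h2]; simp
      · have h3 : 0 < Real.sqrt (U.card : ℝ) := Real.sqrt_pos.2 h2
        rw [← div_eq_mul_inv, div_eq_iff h3.ne', Real.mul_self_sqrt h2.le]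
    · intro x _
      refine (sumq24 (ρ := ρ) hd β h n t S F (fun _ => ()) (fun _ _ _ => rfl) _ ()
        (fun _ _ => rfl) η).trans ?_
      exact cE_le (ql_meas24 _ _ _ _ _ _) (fun ξ => (ql_bd24 hd β h n t _ _ ξ).1)
        (fun ξ => (ql_bd24 hd β h n t _ _ ξ).2) _ _
  have hN0 : ∀ x η, Nh ρ β h n t a lev o τ₀ τ₀ x η = 0 := by
    intro x η
    unfold Nh
    simp
  have h0 : Ψ τ₀ (lev (τ₀ + 1)) ≤ Real.sqrt U.card := by
    have h1 : ∀ η, ∑ x ∈ U, g τ₀ (lev (τ₀ + 1)) x η ≤ Real.sqrt U.card := by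
      intro η
      refine (le_of_eq ?_).trans (hst (Site d) inferInstance (blk (lev (τ₀ + 1)) o) (Pa d τ₀) η)
      refine Finset.sum_congr rfl fun x _ => ?_
      rw [hge, hN0, Real.exp_zero, mul_one, nb_eq24]
    have h2 := integral_mono (integrable_finsetSum U fun x _ => hgi τ₀ (lev (τ₀ + 1)) x)
      (integrable_const (Real.sqrt U.card)) h1
    simpa using h2
  have hind : ∀ m, Ψ (τ₀ + m) (lev (τ₀ + m + 1)) ≤ Real.sqrt U.card := by
    intro m
    induction m with
    | zero => exact h0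
    | succ m ih =>
      refine (hco _ _ _ (hlev (Nat.le_succ _)) le_rfl).trans ((hrow (τ₀ + m) (by omega)).trans ih)
  -- the end
  have hfin : ∀ x, Integrable (fun η => Real.sqrt (cE ρ (Pa d (t - 1)) (Qt β h n t x) η) *
      Real.exp (Nh ρ β h n t a lev o τ₀ (t - 1) x η)) (law d ρ) := by
    intro x
    have hm : Measurable (cE ρ (Pa d (t - 1)) (Qt β h n t x)) :=
      measurable_cE (measurable_Qt39 β h n t x) _
    refine Integrable.mono' (integrable_const (Real.exp (∑ σ ∈ Finset.Ioc τ₀ (t - 1), a σ)))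
      (hm.sqrt.mul (Nh_meas24 ρ β h n t a lev o τ₀ (t - 1) x).exp).aestronglyMeasurable
      (Eventually.of_forall fun η => ?_)
    rw [Real.norm_eq_abs, abs_of_nonneg (mul_nonneg (Real.sqrt_nonneg _) (Real.exp_nonneg _))]
    calc _ ≤ 1 * Real.exp (∑ σ ∈ Finset.Ioc τ₀ (t - 1), a σ) := by
            refine mul_le_mul ?_ (Real.exp_le_exp.2
              (Nh_abs24 ρ β h n t a lev o ha τ₀ (t - 1) x η)) (Real.exp_nonneg _) zero_le_one
            rw [← Real.sqrt_one]
            exact Real.sqrt_le_sqrt (cE_le (measurable_Qt39 β h n t x)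
              (Qt_nonneg39 β h n t x) (Qt_le_one39 β h htn x) _ η)
      _ = _ := one_mul _
  have hone : ∀ x ∈ U, ((U.filter (fun z => id z = id x)).card : ℝ) = 1 := by
    intro x hx
    simp only [id]
    rw [Finset.filter_eq' U x, if_pos hx, Finset.card_singleton, Nat.cast_one]
  rcases Nat.lt_or_ge τ₀ (t - 1) with h1 | h1
  · obtain ⟨m, hm⟩ : ∃ m, t - 1 = τ₀ + m + 1 := ⟨t - 1 - τ₀ - 1, by omega⟩
    have h2 : ∫ η, ∑ x ∈ U, Real.sqrt (cE ρ (Pa d (t - 1)) (Qt β h n t x) η) *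
        Real.exp (Nh ρ β h n t a lev o τ₀ (t - 1) x η) ∂(law d ρ) ≤ Ψ (t - 1) (lev (t - 1)) := by
      refine integral_mono (integrable_finsetSum _ fun x _ => hfin x)
        (integrable_finsetSum _ fun x _ => hgi _ _ x) fun η => ?_
      simp only [hge]
      have h3 := coarse24 U (id : Site d → Site d) (blk (lev (t - 1)) o)
        (fun x z hxz => by rw [show x = z from hxz])
        (fun b => cE ρ (Pa d (t - 1)) (ql β h n t id b) η)
        (fun b => cE_nonneg (fun ξ => (ql_bd24 hd β h n t _ b ξ).1) _ _)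
        (fun b => nb ρ β h n t (t - 1) (lev (t - 1)) o b η)
        (fun x _ => by
          simp only [nb_eq24]
          exact sumq24 (ρ := ρ) hd β h n t (Pa d (t - 1)) id (blk (lev (t - 1)) o)
            (fun x z hxz => by rw [show x = z from hxz]) _ _
            (fun z hz => (Finset.mem_filter.1 hz).2) η)
        (fun x => Real.exp (Nh ρ β h n t a lev o τ₀ (t - 1) x η)) (fun x => Real.exp_nonneg _)
        (fun x z hxz => by
          show Real.exp _ = Real.exp _
          rw [Nh_blk24 ρ β h n t a lev o hlev le_rfl hxz η])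
      refine (le_of_eq ?_).trans h3
      refine Finset.sum_congr rfl fun x hx => ?_
      rw [hone x hx, div_one, ql_site24 β h htn x]
      rfl
    refine h2.trans ?_
    rw [hm]
    exact (hrow (τ₀ + m) (by omega)).trans (hind m)
  · have h2 : t - 1 = τ₀ := by omega
    have h3 : ∀ η, ∑ x ∈ U, Real.sqrt (cE ρ (Pa d (t - 1)) (Qt β h n t x) η) *
        Real.exp (Nh ρ β h n t a lev o τ₀ (t - 1) x η) ≤ Real.sqrt U.card := by
      intro η
      refine (le_of_eq ?_).trans (hst (Site d) inferInstance id (Pa d (t - 1)) η)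
      refine Finset.sum_congr rfl fun x hx => ?_
      rw [hone x hx, div_one, ql_site24 β h htn x, h2, hN0, Real.exp_zero, mul_one]
      rfl
    have h4 := integral_mono (integrable_finsetSum U fun x _ => hfin x)
      (integrable_const (Real.sqrt U.card)) h3
    simpa using h4

end Pool.Agent.W_7d29a1_NS
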