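import Pool.Agent.W_7d29a1_NS.DefsN72
import Pool.Agent.W_7d29a1_S90.DuI99
import Pool.Agent.W_7d29a1_S90.RpT73
import Pool.Agent.W_7d29a1_S90.HelN99

/-!
Leaf LOA: a low row is not seen by a test function.
-/

namespace Pool.Agent.W_7d29a1_NS

open MeasureTheory ProbabilityTheory Filter Topology Pool.Agent.W_MP_7d29a1_pr
  Pool.Agent.W_7d29a1_h46 Pool.Agent.W_7d29a1_h46u Pool.Agent.W_7d29a1_D2.B35
  Pool.Agent.W_7d29a1_Q29 Pool.Agent.W_7d29a1_S90

variable {d : ℕ} {ρ : Measure ℝ}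

/-- Scalar: the square root against a centred density. -/
lemma sqrtL99 {N f l : ℝ} (hN : 0 ≤ N) (hf : |f| ≤ 1 / 2) (hl : 0 < l) :
    2 * Real.sqrt N ≤ l * (N - N * f) + (1 + f + 2 * f ^ 2) / l := by
  have h1 := abs_le.1 hf
  have h2 : 0 < 1 - f := by linarith
  have h3 : 1 / (1 - f) ≤ 1 + f + 2 * f ^ 2 := by
    rw [div_le_iff₀ h2]
    have h4 : (1 + f + 2 * f ^ 2) * (1 - f) = 1 + f ^ 2 * (1 - 2 * f) := by ring
    rw [h4]
    have h5 : 0 ≤ f ^ 2 * (1 - 2 * f) := mul_nonneg (sq_nonneg f) (by linarith)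
    linarith
  have h4 : 2 * Real.sqrt N ≤ l * (N * (1 - f)) + 1 / (1 - f) / l := by
    set x := Real.sqrt N with hx
    have hx2 : N = x ^ 2 := (Real.sq_sqrt hN).symm
    rw [hx2]
    have h5 : l * (x ^ 2 * (1 - f)) + 1 / (1 - f) / l - 2 * x =
        (l * x * (1 - f) - 1) ^ 2 / (l * (1 - f)) := by
      field_simp
      ring
    have h6 : 0 ≤ (l * x * (1 - f) - 1) ^ 2 / (l * (1 - f)) := by positivity
    linarith
  have h5 : 1 / (1 - f) / l ≤ (1 + f + 2 * f ^ 2) / l := div_le_div_of_nonneg_right h3 hl.le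
  have h6 : l * (N * (1 - f)) = l * (N - N * f) := by ring
  linarith

/-- **One row, pointwise in the past.** -/
theorem loaP99 [IsProbabilityMeasure ρ] {G f : Env d → ℝ} (hGm : Measurable G)
    (hG0 : ∀ η, 0 ≤ G η) (hG1 : ∀ η, G η ≤ 1) {S S' : Set (ℕ × Site d)} (hS : S ⊆ S')
    (hfm : Measurable f) (hf : ∀ η, |f η| ≤ 1 / 2) (hfd : DependsOn f S')
    {a e : ℝ} (_ha : 0 ≤ a) (_he0 : 0 ≤ e) (η : Env d) (hf0 : cE ρ S f η = 0)
    (hf2 : cE ρ S (fun ξ => f ξ ^ 2) η ≤ e)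
    (hL : Real.exp (-a) * Real.sqrt (cE ρ S G η) <
      cE ρ S (fun ξ => Real.sqrt (cE ρ S' G ξ)) η) :
    cE ρ S (fun ξ => G ξ * f ξ) η ≤ 2 * (a + e) * cE ρ S G η := by
  have hff : ∀ η, f η ^ 2 ≤ 1 := fun η => by
    have := abs_le.1 (hf η)
    nlinarith
  have hN0 : ∀ ξ, 0 ≤ cE ρ S' G ξ := fun ξ => cE_nonneg hG0 S' ξ
  have hN1 : ∀ ξ, cE ρ S' G ξ ≤ 1 := fun ξ => cE_le hGm hG0 hG1 S' ξ
  have hNm : Measurable (cE ρ S' G) := measurable_cE hGm S'
  have hG00 : 0 ≤ cE ρ S G η := cE_nonneg hG0 S η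
  have hint : ∀ {F : Env d → ℝ} (_ : Measurable F) (_ : ∀ ξ, |F ξ| ≤ 2),
      Integrable (fun ξ => F (spl S η ξ)) (law d ρ) := fun hm hb => integrable_spl hm hb S η
  have hGf : ∀ ξ, |G ξ * f ξ| ≤ 1 := fun ξ => by
    rw [abs_mul, abs_of_nonneg (hG0 ξ)]
    calc _ ≤ 1 * (1 / 2) := mul_le_mul (hG1 ξ) (hf ξ) (abs_nonneg _) zero_le_one
      _ ≤ 1 := by norm_num
  rcases hG00.eq_or_lt with h0 | h0
  · -- the degenerate case
    have h1 : cE ρ S (fun ξ => G ξ * f ξ) η ≤ cE ρ S G η := by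
      unfold cE
      refine integral_mono (hint (hGm.mul hfm) fun ξ => (hGf ξ).trans (by norm_num))
        (hint hGm fun ξ => by rw [abs_of_nonneg (hG0 ξ)]; linarith [hG1 ξ]) fun ξ => ?_
      have h2 := abs_le.1 (hf (spl S η ξ))
      have h3 := hG0 (spl S η ξ)
      show G (spl S η ξ) * f (spl S η ξ) ≤ G (spl S η ξ)
      nlinarith
    rw [← h0] at h1 ⊢
    linarith
  · have t0 : cE ρ S (cE ρ S' G) η = cE ρ S G η := by
      have := tower99 (ρ := ρ) hS hGm (measurable_const (a := (1 : ℝ))) (b := 1)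
        (fun ξ => by rw [mul_one, abs_of_nonneg (hG0 ξ)]; exact hG1 ξ) (fun _ _ _ => rfl) η
      simpa using this
    have t1 : cE ρ S (fun ξ => cE ρ S' G ξ * f ξ) η = cE ρ S (fun ξ => G ξ * f ξ) η :=
      tower99 hS hGm hfm hGf hfd η
    set g : ℝ := cE ρ S G η with hg
    set u : ℝ := cE ρ S (fun ξ => G ξ * f ξ) η with hu
    set l : ℝ := 1 / Real.sqrt g with hl
    have hsg : 0 < Real.sqrt g := Real.sqrt_pos.2 h0
    have hl0 : 0 < l := by positivity
    have hNf : ∀ ξ, |cE ρ S' G ξ * f ξ| ≤ 1 := fun ξ => by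
      rw [abs_mul, abs_of_nonneg (hN0 ξ)]
      calc _ ≤ 1 * (1 / 2) := mul_le_mul (hN1 ξ) (hf ξ) (abs_nonneg _) zero_le_one
        _ ≤ 1 := by norm_num
    have i0 : Integrable (fun ξ => cE ρ S' G (spl S η ξ)) (law d ρ) :=
      hint hNm fun ξ => by rw [abs_of_nonneg (hN0 ξ)]; linarith [hN1 ξ]
    have i1 : Integrable (fun ξ => cE ρ S' G (spl S η ξ) * f (spl S η ξ)) (law d ρ) :=
      hint (hNm.mul hfm) fun ξ => (hNf ξ).trans (by norm_num)
    have i3 : Integrable (fun ξ => f (spl S η ξ)) (law d ρ) :=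
      hint hfm fun ξ => (hf ξ).trans (by norm_num)
    have i5 : Integrable (fun ξ => f (spl S η ξ) ^ 2) (law d ρ) :=
      hint (F := fun ξ => f ξ ^ 2) (hfm.pow_const 2) fun ξ => by
        rw [abs_of_nonneg (sq_nonneg _)]; linarith [hff ξ]
    have i4 : Integrable (fun ξ => Real.sqrt (cE ρ S' G (spl S η ξ))) (law d ρ) :=
      hint (F := fun ξ => Real.sqrt (cE ρ S' G ξ)) hNm.sqrt fun ξ => by
        rw [abs_of_nonneg (Real.sqrt_nonneg _)]
        have : Real.sqrt (cE ρ S' G ξ) ≤ 1 := Real.sqrt_le_one.2 (hN1 ξ)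
        linarith
    have h1 : 2 * cE ρ S (fun ξ => Real.sqrt (cE ρ S' G ξ)) η ≤
        l * (g - u) + (1 + 2 * e) / l := by
      have j1 : Integrable (fun ξ => cE ρ S' G (spl S η ξ) -
          cE ρ S' G (spl S η ξ) * f (spl S η ξ)) (law d ρ) := i0.sub i1
      have j2 : Integrable (fun ξ => 1 + f (spl S η ξ)) (law d ρ) :=
        (integrable_const (1 : ℝ)).add i3
      have j3 : Integrable (fun ξ => 2 * f (spl S η ξ) ^ 2) (law d ρ) := i5.const_mul 2
      have j4 : Integrable (fun ξ => 1 + f (spl S η ξ) + 2 * f (spl S η ξ) ^ 2) (law d ρ) :=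
        j2.add j3
      have h2 : ∫ ξ, 2 * Real.sqrt (cE ρ S' G (spl S η ξ)) ∂(law d ρ) ≤
          ∫ ξ, (l * (cE ρ S' G (spl S η ξ) - cE ρ S' G (spl S η ξ) * f (spl S η ξ)) +
            (1 + f (spl S η ξ) + 2 * f (spl S η ξ) ^ 2) / l) ∂(law d ρ) :=
        integral_mono (i4.const_mul 2) ((j1.const_mul l).add (j4.div_const l))
          fun ξ => sqrtL99 (hN0 _) (hf _) hl0
      rw [integral_const_mul, integral_add (j1.const_mul l) (j4.div_const l), integral_const_mul,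
        integral_sub i0 i1, integral_div, integral_add j2 j3,
        integral_add (integrable_const (1 : ℝ)) i3, integral_const_mul] at h2
      have e0 : ∫ ξ, cE ρ S' G (spl S η ξ) ∂(law d ρ) = g := t0
      have e1 : ∫ ξ, cE ρ S' G (spl S η ξ) * f (spl S η ξ) ∂(law d ρ) = u := t1
      have e2 : ∫ ξ, f (spl S η ξ) ^ 2 ∂(law d ρ) ≤ e := hf2
      have e3 : ∫ ξ, f (spl S η ξ) ∂(law d ρ) = 0 := hf0
      rw [e0, e1, e3] at h2
      simp only [integral_const, probReal_univ, smul_eq_mul, mul_one, add_zero] at h2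
      refine h2.trans ?_
      have h3 : (1 + 2 * ∫ ξ, f (spl S η ξ) ^ 2 ∂(law d ρ)) / l ≤ (1 + 2 * e) / l :=
        div_le_div_of_nonneg_right (by linarith) hl0.le
      linarith
    -- the choice of `l`
    have hll : (1 + 2 * e) / l = (1 + 2 * e) * Real.sqrt g := by
      rw [hl]; field_simp
    have h3 : 2 * (Real.exp (-a) * Real.sqrt g) < l * (g - u) + (1 + 2 * e) * Real.sqrt g := by
      rw [← hll]
      linarith
    have h4 := mul_lt_mul_of_pos_right h3 hsg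
    have h5 : (l * (g - u) + (1 + 2 * e) * Real.sqrt g) * Real.sqrt g =
        (g - u) + (1 + 2 * e) * g := by
      have h6 : l * Real.sqrt g = 1 := by rw [hl]; field_simp
      calc _ = (l * Real.sqrt g) * (g - u) + (1 + 2 * e) * (Real.sqrt g * Real.sqrt g) := by ring
        _ = _ := by rw [h6, Real.mul_self_sqrt h0.le]; ring
    have h6 : 2 * (Real.exp (-a) * Real.sqrt g) * Real.sqrt g = 2 * Real.exp (-a) * g := by
      calc _ = 2 * Real.exp (-a) * (Real.sqrt g * Real.sqrt g) := by ring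
        _ = _ := by rw [Real.mul_self_sqrt h0.le]
    rw [h5, h6] at h4
    have h7 : 1 - a ≤ Real.exp (-a) := by
      have := Real.add_one_le_exp (-a)
      linarith
    have h8 : 2 * (1 - a) * g ≤ 2 * Real.exp (-a) * g :=
      mul_le_mul_of_nonneg_right (by linarith) h0.le
    linarith

open Classical in
lemma qb_meas99 (β : ℝ) (h : Vec d) (n t i : ℕ) (o b : Site d) :
    Measurable (qb β h n t i o b) := by
  unfold qb
  exact measurable_pe73 β h fun s => measurable_const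

open Classical in
lemma qb_bd99 (hd : 0 < d) (β : ℝ) (h : Vec d) (n t i : ℕ) (o b : Site d) (η : Env d) :
    0 ≤ qb β h n t i o b η ∧ qb β h n t i o b η ≤ 1 := by
  unfold qb
  have h1 : ∀ s : Fin n → Step d, (0 : ℝ) ≤ (if blk i o (pos s t) = b then (1 : ℝ) else 0) ∧
      (if blk i o (pos s t) = b then (1 : ℝ) else 0) ≤ (1 : ℝ) := by
    intro s
    split_ifs <;> constructor <;> norm_num
  refine ⟨pe_nonneg73 hd β h η fun s => (h1 s).1, ?_⟩
  have h2 := pe_mono73 hd β h η (n := n) (f := fun s => if blk i o (pos s t) = b then (1 : ℝ)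
    else 0) (g := fun _ => 1) fun s => (h1 s).2
  rwa [pe_const73 hd] at h2

open Classical in
/-- Leaf LOA. -/
theorem loa99 [IsProbabilityMeasure ρ] (hd : 0 < d) (β : ℝ) : LoaP d ρ β := by
  intro q h n τ t hτ hτt htn g a i o b Y hg hgY ha
  set G : Env d → ℝ := qb β h n t i o b with hG
  have hGm : Measurable G := qb_meas99 β h n t i o b
  have hG0 : ∀ η, 0 ≤ G η := fun η => (qb_bd99 hd β h n t i o b η).1
  have hG1 : ∀ η, G η ≤ 1 := fun η => (qb_bd99 hd β h n t i o b η).2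
  set f : Env d → ℝ := fa99 ρ q g τ Y with hfd
  have hfm : Measurable f := fa_meas99 q g τ Y
  have hf : ∀ η, |f η| ≤ 1 / 2 := by
    intro η
    rw [hfd]
    unfold fa99
    rw [abs_mul, abs_of_nonneg hg]
    refine (mul_le_mul_of_nonneg_left (Finset.abs_sum_le_sum_abs _ _) hg).trans ?_
    refine (mul_le_mul_of_nonneg_left (Finset.sum_le_sum fun y _ => zt_abs99 q _) hg).trans ?_
    simpa using hgY
  have hS : Pa d (τ - 1) ⊆ Pa d τ := fun p hp => by
    have : p.1 ≤ τ - 1 := hp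
    show p.1 ≤ τ
    omega
  have hfdep : DependsOn f (Pa d τ) := fun η η' he =>
    fa_dep99 q g τ Y fun p hp => he p (show p.1 ≤ τ from le_of_eq hp)
  have hfdep' : DependsOn f (Pa d (τ - 1))ᶜ := fun η η' he =>
    fa_dep99 q g τ Y fun p hp => he p (fun h2 => by
      have h3 : p.1 ≤ τ - 1 := h2
      have h4 : p.1 = τ := hp
      omega)
  have hf0 : ∀ η, cE ρ (Pa d (τ - 1)) f η = 0 := fun η => by
    rw [cE_of_indep (Pa d (τ - 1)) hfdep' η, hfd, fa_int99]
  have hf2 : ∀ η, cE ρ (Pa d (τ - 1)) (fun ξ => f ξ ^ 2) η ≤ g ^ 2 * Y.card := fun η => by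
    rw [cE_of_indep (Pa d (τ - 1)) (H := fun ξ => f ξ ^ 2) (fun x y he => by
      show f x ^ 2 = f y ^ 2
      rw [hfdep' he]) η, hfd]
    exact fa_sq99 q g τ Y
  -- the weight
  set k : Env d → ℝ := fun η => if Hi ρ β h n t a τ i o b η then (0 : ℝ) else 1 with hk
  have hnbm : ∀ σ, Measurable (nb ρ β h n t σ i o b) := fun σ => measurable_cE hGm (Pa d σ)
  have hcm : Measurable (cE ρ (Pa d (τ - 1)) (fun ξ => Real.sqrt (nb ρ β h n t τ i o b ξ))) :=
    measurable_cE (hnbm τ).sqrt _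
  have hHm : MeasurableSet {η : Env d | Hi ρ β h n t a τ i o b η} :=
    measurableSet_le hcm ((hnbm (τ - 1)).sqrt.const_mul _)
  have hkm : Measurable k := Measurable.ite hHm measurable_const measurable_const
  have hk01 : ∀ η, 0 ≤ k η ∧ k η ≤ 1 := by
    intro η
    rw [hk]
    simp only
    split_ifs <;> constructor <;> norm_num
  have hkd : DependsOn k (Pa d (τ - 1)) := by
    intro η η' he
    have h1 : nb ρ β h n t (τ - 1) i o b η = nb ρ β h n t (τ - 1) i o b η' :=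
      cE_dep (Pa d (τ - 1)) _ he
    have h2 : cE ρ (Pa d (τ - 1)) (fun ξ => Real.sqrt (nb ρ β h n t τ i o b ξ)) η =
        cE ρ (Pa d (τ - 1)) (fun ξ => Real.sqrt (nb ρ β h n t τ i o b ξ)) η' :=
      cE_dep (Pa d (τ - 1)) _ he
    show (if Hi ρ β h n t a τ i o b η then (0 : ℝ) else 1) =
      if Hi ρ β h n t a τ i o b η' then (0 : ℝ) else 1
    have h3 : Hi ρ β h n t a τ i o b η ↔ Hi ρ β h n t a τ i o b η' := by
      unfold Hi
      rw [h1, h2]
    by_cases h4 : Hi ρ β h n t a τ i o b η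
    · rw [if_pos h4, if_pos (h3.1 h4)]
    · rw [if_neg h4, if_neg fun h5 => h4 (h3.2 h5)]
  have key : ∀ (F : Env d → ℝ) (_ : Measurable F) (_ : ∀ ξ, |F ξ| ≤ 1),
      ∫ η, k η * F η ∂(law d ρ) = ∫ η, k η * cE ρ (Pa d (τ - 1)) F η ∂(law d ρ) := by
    intro F hFm hF1
    have hi : Integrable (fun η => F η * k η) (law d ρ) :=
      Integrable.mono' (integrable_const 1) (hFm.mul hkm).aestronglyMeasurable
        (Eventually.of_forall fun η => by
          rw [Real.norm_eq_abs, abs_mul, abs_of_nonneg (hk01 η).1]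
          calc _ ≤ 1 * 1 := mul_le_mul (hF1 η) (hk01 η).2 (hk01 η).1 zero_le_one
            _ = 1 := one_mul 1)
    have h1 := int_mul_cE (ρ := ρ) (Pa d (τ - 1)) hi hkd
    simp only [mul_comm (k _)]
    exact h1
  have hki : ∀ (F : Env d → ℝ) (_ : Measurable F) (_ : ∀ ξ, |F ξ| ≤ 1),
      Integrable (fun η => k η * cE ρ (Pa d (τ - 1)) F η) (law d ρ) := by
    intro F hFm hF1
    refine Integrable.mono' (integrable_const 1)
      (hkm.mul (measurable_cE hFm _)).aestronglyMeasurable (Eventually.of_forall fun η => ?_)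
    rw [Real.norm_eq_abs, abs_mul, abs_of_nonneg (hk01 η).1]
    calc _ ≤ 1 * 1 := mul_le_mul (hk01 η).2 (cE_abs_le hF1 _ η) (abs_nonneg _) zero_le_one
      _ = 1 := one_mul 1
  have hGf : ∀ ξ, |G ξ * f ξ| ≤ 1 := fun ξ => by
    rw [abs_mul, abs_of_nonneg (hG0 ξ)]
    calc _ ≤ 1 * (1 / 2) := mul_le_mul (hG1 ξ) (hf ξ) (abs_nonneg _) zero_le_one
      _ ≤ 1 := by norm_num
  have hGa : ∀ ξ, |G ξ| ≤ 1 := fun ξ => by rw [abs_of_nonneg (hG0 ξ)]; exact hG1 ξ
  have m1 : Measurable fun ξ => G ξ * f ξ := hGm.mul hfm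
  have k1 := key (fun ξ => G ξ * f ξ) m1 hGf
  have k2 := key G hGm hGa
  have hlhs : g * (∫ η, (if Hi ρ β h n t a τ i o b η then (0 : ℝ) else 1) *
      ((∑ y ∈ Y, zt ρ q (η (τ, y))) * qb β h n t i o b η) ∂(law d ρ)) =
      ∫ η, k η * (G η * f η) ∂(law d ρ) := by
    rw [← integral_const_mul]
    refine integral_congr_ae (Eventually.of_forall fun η => ?_)
    show g * (k η * ((∑ y ∈ Y, zt ρ q (η (τ, y))) * G η)) =
      k η * (G η * (g * ∑ y ∈ Y, zt ρ q (η (τ, y))))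
    ring
  have hrhs : ∫ η, (if Hi ρ β h n t a τ i o b η then (0 : ℝ) else 1) *
      qb β h n t i o b η ∂(law d ρ) = ∫ η, k η * G η ∂(law d ρ) := rfl
  rw [hlhs, hrhs, k1, k2, ← integral_const_mul]
  refine integral_mono (hki _ m1 hGf) ((hki G hGm hGa).const_mul _) fun η => ?_
  show k η * cE ρ (Pa d (τ - 1)) (fun ξ => G ξ * f ξ) η ≤
    2 * (a + g ^ 2 * Y.card) * (k η * cE ρ (Pa d (τ - 1)) G η)
  by_cases hH : Hi ρ β h n t a τ i o b η
  · have hk0 : k η = 0 := if_pos hH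
    rw [hk0]
    simp
  · have hk1 : k η = 1 := if_neg hH
    rw [hk1, one_mul, one_mul]
    exact loaP99 hGm hG0 hG1 hS hfm hf hfdep ha (by positivity) η (hf0 η) (hf2 η)
      (not_le.1 hH)

end Pool.Agent.W_7d29a1_NS
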