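import Pool.Agent.W_7d29a1_NS.DefsN72
import Pool.Agent.W_7d29a1_S90.RpT73
import Pool.Agent.W_7d29a1_S90.InT64
import Pool.Agent.W_7d29a1_Q29.Qf39

/-!
Theorem NS, leaf LOW: low rows are rare.
-/

namespace Pool.Agent.W_7d29a1_NS.L56

open MeasureTheory ProbabilityTheory Filter Topology Pool.Agent.W_MP_7d29a1_pr
  Pool.Agent.W_7d29a1_h46 Pool.Agent.W_7d29a1_h46u Pool.Agent.W_7d29a1_D2.B35
  Pool.Agent.W_7d29a1_Q29 Pool.Agent.W_7d29a1_S90 Pool.Agent.W_7d29a1_NS

variable {d n : ℕ} {ρ : Measure ℝ}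

/-! ### Blocks -/

open Classical in
/-- The sites whose ball at the later time is in the block `b`. -/
noncomputable def Yb (d n i : ℕ) (o : Site d) (m : Vec d) (r : ℝ) (b : Site d) :
    Finset (Site d) :=
  (boxF d n).filter fun y => ∀ z : Site d, ‖emb z - emb y - m‖ ≤ r → blk i o z = b

lemma near56 (m : Vec d) {r : ℝ} (hr : (d : ℝ) ≤ r) (y : Site d) :
    ‖emb (y + fun j => ⌊m j⌋) - emb y - m‖ ≤ r := by
  have hr0 : (0 : ℝ) ≤ r := (Nat.cast_nonneg d).trans hr
  rw [EuclideanSpace.norm_eq]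
  refine Real.sqrt_le_iff.2 ⟨hr0, ?_⟩
  have h1 : ∀ j : Fin d, ‖(emb (y + fun j => ⌊m j⌋) - emb y - m) j‖ ^ 2 ≤ 1 := by
    intro j
    have h2 : (emb (y + fun j => ⌊m j⌋) - emb y - m) j = (⌊m j⌋ : ℝ) - m j := by
      simp [emb]
    rw [h2, Real.norm_eq_abs, sq_abs]
    have h3 := Int.floor_le (m j)
    have h4 := Int.lt_floor_add_one (m j)
    nlinarith
  have h2 : ∑ j : Fin d, ‖(emb (y + fun j => ⌊m j⌋) - emb y - m) j‖ ^ 2 ≤ (d : ℝ) := by
    refine (Finset.sum_le_sum fun j _ => h1 j).trans ?_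
    simp
  have h3 : (d : ℝ) ≤ (d : ℝ) * d := by exact_mod_cast Nat.le_mul_self d
  nlinarith [(Nat.cast_nonneg d : (0 : ℝ) ≤ d)]

lemma card56 (n i : ℕ) (o : Site d) (m : Vec d) {r : ℝ} (hr : (d : ℝ) ≤ r) (b : Site d) :
    (Yb d n i o m r b).card ≤ 2 ^ (d * i) := by
  classical
  set Zb : Finset (Site d) := Fintype.piFinset fun j : Fin d =>
    Finset.Ico (b j * 2 ^ i - o j) ((b j + 1) * 2 ^ i - o j) with hZb
  have h1 : Zb.card = 2 ^ (d * i) := by
    rw [hZb, Fintype.card_piFinset]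
    have h2 : ∀ j : Fin d, (Finset.Ico (b j * 2 ^ i - o j) ((b j + 1) * 2 ^ i - o j)).card =
        2 ^ i := by
      intro j
      rw [Int.card_Ico]
      have h3 : (b j + 1) * 2 ^ i - o j - (b j * 2 ^ i - o j) = ((2 ^ i : ℕ) : ℤ) := by
        push_cast
        ring
      rw [h3, Int.toNat_natCast]
    rw [Finset.prod_congr rfl fun j _ => h2 j, Finset.prod_const, Finset.card_univ,
      Fintype.card_fin, ← pow_mul, mul_comm]
  rw [← h1]
  refine Finset.card_le_card_of_injOn (fun y => y + fun j => ⌊m j⌋) ?_ ?_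
  · intro y hy
    have hy' : y ∈ Yb d n i o m r b := hy
    unfold Yb at hy'
    have h2 := (Finset.mem_filter.1 hy').2 _ (near56 m hr y)
    rw [Finset.mem_coe, hZb, Fintype.mem_piFinset]
    intro j
    have h3 : ((y + fun j => ⌊m j⌋) j + o j) / 2 ^ i = b j := congrFun h2 j
    have h4 : (0 : ℤ) < 2 ^ i := by positivity
    have h5 := Int.ediv_mul_le ((y + fun j => ⌊m j⌋) j + o j) h4.ne'
    have h6 := Int.lt_ediv_add_one_mul_self ((y + fun j => ⌊m j⌋) j + o j) h4
    rw [h3] at h5 h6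
    rw [Finset.mem_Ico]
    constructor <;> linarith
  · intro y _ y' _ hyy
    exact add_right_cancel hyy

/-! ### Indicators -/

/-- `S_t` is not in the block `b`. -/
def Fr (t i : ℕ) (o b : Site d) (s : Fin n → Step d) : Prop := blk i o (pos s t) ≠ b

open Classical in
/-- The indicator that the row is low. -/
noncomputable def chi (ρ : Measure ℝ) (β : ℝ) (h : Vec d) (n t : ℕ) (a : ℝ) (τ i : ℕ)
    (o b : Site d) (η : Env d) : ℝ :=
  if Hi ρ β h n t a τ i o b η then (0 : ℝ) else 1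

open Classical in
/-- The indicator of `S_τ = y`, `S_t ∉ b`. -/
noncomputable def J2 (τ t i : ℕ) (o b y : Site d) (s : Fin n → Step d) : ℝ :=
  if pos s τ = y ∧ Fr t i o b s then (1 : ℝ) else 0

open Classical in
/-- The indicator of `S_τ = y`, `S'_τ ≠ y`, `S'_t ∉ b`. -/
noncomputable def J3 (τ t i : ℕ) (o b y : Site d) (s s' : Fin n → Step d) : ℝ :=
  if pos s τ = y ∧ pos s' τ ≠ y ∧ Fr t i o b s' then (1 : ℝ) else 0

lemma chi01 (β : ℝ) (h : Vec d) (t : ℕ) (a : ℝ) (τ i : ℕ) (o b : Site d) (η : Env d) :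
    0 ≤ chi ρ β h n t a τ i o b η ∧ chi ρ β h n t a τ i o b η ≤ 1 := by
  unfold chi
  split_ifs <;> norm_num

lemma J2_01 (τ t i : ℕ) (o b y : Site d) (s : Fin n → Step d) :
    0 ≤ J2 τ t i o b y s ∧ J2 τ t i o b y s ≤ 1 := by
  unfold J2
  split_ifs <;> norm_num

lemma J3_01 (τ t i : ℕ) (o b y : Site d) (s s' : Fin n → Step d) :
    0 ≤ J3 τ t i o b y s s' ∧ J3 τ t i o b y s s' ≤ 1 := by
  unfold J3
  split_ifs <;> norm_num

lemma qb_meas (β : ℝ) (h : Vec d) (n t i : ℕ) (o b : Site d) :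
    Measurable (qb β h n t i o b) := by
  unfold qb
  exact measurable_pe73 β h (f := fun _ s => _) fun s => measurable_const

lemma qb_01 (hd : 0 < d) (β : ℝ) (h : Vec d) (n t i : ℕ) (o b : Site d) (η : Env d) :
    0 ≤ qb β h n t i o b η ∧ qb β h n t i o b η ≤ 1 := by
  unfold qb
  constructor
  · refine pe_nonneg73 hd β h η fun s => ?_
    split_ifs <;> norm_num
  · have h1 := pe_mono73 (n := n) hd β h η (g := fun _ => (1 : ℝ))
      (f := fun s => if blk i o (pos s t) = b then (1 : ℝ) else 0) fun s => by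
        split_ifs <;> norm_num
    rwa [pe_const73 hd] at h1

lemma chi_meas [IsProbabilityMeasure ρ] (β : ℝ) (h : Vec d) (n t : ℕ) (a : ℝ) (τ i : ℕ)
    (o b : Site d) : Measurable (chi ρ β h n t a τ i o b) := by
  unfold chi
  refine Measurable.ite ?_ measurable_const measurable_const
  unfold Hi nb
  refine measurableSet_le ?_ ?_
  · exact measurable_cE (Real.continuous_sqrt.measurable.comp
      (measurable_cE (qb_meas β h n t i o b) _)) _
  · exact (Real.continuous_sqrt.measurable.comp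
      (measurable_cE (qb_meas β h n t i o b) _)).const_mul _

lemma chi_dep (β : ℝ) (h : Vec d) (n t : ℕ) (a : ℝ) {τ : ℕ} (hτ : 1 ≤ τ) (i : ℕ)
    (o b y : Site d) :
    DependsOn (chi ρ β h n t a τ i o b) ({(τ, y)}ᶜ : Set (ℕ × Site d)) := by
  intro η η' hη
  have h0 : ∀ p ∈ Pa d (τ - 1), η p = η' p := by
    intro p hp
    refine hη p ?_
    rw [Set.mem_compl_iff, Set.mem_singleton_iff]
    intro hpp
    have h1 : p.1 ≤ τ - 1 := hp
    rw [hpp] at h1
    have h2 : τ ≤ τ - 1 := h1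
    omega
  unfold chi Hi nb
  rw [cE_dep (Pa d (τ - 1)) (fun ξ => Real.sqrt (cE ρ (Pa d τ) (qb β h n t i o b) ξ)) h0,
    cE_dep (Pa d (τ - 1)) (qb β h n t i o b) h0]

/-! ### The two sums over blocks and sites -/

open Classical in
lemma W1 (β : ℝ) (h : Vec d) (τ t i : ℕ) (a : ℝ) (o : Site d) (m : Vec d) {r : ℝ}
    (hr : (d : ℝ) ≤ r) (B : Finset (Site d)) (η : Env d) (s : Fin n → Step d) :
    ∑ b ∈ B, ∑ y ∈ Yb d n i o m r b, chi ρ β h n t a τ i o b η * J2 τ t i o b y s ≤
      if r < inc τ t m s then (1 : ℝ) else 0 := by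
  by_cases hi : r < inc τ t m s
  · rw [if_pos hi]
    have h1 : ∀ b ∈ B, ∑ y ∈ Yb d n i o m r b, chi ρ β h n t a τ i o b η * J2 τ t i o b y s ≤
        if pos s τ ∈ Yb d n i o m r b then (1 : ℝ) else 0 := by
      intro b _
      have h2 : ∀ y ∈ Yb d n i o m r b, chi ρ β h n t a τ i o b η * J2 τ t i o b y s ≤
          if pos s τ = y then (1 : ℝ) else 0 := by
        intro y _
        have h3 := chi01 (ρ := ρ) (n := n) β h t a τ i o b η
        by_cases hy : pos s τ = y
        · rw [if_pos hy]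
          have h4 := J2_01 τ t i o b y s
          nlinarith
        · rw [if_neg hy]
          have h4 : J2 τ t i o b y s = 0 := by
            unfold J2
            rw [if_neg fun hh => hy hh.1]
          rw [h4, mul_zero]
      refine (Finset.sum_le_sum h2).trans ?_
      rw [Finset.sum_ite_eq]
    refine (Finset.sum_le_sum h1).trans ?_
    rw [Finset.sum_ite, Finset.sum_const_zero, add_zero, Finset.sum_const, nsmul_eq_mul, mul_one]
    have h2 : (B.filter fun b => pos s τ ∈ Yb d n i o m r b).card ≤ 1 := by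
      rw [Finset.card_le_one]
      intro b hb b' hb'
      have h3 := (Finset.mem_filter.1 (Finset.mem_filter.1 hb).2).2 _ (near56 m hr (pos s τ))
      have h4 := (Finset.mem_filter.1 (Finset.mem_filter.1 hb').2).2 _ (near56 m hr (pos s τ))
      rw [← h3, ← h4]
    exact_mod_cast h2
  · rw [if_neg hi]
    refine le_of_eq (Finset.sum_eq_zero fun b _ => Finset.sum_eq_zero fun y hy => ?_)
    have h4 : J2 τ t i o b y s = 0 := by
      unfold J2
      rw [if_neg]
      rintro ⟨h5, h6⟩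
      refine h6 ((Finset.mem_filter.1 hy).2 _ ?_)
      have h7 := not_lt.1 hi
      unfold inc at h7
      rw [h5] at h7
      exact h7
    rw [h4, mul_zero]

open Classical in
lemma W2' (β : ℝ) (h : Vec d) (τ t i : ℕ) (a : ℝ) (o : Site d) (m : Vec d) {r : ℝ} (η : Env d)
    (s s' : Fin n → Step d) :
    (if ¬ Hi ρ β h n t a τ i o (blk i o (pos s t)) η ∧ blk i o (pos s' t) ≠ blk i o (pos s t)
      then (1 : ℝ) else 0) - (if r < inc τ t m s then (1 : ℝ) else 0) -
      (if r < inc τ t m s' then (1 : ℝ) else 0) -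
      (if ∃ z : Site d, blk i o z ≠ blk i o (pos s t) ∧ ‖emb z - emb (pos s t)‖ ≤ 2 * r
        then (1 : ℝ) else 0) ≤
    ∑ b ∈ (boxF d n).image (blk i o), ∑ y ∈ Yb d n i o m r b,
      chi ρ β h n t a τ i o b η * J3 τ t i o b y s s' := by
  have h0 : 0 ≤ ∑ b ∈ (boxF d n).image (blk i o), ∑ y ∈ Yb d n i o m r b,
      chi ρ β h n t a τ i o b η * J3 τ t i o b y s s' :=
    Finset.sum_nonneg fun b _ => Finset.sum_nonneg fun y _ =>
      mul_nonneg (chi01 β h t a τ i o b η).1 (J3_01 τ t i o b y s s').1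
  have hA : ∀ p : Prop, (0 : ℝ) ≤ if p then (1 : ℝ) else 0 := fun p => by
    split_ifs <;> norm_num
  by_cases h1 : ¬ Hi ρ β h n t a τ i o (blk i o (pos s t)) η ∧
      blk i o (pos s' t) ≠ blk i o (pos s t)
  · rw [if_pos h1]
    by_cases h2 : r < inc τ t m s
    · rw [if_pos h2]
      linarith [hA (r < inc τ t m s'),
        hA (∃ z : Site d, blk i o z ≠ blk i o (pos s t) ∧ ‖emb z - emb (pos s t)‖ ≤ 2 * r)]
    by_cases h3 : r < inc τ t m s'
    · rw [if_pos h3]
      linarith [hA (r < inc τ t m s),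
        hA (∃ z : Site d, blk i o z ≠ blk i o (pos s t) ∧ ‖emb z - emb (pos s t)‖ ≤ 2 * r)]
    by_cases h4 : ∃ z : Site d, blk i o z ≠ blk i o (pos s t) ∧
        ‖emb z - emb (pos s t)‖ ≤ 2 * r
    · rw [if_pos h4]
      linarith [hA (r < inc τ t m s), hA (r < inc τ t m s')]
    rw [if_neg h2, if_neg h3, if_neg h4]
    have hi : ‖emb (pos s t) - emb (pos s τ) - m‖ ≤ r := not_lt.1 h2
    have hi' : ‖emb (pos s' t) - emb (pos s' τ) - m‖ ≤ r := not_lt.1 h3
    have hy : pos s τ ∈ Yb d n i o m r (blk i o (pos s t)) := by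
      unfold Yb
      rw [Finset.mem_filter]
      refine ⟨pos_mem_box s τ, fun z hz => ?_⟩
      by_contra hne
      refine h4 ⟨z, hne, ?_⟩
      have h5 : emb z - emb (pos s t) =
          (emb z - emb (pos s τ) - m) - (emb (pos s t) - emb (pos s τ) - m) := by abel
      rw [h5]
      exact (norm_sub_le _ _).trans (by linarith)
    have hτ : pos s' τ ≠ pos s τ := by
      intro hh
      refine h1.2 ((Finset.mem_filter.1 hy).2 _ ?_)
      rw [← hh]
      exact hi'
    have hb : blk i o (pos s t) ∈ (boxF d n).image (blk i o) :=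
      Finset.mem_image_of_mem _ (pos_mem_box s t)
    have h5 : chi ρ β h n t a τ i o (blk i o (pos s t)) η *
        J3 τ t i o (blk i o (pos s t)) (pos s τ) s s' = 1 := by
      unfold chi J3
      rw [if_neg h1.1, if_pos ⟨rfl, hτ, h1.2⟩, mul_one]
    have h6 : chi ρ β h n t a τ i o (blk i o (pos s t)) η *
        J3 τ t i o (blk i o (pos s t)) (pos s τ) s s' ≤
        ∑ y ∈ Yb d n i o m r (blk i o (pos s t)),
          chi ρ β h n t a τ i o (blk i o (pos s t)) η *
            J3 τ t i o (blk i o (pos s t)) y s s' :=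
      Finset.single_le_sum (f := fun y => chi ρ β h n t a τ i o (blk i o (pos s t)) η *
        J3 τ t i o (blk i o (pos s t)) y s s')
        (fun y _ => mul_nonneg (chi01 β h t a τ i o _ η).1 (J3_01 τ t i o _ y s s').1) hy
    have h7 : ∑ y ∈ Yb d n i o m r (blk i o (pos s t)),
          chi ρ β h n t a τ i o (blk i o (pos s t)) η *
            J3 τ t i o (blk i o (pos s t)) y s s' ≤
        ∑ b ∈ (boxF d n).image (blk i o), ∑ y ∈ Yb d n i o m r b,
          chi ρ β h n t a τ i o b η * J3 τ t i o b y s s' :=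
      Finset.single_le_sum (f := fun b => ∑ y ∈ Yb d n i o m r b,
          chi ρ β h n t a τ i o b η * J3 τ t i o b y s s')
        (fun b _ => Finset.sum_nonneg fun y _ =>
          mul_nonneg (chi01 β h t a τ i o b η).1 (J3_01 τ t i o b y s s').1) hb
    linarith
  · rw [if_neg h1]
    linarith [hA (r < inc τ t m s), hA (r < inc τ t m s'),
      hA (∃ z : Site d, blk i o z ≠ blk i o (pos s t) ∧ ‖emb z - emb (pos s t)‖ ≤ 2 * r)]

/-! ### Integrals -/

lemma pe2_sub56 (β : ℝ) (h : Vec d) (η : Env d) (f g : (Fin n → Step d) → (Fin n → Step d) → ℝ) :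
    pe2 β h η (fun s s' => f s s' - g s s') = pe2 β h η f - pe2 β h η g := by
  unfold pe2
  rw [← pe_sub73]
  congr 1
  funext s
  rw [pe_sub73]

open Classical in
lemma Lo_eq (β : ℝ) (h : Vec d) (n t : ℕ) (a : ℝ) (τ i : ℕ) (o : Site d) :
    Lo ρ β h n t a τ i o = ∫ η, pe2 β h η (fun s s' : Fin n → Step d =>
      chi ρ β h n t a τ i o (blk i o (pos s t)) η *
        (if blk i o (pos s' t) ≠ blk i o (pos s t) then (1 : ℝ) else 0)) ∂(law d ρ) := by
  unfold Lo
  congr 1
  funext η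
  congr 1
  funext s s'
  unfold chi
  by_cases h1 : Hi ρ β h n t a τ i o (blk i o (pos s t)) η
  · rw [if_neg fun hh => hh.1 h1, if_pos h1, zero_mul]
  · by_cases h2 : blk i o (pos s' t) ≠ blk i o (pos s t)
    · rw [if_pos ⟨h1, h2⟩, if_neg h1, if_pos h2, mul_one]
    · rw [if_neg fun hh => h2 hh.2, if_neg h2, mul_zero]

lemma int56 [IsProbabilityMeasure ρ] (β : ℝ) (h : Vec d) (n t : ℕ) (a : ℝ) (τ i : ℕ)
    (o b : Site d) {G : Env d → ℝ} (hG : AEStronglyMeasurable G (law d ρ))
    (hb : ∀ η, |G η| ≤ 1) :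
    Integrable (fun η => chi ρ β h n t a τ i o b η * G η) (law d ρ) := by
  refine Integrable.mono' (integrable_const 1)
    ((chi_meas β h n t a τ i o b).aestronglyMeasurable.mul hG) (ae_of_all _ fun η => ?_)
  have h1 := chi01 (ρ := ρ) (n := n) β h t a τ i o b η
  rw [Real.norm_eq_abs, abs_mul, abs_of_nonneg h1.1]
  nlinarith [hb η, abs_nonneg (G η)]

open Classical in
lemma sumT1 [IsProbabilityMeasure ρ] (hd : 0 < d) (β : ℝ) (h : Vec d) (τ t i : ℕ) (a : ℝ)
    (o : Site d) (m : Vec d) (r : ℝ) :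
    Lo ρ β h n t a τ i o - 2 * Tl ρ β h n τ t m r - Nb ρ β h n t i o (2 * r) ≤
      ∑ b ∈ (boxF d n).image (blk i o), ∑ y ∈ Yb d n i o m r b,
        ∫ η, chi ρ β h n t a τ i o b η * pe2 β h η (J3 (n := n) τ t i o b y) ∂(law d ρ) := by
  have hJb : ∀ (b y : Site d) (η : Env d), |pe2 β h η (J3 (n := n) τ t i o b y)| ≤ 1 := by
    intro b y η
    unfold pe2
    refine abs_pe_le73 hd β h η fun s => abs_pe_le73 hd β h η fun s' => ?_
    have h1 := J3_01 τ t i o b y s s'
    rw [abs_of_nonneg h1.1]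
    exact h1.2
  have hint : ∀ b y : Site d, Integrable (fun η => chi ρ β h n t a τ i o b η *
      pe2 β h η (J3 (n := n) τ t i o b y)) (law d ρ) := fun b y =>
    int56 β h n t a τ i o b (integrable_pe2_fun73 hd β h _).aestronglyMeasurable (hJb b y)
  have h1 : ∑ b ∈ (boxF d n).image (blk i o), ∑ y ∈ Yb d n i o m r b,
        ∫ η, chi ρ β h n t a τ i o b η * pe2 β h η (J3 (n := n) τ t i o b y) ∂(law d ρ) =
      ∫ η, ∑ b ∈ (boxF d n).image (blk i o), ∑ y ∈ Yb d n i o m r b,
        chi ρ β h n t a τ i o b η * pe2 β h η (J3 (n := n) τ t i o b y) ∂(law d ρ) := by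
    rw [integral_finsetSum _ fun b _ => integrable_finsetSum _ fun y _ => hint b y]
    refine Finset.sum_congr rfl fun b _ => ?_
    rw [integral_finsetSum _ fun y _ => hint b y]
  have hAm : ∀ s s' : Fin n → Step d, Measurable fun η : Env d =>
      chi ρ β h n t a τ i o (blk i o (pos s t)) η *
        (if blk i o (pos s' t) ≠ blk i o (pos s t) then (1 : ℝ) else 0) := fun s s' =>
    (chi_meas β h n t a τ i o _).mul_const _
  have hAb : ∀ (η : Env d) (s s' : Fin n → Step d),
      |chi ρ β h n t a τ i o (blk i o (pos s t)) η *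
        (if blk i o (pos s' t) ≠ blk i o (pos s t) then (1 : ℝ) else 0)| ≤ 1 := by
    intro η s s'
    have h2 := chi01 (ρ := ρ) (n := n) β h t a τ i o (blk i o (pos s t)) η
    rw [abs_mul, abs_of_nonneg h2.1]
    have h3 := ite_abs64 (blk i o (pos s' t) ≠ blk i o (pos s t))
    nlinarith [abs_nonneg (if blk i o (pos s' t) ≠ blk i o (pos s t) then (1 : ℝ) else 0)]
  have hf1 : Integrable (fun η => pe2 β h η (fun s s' : Fin n → Step d =>
      chi ρ β h n t a τ i o (blk i o (pos s t)) η *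
        (if blk i o (pos s' t) ≠ blk i o (pos s t) then (1 : ℝ) else 0))) (law d ρ) := by
    unfold pe2
    exact integrable_pe73 hd β h
      (f := fun η s => pe β h η fun s' : Fin n → Step d =>
        chi ρ β h n t a τ i o (blk i o (pos s t)) η *
          (if blk i o (pos s' t) ≠ blk i o (pos s t) then (1 : ℝ) else 0))
      (fun s => measurable_pe73 β h (f := fun η s' =>
        chi ρ β h n t a τ i o (blk i o (pos s t)) η *
          (if blk i o (pos s' t) ≠ blk i o (pos s t) then (1 : ℝ) else 0)) fun s' => hAm s s')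
      (C := 1) fun η s => abs_pe_le73 hd β h η fun s' => hAb η s s'
  have hf2 : Integrable (fun η => pe β h η (fun s : Fin n → Step d =>
      if r < inc τ t m s then (1 : ℝ) else 0)) (law d ρ) := integrable_pe_fun73 hd β h _
  have hf3 : Integrable (fun η => pe β h η (fun s : Fin n → Step d =>
      if ∃ z : Site d, blk i o z ≠ blk i o (pos s t) ∧ ‖emb z - emb (pos s t)‖ ≤ 2 * r
        then (1 : ℝ) else 0)) (law d ρ) := integrable_pe_fun73 hd β h _
  have h2 := int_sub64 hf1 hf2 hf3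
  rw [← Lo_eq] at h2
  have h3 : Lo ρ β h n t a τ i o - 2 * Tl ρ β h n τ t m r - Nb ρ β h n t i o (2 * r) =
      Lo ρ β h n t a τ i o - 2 * (∫ η, pe β h η (fun s : Fin n → Step d =>
        if r < inc τ t m s then (1 : ℝ) else 0) ∂(law d ρ)) -
      ∫ η, pe β h η (fun s : Fin n → Step d =>
        if ∃ z : Site d, blk i o z ≠ blk i o (pos s t) ∧ ‖emb z - emb (pos s t)‖ ≤ 2 * r
          then (1 : ℝ) else 0) ∂(law d ρ) := rfl
  rw [h3, ← h2, h1]
  refine integral_mono (((hf1.sub hf2).sub hf2).sub hf3)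
    (integrable_finsetSum _ fun b _ => integrable_finsetSum _ fun y _ => hint b y) fun η => ?_
  show pe2 β h η (fun s s' : Fin n → Step d =>
      chi ρ β h n t a τ i o (blk i o (pos s t)) η *
        (if blk i o (pos s' t) ≠ blk i o (pos s t) then (1 : ℝ) else 0)) -
    pe β h η (fun s : Fin n → Step d => if r < inc τ t m s then (1 : ℝ) else 0) -
    pe β h η (fun s : Fin n → Step d => if r < inc τ t m s then (1 : ℝ) else 0) -
    pe β h η (fun s : Fin n → Step d =>
      if ∃ z : Site d, blk i o z ≠ blk i o (pos s t) ∧ ‖emb z - emb (pos s t)‖ ≤ 2 * r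
        then (1 : ℝ) else 0) ≤
    ∑ b ∈ (boxF d n).image (blk i o), ∑ y ∈ Yb d n i o m r b,
      chi ρ β h n t a τ i o b η * pe2 β h η (J3 (n := n) τ t i o b y)
  have h4 : pe2 β h η (fun s s' : Fin n → Step d =>
      chi ρ β h n t a τ i o (blk i o (pos s t)) η *
        (if blk i o (pos s' t) ≠ blk i o (pos s t) then (1 : ℝ) else 0)) -
    pe β h η (fun s : Fin n → Step d => if r < inc τ t m s then (1 : ℝ) else 0) -
    pe β h η (fun s : Fin n → Step d => if r < inc τ t m s then (1 : ℝ) else 0) -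
    pe β h η (fun s : Fin n → Step d =>
      if ∃ z : Site d, blk i o z ≠ blk i o (pos s t) ∧ ‖emb z - emb (pos s t)‖ ≤ 2 * r
        then (1 : ℝ) else 0) =
    pe2 β h η (fun s s' : Fin n → Step d =>
      chi ρ β h n t a τ i o (blk i o (pos s t)) η *
        (if blk i o (pos s' t) ≠ blk i o (pos s t) then (1 : ℝ) else 0) -
      (if r < inc τ t m s then (1 : ℝ) else 0) - (if r < inc τ t m s' then (1 : ℝ) else 0) -
      (if ∃ z : Site d, blk i o z ≠ blk i o (pos s t) ∧ ‖emb z - emb (pos s t)‖ ≤ 2 * r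
        then (1 : ℝ) else 0)) := by
    rw [pe2_sub56, pe2_sub56, pe2_sub56, pe2_fst73 hd, pe2_fst73 hd, pe2_snd73 hd]
  have h5 : ∑ b ∈ (boxF d n).image (blk i o), ∑ y ∈ Yb d n i o m r b,
      chi ρ β h n t a τ i o b η * pe2 β h η (J3 (n := n) τ t i o b y) =
    pe2 β h η (fun s s' : Fin n → Step d => ∑ b ∈ (boxF d n).image (blk i o),
      ∑ y ∈ Yb d n i o m r b, chi ρ β h n t a τ i o b η * J3 τ t i o b y s s') := by
    unfold pe2
    simp_rw [pe_sum73, pe_mul73]
  rw [h4, h5]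
  refine pe2_mono73 hd β h η fun s s' => ?_
  have h6 := W2' (ρ := ρ) β h τ t i a o m (r := r) η s s'
  refine le_trans (le_of_eq ?_) h6
  congr 3
  unfold chi
  by_cases g1 : Hi ρ β h n t a τ i o (blk i o (pos s t)) η
  · rw [if_neg fun hh : ¬ _ ∧ _ => hh.1 g1, if_pos g1, zero_mul]
  · by_cases g2 : blk i o (pos s' t) ≠ blk i o (pos s t)
    · rw [if_pos (And.intro g1 g2), if_neg g1, if_pos g2, mul_one]
    · rw [if_neg fun hh : ¬ _ ∧ _ => g2 hh.2, if_neg g2, mul_zero]

open Classical in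
lemma sumT2 [IsProbabilityMeasure ρ] (hd : 0 < d) (β : ℝ) (h : Vec d) (τ t i : ℕ) (a : ℝ)
    (o : Site d) (m : Vec d) {r : ℝ} (hr : (d : ℝ) ≤ r) (B : Finset (Site d)) :
    ∑ b ∈ B, ∑ y ∈ Yb d n i o m r b,
        ∫ η, chi ρ β h n t a τ i o b η * pe β h η (J2 (n := n) τ t i o b y) ∂(law d ρ) ≤
      Tl ρ β h n τ t m r := by
  have hJb : ∀ (b y : Site d) (η : Env d), |pe β h η (J2 (n := n) τ t i o b y)| ≤ 1 := by
    intro b y η
    refine abs_pe_le73 hd β h η fun s => ?_
    have h1 := J2_01 τ t i o b y s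
    rw [abs_of_nonneg h1.1]
    exact h1.2
  have hint : ∀ b y : Site d, Integrable (fun η => chi ρ β h n t a τ i o b η *
      pe β h η (J2 (n := n) τ t i o b y)) (law d ρ) := fun b y =>
    int56 β h n t a τ i o b (integrable_pe_fun73 hd β h _).aestronglyMeasurable (hJb b y)
  have h1 : ∑ b ∈ B, ∑ y ∈ Yb d n i o m r b,
        ∫ η, chi ρ β h n t a τ i o b η * pe β h η (J2 (n := n) τ t i o b y) ∂(law d ρ) =
      ∫ η, ∑ b ∈ B, ∑ y ∈ Yb d n i o m r b,
        chi ρ β h n t a τ i o b η * pe β h η (J2 (n := n) τ t i o b y) ∂(law d ρ) := by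
    rw [integral_finsetSum _ fun b _ => integrable_finsetSum _ fun y _ => hint b y]
    refine Finset.sum_congr rfl fun b _ => ?_
    rw [integral_finsetSum _ fun y _ => hint b y]
  rw [h1]
  unfold Tl
  refine integral_mono (integrable_finsetSum _ fun b _ => integrable_finsetSum _
    fun y _ => hint b y) (integrable_pe_fun73 hd β h _) fun η => ?_
  show ∑ b ∈ B, ∑ y ∈ Yb d n i o m r b,
      chi ρ β h n t a τ i o b η * pe β h η (J2 (n := n) τ t i o b y) ≤
    pe β h η (fun s : Fin n → Step d => if r < inc τ t m s then (1 : ℝ) else 0)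
  simp_rw [← pe_mul73, ← pe_sum73]
  exact pe_mono73 hd β h η fun s => W1 (ρ := ρ) β h τ t i a o m hr B η s

open Classical in
/-- The blocks carry the mass one. -/
lemma qb_sum (hd : 0 < d) (β : ℝ) (h : Vec d) (n t i : ℕ) (o : Site d) (η : Env d) :
    ∑ b ∈ (boxF d n).image (blk i o), qb β h n t i o b η = 1 := by
  unfold qb
  rw [← pe_sum73]
  have h1 : (fun s : Fin n → Step d => ∑ b ∈ (boxF d n).image (blk i o),
      if blk i o (pos s t) = b then (1 : ℝ) else 0) = fun _ => 1 := by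
    funext s
    rw [Finset.sum_ite_eq, if_pos (Finset.mem_image_of_mem _ (pos_mem_box s t))]
  rw [h1, pe_const73 hd]

/-- **Leaf LOW.** -/
theorem lowP56 [IsProbabilityMeasure ρ] (hd : 0 < d) {β : ℝ} (hS : SibP d ρ β)
    (hL : LoaP d ρ β) : LowP d ρ β := by
  classical
  obtain ⟨q, c, hc0, hc1, hS⟩ := hS
  refine ⟨c, hc0, hc1, ?_⟩
  intro h n τ t hτ1 hτt htn m r g a i o hr hg hgd ha
  have hsib : ∀ b y : Site d,
      c * (∫ η, chi ρ β h n t a τ i o b η * pe2 β h η (J3 (n := n) τ t i o b y) ∂(law d ρ)) -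
        (∫ η, chi ρ β h n t a τ i o b η * pe β h η (J2 (n := n) τ t i o b y) ∂(law d ρ)) ≤
      ∫ η, chi ρ β h n t a τ i o b η * (zt ρ q (η (τ, y)) * qb β h n t i o b η) ∂(law d ρ) := by
    intro b y
    have h1 := hS h n τ hτ1 (hτt.le.trans htn) y (Fr t i o b) (chi ρ β h n t a τ i o b)
      (chi_meas β h n t a τ i o b) (fun η => chi01 β h t a τ i o b η)
      (chi_dep β h n t a hτ1 i o b y)
    refine h1.trans (le_of_eq ?_)
    congr 1
    funext η
    congr 2
    unfold qb
    congr 1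
    funext s
    unfold Fr
    by_cases hb : blk i o (pos s t) = b
    · rw [if_pos (not_not.2 hb), if_pos hb]
    · rw [if_neg (fun hh => hb (not_not.1 hh)), if_neg hb]
  have hztb : ∀ (b y : Site d) (η : Env d), |zt ρ q (η (τ, y)) * qb β h n t i o b η| ≤ 1 := by
    intro b y η
    rw [abs_mul]
    have h1 := zt_abs64 ρ q (η (τ, y))
    have h2 := qb_01 hd β h n t i o b η
    rw [abs_of_nonneg h2.1]
    nlinarith [abs_nonneg (zt ρ q (η (τ, y)))]
  have hint3 : ∀ b y : Site d, Integrable (fun η => chi ρ β h n t a τ i o b η *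
      (zt ρ q (η (τ, y)) * qb β h n t i o b η)) (law d ρ) := fun b y =>
    int56 β h n t a τ i o b (((zt_meas64 ρ q).comp (measurable_pi_apply _)).mul
      (qb_meas β h n t i o b)).aestronglyMeasurable (hztb b y)
  have hcard : ∀ b : Site d, ((Yb d n i o m r b).card : ℝ) ≤ 2 ^ (d * i) := fun b => by
    exact_mod_cast card56 n i o m hr b
  have hM0 : ∀ b : Site d,
      0 ≤ ∫ η, chi ρ β h n t a τ i o b η * qb β h n t i o b η ∂(law d ρ) := fun b =>
    integral_nonneg fun η => mul_nonneg (chi01 β h t a τ i o b η).1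
      (qb_01 hd β h n t i o b η).1
  have hloa : ∀ b : Site d, g * ∑ y ∈ Yb d n i o m r b,
      ∫ η, chi ρ β h n t a τ i o b η * (zt ρ q (η (τ, y)) * qb β h n t i o b η) ∂(law d ρ) ≤
      2 * (a + g ^ 2 * 2 ^ (d * i)) *
        ∫ η, chi ρ β h n t a τ i o b η * qb β h n t i o b η ∂(law d ρ) := by
    intro b
    have h0 : g * (Yb d n i o m r b).card ≤ 1 / 2 :=
      (mul_le_mul_of_nonneg_left (hcard b) hg).trans hgd
    have h1 := hL q h n τ t hτ1 hτt htn g a i o b (Yb d n i o m r b) hg h0 ha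
    have h2 : ∑ y ∈ Yb d n i o m r b,
        ∫ η, chi ρ β h n t a τ i o b η * (zt ρ q (η (τ, y)) * qb β h n t i o b η) ∂(law d ρ) =
        ∫ η, chi ρ β h n t a τ i o b η *
          ((∑ y ∈ Yb d n i o m r b, zt ρ q (η (τ, y))) * qb β h n t i o b η) ∂(law d ρ) := by
      rw [← integral_finsetSum _ fun y _ => hint3 b y]
      congr 1
      funext η
      rw [Finset.sum_mul, Finset.mul_sum]
    rw [h2]
    refine le_trans h1 (mul_le_mul_of_nonneg_right ?_ (hM0 b))
    have h3 := mul_le_mul_of_nonneg_left (hcard b) (sq_nonneg g)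
    linarith
  have hT1 := sumT1 (n := n) (ρ := ρ) hd β h τ t i a o m r
  have hT2 := sumT2 (n := n) (ρ := ρ) hd β h τ t i a o m hr ((boxF d n).image (blk i o))
  have hmass : ∑ b ∈ (boxF d n).image (blk i o),
      ∫ η, chi ρ β h n t a τ i o b η * qb β h n t i o b η ∂(law d ρ) ≤ 1 := by
    have hqi : ∀ b : Site d, Integrable (qb β h n t i o b) (law d ρ) := fun b => by
      refine Integrable.mono' (integrable_const 1) (qb_meas β h n t i o b).aestronglyMeasurable
        (ae_of_all _ fun η => ?_)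
      have h2 := qb_01 hd β h n t i o b η
      rw [Real.norm_eq_abs, abs_of_nonneg h2.1]
      exact h2.2
    have h1 : ∀ b ∈ (boxF d n).image (blk i o),
        ∫ η, chi ρ β h n t a τ i o b η * qb β h n t i o b η ∂(law d ρ) ≤
        ∫ η, qb β h n t i o b η ∂(law d ρ) := by
      intro b _
      refine integral_mono (int56 β h n t a τ i o b (qb_meas β h n t i o b).aestronglyMeasurable
        fun η => ?_) (hqi b) fun η => ?_
      · have h2 := qb_01 hd β h n t i o b η
        rw [abs_of_nonneg h2.1]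
        exact h2.2
      · show chi ρ β h n t a τ i o b η * qb β h n t i o b η ≤ qb β h n t i o b η
        have h2 := qb_01 hd β h n t i o b η
        have h3 := chi01 (ρ := ρ) (n := n) β h t a τ i o b η
        nlinarith
    refine (Finset.sum_le_sum h1).trans ?_
    rw [← integral_finsetSum _ fun b _ => hqi b]
    simp_rw [qb_sum hd β h n t i o]
    simp
  have hS1 : ∑ b ∈ (boxF d n).image (blk i o), ∑ y ∈ Yb d n i o m r b,
      (c * (∫ η, chi ρ β h n t a τ i o b η * pe2 β h η (J3 (n := n) τ t i o b y) ∂(law d ρ)) -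
        (∫ η, chi ρ β h n t a τ i o b η * pe β h η (J2 (n := n) τ t i o b y) ∂(law d ρ))) ≤
      ∑ b ∈ (boxF d n).image (blk i o), ∑ y ∈ Yb d n i o m r b,
        ∫ η, chi ρ β h n t a τ i o b η * (zt ρ q (η (τ, y)) * qb β h n t i o b η) ∂(law d ρ) :=
    Finset.sum_le_sum fun b _ => Finset.sum_le_sum fun y _ => hsib b y
  simp only [Finset.sum_sub_distrib, ← Finset.mul_sum] at hS1
  have hS2 : g * ∑ b ∈ (boxF d n).image (blk i o), ∑ y ∈ Yb d n i o m r b,
        ∫ η, chi ρ β h n t a τ i o b η * (zt ρ q (η (τ, y)) * qb β h n t i o b η) ∂(law d ρ) ≤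
      2 * (a + g ^ 2 * 2 ^ (d * i)) := by
    rw [Finset.mul_sum]
    refine (Finset.sum_le_sum fun b _ => hloa b).trans ?_
    rw [← Finset.mul_sum]
    have h1 : 0 ≤ 2 * (a + g ^ 2 * 2 ^ (d * i)) := by positivity
    nlinarith
  refine le_trans (mul_le_mul_of_nonneg_left ?_ hg) hS2
  refine le_trans ?_ hS1
  have h1 := mul_le_mul_of_nonneg_left hT1 hc0.le
  linarith

end Pool.Agent.W_7d29a1_NS.L56
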