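import Pool.Agent.W_7d29a1_NS.DefsN72
import Pool.Agent.W_7d29a1_S90.RpT73
import Mathlib.Data.Int.CardIntervalMod

/-!
Theorem NS, leaf OFF: a random offset of the grid.
-/

set_option autoImplicit false

namespace Pool.Agent.W_7d29a1_NS

open MeasureTheory ProbabilityTheory Filter Topology Pool.Agent.W_MP_7d29a1_pr
  Pool.Agent.W_7d29a1_h46 Pool.Agent.W_7d29a1_h46u Pool.Agent.W_7d29a1_D2.B35
  Pool.Agent.W_7d29a1_Q29 Pool.Agent.W_7d29a1_S90

variable {d : ℕ}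

/-- The integers of `[0, m K)` with a given residue. -/
lemma res44 {m K : ℕ} (hm : 0 < m) (v : ℤ) :
    ((Finset.Ico (0 : ℤ) (m * K)).filter fun u => u ≡ v [ZMOD m]).card ≤ K := by
  have h1 := Int.Ico_filter_modEq_card (0 : ℤ) ((m : ℤ) * K) (r := (m : ℤ))
    (by exact_mod_cast hm) v
  have hm' : ((m : ℤ) : ℚ) ≠ 0 := by
    have : (0 : ℚ) < ((m : ℤ) : ℚ) := by exact_mod_cast hm
    exact this.ne'
  have h2 : (((((m : ℤ) * K : ℤ) : ℚ) - (v : ℚ)) / ((m : ℤ) : ℚ)) =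
      ((((0 : ℤ) : ℚ) - (v : ℚ)) / ((m : ℤ) : ℚ)) + ((K : ℤ) : ℚ) := by
    field_simp
    push_cast
    ring
  rw [h2, Int.ceil_add_intCast] at h1
  have h3 : ((((Finset.Ico (0 : ℤ) (m * K)).filter fun u => u ≡ v [ZMOD m]).card : ℕ) : ℤ) ≤
      (K : ℤ) := by
    rw [h1]
    simp
  exact_mod_cast h3

/-- The bad residues. -/
noncomputable def bad44 (m f : ℕ) : Finset ℤ :=
  (Finset.Ico (0 : ℤ) m).filter fun v => v < f ∨ (m : ℤ) - f ≤ v

lemma bad_card44 (m f : ℕ) : (bad44 m f).card ≤ 2 * f := by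
  have h1 : bad44 m f ⊆ Finset.Ico (0 : ℤ) f ∪ Finset.Ico ((m : ℤ) - f) m := by
    intro v hv
    rw [bad44, Finset.mem_filter, Finset.mem_Ico] at hv
    rw [Finset.mem_union, Finset.mem_Ico, Finset.mem_Ico]
    rcases hv.2 with h | h
    · exact Or.inl ⟨hv.1.1, h⟩
    · exact Or.inr ⟨h, hv.1.2⟩
  refine (Finset.card_le_card h1).trans ((Finset.card_union_le _ _).trans ?_)
  rw [Int.card_Ico, Int.card_Ico]
  omega

lemma cnt44 {m K : ℕ} (hm : 0 < m) (f : ℕ) (x : ℤ) :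
    ((Finset.Ico (0 : ℤ) (m * K)).filter fun u => (x + u) % m ∈ bad44 m f).card ≤
      2 * f * K := by
  classical
  have h1 : ((Finset.Ico (0 : ℤ) (m * K)).filter fun u => (x + u) % m ∈ bad44 m f) ⊆
      (bad44 m f).biUnion fun v =>
        (Finset.Ico (0 : ℤ) (m * K)).filter fun u => u ≡ v - x [ZMOD m] := by
    intro u hu
    rw [Finset.mem_filter] at hu
    rw [Finset.mem_biUnion]
    refine ⟨(x + u) % m, hu.2, ?_⟩
    rw [Finset.mem_filter]
    refine ⟨hu.1, ?_⟩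
    have h2 : (x + u) % m ≡ x + u [ZMOD m] := Int.mod_modEq _ _
    have h3 := (h2.sub_right x).symm
    rwa [add_sub_cancel_left] at h3
  refine (Finset.card_le_card h1).trans (Finset.card_biUnion_le.trans ?_)
  refine (Finset.sum_le_sum fun v _ => res44 (K := K) hm (v - x)).trans ?_
  rw [Finset.sum_const, smul_eq_mul]
  exact Nat.mul_le_mul_right K (bad_card44 m f)

/-- Two points in different blocks. -/
lemma blk44 {i : ℕ} {o x z : Site d} {r : ℝ} (hb : blk i o z ≠ blk i o x)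
    (hz : ‖emb z - emb x‖ ≤ r) : ∃ j, (x j + o j) % ((2 ^ i : ℕ) : ℤ) ∈ bad44 (2 ^ i) ⌊r⌋₊ := by
  obtain ⟨j, hj⟩ := Function.ne_iff.1 hb
  refine ⟨j, ?_⟩
  have hj' : (z j + o j) / 2 ^ i ≠ (x j + o j) / 2 ^ i := hj
  have h1 : |(z j : ℝ) - x j| ≤ r := by
    have h2 := PiLp.norm_apply_le (emb z - emb x) j
    have h3 : (emb z - emb x) j = (z j : ℝ) - x j := rfl
    rw [h3, Real.norm_eq_abs] at h2
    exact h2.trans hz
  have h2 : |z j - x j| ≤ (⌊r⌋₊ : ℤ) := by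
    have h3 : ((|z j - x j| : ℤ) : ℝ) ≤ r := by
      push_cast
      exact h1
    have h4 : ((|z j - x j|).toNat : ℝ) ≤ r := by
      have h5 : (((|z j - x j|).toNat : ℤ) : ℝ) = ((|z j - x j| : ℤ) : ℝ) := by
        rw [Int.toNat_of_nonneg (abs_nonneg _)]
      have h6 : ((|z j - x j|).toNat : ℝ) = (((|z j - x j|).toNat : ℤ) : ℝ) := by push_cast; rfl
      rw [h6, h5]
      exact h3
    have h5 := Nat.le_floor h4
    have h6 := Int.toNat_of_nonneg (abs_nonneg (z j - x j))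
    omega
  have hm : (0 : ℤ) < ((2 ^ i : ℕ) : ℤ) := by positivity
  set m : ℕ := 2 ^ i with hmdef
  have hmz : (2 : ℤ) ^ i = (m : ℤ) := by rw [hmdef]; push_cast; rfl
  rw [hmz] at hj'
  rw [bad44, Finset.mem_filter, Finset.mem_Ico]
  have h3 := Int.emod_nonneg (x j + o j) hm.ne'
  have h4 := Int.emod_lt_of_pos (x j + o j) hm
  refine ⟨⟨h3, h4⟩, ?_⟩
  by_contra hn
  rw [not_or, not_lt, not_le] at hn
  rw [abs_le] at h2
  apply hj'
  have h5 := Int.emod_add_mul_ediv (x j + o j) m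
  have h6 : z j + o j = ((x j + o j) % m + (z j - x j)) + m * ((x j + o j) / m) := by
    linarith
  have h7 : (z j + o j) / m = (x j + o j) / m := by
    rw [h6, Int.add_mul_ediv_left _ _ hm.ne', Int.ediv_eq_zero_of_lt (by omega) (by omega),
      zero_add]
  exact h7

/-- The box of the offsets. -/
noncomputable def off44 (d M : ℕ) : Finset (Site d) :=
  Fintype.piFinset fun _ : Fin d => Finset.Ico (0 : ℤ) ((2 ^ M : ℕ) : ℤ)

lemma off_pos44 (d M : ℕ) : (off44 d M).Nonempty := by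
  refine ⟨fun _ => 0, ?_⟩
  rw [off44, Fintype.mem_piFinset]
  intro j
  rw [Finset.mem_Ico]
  exact ⟨le_rfl, by positivity⟩

/-- One coordinate. -/
lemma coord44 {M i : ℕ} (hi : i ≤ M) (f : ℕ) (x : Site d) (j : Fin d) :
    2 ^ i * ((off44 d M).filter fun o => (x j + o j) % ((2 ^ i : ℕ) : ℤ) ∈
      bad44 (2 ^ i) f).card ≤ 2 * f * (off44 d M).card := by
  classical
  obtain ⟨k, rfl⟩ := Nat.exists_eq_add_of_le hi
  set Fj := (Finset.Ico (0 : ℤ) ((2 ^ (i + k) : ℕ) : ℤ)).filter fun u =>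
    (x j + u) % ((2 ^ i : ℕ) : ℤ) ∈ bad44 (2 ^ i) f with hFj
  have h0 : (2 ^ i : ℕ) * 2 ^ k = 2 ^ (i + k) := (pow_add 2 i k).symm
  have h1 : Fj.card ≤ 2 * f * 2 ^ k := by
    have h2 := cnt44 (m := 2 ^ i) (K := 2 ^ k) (by positivity) f (x j)
    have h3 : (((2 ^ i : ℕ) : ℤ) * ((2 ^ k : ℕ) : ℤ)) = ((2 ^ (i + k) : ℕ) : ℤ) := by
      rw [← Nat.cast_mul, h0]
    rw [h3] at h2
    exact h2
  have h2 : ((off44 d (i + k)).filter fun o => (x j + o j) % ((2 ^ i : ℕ) : ℤ) ∈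
      bad44 (2 ^ i) f) = Fintype.piFinset (Function.update
        (fun _ : Fin d => Finset.Ico (0 : ℤ) ((2 ^ (i + k) : ℕ) : ℤ)) j Fj) := by
    ext o
    rw [Finset.mem_filter, off44, Fintype.mem_piFinset, Fintype.mem_piFinset]
    constructor
    · rintro ⟨h3, h4⟩ l
      by_cases hl : l = j
      · subst hl
        rw [Function.update_self, hFj, Finset.mem_filter]
        exact ⟨h3 l, h4⟩
      · rw [Function.update_of_ne hl]
        exact h3 l
    · intro h3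
      have h4 := h3 j
      rw [Function.update_self, hFj, Finset.mem_filter] at h4
      refine ⟨fun l => ?_, h4.2⟩
      by_cases hl : l = j
      · subst hl
        exact h4.1
      · have h5 := h3 l
        rwa [Function.update_of_ne hl] at h5
  rw [h2, Fintype.card_piFinset, off44, Fintype.card_piFinset,
    ← Finset.mul_prod_erase Finset.univ _ (Finset.mem_univ j),
    ← Finset.mul_prod_erase Finset.univ (fun _ : Fin d =>
      (Finset.Ico (0 : ℤ) ((2 ^ (i + k) : ℕ) : ℤ)).card) (Finset.mem_univ j)]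
  have h3 : ∏ l ∈ Finset.univ.erase j, (Function.update
        (fun _ : Fin d => Finset.Ico (0 : ℤ) ((2 ^ (i + k) : ℕ) : ℤ)) j Fj l).card =
      ∏ l ∈ Finset.univ.erase j, (Finset.Ico (0 : ℤ) ((2 ^ (i + k) : ℕ) : ℤ)).card := by
    refine Finset.prod_congr rfl fun l hl => ?_
    rw [Function.update_of_ne (Finset.ne_of_mem_erase hl)]
  rw [h3, Function.update_self]
  have h4 : (Finset.Ico (0 : ℤ) ((2 ^ (i + k) : ℕ) : ℤ)).card = 2 ^ (i + k) := by
    rw [Int.card_Ico, sub_zero]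
    exact Int.toNat_natCast _
  rw [h4]
  calc 2 ^ i * (Fj.card * ∏ l ∈ Finset.univ.erase j, 2 ^ (i + k))
      ≤ 2 ^ i * ((2 * f * 2 ^ k) * ∏ l ∈ Finset.univ.erase j, 2 ^ (i + k)) :=
        Nat.mul_le_mul_left _ (Nat.mul_le_mul_right _ h1)
    _ = 2 * f * (2 ^ (i + k) * ∏ l ∈ Finset.univ.erase j, 2 ^ (i + k)) := by
        rw [← h0]
        ring

open Classical in
/-- The average over the offsets. -/
lemma avg44 {M i : ℕ} (hi : i ≤ M) {r : ℝ} (hr : 0 ≤ r) (x : Site d) :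
    ∑ o ∈ off44 d M, (if ∃ z : Site d, blk i o z ≠ blk i o x ∧ ‖emb z - emb x‖ ≤ r
      then (1 : ℝ) else 0) ≤ (off44 d M).card * (2 * d * r / 2 ^ i) := by
  have h1 : ∀ o ∈ off44 d M, (if ∃ z : Site d, blk i o z ≠ blk i o x ∧ ‖emb z - emb x‖ ≤ r
      then (1 : ℝ) else 0) ≤ ∑ j : Fin d, if (x j + o j) % ((2 ^ i : ℕ) : ℤ) ∈
        bad44 (2 ^ i) ⌊r⌋₊ then (1 : ℝ) else 0 := by
    intro o _
    by_cases h : ∃ z : Site d, blk i o z ≠ blk i o x ∧ ‖emb z - emb x‖ ≤ r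
    · rw [if_pos h]
      obtain ⟨z, h2, h3⟩ := h
      obtain ⟨j, hj⟩ := blk44 h2 h3
      refine le_trans ?_ (Finset.single_le_sum (f := fun j : Fin d =>
        if (x j + o j) % ((2 ^ i : ℕ) : ℤ) ∈ bad44 (2 ^ i) ⌊r⌋₊ then (1 : ℝ) else 0)
        (fun j _ => by positivity) (Finset.mem_univ j))
      rw [if_pos hj]
    · rw [if_neg h]
      exact Finset.sum_nonneg fun j _ => by positivity
  refine (Finset.sum_le_sum h1).trans ?_
  rw [Finset.sum_comm]
  have h2 : ∀ j ∈ (Finset.univ : Finset (Fin d)), ∑ o ∈ off44 d M,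
      (if (x j + o j) % ((2 ^ i : ℕ) : ℤ) ∈ bad44 (2 ^ i) ⌊r⌋₊ then (1 : ℝ) else 0) ≤
      (off44 d M).card * (2 * r / 2 ^ i) := by
    intro j _
    have h3 := coord44 hi ⌊r⌋₊ x j
    rw [← Finset.sum_filter, Finset.sum_const, nsmul_eq_mul, mul_one]
    have h4 : ((2 : ℝ) ^ i) * (((off44 d M).filter fun o => (x j + o j) % ((2 ^ i : ℕ) : ℤ) ∈
      bad44 (2 ^ i) ⌊r⌋₊).card : ℝ) ≤ 2 * (⌊r⌋₊ : ℝ) * ((off44 d M).card : ℝ) := by
      exact_mod_cast h3
    have h5 : (⌊r⌋₊ : ℝ) ≤ r := Nat.floor_le hr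
    have h6 : (0 : ℝ) < 2 ^ i := by positivity
    have h7 : (0 : ℝ) ≤ ((off44 d M).card : ℝ) := Nat.cast_nonneg _
    rw [← mul_div_assoc, le_div_iff₀ h6]
    nlinarith [mul_le_mul_of_nonneg_right h5 h7]
  refine (Finset.sum_le_sum h2).trans (le_of_eq ?_)
  rw [Finset.sum_const, Finset.card_univ, Fintype.card_fin, nsmul_eq_mul]
  ring

open Classical in
/-- **Leaf OFF.** -/
theorem offP44 (hd : 0 < d) {ρ : Measure ℝ} [IsProbabilityMeasure ρ] (β : ℝ) :
    OffP d ρ β := by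
  intro h n t S lev w r hw hr
  set M := S.sup lev with hM
  have key : ∀ s ∈ S, ∑ o ∈ off44 d M, Nb ρ β h n t (lev s) o (r s) ≤
      (off44 d M).card * (2 * d * r s / 2 ^ lev s) := by
    intro s hs
    have hi : lev s ≤ M := Finset.le_sup hs
    unfold Nb
    rw [← integral_finsetSum _ fun o _ => integrable_pe_fun73 hd β h _]
    have h1 : ∀ η : Env d, ∑ o ∈ off44 d M, pe β h η (fun s' : Fin n → Step d =>
        if ∃ z : Site d, blk (lev s) o z ≠ blk (lev s) o (pos s' t) ∧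
          ‖emb z - emb (pos s' t)‖ ≤ r s then (1 : ℝ) else 0) ≤
        (off44 d M).card * (2 * d * r s / 2 ^ lev s) := by
      intro η
      rw [← pe_sum73]
      have h2 := pe_mono73 hd β h η (f := fun s' : Fin n → Step d => ∑ o ∈ off44 d M,
        if ∃ z : Site d, blk (lev s) o z ≠ blk (lev s) o (pos s' t) ∧
          ‖emb z - emb (pos s' t)‖ ≤ r s then (1 : ℝ) else 0)
        (g := fun _ => (off44 d M).card * (2 * d * r s / 2 ^ lev s))
        fun s' => avg44 hi (hr s hs) (pos s' t)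
      rwa [pe_const73 hd] at h2
    refine (integral_mono (integrable_finsetSum _ fun o _ => integrable_pe_fun73 hd β h _)
      (integrable_const _) h1).trans ?_
    rw [integral_const, probReal_univ, one_smul]
  have h1 : ∑ o ∈ off44 d M, ∑ s ∈ S, w s * Nb ρ β h n t (lev s) o (r s) ≤
      ∑ _o ∈ off44 d M, ∑ s ∈ S, w s * (2 * d * r s / 2 ^ lev s) := by
    rw [Finset.sum_comm, Finset.sum_const, nsmul_eq_mul, Finset.mul_sum]
    refine Finset.sum_le_sum fun s hs => ?_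
    rw [← Finset.mul_sum]
    have h2 := mul_le_mul_of_nonneg_left (key s hs) (hw s hs)
    linarith
  obtain ⟨o, -, ho⟩ := Finset.exists_le_of_sum_le (off_pos44 d M) h1
  exact ⟨o, ho⟩

end Pool.Agent.W_7d29a1_NS
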