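import Pool.Agent.W_7d29a1_NS.TypA72

/-!
Leaf TYP of Theorem NS: typical concentration, from the leaves LOW, TYA and OFF.
-/

namespace Pool.Agent.W_7d29a1_NS

open MeasureTheory ProbabilityTheory Filter Topology Pool.Agent.W_MP_7d29a1_pr
  Pool.Agent.W_7d29a1_h46 Pool.Agent.W_7d29a1_h46u Pool.Agent.W_7d29a1_D2.B35
  Pool.Agent.W_7d29a1_Q29 Pool.Agent.W_7d29a1_S90

variable {ρ : Measure ℝ} {β : ℝ}

/-- The level used for the row at distance `s`. -/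
noncomputable def lv72 (K L : ℝ) (s : ℕ) : ℕ := Nat.clog 2 ⌈L * Real.sqrt (K * s)⌉₊

lemma lv_mono72 {K L : ℝ} (hK : 0 ≤ K) (hL : 0 ≤ L) {s s' : ℕ} (h : s ≤ s') :
    lv72 K L s ≤ lv72 K L s' := by
  unfold lv72
  refine Nat.clog_mono_right 2 (Nat.ceil_mono (mul_le_mul_of_nonneg_left ?_ hL))
  have : (s : ℝ) ≤ s' := by exact_mod_cast h
  exact Real.sqrt_le_sqrt (mul_le_mul_of_nonneg_left this hK)

lemma lv_bd72 {K L : ℝ} (hK : 4 ≤ K) (hL : 1 ≤ L) {s : ℕ} (hs : 1 ≤ s) :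
    2 ≤ Real.sqrt (K * s) ∧ L * Real.sqrt (K * s) ≤ 2 ^ lv72 K L s ∧
      (2 : ℝ) ^ lv72 K L s ≤ 4 * (L * Real.sqrt (K * s)) := by
  have hs' : (1 : ℝ) ≤ s := by exact_mod_cast hs
  have h1 : 2 ≤ Real.sqrt (K * s) := by
    refine Real.le_sqrt_of_sq_le ?_
    nlinarith
  have h2 : 1 ≤ L * Real.sqrt (K * s) := by nlinarith
  exact ⟨h1, (clog72 h2).1, (clog72 h2).2⟩

/-- One row. -/
lemma lo72 [IsProbabilityMeasure ρ] {cL : ℝ} (hcL : 0 < cL) (hcL1 : cL ≤ 1)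
    (hlow : ∀ (h : Vec 2) (n τ t : ℕ), 1 ≤ τ → τ < t → t ≤ n →
      ∀ (m : Vec 2) (r g a : ℝ) (i : ℕ) (o : Site 2), ((2 : ℕ) : ℝ) ≤ r → 0 ≤ g →
        g * 2 ^ (2 * i) ≤ 1 / 2 → 0 ≤ a →
        g * (cL * (Lo ρ β h n t a τ i o - 2 * Tl ρ β h n τ t m r - Nb ρ β h n t i o (2 * r)) -
          Tl ρ β h n τ t m r) ≤ 2 * (a + g ^ 2 * 2 ^ (2 * i)))
    {R κ K L γ M : ℝ} (hR : 1 ≤ R) (hκ : 0 < κ) (hK : 4 ≤ K) (hK2 : 48 * R ≤ cL * κ * K)
    (hL : 1 ≤ L) (hγ : 0 < γ) (hM : M = 16 * L ^ 2 * K) (hγ1 : M * γ ≤ 1 / 2)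
    (hγ2 : 32 * γ * (1 + M) ≤ cL * κ) {h : Vec 2} {n σ t s : ℕ} (hσ : 1 ≤ σ) (hs : 1 ≤ s)
    (hst : σ + s = t) (htn : t ≤ n) (m : Vec 2)
    (hm : ∫ η, pe β h η (fun w : Fin n → Step 2 => inc σ t m w ^ 2) ∂(law 2 ρ) ≤ R * s)
    (o : Site 2) :
    Lo ρ β h n t (γ ^ 2 / s) σ (lv72 K L s) o ≤
      Nb ρ β h n t (lv72 K L s) o (2 * Real.sqrt (K * s)) + κ / 8 := by
  obtain ⟨b1, b2, b3⟩ := lv_bd72 hK hL hs
  have hs' : (1 : ℝ) ≤ s := by exact_mod_cast hs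
  have hs0 : (0 : ℝ) < s := by linarith
  obtain ⟨i, hi⟩ : ∃ i, i = lv72 K L s := ⟨_, rfl⟩
  rw [← hi] at b2 b3 ⊢
  obtain ⟨r, hr⟩ : ∃ r, r = Real.sqrt (K * s) := ⟨_, rfl⟩
  rw [← hr] at b1 b2 b3 ⊢
  have hr2 : r ^ 2 = K * s := by
    rw [hr, Real.sq_sqrt (by positivity)]
  have h4 : (2 : ℝ) ^ (2 * i) ≤ M * s := by
    rw [pow_mul', hM]
    calc ((2 : ℝ) ^ i) ^ 2 ≤ (4 * (L * r)) ^ 2 := pow_le_pow_left₀ (by positivity) b3 2
      _ = 16 * L ^ 2 * (r ^ 2) := by ring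
      _ = 16 * L ^ 2 * K * s := by rw [hr2]; ring
  have hMp : 0 < M := by rw [hM]; positivity
  have hT : Tl ρ β h n σ t m r ≤ R / K := by
    have h5 := tlC99 (β := β) (by norm_num : 0 < 2) h n σ t m (by linarith : 0 < r) hm
    refine h5.trans (le_of_eq ?_)
    rw [hr2]
    field_simp
  have hg1 : γ / s * 2 ^ (2 * i) ≤ M * γ := by
    rw [div_mul_eq_mul_div, div_le_iff₀ hs0]
    nlinarith
  have h6 := hlow h n σ t hσ (by omega) htn m r (γ / s) (γ ^ 2 / s) i o (by exact_mod_cast b1)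
    (by positivity) (hg1.trans hγ1) (by positivity)
  obtain ⟨X, hX⟩ : ∃ X, X = cL * (Lo ρ β h n t (γ ^ 2 / s) σ i o - 2 * Tl ρ β h n σ t m r -
    Nb ρ β h n t i o (2 * r)) - Tl ρ β h n σ t m r := ⟨_, rfl⟩
  rw [← hX] at h6
  have h7 : X ≤ 2 * γ * (1 + M) := by
    have h8 : γ / s * X ≤ γ / s * (2 * γ * (1 + M)) := by
      refine h6.trans ?_
      have e1 : γ / s * (2 * γ * (1 + M)) = 2 * (γ ^ 2 / s + γ / s * (M * γ)) := by
        field_simp
      rw [e1]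
      have e2 : (γ / s) ^ 2 * 2 ^ (2 * i) = γ / s * (γ / s * 2 ^ (2 * i)) := by ring
      rw [e2]
      have := mul_le_mul_of_nonneg_left hg1 (by positivity : 0 ≤ γ / s)
      linarith
    exact le_of_mul_le_mul_left h8 (by positivity)
  have h9 : R / K ≤ cL * κ / 48 := by
    rw [div_le_iff₀ (by linarith)]
    linarith
  have h10 : cL * (Lo ρ β h n t (γ ^ 2 / s) σ i o - Nb ρ β h n t i o (2 * r)) ≤
      cL * (κ / 8) := by
    have h11 : cL * Tl ρ β h n σ t m r ≤ cL * κ / 48 :=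
      (mul_le_mul_of_nonneg_left (hT.trans h9) hcL.le).trans
        (by
          have : cL * (cL * κ / 48) ≤ 1 * (cL * κ / 48) :=
            mul_le_mul_of_nonneg_right hcL1 (by positivity)
          linarith)
    have h12 := hT.trans h9
    nlinarith
  have h13 := le_of_mul_le_mul_left h10 hcL
  linarith

/-- The constants. -/
lemma const72 {cL R κ : ℝ} (hcL : 0 < cL) (hR : 1 ≤ R) (hκ : 0 < κ) :
    ∃ K L γ M K₀ : ℝ, 4 ≤ K ∧ 48 * R ≤ cL * κ * K ∧ 1 ≤ L ∧ 128 ≤ κ * L ∧ 0 < γ ∧ γ ≤ 1 ∧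
      M = 16 * L ^ 2 * K ∧ M * γ ≤ 1 / 2 ∧ 32 * γ * (1 + M) ≤ cL * κ ∧ 1 ≤ K₀ ∧
      2 * R ≤ κ * K₀ ^ 2 := by
  refine ⟨max 4 (48 * R / (cL * κ)), max 1 (128 / κ),
    min (1 / (2 * (16 * (max 1 (128 / κ)) ^ 2 * max 4 (48 * R / (cL * κ)))))
      (min 1 (cL * κ / (32 * (1 + 16 * (max 1 (128 / κ)) ^ 2 * max 4 (48 * R / (cL * κ)))))),
    _, max 1 (2 * R / κ), le_max_left _ _, ?_, le_max_left _ _, ?_, ?_, ?_, rfl, ?_, ?_,
    le_max_left _ _, ?_⟩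
  · have h1 := le_max_right 4 (48 * R / (cL * κ))
    rw [div_le_iff₀ (by positivity)] at h1
    linarith
  · have h1 := le_max_right 1 (128 / κ)
    rw [div_le_iff₀ hκ] at h1
    linarith
  · positivity
  · exact (min_le_right _ _).trans (min_le_left _ _)
  · obtain ⟨M, hM⟩ : ∃ M, M = 16 * (max 1 (128 / κ)) ^ 2 * max 4 (48 * R / (cL * κ)) := ⟨_, rfl⟩
    have hMp : 0 < M := by rw [hM]; positivity
    rw [← hM]
    have h1 := min_le_left (1 / (2 * M)) (min 1 (cL * κ / (32 * (1 + M))))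
    rw [le_div_iff₀ (by positivity)] at h1
    linarith
  · obtain ⟨M, hM⟩ : ∃ M, M = 16 * (max 1 (128 / κ)) ^ 2 * max 4 (48 * R / (cL * κ)) := ⟨_, rfl⟩
    have hMp : 0 < M := by rw [hM]; positivity
    rw [← hM]
    have h1 := (min_le_right (1 / (2 * M)) (min 1 (cL * κ / (32 * (1 + M))))).trans
      (min_le_right _ _)
    rw [le_div_iff₀ (by positivity)] at h1
    linarith
  · have h0 := le_max_left 1 (2 * R / κ)
    have h1 := le_max_right 1 (2 * R / κ)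
    rw [div_le_iff₀ hκ] at h1
    nlinarith [mul_nonneg hκ.le (sub_nonneg.2 h0), mul_nonneg (mul_nonneg hκ.le
      (sub_nonneg.2 h0)) (by linarith : 0 ≤ max 1 (2 * R / κ))]

open Classical in
/-- **Leaf TYP.** -/
theorem typN72 [IsProbabilityMeasure ρ] (hL : LowP 2 ρ β) (hT : TyaP 2 ρ β) (hO : OffP 2 ρ β) :
    TypN ρ β := by
  intro R κ hR hκ
  obtain ⟨cL, hcL, hcL1, hlow⟩ := hL
  obtain ⟨K, L, γ, M, K₀, hK, hK2, hL1, hL2, hγ, hγ1, hM, hMγ, hγ2, hK₀, hK₀2⟩ :=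
    const72 hcL hR hκ
  have hM64 : 64 ≤ M := by
    rw [hM]
    nlinarith [mul_le_mul hK (one_le_pow₀ hL1 : 1 ≤ L ^ 2) zero_le_one (by linarith : 0 ≤ K)]
  refine ⟨γ ^ 2 / 2, 16 * M + 8 * M * (2 * K₀ + 7), by positivity, by nlinarith,
    by nlinarith [mul_nonneg (by linarith : (0 : ℝ) ≤ M) (by linarith : (0 : ℝ) ≤ K₀)],
    fun h n t w D Λ hw htn hD hwD hDt hΛ hW => ?_⟩
  have hCw : 16 * M * w ≤ D ^ 2 := by
    refine le_trans ?_ hwD
    refine mul_le_mul_of_nonneg_right ?_ (by linarith)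
    nlinarith [mul_nonneg (by linarith : (0 : ℝ) ≤ M) (by linarith : (0 : ℝ) ≤ K₀)]
  have hD0 : 16 * M ≤ D ^ 2 := by nlinarith
  have ht1 : (1 : ℝ) ≤ t := by linarith
  have ht0 : (0 : ℝ) < t := by linarith
  have htN : 1 ≤ t := by exact_mod_cast ht1
  obtain ⟨s₁, hs₁⟩ : ∃ s₁ : ℕ, s₁ = ⌊D ^ 2 / (4 * M)⌋₊ := ⟨_, rfl⟩
  have hs1 : (s₁ : ℝ) ≤ D ^ 2 / (4 * M) := by
    rw [hs₁]
    exact Nat.floor_le (by positivity)
  have hs2 : D ^ 2 / (4 * M) < s₁ + 1 := by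
    rw [hs₁]
    exact Nat.lt_floor_add_one _
  have hs1' : (s₁ : ℝ) * (4 * M) ≤ D ^ 2 := by rwa [le_div_iff₀ (by positivity)] at hs1
  have hst : s₁ + 1 ≤ t := by
    have h1 : (s₁ : ℝ) < t := by
      rcases Nat.eq_zero_or_pos s₁ with h2 | h2
      · rw [h2]
        exact_mod_cast htN
      · have h3 : (1 : ℝ) ≤ s₁ := by exact_mod_cast h2
        nlinarith
    exact_mod_cast h1
  obtain ⟨a, ha⟩ : ∃ a : ℕ → ℝ, a = fun σ => if w ≤ ((t - σ : ℕ) : ℝ) then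
    γ ^ 2 / ((t - σ : ℕ) : ℝ) else 0 := ⟨_, rfl⟩
  obtain ⟨lev, hlev⟩ : ∃ lev : ℕ → ℕ, lev = fun σ => lv72 K L (t - σ) := ⟨_, rfl⟩
  have ha0 : ∀ σ, 0 ≤ a σ := fun σ => by
    rw [ha]
    show 0 ≤ (if w ≤ ((t - σ : ℕ) : ℝ) then γ ^ 2 / ((t - σ : ℕ) : ℝ) else 0)
    split_ifs
    · positivity
    · exact le_rfl
  have hanti : Antitone lev := by
    intro σ σ' hσ
    rw [hlev]
    exact lv_mono72 (by linarith) (by linarith) (by omega)
  -- the levels are small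
  have hlevD : ∀ s : ℕ, 1 ≤ s → s ≤ s₁ → 2 * (2 : ℝ) ^ lv72 K L s ≤ D := by
    intro s h1 h2
    obtain ⟨_, _, b3⟩ := lv_bd72 hK hL1 h1
    have h3 : (s : ℝ) ≤ s₁ := by exact_mod_cast h2
    have h4 : (8 * (L * Real.sqrt (K * s))) ^ 2 ≤ D ^ 2 := by
      have h5 : Real.sqrt (K * s) ^ 2 = K * s := Real.sq_sqrt (by positivity)
      calc (8 * (L * Real.sqrt (K * s))) ^ 2 = 64 * L ^ 2 * (Real.sqrt (K * s) ^ 2) := by ring
        _ = s * (4 * M) := by rw [h5, hM]; ring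
        _ ≤ s₁ * (4 * M) := mul_le_mul_of_nonneg_right h3 (by positivity)
        _ ≤ D ^ 2 := hs1'
    have h5 := abs_le_of_sq_le_sq h4 hD.le
    linarith [h5, le_abs_self (8 * (L * Real.sqrt (K * s)))]
  obtain ⟨N, hN⟩ : ∃ N : ℕ, N = ⌈K₀ * Real.sqrt t⌉₊ := ⟨_, rfl⟩
  have hsq : Real.sqrt t ^ 2 = t := Real.sq_sqrt ht0.le
  have hsq1 : 1 ≤ Real.sqrt t := Real.one_le_sqrt.2 ht1
  have hN1 : K₀ * Real.sqrt t ≤ N := by
    rw [hN]
    exact Nat.le_ceil _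
  have hN2 : (N : ℝ) < K₀ * Real.sqrt t + 1 := by
    rw [hN]
    exact Nat.ceil_lt_add_one (by positivity)
  -- the offset
  obtain ⟨o, ho⟩ := hO h n t (Finset.Ioc (t - s₁ - 1) (t - 1)) lev a
    (fun σ => 2 * Real.sqrt (K * ((t - σ : ℕ) : ℝ))) (fun σ _ => ha0 σ)
    (fun σ _ => by positivity)
  -- the window from the origin
  obtain ⟨m0, hm0⟩ := hW 0 t (by omega) htn (by
    push_cast
    have : w ≤ D ^ 2 := by nlinarith
    linarith)
  obtain ⟨U, hU1, hU2, hU3⟩ := uset72 m0 N (lev (t - s₁ - 1 + 1)) o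
  have hmain := hT h n t (t - s₁ - 1) (by omega) htn a lev o U D (Λ / t) ha0 hanti hU1
  -- the sum of the weights
  obtain ⟨W, hWd⟩ : ∃ W, W = ∑ σ ∈ Finset.Ioc (t - s₁ - 1) (t - 1), a σ := ⟨_, rfl⟩
  have hWl : γ ^ 2 * Real.log (D ^ 2 / (8 * M * w)) ≤ W := by
    have h1 := harm72 hw s₁
    have h2 : W = ∑ s ∈ Finset.Icc 1 s₁, (if w ≤ (s : ℝ) then γ ^ 2 / (s : ℝ) else 0) := by
      rw [hWd, ha]
      exact reidx72 (fun s => if w ≤ (s : ℝ) then γ ^ 2 / (s : ℝ) else 0) hst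
    have h3 : W = γ ^ 2 * ∑ s ∈ Finset.Icc 1 s₁, (if w ≤ (s : ℝ) then 1 / (s : ℝ) else 0) := by
      rw [h2, Finset.mul_sum]
      refine Finset.sum_congr rfl fun s _ => ?_
      split_ifs
      · ring
      · ring
    rw [h3]
    refine mul_le_mul_of_nonneg_left (le_trans (Real.log_le_log (by positivity) ?_) h1)
      (by positivity)
    rw [div_le_div_iff₀ (by positivity) (by positivity)]
    have h4 : D ^ 2 < (s₁ + 1) * (4 * M) := by
      rwa [div_lt_iff₀ (by positivity)] at hs2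
    nlinarith
  have hy : 2 ≤ D ^ 2 / (8 * M * w) := by
    rw [le_div_iff₀ (by positivity)]
    linarith
  have hWp : 0 < W := lt_of_lt_of_le (mul_pos (by positivity) (Real.log_pos (by linarith))) hWl
  rw [← hWd] at hmain
  have hmain2 := hmain (by
    intro σ hσ haσ x z hxz
    rw [Finset.mem_Ioc] at hσ
    refine (blk_dist72 hxz).trans ?_
    rw [hlev]
    exact hlevD (t - σ) (by omega) (by omega)) hWp (by positivity)
  show Ty ρ β h n t D (Λ / t) ≤ _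
  refine hmain2.trans ?_
  -- first term
  have hA : ∫ η, pe β h η (fun s : Fin n → Step 2 => if pos s t ∉ U then (1 : ℝ) else 0)
      ∂(law 2 ρ) ≤ κ / 2 := by
    have hNp : (0 : ℝ) < N := lt_of_lt_of_le (by positivity) hN1
    have h1 := tlC99 (β := β) (by norm_num : 0 < 2) h n 0 t m0 hNp hm0
    have h2 : ∫ η, pe β h η (fun s : Fin n → Step 2 => if pos s t ∉ U then (1 : ℝ) else 0)
        ∂(law 2 ρ) ≤ Tl ρ β h n 0 t m0 N := by
      unfold Tl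
      refine integral_mono (integrable_pe_fun73 (by norm_num) β h _)
        (integrable_pe_fun73 (by norm_num) β h _) fun η => ?_
      refine pe_mono73 (by norm_num) β h η fun s => ?_
      by_cases h3 : pos s t ∈ U
      · rw [if_neg (not_not.2 h3)]
        split_ifs
        · exact zero_le_one
        · exact le_rfl
      · rw [if_pos h3, if_pos]
        by_contra h4
        refine h3 (hU3 _ ?_)
        unfold inc at h4
        rw [pos_zero73, emb_zero73, sub_zero] at h4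
        exact not_lt.1 h4
    refine h2.trans (h1.trans ?_)
    rw [div_le_iff₀ (by positivity)]
    push_cast
    have h3 : (K₀ * Real.sqrt t) ^ 2 ≤ (N : ℝ) ^ 2 := pow_le_pow_left₀ (by positivity) hN1 2
    have h4 : (K₀ * Real.sqrt t) ^ 2 = K₀ ^ 2 * t := by rw [mul_pow, hsq]
    rw [h4] at h3
    have h5 : 2 * R * t ≤ κ * K₀ ^ 2 * t := mul_le_mul_of_nonneg_right hK₀2 ht0.le
    nlinarith
  -- second term
  have hB : 2 / W * (∑ σ ∈ Finset.Ioc (t - s₁ - 1) (t - 1),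
      a σ * Lo ρ β h n t (a σ) σ (lev σ) o) ≤ κ / 2 := by
    have h1 : ∑ σ ∈ Finset.Ioc (t - s₁ - 1) (t - 1), a σ * Lo ρ β h n t (a σ) σ (lev σ) o ≤
        ∑ σ ∈ Finset.Ioc (t - s₁ - 1) (t - 1), (a σ * Nb ρ β h n t (lev σ) o
          (2 * Real.sqrt (K * ((t - σ : ℕ) : ℝ))) + a σ * (κ / 8)) := by
      refine Finset.sum_le_sum fun σ hσ => ?_
      rw [Finset.mem_Ioc] at hσ
      rcases lt_or_ge ((t - σ : ℕ) : ℝ) w with h2 | h2
      · have h3 : a σ = 0 := by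
          rw [ha]
          show (if w ≤ ((t - σ : ℕ) : ℝ) then γ ^ 2 / ((t - σ : ℕ) : ℝ) else 0) = 0
          rw [if_neg (not_le.2 h2)]
        rw [h3, zero_mul, zero_mul, zero_mul, add_zero]
      · have h3 : a σ = γ ^ 2 / ((t - σ : ℕ) : ℝ) := by
          rw [ha]
          show (if w ≤ ((t - σ : ℕ) : ℝ) then γ ^ 2 / ((t - σ : ℕ) : ℝ) else 0) = _
          rw [if_pos h2]
        have hc : ((t - σ : ℕ) : ℝ) = (t : ℝ) - σ := by
          rw [Nat.cast_sub (by omega)]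
        obtain ⟨m, hm⟩ := hW σ t (by omega) htn (by rw [← hc]; exact h2)
        rw [← hc] at hm
        rw [← mul_add]
        refine mul_le_mul_of_nonneg_left ?_ (ha0 σ)
        rw [h3, hlev]
        exact lo72 hcL hcL1 hlow hR hκ hK hK2 hL1 hγ hM hMγ hγ2 (by omega) (by omega) (by omega)
          htn m hm o
    have h2 : ∑ σ ∈ Finset.Ioc (t - s₁ - 1) (t - 1), a σ * (2 * ((2 : ℕ) : ℝ) *
        (2 * Real.sqrt (K * ((t - σ : ℕ) : ℝ))) / 2 ^ lev σ) ≤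
        ∑ σ ∈ Finset.Ioc (t - s₁ - 1) (t - 1), a σ * (κ / 16) := by
      refine Finset.sum_le_sum fun σ hσ => mul_le_mul_of_nonneg_left ?_ (ha0 σ)
      rw [Finset.mem_Ioc] at hσ
      obtain ⟨b1, b2, _⟩ := lv_bd72 hK hL1 (s := t - σ) (by omega)
      rw [hlev]
      show 2 * ((2 : ℕ) : ℝ) * (2 * Real.sqrt (K * ((t - σ : ℕ) : ℝ))) / 2 ^ lv72 K L (t - σ) ≤ _
      rw [div_le_iff₀ (by positivity)]
      have h3 : κ / 16 * (L * Real.sqrt (K * ((t - σ : ℕ) : ℝ))) ≤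
          κ / 16 * 2 ^ lv72 K L (t - σ) := mul_le_mul_of_nonneg_left b2 (by positivity)
      refine le_trans ?_ h3
      push_cast
      nlinarith [mul_le_mul_of_nonneg_right hL2 (Real.sqrt_nonneg (K * ((t - σ : ℕ) : ℝ)))]
    rw [Finset.sum_add_distrib, ← Finset.sum_mul, ← hWd] at h1
    rw [← Finset.sum_mul, ← hWd] at h2
    have h3 : ∑ σ ∈ Finset.Ioc (t - s₁ - 1) (t - 1), a σ * Lo ρ β h n t (a σ) σ (lev σ) o ≤
        W * (κ / 4) := by
      have := ho.trans h2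
      nlinarith
    rw [div_mul_eq_mul_div, div_le_iff₀ hWp]
    linarith
  -- third term
  have hC : Real.sqrt (Λ / t) * Real.exp (-(W / 2)) * Real.sqrt U.card ≤
      (16 * M + 8 * M * (2 * K₀ + 7)) * Real.sqrt Λ * (w / D ^ 2) ^ (γ ^ 2 / 2) := by
    have hDp : 0 < D ^ 2 := by positivity
    have h1 : Real.exp (-(W / 2)) ≤ 8 * M * (w / D ^ 2) ^ (γ ^ 2 / 2) := by
      have h2 : Real.exp (-(W / 2)) ≤ (D ^ 2 / (8 * M * w)) ^ (-(γ ^ 2 / 2)) := by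
        rw [Real.rpow_def_of_pos (by positivity)]
        refine Real.exp_le_exp.2 ?_
        linarith
      refine h2.trans (le_of_eq_of_le ?_ (mul_le_mul_of_nonneg_right
        (?_ : (8 * M) ^ (γ ^ 2 / 2) ≤ 8 * M) (Real.rpow_nonneg (by positivity) _)))
      · rw [Real.rpow_neg (by positivity), ← Real.inv_rpow (by positivity), inv_div,
          ← Real.mul_rpow (by positivity) (by positivity)]
        congr 1
        ring
      · have h3 : (8 * M) ^ (γ ^ 2 / 2) ≤ (8 * M) ^ (1 : ℝ) :=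
          Real.rpow_le_rpow_of_exponent_le (by linarith) (by nlinarith)
        rwa [Real.rpow_one] at h3
    have h4 : Real.sqrt U.card ≤ (2 * K₀ + 7) * Real.sqrt t := by
      have hlt : (2 : ℝ) ^ lev (t - s₁ - 1 + 1) ≤ Real.sqrt t := by
        rw [hlev]
        show (2 : ℝ) ^ lv72 K L (t - (t - s₁ - 1 + 1)) ≤ Real.sqrt t
        have e : t - (t - s₁ - 1 + 1) = s₁ := by omega
        rw [e]
        rcases Nat.eq_zero_or_pos s₁ with h5 | h5
        · rw [h5]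
          unfold lv72
          simp only [Nat.cast_zero, mul_zero, Real.sqrt_zero, Nat.ceil_zero]
          rw [Nat.clog_of_right_le_one (by norm_num), pow_zero]
          exact hsq1
        · have h6 := hlevD s₁ h5 le_rfl
          have h7 : D ≤ Real.sqrt t := Real.le_sqrt_of_sq_le hDt
          have h8 : (0 : ℝ) < 2 ^ lv72 K L s₁ := by positivity
          linarith
      refine (Real.sqrt_le_sqrt hU2).trans ?_
      rw [Real.sqrt_sq (by positivity)]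
      nlinarith
    have h5 : Real.sqrt (Λ / t) * Real.sqrt t = Real.sqrt Λ := by
      rw [← Real.sqrt_mul (by positivity)]
      congr 1
      field_simp
    have hwD0 : 0 ≤ (w / D ^ 2) ^ (γ ^ 2 / 2) := Real.rpow_nonneg (by positivity) _
    calc Real.sqrt (Λ / t) * Real.exp (-(W / 2)) * Real.sqrt U.card
        ≤ Real.sqrt (Λ / t) * (8 * M * (w / D ^ 2) ^ (γ ^ 2 / 2)) *
          ((2 * K₀ + 7) * Real.sqrt t) := by
          refine mul_le_mul (mul_le_mul_of_nonneg_left h1 (Real.sqrt_nonneg _)) h4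
            (Real.sqrt_nonneg _) (by positivity)
      _ = 8 * M * (2 * K₀ + 7) * (Real.sqrt (Λ / t) * Real.sqrt t) *
          (w / D ^ 2) ^ (γ ^ 2 / 2) := by ring
      _ = 8 * M * (2 * K₀ + 7) * Real.sqrt Λ * (w / D ^ 2) ^ (γ ^ 2 / 2) := by rw [h5]
      _ ≤ (16 * M + 8 * M * (2 * K₀ + 7)) * Real.sqrt Λ * (w / D ^ 2) ^ (γ ^ 2 / 2) := by
          refine mul_le_mul_of_nonneg_right (mul_le_mul_of_nonneg_right ?_ (Real.sqrt_nonneg _))
            hwD0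
          linarith
  linarith

end Pool.Agent.W_7d29a1_NS
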