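import Pool.Agent.W_7d29a1_S90.DefsS90
import Pool.Agent.W_7d29a1_S90.SiI39
import Pool.Agent.W_7d29a1_Q29.Npb39

/-!
Duality with the centred indicators: a bounded function against predictable weights.
-/

namespace Pool.Agent.W_7d29a1_NS

open MeasureTheory ProbabilityTheory Filter Topology Pool.Agent.W_MP_7d29a1_pr
  Pool.Agent.W_7d29a1_h46 Pool.Agent.W_7d29a1_h46u Pool.Agent.W_7d29a1_D2.B35
  Pool.Agent.W_7d29a1_Q29 Pool.Agent.W_7d29a1_Q29.D85 Pool.Agent.W_7d29a1_S90

variable {d : ℕ} {ρ : Measure ℝ} [IsProbabilityMeasure ρ]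

lemma int_zt63 (q : ℝ) : ∫ v, zt ρ q v ∂ρ = 0 := by
  classical
  unfold zt
  have h1 : (fun v : ℝ => if q < v then (1 : ℝ) else 0) = (Set.Ioi q).indicator fun _ => 1 := by
    funext v
    simp [Set.indicator, Set.mem_Ioi]
  have h2 : Integrable (fun v : ℝ => if q < v then (1 : ℝ) else 0) ρ := by
    rw [h1]
    exact (integrable_const (1 : ℝ)).indicator measurableSet_Ioi
  rw [integral_sub h2 (integrable_const _), h1, integral_indicator measurableSet_Ioi]
  simp

/-- A centred indicator at a site is orthogonal to what does not depend on the site. -/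
lemma orth63 (q : ℝ) (p : ℕ × Site d) {H : Env d → ℝ} (hd : DependsOn H {p}ᶜ)
    (hi : Integrable (fun η : Env d => H η * zt ρ q (η p)) (law d ρ)) :
    ∫ η, H η * zt ρ q (η p) ∂(law d ρ) = 0 := by
  classical
  rw [integral_upd p hi]
  have h1 : ∀ η : Env d, ∫ r, H (Function.update η p r) *
      zt ρ q (Function.update η p r p) ∂ρ = 0 := by
    intro η
    simp only [dep_upd hd, Function.update_self]
    rw [integral_const_mul, int_zt63, mul_zero]
  simp only [h1]
  simp

/-- **Duality** for a bounded function: `F` with values in `[0, 1]`, weights `g p` in `[-1, 1]`. -/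
theorem dual63 (q : ℝ) (I : Finset (ℕ × Site d)) (F : Env d → ℝ) (hF : Measurable F)
    (hF1 : ∀ η, 0 ≤ F η ∧ F η ≤ 1) (g : ℕ × Site d → Env d → ℝ)
    (hgm : ∀ p ∈ I, Measurable (g p)) (hg : ∀ p ∈ I, ∀ η, |g p η| ≤ 1)
    (hdep : ∀ p ∈ I, DependsOn (g p) {p}ᶜ)
    (hO : ∀ p ∈ I, ∀ q ∈ I, p ≠ q → DependsOn (g q) {p}ᶜ ∨ DependsOn (g p) {q}ᶜ) :
    ∑ p ∈ I, ∫ η, g p η * zt ρ q (η p) * F η ∂(law d ρ) ≤
      Real.sqrt (∑ p ∈ I, ∫ η, g p η ^ 2 ∂(law d ρ)) := by
  classical
  have hzm : ∀ p : ℕ × Site d, Measurable fun η : Env d => zt ρ q (η p) := fun p =>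
    (meas_zt39 ρ q).comp (measurable_pi_apply p)
  have hTm : ∀ p ∈ I, Measurable fun η : Env d => g p η * zt ρ q (η p) := fun p hp =>
    (hgm p hp).mul (hzm p)
  have hTb : ∀ p ∈ I, ∀ η : Env d, |g p η * zt ρ q (η p)| ≤ 1 := fun p hp η => by
    rw [abs_mul]
    exact mul_le_one₀ (hg p hp η) (abs_nonneg _) (zt_bd39 ρ q _)
  have hTi : ∀ p ∈ I, ∀ p' ∈ I, Integrable
      (fun η : Env d => (g p η * zt ρ q (η p)) * (g p' η * zt ρ q (η p'))) (law d ρ) := by
    intro p hp p' hp'
    refine Integrable.of_bound ((hTm p hp).mul (hTm p' hp')).aestronglyMeasurable 1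
      (Eventually.of_forall fun η => ?_)
    rw [Real.norm_eq_abs, abs_mul]
    exact mul_le_one₀ (hTb p hp η) (abs_nonneg _) (hTb p' hp' η)
  set S : Env d → ℝ := fun η => ∑ p ∈ I, g p η * zt ρ q (η p) with hS
  have hSm : Measurable S := Finset.measurable_sum _ fun p hp => hTm p hp
  have hSb : ∀ η, |S η| ≤ I.card := by
    intro η
    refine (Finset.abs_sum_le_sum_abs _ _).trans ?_
    refine (Finset.sum_le_sum fun p hp => hTb p hp η).trans ?_
    simp
  have hSS : ∫ η, S η ^ 2 ∂(law d ρ) ≤ ∑ p ∈ I, ∫ η, g p η ^ 2 ∂(law d ρ) := by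
    have h1 : ∀ η : Env d, S η ^ 2 =
        ∑ p ∈ I, ∑ p' ∈ I, (g p η * zt ρ q (η p)) * (g p' η * zt ρ q (η p')) := by
      intro η
      simp only [hS]
      rw [sq, Finset.sum_mul_sum]
    simp only [h1]
    rw [integral_finsetSum _ fun p hp => integrable_finsetSum _ fun p' hp' => hTi p hp p' hp']
    refine Finset.sum_le_sum fun p hp => ?_
    rw [integral_finsetSum _ fun p' hp' => hTi p hp p' hp', Finset.sum_eq_single_of_mem p hp]
    · refine integral_mono (hTi p hp p hp) ?_ fun η => ?_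
      · refine Integrable.of_bound ((hgm p hp).pow_const 2).aestronglyMeasurable 1
          (Eventually.of_forall fun η => ?_)
        rw [Real.norm_eq_abs, abs_pow]
        exact pow_le_one₀ (abs_nonneg _) (hg p hp η)
      · show (g p η * zt ρ q (η p)) * (g p η * zt ρ q (η p)) ≤ g p η ^ 2
        have h2 : (g p η * zt ρ q (η p)) * (g p η * zt ρ q (η p)) =
            g p η ^ 2 * zt ρ q (η p) ^ 2 := by ring
        rw [h2]
        refine mul_le_of_le_one_right (sq_nonneg _) ?_
        rw [← sq_abs]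
        exact pow_le_one₀ (abs_nonneg _) (zt_bd39 ρ q _)
    · intro p' hp' hne
      have hsite : ∀ a b : ℕ × Site d, a ≠ b →
          DependsOn (fun η : Env d => zt ρ q (η b)) ({a}ᶜ : Set (ℕ × Site d)) := by
        intro a b hab x y hxy
        have : b ∈ ({a}ᶜ : Set (ℕ × Site d)) := fun h => hab h.symm
        show zt ρ q (x b) = zt ρ q (y b)
        rw [hxy b this]
      have hmul : ∀ {H K : Env d → ℝ} {S : Set (ℕ × Site d)}, DependsOn H S → DependsOn K S →
          DependsOn (fun η => H η * K η) S := by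
        intro H K S hH hK x y hxy
        show H x * K x = H y * K y
        rw [hH hxy, hK hxy]
      rcases hO p hp p' hp' hne.symm with h | h
      · -- `g p'` does not depend on the site `p`
        have e1 : (fun η : Env d => (g p η * zt ρ q (η p)) * (g p' η * zt ρ q (η p'))) =
            fun η : Env d => (g p η * (g p' η * zt ρ q (η p'))) * zt ρ q (η p) := by
          funext η
          ring
        have hi := hTi p hp p' hp'
        rw [e1] at hi ⊢
        exact orth63 q p (hmul (hdep p hp) (hmul h (hsite p p' hne.symm))) hi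
      · have e1 : (fun η : Env d => (g p η * zt ρ q (η p)) * (g p' η * zt ρ q (η p'))) =
            fun η : Env d => (g p' η * (g p η * zt ρ q (η p))) * zt ρ q (η p') := by
          funext η
          ring
        have hi := hTi p hp p' hp'
        rw [e1] at hi ⊢
        exact orth63 q p' (hmul (hdep p' hp') (hmul h (hsite p' p hne))) hi
  have hFb : ∀ η, |F η| ≤ 1 := fun η => by
    rw [abs_of_nonneg (hF1 η).1]
    exact (hF1 η).2
  have hsum : ∑ p ∈ I, ∫ η, g p η * zt ρ q (η p) * F η ∂(law d ρ) =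
      ∫ η, S η * F η ∂(law d ρ) := by
    rw [← integral_finsetSum]
    · refine integral_congr_ae (Eventually.of_forall fun η => ?_)
      simp only [hS]
      rw [Finset.sum_mul]
    · intro p hp
      refine Integrable.of_bound ((hTm p hp).mul hF).aestronglyMeasurable 1
        (Eventually.of_forall fun η => ?_)
      rw [Real.norm_eq_abs, abs_mul]
      exact mul_le_one₀ (hTb p hp η) (abs_nonneg _) (hFb η)
  rw [hsum]
  refine Real.le_sqrt_of_sq_le ?_
  -- Cauchy-Schwarz
  have hSi : Integrable (fun η => S η ^ 2) (law d ρ) := by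
    refine Integrable.of_bound (hSm.pow_const 2).aestronglyMeasurable ((I.card : ℝ) ^ 2)
      (Eventually.of_forall fun η => ?_)
    rw [Real.norm_eq_abs, abs_pow]
    exact pow_le_pow_left₀ (abs_nonneg _) (hSb η) 2
  have hFi : Integrable (fun η => F η ^ 2) (law d ρ) := by
    refine Integrable.of_bound (hF.pow_const 2).aestronglyMeasurable 1
      (Eventually.of_forall fun η => ?_)
    rw [Real.norm_eq_abs, abs_pow]
    exact pow_le_one₀ (abs_nonneg _) (hFb η)
  have hSF : Integrable (fun η => S η * F η) (law d ρ) := by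
    refine Integrable.of_bound (hSm.mul hF).aestronglyMeasurable (I.card : ℝ)
      (Eventually.of_forall fun η => ?_)
    rw [Real.norm_eq_abs, abs_mul]
    calc |S η| * |F η| ≤ (I.card : ℝ) * 1 :=
        mul_le_mul (hSb η) (hFb η) (abs_nonneg _) (by positivity)
      _ = I.card := mul_one _
  set A : ℝ := ∫ η, S η * F η ∂(law d ρ) with hA
  have hF2 : ∫ η, F η ^ 2 ∂(law d ρ) ≤ 1 := by
    have h1 := integral_mono hFi (integrable_const (1 : ℝ)) fun η =>
      (show F η ^ 2 ≤ 1 from pow_le_one₀ (hF1 η).1 (hF1 η).2)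
    simpa using h1
  have key : 0 ≤ ∫ η, (S η - A * F η) ^ 2 ∂(law d ρ) := integral_nonneg fun _ => sq_nonneg _
  have e1 : ∫ η, (S η - A * F η) ^ 2 ∂(law d ρ) =
      ∫ η, S η ^ 2 ∂(law d ρ) - 2 * A * A + A ^ 2 * ∫ η, F η ^ 2 ∂(law d ρ) := by
    have e2 : ∀ η, (S η - A * F η) ^ 2 = S η ^ 2 - 2 * A * (S η * F η) + A ^ 2 * F η ^ 2 := by
      intro η
      ring
    have e3 : Integrable (fun η => S η ^ 2 - 2 * A * (S η * F η)) (law d ρ) :=
      hSi.sub (hSF.const_mul _)
    simp only [e2]
    rw [integral_add e3 (hFi.const_mul _),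
      integral_sub hSi (hSF.const_mul _), integral_const_mul, integral_const_mul]
  rw [e1] at key
  have h3 : A ^ 2 * ∫ η, F η ^ 2 ∂(law d ρ) ≤ A ^ 2 * 1 :=
    mul_le_mul_of_nonneg_left hF2 (sq_nonneg _)
  nlinarith

end Pool.Agent.W_7d29a1_NS
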