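import Pool.Agent.W_7d29a1_NS.Pre63

/-!
The end of Theorem NS.
-/

namespace Pool.Agent.W_7d29a1_NS

open MeasureTheory ProbabilityTheory Filter Topology Pool.Agent.W_MP_7d29a1_pr
  Pool.Agent.W_7d29a1_h46 Pool.Agent.W_7d29a1_h46u Pool.Agent.W_7d29a1_D2.B35
  Pool.Agent.W_7d29a1_Q29 Pool.Agent.W_7d29a1_Q29.D85 Pool.Agent.W_7d29a1_S90

variable {ρ : Measure ℝ} [IsProbabilityMeasure ρ]

/-- The number of the thresholds. -/
lemma cardU63 (x K : ℝ) (hK : 0 ≤ K) :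
    ((Finset.Icc ⌊x - K⌋ ⌈x + K⌉).card : ℝ) ≤ 2 * K + 3 := by
  rw [Int.card_Icc]
  have h1 : ⌊x - K⌋ ≤ ⌈x + K⌉ := by
    have h2 : (⌊x - K⌋ : ℝ) ≤ ⌈x + K⌉ :=
      (Int.floor_le _).trans ((by linarith : x - K ≤ x + K).trans (Int.le_ceil _))
    exact_mod_cast h2
  have h3 : ((⌈x + K⌉ + 1 - ⌊x - K⌋).toNat : ℝ) = (⌈x + K⌉ : ℝ) + 1 - ⌊x - K⌋ := by
    have h4 : ((⌈x + K⌉ + 1 - ⌊x - K⌋).toNat : ℤ) = ⌈x + K⌉ + 1 - ⌊x - K⌋ :=
      Int.toNat_of_nonneg (by omega)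
    exact_mod_cast congrArg (fun z : ℤ => (z : ℝ)) h4
  rw [h3]
  have h5 := Int.ceil_lt_add_one (x + K)
  have h6 := Int.sub_one_lt_floor (x - K)
  linarith

/-- The rows. -/
lemma rowsT63 {t : ℕ} {x : ℝ} (hx : 4 ≤ x) (hxt : 2 * x ≤ t) :
    x / 4 ≤ ((Finset.Icc (t - ⌊x⌋₊) (t - ⌈x / 2⌉₊)).card : ℝ) ∧
    ∀ τ ∈ Finset.Icc (t - ⌊x⌋₊) (t - ⌈x / 2⌉₊), 1 ≤ τ ∧ τ < t ∧ (t : ℝ) - τ ≤ x ∧
      x / 2 ≤ (t : ℝ) - τ ∧ (t : ℝ) ≤ 2 * τ := by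
  have hx0 : 0 ≤ x := by linarith
  have h1 : (⌊x⌋₊ : ℝ) ≤ x := Nat.floor_le hx0
  have h2 : x - 1 < ⌊x⌋₊ := Nat.sub_one_lt_floor x
  have h3 : x / 2 ≤ (⌈x / 2⌉₊ : ℝ) := Nat.le_ceil _
  have h4 : (⌈x / 2⌉₊ : ℝ) < x / 2 + 1 := Nat.ceil_lt_add_one (by linarith)
  have h5 : ⌈x / 2⌉₊ ≤ ⌊x⌋₊ := by
    have : (⌈x / 2⌉₊ : ℝ) < ⌊x⌋₊ := by linarith
    exact_mod_cast this.le
  have h6 : ⌊x⌋₊ ≤ t := by
    have : (⌊x⌋₊ : ℝ) ≤ t := by linarith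
    exact_mod_cast this
  have h7 : 1 ≤ ⌈x / 2⌉₊ := by
    have : (0 : ℝ) < ⌈x / 2⌉₊ := by linarith
    exact_mod_cast this
  refine ⟨?_, fun τ hτ => ?_⟩
  · rw [Nat.card_Icc]
    have h8 : t - ⌈x / 2⌉₊ + 1 - (t - ⌊x⌋₊) = ⌊x⌋₊ - ⌈x / 2⌉₊ + 1 := by omega
    rw [h8]
    push_cast [Nat.cast_sub h5]
    linarith
  · rw [Finset.mem_Icc] at hτ
    have h9 : (t : ℝ) - ⌊x⌋₊ ≤ τ := by
      have : t ≤ τ + ⌊x⌋₊ := by omega
      have h10 : (t : ℝ) ≤ τ + ⌊x⌋₊ := by exact_mod_cast this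
      linarith
    have h11 : (τ : ℝ) + ⌈x / 2⌉₊ ≤ t := by
      have : τ + ⌈x / 2⌉₊ ≤ t := by omega
      exact_mod_cast this
    refine ⟨?_, by omega, by linarith, by linarith, by linarith⟩
    have : (0 : ℝ) < τ := by linarith
    exact_mod_cast this

open Classical in
/-- One row. -/
lemma rowN63 {β κ R δ c0 : ℝ} (hA : AvgP ρ β) (hκ0 : 0 < κ) (hκ1 : κ ≤ 1) (hR : 1 ≤ R)
    (hc0 : 0 < c0) (hc01 : c0 ≤ 1) (hδ : δ = c0 * κ / 1024) (h : Vec 2) (n t τ : ℕ)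
    (htn : t ≤ n) (hτt : τ ≤ t) (ht0 : 0 < t) (D ε : ℝ) (hD : 1 / δ ≤ D) (m M : Vec 2)
    (hm : ∫ η, pe β h η (fun s : Fin n → Step 2 => inc τ t m s ^ 2) ∂(law 2 ρ) ≤ (δ * D) ^ 2)
    (hM : ∫ η, pe β h η (fun s : Fin n → Step 2 => inc 0 t M s ^ 2) ∂(law 2 ρ) ≤ R * t)
    (hRp : κ ≤ Rp ρ β h n t D) (hTy : Ty ρ β h n τ (D / 2) ε ≤ κ / 8) :
    c0 * κ * D / 64 ≤ ∑ j : Fin 2, ∑ u ∈ Finset.Icc ⌊M j - (D / 8 + 8 * Real.sqrt (R * t / κ))⌋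
        ⌈M j + (D / 8 + 8 * Real.sqrt (R * t / κ))⌉,
      (c0 * (∫ η, pe2 β h η (fun s s' : Fin n → Step 2 =>
        if ¬ ((u : ℝ) ≤ (pos s τ j : ℝ) + m j ↔ u ≤ pos s' t j)
          then Gw ρ β h n ε τ (pos s τ) η else 0) ∂(law 2 ρ)) -
      2 * ∫ η, pe β h η (fun s : Fin n → Step 2 =>
        if ¬ ((u : ℝ) ≤ (pos s τ j : ℝ) + m j ↔ u ≤ pos s t j) then (1 : ℝ) else 0)
          ∂(law 2 ρ)) := by
  have hδ0 : 0 < δ := by rw [hδ]; positivity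
  have hδκ : δ ≤ κ / 1024 := by
    rw [hδ]
    have : c0 * κ ≤ 1 * κ := mul_le_mul_of_nonneg_right hc01 hκ0.le
    linarith
  have hδ1 : δ ≤ 1 / 1024 := by linarith
  have hD0 : 0 < D := lt_of_lt_of_le (by positivity) hD
  have hDδ : 1 ≤ δ * D := by
    rw [div_le_iff₀ hδ0] at hD
    linarith
  have hD1024 : 1024 ≤ D := by nlinarith
  have hδ2 : δ ^ 2 ≤ κ / 1024 / 1024 := by
    have : δ * δ ≤ κ / 1024 * (1 / 1024) := mul_le_mul hδκ hδ1 hδ0.le (by positivity)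
    nlinarith
  have ht0' : (0 : ℝ) < t := by exact_mod_cast ht0
  set K' : ℝ := 8 * Real.sqrt (R * t / κ) with hK'
  have hK'0 : 0 < K' := by positivity
  set lam : ℝ := D / 8 with hlam
  -- the windows
  have w1 : Tl ρ β h n τ t m lam ≤ 64 * δ ^ 2 := by
    refine (tlq63 (by norm_num) β h n τ t m (by positivity) hm).trans (le_of_eq ?_)
    rw [hlam]
    field_simp
    norm_num
  have w2 : Tl ρ β h n τ t m (D / 4) ≤ 16 * δ ^ 2 := by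
    refine (tlq63 (by norm_num) β h n τ t m (by positivity) hm).trans (le_of_eq ?_)
    field_simp
    norm_num
  have w3 : ∫ η, pe β h η (fun s : Fin n → Step 2 => inc τ t m s) ∂(law 2 ρ) ≤ δ * D :=
    incq63 (by norm_num) β h n τ t m (by positivity) hm
  have w4 : ∫ η, pe β h η (fun s : Fin n → Step 2 =>
      if (lam + K') - lam < ‖emb (pos s t) - M‖ then (1 : ℝ) else 0) ∂(law 2 ρ) ≤ κ / 64 := by
    have e1 := tlq63 (by norm_num) β h n 0 t M hK'0 hM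
    have e2 : R * t / K' ^ 2 = κ / 64 := by
      rw [hK', mul_pow, Real.sq_sqrt (by positivity)]
      field_simp
      norm_num
    rw [e2] at e1
    refine le_trans (le_of_eq ?_) e1
    unfold Tl
    refine integral_congr_ae (Eventually.of_forall fun η => ?_)
    show pe β h η _ = pe β h η _
    congr 1
    funext s
    have e3 : inc 0 t M s = ‖emb (pos s t) - M‖ := by
      unfold inc
      rw [pos_zero73, emb_zero73, sub_zero]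
    rw [e3, add_sub_cancel_left]
  -- the separation
  have s1 := rpq63 (ρ := ρ) (d := 2) (by norm_num) β h n τ t m D (D / 4)
  have e5 : D - 2 * (D / 4) = D / 2 := by ring
  rw [e5] at s1
  have s2 := sep63 (ρ := ρ) β h n τ (l := 2 * lam) (D := D / 2) (ε := ε) (by positivity)
    (by rw [hlam]; nlinarith [sq_nonneg D])
  rw [Fin.sum_univ_two] at s2
  -- the counts
  have hl1 : 1 ≤ lam := by rw [hlam]; linarith
  have a0 := fun j : Fin 2 => hA h n τ t j m M (lam + K') lam (fun y => Gw ρ β h n ε τ y) hτt htn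
    hl1 (by linarith) (fun y => gw_meas63 β h n ε τ y) (fun y η => gw_bd63 β h n ε τ y η)
  have k1 : ∀ j : Fin 2, ∑ u ∈ Finset.Icc ⌊M j - (lam + K')⌋ ⌈M j + (lam + K')⌉,
      (c0 * (∫ η, pe2 β h η (fun s s' : Fin n → Step 2 =>
        if ¬ ((u : ℝ) ≤ (pos s τ j : ℝ) + m j ↔ u ≤ pos s' t j)
          then Gw ρ β h n ε τ (pos s τ) η else 0) ∂(law 2 ρ)) -
      2 * ∫ η, pe β h η (fun s : Fin n → Step 2 =>
        if ¬ ((u : ℝ) ≤ (pos s τ j : ℝ) + m j ↔ u ≤ pos s t j) then (1 : ℝ) else 0)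
          ∂(law 2 ρ)) ≥
      c0 * ((lam - 1) * ((∫ η, pe2 β h η (fun s s' : Fin n → Step 2 =>
        if 2 * lam ≤ |(pos s τ j : ℝ) - (pos s' τ j : ℝ)| then Gw ρ β h n ε τ (pos s τ) η else 0)
          ∂(law 2 ρ)) - Tl ρ β h n τ t m lam -
      ∫ η, pe β h η (fun s : Fin n → Step 2 =>
        if (lam + K') - lam < ‖emb (pos s t) - M‖ then (1 : ℝ) else 0) ∂(law 2 ρ))) -
      2 * ((∫ η, pe β h η (fun s : Fin n → Step 2 => inc τ t m s) ∂(law 2 ρ)) + 1) := by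
    intro j
    rw [Finset.sum_sub_distrib, ← Finset.mul_sum, ← Finset.mul_sum]
    have b1 := mul_le_mul_of_nonneg_left (a0 j).1 hc0.le
    have b2 := (a0 j).2
    linarith
  rw [Fin.sum_univ_two]
  refine le_trans ?_ (add_le_add (k1 0) (k1 1))
  -- the numbers
  set A0 : ℝ := ∫ η, pe2 β h η (fun s s' : Fin n → Step 2 =>
    if 2 * lam ≤ |(pos s τ 0 : ℝ) - (pos s' τ 0 : ℝ)| then Gw ρ β h n ε τ (pos s τ) η else 0)
      ∂(law 2 ρ) with hA0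
  set A1 : ℝ := ∫ η, pe2 β h η (fun s s' : Fin n → Step 2 =>
    if 2 * lam ≤ |(pos s τ 1 : ℝ) - (pos s' τ 1 : ℝ)| then Gw ρ β h n ε τ (pos s τ) η else 0)
      ∂(law 2 ρ) with hA1
  set F : ℝ := ∫ η, pe β h η (fun s : Fin n → Step 2 =>
      if (lam + K') - lam < ‖emb (pos s t) - M‖ then (1 : ℝ) else 0) ∂(law 2 ρ) with hF
  set I : ℝ := ∫ η, pe β h η (fun s : Fin n → Step 2 => inc τ t m s) ∂(law 2 ρ) with hI
  set TL : ℝ := Tl ρ β h n τ t m lam with hTL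
  have n1 : κ / 2 ≤ A0 + A1 - 2 * TL - 2 * F := by linarith
  have n2 : D / 16 ≤ lam - 1 := by rw [hlam]; linarith
  have n3 : D / 16 * (κ / 2) ≤ (lam - 1) * (A0 + A1 - 2 * TL - 2 * F) :=
    mul_le_mul n2 n1 (by positivity) (by linarith)
  have n4 := mul_le_mul_of_nonneg_left n3 hc0.le
  have n5 : δ * D = c0 * κ * D / 1024 := by rw [hδ]; ring
  nlinarith

end Pool.Agent.W_7d29a1_NS
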