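import Pool.Agent.W_7d29a1_NS.Main63

/-!
Theorem NS from the leaves TYP, VAR, AVG.
-/

namespace Pool.Agent.W_7d29a1_NS

open MeasureTheory ProbabilityTheory Filter Topology Pool.Agent.W_MP_7d29a1_pr
  Pool.Agent.W_7d29a1_h46 Pool.Agent.W_7d29a1_h46u Pool.Agent.W_7d29a1_D2.B35
  Pool.Agent.W_7d29a1_Q29 Pool.Agent.W_7d29a1_Q29.D85 Pool.Agent.W_7d29a1_S90

variable {ρ : Measure ℝ} [IsProbabilityMeasure ρ]

open Classical in
/-- The general form with a free distance. -/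
theorem coreN63 {β : ℝ} (hT : TypN ρ β) (hV : VarP 2 ρ β) (hA : AvgP ρ β) (R κ : ℝ)
    (hκ : 0 < κ) : ∃ c : ℝ, 0 < c ∧ c ≤ 1 ∧ ∀ (h : Vec 2) (n t : ℕ) (w D : ℝ), t ≤ n → 1 ≤ w →
      0 < D → D ^ 2 ≤ t → w ≤ c * D ^ 2 * (D ^ 2 / t) ^ (1 / c) → Ww ρ β h n w R →
      Rp ρ β h n t D < κ := by
  -- constants
  obtain ⟨κ₁, hκ1, hκ11, hκ1κ⟩ : ∃ κ₁ : ℝ, 0 < κ₁ ∧ κ₁ ≤ 1 ∧ κ₁ ≤ κ :=
    ⟨min κ 1, lt_min hκ one_pos, min_le_right _ _, min_le_left _ _⟩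
  obtain ⟨R₁, hR1, hRR1⟩ : ∃ R₁ : ℝ, 1 ≤ R₁ ∧ R ≤ R₁ :=
    ⟨max R 1, le_max_right _ _, le_max_left _ _⟩
  obtain ⟨c0, hc0, hc01, hvar⟩ := hV
  obtain ⟨c1, C1, hc1, hc11, hC1, htyp⟩ := hT R₁ (κ₁ / 16) hR1 (by positivity)
  have hR10 : 0 < R₁ := by linarith
  have hC10 : 0 < C1 := by linarith
  obtain ⟨δ, hδ⟩ : ∃ δ : ℝ, δ = c0 * κ₁ / 1024 := ⟨_, rfl⟩
  have hδ0 : 0 < δ := by rw [hδ]; positivity
  have hδ1 : δ ≤ 1 / 1024 := by
    rw [hδ]
    have : c0 * κ₁ ≤ 1 * 1 := mul_le_mul hc01 hκ11 hκ1.le zero_le_one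
    linarith
  obtain ⟨θ, hθ⟩ : ∃ θ : ℝ, θ = δ ^ 2 / R₁ := ⟨_, rfl⟩
  have hθ0 : 0 < θ := by rw [hθ]; positivity
  have hθR : R₁ * θ = δ ^ 2 := by rw [hθ]; field_simp
  have hθ1 : θ ≤ 1 / 2 := by
    have h1 : θ * 1 ≤ θ * R₁ := mul_le_mul_of_nonneg_left hR1 hθ0.le
    nlinarith
  obtain ⟨CK, hCK⟩ : ∃ CK : ℝ, CK = 2 * (1 / 8 + 8 * Real.sqrt (R₁ / κ₁)) + 3 := ⟨_, rfl⟩
  have hCK0 : 0 < CK := by rw [hCK]; positivity
  obtain ⟨L, hL⟩ : ∃ L : ℝ, L = 131072 * CK ^ 2 / (θ * (c0 * κ₁) ^ 2) := ⟨_, rfl⟩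
  have hL0 : 0 < L := by rw [hL]; positivity
  obtain ⟨z, hz⟩ : ∃ z : ℝ, z = κ₁ / (16 * (C1 * Real.sqrt L)) := ⟨_, rfl⟩
  have hsL : 0 < Real.sqrt L := Real.sqrt_pos.2 hL0
  have hz0 : 0 < z := by rw [hz]; positivity
  refine ⟨min c1 (min (1 / (4 * C1)) (min (θ / 4) (min (δ ^ 2) (z ^ (1 / c1) / 4)))),
    by positivity, (min_le_left _ _).trans hc11, ?_⟩
  set c : ℝ := min c1 (min (1 / (4 * C1)) (min (θ / 4) (min (δ ^ 2) (z ^ (1 / c1) / 4)))) with hc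
  have hcc1 : c ≤ c1 := min_le_left _ _
  have hcC1 : c ≤ 1 / (4 * C1) := (min_le_right _ _).trans (min_le_left _ _)
  have hcθ : c ≤ θ / 4 := (min_le_right _ _).trans ((min_le_right _ _).trans (min_le_left _ _))
  have hcδ : c ≤ δ ^ 2 := (min_le_right _ _).trans ((min_le_right _ _).trans
    ((min_le_right _ _).trans (min_le_left _ _)))
  have hcz : c ≤ z ^ (1 / c1) / 4 := (min_le_right _ _).trans ((min_le_right _ _).trans
    ((min_le_right _ _).trans (min_le_right _ _)))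
  have hc0' : 0 < c := by positivity
  clear_value c
  intro h n t w D htn hw hD hDt hwc hW
  by_contra hcon
  push Not at hcon
  have hRp : κ₁ ≤ Rp ρ β h n t D := hκ1κ.trans hcon
  have hW1 : Ww ρ β h n w R₁ := by
    intro τ t' hτ ht' hlen
    obtain ⟨m', hm'⟩ := hW τ t' hτ ht' hlen
    refine ⟨m', hm'.trans (mul_le_mul_of_nonneg_right hRR1 ?_)⟩
    have : (τ : ℝ) ≤ t' := by exact_mod_cast hτ.le
    linarith
  have hD2 : 0 < D ^ 2 := by positivity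
  have ht0' : (0 : ℝ) < t := lt_of_lt_of_le hD2 hDt
  have ht0 : 0 < t := by exact_mod_cast ht0'
  set x : ℝ := D ^ 2 / t with hx
  have hx0 : 0 < x := by positivity
  have hx1 : x ≤ 1 := by rw [hx, div_le_one ht0']; exact hDt
  have hxc : x ^ (1 / c) ≤ 1 := Real.rpow_le_one hx0.le hx1 (by positivity)
  have hwD : w ≤ c * D ^ 2 := by
    refine hwc.trans ?_
    calc c * D ^ 2 * x ^ (1 / c) ≤ c * D ^ 2 * 1 :=
          mul_le_mul_of_nonneg_left hxc (by positivity)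
      _ = c * D ^ 2 := mul_one _
  have h1D : 1 ≤ δ ^ 2 * D ^ 2 := by
    have := mul_le_mul_of_nonneg_right hcδ hD2.le
    linarith
  have hδD : 1 ≤ δ * D := by
    by_contra h1
    push Not at h1
    have h2 : (δ * D) ^ 2 < 1 := by
      have : 0 ≤ δ * D := by positivity
      nlinarith
    rw [mul_pow] at h2
    linarith
  have hDδ : 1 / δ ≤ D := by
    rw [div_le_iff₀ hδ0]
    linarith
  have hθD : 4 ≤ θ * D ^ 2 := by
    have := mul_le_mul_of_nonneg_right hcθ hD2.le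
    linarith
  -- the rows
  obtain ⟨hcard, hrows⟩ := rowsT63 (t := t) (x := θ * D ^ 2) hθD (by nlinarith)
  set T : Finset ℕ := Finset.Icc (t - ⌊θ * D ^ 2⌋₊) (t - ⌈θ * D ^ 2 / 2⌉₊) with hTdef
  have hTw : ∀ τ ∈ T, w ≤ (t : ℝ) - τ := by
    intro τ hτ
    have h1 := (hrows τ hτ).2.2.2.1
    have := mul_le_mul_of_nonneg_right hcθ hD2.le
    linarith
  -- the centres
  obtain ⟨M, hM⟩ : ∃ M : Vec 2, ∫ η, pe β h η (fun s : Fin n → Step 2 => inc 0 t M s ^ 2)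
      ∂(law 2 ρ) ≤ R₁ * t := by
    obtain ⟨M, hM⟩ := hW1 0 t ht0 htn (by
      have h1 := mul_le_mul_of_nonneg_right hcθ hD2.le
      have h2 : θ * D ^ 2 ≤ 1 / 2 * D ^ 2 := mul_le_mul_of_nonneg_right hθ1 hD2.le
      push_cast
      linarith)
    exact ⟨M, by simpa using hM⟩
  have hmex : ∀ τ : ℕ, ∃ m : Vec 2, τ ∈ T →
      ∫ η, pe β h η (fun s : Fin n → Step 2 => inc τ t m s ^ 2) ∂(law 2 ρ) ≤ (δ * D) ^ 2 := by
    intro τ
    by_cases hτ : τ ∈ T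
    · obtain ⟨m, hm⟩ := hW1 τ t (hrows τ hτ).2.1 htn (hTw τ hτ)
      refine ⟨m, fun _ => hm.trans ?_⟩
      have h1 := mul_le_mul_of_nonneg_left (hrows τ hτ).2.2.1 hR10.le
      calc R₁ * ((t : ℝ) - τ) ≤ R₁ * (θ * D ^ 2) := h1
        _ = (δ * D) ^ 2 := by rw [← mul_assoc, hθR, mul_pow]
    · exact ⟨0, fun h1 => absurd h1 hτ⟩
  choose m hm using hmex
  -- the threshold of the mass
  set Λ : ℝ := L * (t / D ^ 2) ^ 2 with hΛ
  have hΛ0 : 0 < Λ := by positivity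
  have hsΛ : Real.sqrt Λ = Real.sqrt L * (t / D ^ 2) := by
    rw [hΛ, Real.sqrt_mul hL0.le, Real.sqrt_sq (by positivity)]
  have hty : ∀ τ ∈ T, Ty ρ β h n τ (D / 2) (Λ / τ) ≤ κ₁ / 8 := by
    intro τ hτ
    obtain ⟨r1, r2, r3, r4, r5⟩ := hrows τ hτ
    have e1 := htyp h n τ w (D / 2) Λ hw (by omega) (by positivity)
      (by
        have h1 := mul_le_mul_of_nonneg_right hcC1 hD2.le
        have h2 : C1 * w ≤ C1 * (1 / (4 * C1) * D ^ 2) :=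
          mul_le_mul_of_nonneg_left (hwD.trans h1) hC10.le
        have h3 : C1 * (1 / (4 * C1) * D ^ 2) = (D / 2) ^ 2 := by
          field_simp
          norm_num
        linarith)
      (by nlinarith) hΛ0 hW1
    refine le_trans e1 ?_
    have e2 : w / (D / 2) ^ 2 ≤ 4 * c * x ^ (1 / c) := by
      rw [div_le_iff₀ (by positivity)]
      calc w ≤ c * D ^ 2 * x ^ (1 / c) := hwc
        _ = 4 * c * x ^ (1 / c) * (D / 2) ^ 2 := by ring
    have e3 : (w / (D / 2) ^ 2) ^ c1 ≤ z * x := by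
      calc (w / (D / 2) ^ 2) ^ c1 ≤ (4 * c * x ^ (1 / c)) ^ c1 :=
            Real.rpow_le_rpow (by positivity) e2 hc1.le
        _ = (4 * c) ^ c1 * (x ^ (1 / c)) ^ c1 := Real.mul_rpow (by positivity) (by positivity)
        _ ≤ z * x := by
            refine mul_le_mul ?_ ?_ (by positivity) hz0.le
            · have f1 : 4 * c ≤ z ^ (1 / c1) := by linarith
              refine (Real.rpow_le_rpow (by positivity) f1 hc1.le).trans (le_of_eq ?_)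
              rw [← Real.rpow_mul hz0.le, one_div, inv_mul_cancel₀ hc1.ne', Real.rpow_one]
            · rw [← Real.rpow_mul hx0.le]
              have f2 : 1 ≤ 1 / c * c1 := by
                rw [one_div, inv_mul_eq_div, one_le_div hc0']
                exact hcc1
              calc x ^ (1 / c * c1) ≤ x ^ (1 : ℝ) :=
                    Real.rpow_le_rpow_of_exponent_ge hx0 hx1 f2
                _ = x := Real.rpow_one _
    have e4 : C1 * Real.sqrt Λ * (w / (D / 2) ^ 2) ^ c1 ≤ κ₁ / 16 := by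
      calc C1 * Real.sqrt Λ * (w / (D / 2) ^ 2) ^ c1 ≤ C1 * Real.sqrt Λ * (z * x) :=
            mul_le_mul_of_nonneg_left e3 (by positivity)
        _ = κ₁ / 16 := by
            rw [hsΛ, hz, hx]
            field_simp
    linarith
  -- the sum of the rows
  set K : ℝ := D / 8 + 8 * Real.sqrt (R₁ * t / κ₁) with hK
  have hK0 : 0 ≤ K := by positivity
  have hrow : ∀ τ ∈ T, c0 * κ₁ * D / 64 ≤ ∑ j : Fin 2, ∑ u ∈ Finset.Icc ⌊M j - K⌋ ⌈M j + K⌉,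
      (c0 * (∫ η, pe2 β h η (fun s s' : Fin n → Step 2 =>
        if ¬ ((u : ℝ) ≤ (pos s τ j : ℝ) + m τ j ↔ u ≤ pos s' t j)
          then Gw ρ β h n (Λ / τ) τ (pos s τ) η else 0) ∂(law 2 ρ)) -
      2 * ∫ η, pe β h η (fun s : Fin n → Step 2 =>
        if ¬ ((u : ℝ) ≤ (pos s τ j : ℝ) + m τ j ↔ u ≤ pos s t j) then (1 : ℝ) else 0)
          ∂(law 2 ρ)) := fun τ hτ =>
    rowN63 hA hκ1 hκ11 hR1 hc0 hc01 hδ h n t τ htn (hrows τ hτ).2.1.le ht0 D (Λ / τ) hDδ (m τ) M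
      (hm τ hτ) hM hRp (hty τ hτ)
  have hsum := Finset.sum_le_sum hrow
  rw [Finset.sum_const, nsmul_eq_mul, Finset.sum_comm] at hsum
  have hcol : ∀ j : Fin 2, ∑ τ ∈ T, ∑ u ∈ Finset.Icc ⌊M j - K⌋ ⌈M j + K⌉,
      (c0 * (∫ η, pe2 β h η (fun s s' : Fin n → Step 2 =>
        if ¬ ((u : ℝ) ≤ (pos s τ j : ℝ) + m τ j ↔ u ≤ pos s' t j)
          then Gw ρ β h n (Λ / τ) τ (pos s τ) η else 0) ∂(law 2 ρ)) -
      2 * ∫ η, pe β h η (fun s : Fin n → Step 2 =>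
        if ¬ ((u : ℝ) ≤ (pos s τ j : ℝ) + m τ j ↔ u ≤ pos s t j) then (1 : ℝ) else 0)
          ∂(law 2 ρ)) ≤ (2 * K + 3) * Real.sqrt (T.card * (t / Λ)) := by
    intro j
    rw [Finset.sum_comm]
    have f1 : ∀ u ∈ Finset.Icc ⌊M j - K⌋ ⌈M j + K⌉, ∑ τ ∈ T,
        (c0 * (∫ η, pe2 β h η (fun s s' : Fin n → Step 2 =>
          if ¬ ((u : ℝ) ≤ (pos s τ j : ℝ) + m τ j ↔ u ≤ pos s' t j)
            then Gw ρ β h n (Λ / τ) τ (pos s τ) η else 0) ∂(law 2 ρ)) -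
        2 * ∫ η, pe β h η (fun s : Fin n → Step 2 =>
          if ¬ ((u : ℝ) ≤ (pos s τ j : ℝ) + m τ j ↔ u ≤ pos s t j) then (1 : ℝ) else 0)
            ∂(law 2 ρ)) ≤ Real.sqrt (T.card * (t / Λ)) := by
      intro u _
      have f0 := hvar h n t T htn (fun τ hτ => Finset.mem_Icc.2 ⟨(hrows τ hτ).1,
        (hrows τ hτ).2.1.le.trans htn⟩) (fun τ y => Gw ρ β h n (Λ / τ) τ y)
        (fun τ y => (u : ℝ) ≤ (y j : ℝ) + m τ j) (fun y => u ≤ y j)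
        (fun τ y => gw_meas63 β h n _ τ y) (fun τ y η => gw_bd63 β h n _ τ y η)
        (fun τ y => gw_dep63 β h n _ τ y)
      refine le_trans (le_of_eq ?_) (f0.trans (Real.sqrt_le_sqrt ?_))
      · congr!
      rw [← nsmul_eq_mul, ← Finset.sum_const]
      refine Finset.sum_le_sum fun τ hτ => ?_
      obtain ⟨r1, r2, r3, r4, r5⟩ := hrows τ hτ
      have hτ0 : (0 : ℝ) < τ := by exact_mod_cast r1
      refine (gw_sum63 (by norm_num) β h (by omega) (by positivity)).trans ?_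
      rw [one_div, inv_div]
      have : (τ : ℝ) ≤ t := by exact_mod_cast r2.le
      exact div_le_div_of_nonneg_right this hΛ0.le
    refine (Finset.sum_le_sum f1).trans ?_
    rw [Finset.sum_const, nsmul_eq_mul]
    exact mul_le_mul_of_nonneg_right (cardU63 _ _ hK0) (Real.sqrt_nonneg _)
  rw [Fin.sum_univ_two] at hsum
  have hall := hsum.trans (add_le_add (hcol 0) (hcol 1))
  -- the numbers
  have hst : 0 < Real.sqrt t := Real.sqrt_pos.2 ht0'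
  have hst1 : 1 ≤ Real.sqrt t := by
    rw [Real.one_le_sqrt]
    exact_mod_cast ht0
  have hDst : D ≤ Real.sqrt t := Real.le_sqrt_of_sq_le hDt
  have hKb : 2 * K + 3 ≤ CK * Real.sqrt t := by
    rw [hK, hCK]
    have e1 : Real.sqrt (R₁ * t / κ₁) = Real.sqrt (R₁ / κ₁) * Real.sqrt t := by
      rw [← Real.sqrt_mul (by positivity)]
      congr 1
      ring
    rw [e1]
    nlinarith
  set N : ℝ := (T.card : ℝ) with hN
  have hN0 : 0 < N := lt_of_lt_of_le (by positivity) hcard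
  set S : ℝ := Real.sqrt (N * (t / Λ)) with hS
  have hS0 : 0 ≤ S := Real.sqrt_nonneg _
  have hS2 : S ^ 2 = N * (t / Λ) := Real.sq_sqrt (by positivity)
  have g1 : N * (c0 * κ₁ * D / 64) ≤ 2 * (CK * Real.sqrt t) * S := by
    refine hall.trans ?_
    have := mul_le_mul_of_nonneg_right hKb hS0
    linarith
  have g2 : (N * (c0 * κ₁ * D / 64)) ^ 2 ≤ (2 * (CK * Real.sqrt t) * S) ^ 2 :=
    pow_le_pow_left₀ (by positivity) g1 2
  have g3 : (2 * (CK * Real.sqrt t) * S) ^ 2 = N * (4 * CK ^ 2 * (t * (t / Λ))) := by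
    rw [mul_pow, hS2, mul_pow, mul_pow, Real.sq_sqrt ht0'.le]
    ring
  have g4 : t * (t / Λ) = D ^ 4 * (θ * (c0 * κ₁) ^ 2) / (131072 * CK ^ 2) := by
    rw [hΛ, hL]
    field_simp
  have g5 : N * (4 * CK ^ 2 * (t * (t / Λ))) = N * (D ^ 4 * (θ * (c0 * κ₁) ^ 2) / 32768) := by
    rw [g4]
    field_simp
    norm_num
  have g6 : (N * (c0 * κ₁ * D / 64)) ^ 2 = N * (N * (c0 * κ₁ * D / 64) ^ 2) := by ring
  rw [g3, g5, g6] at g2
  have g7 := le_of_mul_le_mul_left g2 hN0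
  have g8 : θ * D ^ 2 / 4 * (c0 * κ₁ * D / 64) ^ 2 ≤ N * (c0 * κ₁ * D / 64) ^ 2 :=
    mul_le_mul_of_nonneg_right hcard (sq_nonneg _)
  have g9 : θ * D ^ 2 / 4 * (c0 * κ₁ * D / 64) ^ 2 = 2 * (D ^ 4 * (θ * (c0 * κ₁) ^ 2) / 32768) := by
    ring
  have g10 : 0 < D ^ 4 * (θ * (c0 * κ₁) ^ 2) / 32768 := by positivity
  linarith

end Pool.Agent.W_7d29a1_NS
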