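import Pool.Agent.W_7d29a1_S90.DefsP45

/-!
Theorem NS: in dimension two a diffusive polymer has no separated replicas. Definitions and frozen
statements of the leaves.
-/

namespace Pool.Agent.W_7d29a1_NS

open MeasureTheory ProbabilityTheory Filter Topology Pool.Agent.W_MP_7d29a1_pr
  Pool.Agent.W_7d29a1_h46 Pool.Agent.W_7d29a1_h46u Pool.Agent.W_7d29a1_D2.B35
  Pool.Agent.W_7d29a1_Q29 Pool.Agent.W_7d29a1_S90

section Defs

variable {d : ℕ}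

/-- All windows of length at least `w` of the polymer of length `n` are diffusive (second
moments); `W2 ρ β h n α R` is `Wd ρ β h n (n ^ α) R`. -/
def Wd (ρ : Measure ℝ) (β : ℝ) (h : Vec d) (n : ℕ) (w R : ℝ) : Prop :=
  ∀ τ t : ℕ, τ < t → t ≤ n → w ≤ (t : ℝ) - τ → ∃ m : Vec d,
    ∫ η, pe β h η (fun s : Fin n → Step d => inc τ t m s ^ 2) ∂(law d ρ) ≤ R * ((t : ℝ) - τ)

/-- `Wd` in dimension two. -/
def Ww (ρ : Measure ℝ) (β : ℝ) (h : Vec 2) (n : ℕ) (w R : ℝ) : Prop :=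
  ∀ τ t : ℕ, τ < t → t ≤ n → w ≤ (t : ℝ) - τ → ∃ m : Vec 2,
    ∫ η, pe β h η (fun s : Fin n → Step 2 => inc τ t m s ^ 2) ∂(law 2 ρ) ≤ R * ((t : ℝ) - τ)

/-- The block of side `2 ^ i`, in the grid with offset `o`, which contains `x`. -/
def blk (i : ℕ) (o x : Site d) : Site d := fun j => (x j + o j) / 2 ^ i

open Classical in
/-- The probability that `S_t` is in the block `b`. -/
noncomputable def qb (β : ℝ) (h : Vec d) (n t i : ℕ) (o b : Site d) (η : Env d) : ℝ :=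
  pe β h η (fun s : Fin n → Step d => if blk i o (pos s t) = b then (1 : ℝ) else 0)

/-- The same given the rows `≤ τ`. -/
noncomputable def nb (ρ : Measure ℝ) (β : ℝ) (h : Vec d) (n t τ i : ℕ) (o b : Site d)
    (η : Env d) : ℝ := cE ρ (Pa d τ) (qb β h n t i o b) η

/-- The row `τ` is high for the block `b` (a function of the rows `< τ`). -/
def Hi (ρ : Measure ℝ) (β : ℝ) (h : Vec d) (n t : ℕ) (a : ℝ) (τ i : ℕ) (o b : Site d)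
    (η : Env d) : Prop :=
  cE ρ (Pa d (τ - 1)) (fun ξ => Real.sqrt (nb ρ β h n t τ i o b ξ)) η ≤
    Real.exp (-a) * Real.sqrt (nb ρ β h n t (τ - 1) i o b η)

open Classical in
/-- The weighted number of the rows in `(τ₀, τ]` which are high for the block of `x`. -/
noncomputable def Nh (ρ : Measure ℝ) (β : ℝ) (h : Vec d) (n t : ℕ) (a : ℕ → ℝ) (lev : ℕ → ℕ)
    (o : Site d) (τ₀ τ : ℕ) (x : Site d) (η : Env d) : ℝ :=
  ∑ σ ∈ Finset.Ioc τ₀ τ,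
    if Hi ρ β h n t (a σ) σ (lev σ) o (blk (lev σ) o x) η then a σ else 0

open Classical in
/-- The probability that the row `τ` is low for the block of `S_t` and that the other replica is in
another block. -/
noncomputable def Lo (ρ : Measure ℝ) (β : ℝ) (h : Vec d) (n t : ℕ) (a : ℝ) (τ i : ℕ)
    (o : Site d) : ℝ :=
  ∫ η, pe2 β h η (fun s s' : Fin n → Step d =>
    if ¬ Hi ρ β h n t a τ i o (blk i o (pos s t)) η ∧ blk i o (pos s' t) ≠ blk i o (pos s t)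
      then (1 : ℝ) else 0) ∂(law d ρ)

open Classical in
/-- The probability that `S_t` is at distance at most `r` from the complement of its block. -/
noncomputable def Nb (ρ : Measure ℝ) (β : ℝ) (h : Vec d) (n t i : ℕ) (o : Site d) (r : ℝ) : ℝ :=
  ∫ η, pe β h η (fun s : Fin n → Step d =>
    if ∃ z : Site d, blk i o z ≠ blk i o (pos s t) ∧ ‖emb z - emb (pos s t)‖ ≤ r
      then (1 : ℝ) else 0) ∂(law d ρ)

open Classical in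
/-- Replicas at distance `> r` at the time `t`, and `S_t` at a site of conditional probability
(given the rows `< t`) less than `ε`. -/
noncomputable def Ty (ρ : Measure ℝ) (β : ℝ) (h : Vec d) (n t : ℕ) (r ε : ℝ) : ℝ :=
  ∫ η, pe2 β h η (fun s s' : Fin n → Step d =>
    if r < ‖emb (pos s t) - emb (pos s' t)‖ ∧
        cE ρ (Pa d (t - 1)) (Qt β h n t (pos s t)) η < ε
      then (1 : ℝ) else 0) ∂(law d ρ)

end Defs

section Leaves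

variable (d : ℕ) (ρ : Measure ℝ) (β : ℝ)

open Classical in
/-- Leaf SIB: the influence of one site of the row `τ` on the probability of an event, with a
weight which does not see the site. -/
def SibP : Prop := ∃ q c : ℝ, 0 < c ∧ c ≤ 1 ∧ ∀ (h : Vec d) (n τ : ℕ), 1 ≤ τ → τ ≤ n →
  ∀ (y : Site d) (Fr : (Fin n → Step d) → Prop) (χ : Env d → ℝ), Measurable χ →
    (∀ η, 0 ≤ χ η ∧ χ η ≤ 1) → DependsOn χ ({(τ, y)}ᶜ : Set (ℕ × Site d)) →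
    c * (∫ η, χ η * pe2 β h η (fun s s' : Fin n → Step d =>
        if pos s τ = y ∧ pos s' τ ≠ y ∧ Fr s' then (1 : ℝ) else 0) ∂(law d ρ)) -
      (∫ η, χ η * pe β h η (fun s : Fin n → Step d =>
        if pos s τ = y ∧ Fr s then (1 : ℝ) else 0) ∂(law d ρ)) ≤
    ∫ η, χ η * (zt ρ q (η (τ, y)) * pe β h η (fun s : Fin n → Step d =>
      if ¬ Fr s then (1 : ℝ) else 0)) ∂(law d ρ)

open Classical in
/-- Leaf LOA: one row and one block (`√x ≤ (x (1 - φ) + 1 / (1 - φ)) / 2`, so that the second order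
term is a mean of the row alone). -/
def LoaP : Prop := ∀ (q : ℝ) (h : Vec d) (n τ t : ℕ), 1 ≤ τ → τ < t → t ≤ n →
  ∀ (g a : ℝ) (i : ℕ) (o b : Site d) (Y : Finset (Site d)), 0 ≤ g → g * Y.card ≤ 1 / 2 → 0 ≤ a →
    g * (∫ η, (if Hi ρ β h n t a τ i o b η then (0 : ℝ) else 1) *
      ((∑ y ∈ Y, zt ρ q (η (τ, y))) * qb β h n t i o b η) ∂(law d ρ)) ≤
    2 * (a + g ^ 2 * Y.card) *
      ∫ η, (if Hi ρ β h n t a τ i o b η then (0 : ℝ) else 1) * qb β h n t i o b η ∂(law d ρ)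

/-- Leaf LOW (from `SibP`, `LoaP`): low rows are rare (`2 ^ (d * i)` sites in a block). -/
def LowP : Prop := ∃ c : ℝ, 0 < c ∧ c ≤ 1 ∧ ∀ (h : Vec d) (n τ t : ℕ), 1 ≤ τ → τ < t → t ≤ n →
  ∀ (m : Vec d) (r g a : ℝ) (i : ℕ) (o : Site d), (d : ℝ) ≤ r → 0 ≤ g →
    g * 2 ^ (d * i) ≤ 1 / 2 → 0 ≤ a →
    g * (c * (Lo ρ β h n t a τ i o - 2 * Tl ρ β h n τ t m r - Nb ρ β h n t i o (2 * r)) -
      Tl ρ β h n τ t m r) ≤ 2 * (a + g ^ 2 * 2 ^ (d * i))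

/-- Leaf CHN: the chain of the blocks. -/
def ChnP : Prop := ∀ (h : Vec d) (n t τ₀ : ℕ), τ₀ < t → t ≤ n →
  ∀ (a : ℕ → ℝ) (lev : ℕ → ℕ) (o : Site d) (U : Finset (Site d)), (∀ σ, 0 ≤ a σ) →
    Antitone lev →
    (∀ x ∈ U, ∀ z : Site d, blk (lev (τ₀ + 1)) o z = blk (lev (τ₀ + 1)) o x → z ∈ U) →
    ∫ η, ∑ x ∈ U, Real.sqrt (cE ρ (Pa d (t - 1)) (Qt β h n t x) η) *
      Real.exp (Nh ρ β h n t a lev o τ₀ (t - 1) x η) ∂(law d ρ) ≤ Real.sqrt U.card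

/-- Leaf OFF: the offset. -/
def OffP : Prop := ∀ (h : Vec d) (n t : ℕ) (S : Finset ℕ) (lev : ℕ → ℕ) (w r : ℕ → ℝ),
  (∀ s ∈ S, 0 ≤ w s) → (∀ s ∈ S, 0 ≤ r s) → ∃ o : Site d,
    ∑ s ∈ S, w s * Nb ρ β h n t (lev s) o (r s) ≤ ∑ s ∈ S, w s * (2 * d * r s / 2 ^ lev s)

open Classical in
/-- Leaf TYA (from `ChnP`): typical concentration, the general inequality. -/
def TyaP : Prop := ∀ (h : Vec d) (n t τ₀ : ℕ), τ₀ < t → t ≤ n →
  ∀ (a : ℕ → ℝ) (lev : ℕ → ℕ) (o : Site d) (U : Finset (Site d)) (D ε : ℝ), (∀ σ, 0 ≤ a σ) →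
    Antitone lev →
    (∀ x ∈ U, ∀ z : Site d, blk (lev (τ₀ + 1)) o z = blk (lev (τ₀ + 1)) o x → z ∈ U) →
    (∀ σ ∈ Finset.Ioc τ₀ (t - 1), 0 < a σ → ∀ x z : Site d,
      blk (lev σ) o x = blk (lev σ) o z → ‖emb x - emb z‖ ≤ D) →
    0 < ∑ σ ∈ Finset.Ioc τ₀ (t - 1), a σ → 0 ≤ ε →
    Ty ρ β h n t D ε ≤
      (∫ η, pe β h η (fun s : Fin n → Step d => if pos s t ∉ U then (1 : ℝ) else 0)
        ∂(law d ρ)) +
      2 / (∑ σ ∈ Finset.Ioc τ₀ (t - 1), a σ) *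
        (∑ σ ∈ Finset.Ioc τ₀ (t - 1), a σ * Lo ρ β h n t (a σ) σ (lev σ) o) +
      Real.sqrt ε * Real.exp (-((∑ σ ∈ Finset.Ioc τ₀ (t - 1), a σ) / 2)) * Real.sqrt U.card

/-- Leaf TYP, another form. -/
def TypP : Prop := ∀ R κ : ℝ, 0 < κ → ∃ c C : ℝ, 0 < c ∧ c ≤ 1 ∧ 0 ≤ C ∧
  ∀ (h : Vec 2) (n t : ℕ) (w D Λ : ℝ), t ≤ n → 1 ≤ w → 0 ≤ D → w ≤ c * D ^ 2 → D ^ 2 ≤ 4 * t →
    0 ≤ Λ → Wd ρ β h n w R → Ty ρ β h n t D (Λ / t) ≤ κ + C * Real.sqrt Λ * (w / D ^ 2) ^ c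

open Classical in
/-- Leaf TYP (dimension two; from `LowP`, `TyaP`, `OffP`): typical concentration. -/
def TypN : Prop := ∀ R κ : ℝ, 1 ≤ R → 0 < κ → ∃ c C : ℝ, 0 < c ∧ c ≤ 1 ∧ 1 ≤ C ∧
  ∀ (h : Vec 2) (n t : ℕ) (w D Λ : ℝ), 1 ≤ w → t ≤ n → 0 < D → C * w ≤ D ^ 2 → D ^ 2 ≤ t →
    0 < Λ → Ww ρ β h n w R →
    ∫ η, pe2 β h η (fun s s' : Fin n → Step 2 =>
      if D < ‖emb (pos s t) - emb (pos s' t)‖ ∧
          cE ρ (Pa 2 (t - 1)) (Qt β h n t (pos s t)) η < Λ / t then (1 : ℝ) else 0)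
        ∂(law 2 ρ) ≤ κ + C * Real.sqrt Λ * (w / D ^ 2) ^ c

open Classical in
/-- Leaf VAR (from `SibP`): the bounded functional `P_n(S_e ∈ A)`; `sd t y`: the site `y` at the
time `t` is on the side of `A`; `G t y`: predictable weights. -/
def VarP : Prop := ∃ c : ℝ, 0 < c ∧ c ≤ 1 ∧ ∀ (h : Vec d) (n e : ℕ) (T : Finset ℕ), e ≤ n →
  T ⊆ Finset.Icc 1 n → ∀ (G : ℕ → Site d → Env d → ℝ) (sd : ℕ → Site d → Prop)
    (A : Site d → Prop), (∀ t y, Measurable (G t y)) → (∀ t y η, 0 ≤ G t y η ∧ G t y η ≤ 1) →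
    (∀ t y, DependsOn (G t y) (Pa d (t - 1))) →
    ∑ t ∈ T, (c * (∫ η, pe2 β h η (fun s s' : Fin n → Step d =>
        if ¬ (sd t (pos s t) ↔ A (pos s' e)) then G t (pos s t) η else 0) ∂(law d ρ)) -
      2 * ∫ η, pe β h η (fun s : Fin n → Step d =>
        if ¬ (sd t (pos s t) ↔ A (pos s e)) then (1 : ℝ) else 0) ∂(law d ρ)) ≤
    Real.sqrt (∑ t ∈ T, ∫ η, ∑ y ∈ boxF d n, G t y η ∂(law d ρ))

open Classical in
/-- Leaf AVG: the half planes `{x | u ≤ x j}`, `u` an integer. -/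
def AvgP : Prop := ∀ (h : Vec 2) (n τ t : ℕ) (j : Fin 2) (m M : Vec 2) (K lam : ℝ)
  (G : Site 2 → Env 2 → ℝ), τ ≤ t → t ≤ n → 1 ≤ lam → lam ≤ K → (∀ y, Measurable (G y)) →
  (∀ y η, 0 ≤ G y η ∧ G y η ≤ 1) →
  (lam - 1) * ((∫ η, pe2 β h η (fun s s' : Fin n → Step 2 =>
        if 2 * lam ≤ |(pos s τ j : ℝ) - (pos s' τ j : ℝ)| then G (pos s τ) η else 0)
          ∂(law 2 ρ)) - Tl ρ β h n τ t m lam -
      ∫ η, pe β h η (fun s : Fin n → Step 2 =>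
        if K - lam < ‖emb (pos s t) - M‖ then (1 : ℝ) else 0) ∂(law 2 ρ)) ≤
    ∑ u ∈ Finset.Icc ⌊M j - K⌋ ⌈M j + K⌉, ∫ η, pe2 β h η (fun s s' : Fin n → Step 2 =>
      if ¬ ((u : ℝ) ≤ (pos s τ j : ℝ) + m j ↔ u ≤ pos s' t j) then G (pos s τ) η else 0)
        ∂(law 2 ρ) ∧
  ∑ u ∈ Finset.Icc ⌊M j - K⌋ ⌈M j + K⌉, ∫ η, pe β h η (fun s : Fin n → Step 2 =>
      if ¬ ((u : ℝ) ≤ (pos s τ j : ℝ) + m j ↔ u ≤ pos s t j) then (1 : ℝ) else 0) ∂(law 2 ρ) ≤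
    (∫ η, pe β h η (fun s : Fin n → Step 2 => inc τ t m s) ∂(law 2 ρ)) + 1

/-- **Theorem NS** (dimension two; from `TypN`, `VarP`, `AvgP`), general form: if the windows of
length at least `w` are diffusive, two replicas are at distance at most `C √t (w / t) ^ c`. -/
def NsN : Prop := ∀ R κ : ℝ, 0 < κ → ∃ c C : ℝ, 0 < c ∧ 0 < C ∧
  ∀ (h : Vec 2) (n t : ℕ) (w : ℝ), 1 ≤ w → w ≤ t → t ≤ n → Ww ρ β h n w R →
    Rp ρ β h n t (C * Real.sqrt t * (w / t) ^ c) < κ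

/-- Theorem NS, another form of the general form. -/
def NsG : Prop := ∀ R κ : ℝ, 0 < κ → ∃ c : ℝ, 0 < c ∧ ∀ (h : Vec 2) (n t : ℕ) (w D : ℝ),
  t ≤ n → 1 ≤ w → 0 < D → D ^ 2 ≤ t → w ≤ c * D ^ 2 * (D ^ 2 / t) ^ (1 / c) →
    Wd ρ β h n w R → Rp ρ β h n t D < κ

/-- Theorem NS, macroscopic windows, all times (from `NsN`). -/
def NdP : Prop := ∀ R r κ : ℝ, 0 < r → 0 < κ → ∃ ε : ℝ, 0 < ε ∧ ∃ N₀ : ℕ,
  ∀ (h : Vec 2) (n : ℕ), N₀ ≤ n → Wd ρ β h n (ε * n) R → ∀ t : ℕ, t ≤ n →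
    Rp ρ β h n t (r * Real.sqrt n) < κ

/-- Theorem NS, polynomial scales, all times (from `NsN`). -/
def NsP : Prop := ∀ α R κ : ℝ, α < 1 → 0 < κ → ∃ c : ℝ, 0 < c ∧ ∃ N₀ : ℕ,
  ∀ (h : Vec 2) (n : ℕ), N₀ ≤ n → W2 ρ β h n α R → ∀ t : ℕ, t ≤ n →
    Rp ρ β h n t ((n : ℝ) ^ ((1 : ℝ) / 2 - c)) < κ

end Leaves

end Pool.Agent.W_7d29a1_NS
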