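import Pool.Agent.W_7d29a1_NS.Core63

/-!
Theorem NS from the leaves TYP, VAR, AVG, final form.
-/

namespace Pool.Agent.W_7d29a1_NS

open MeasureTheory ProbabilityTheory Filter Topology Pool.Agent.W_MP_7d29a1_pr
  Pool.Agent.W_7d29a1_h46 Pool.Agent.W_7d29a1_h46u Pool.Agent.W_7d29a1_D2.B35
  Pool.Agent.W_7d29a1_Q29 Pool.Agent.W_7d29a1_Q29.D85 Pool.Agent.W_7d29a1_S90

variable {ρ : Measure ℝ} [IsProbabilityMeasure ρ]

open Classical in
lemma rp_anti63 {d : ℕ} (hd : 0 < d) (β : ℝ) (h : Vec d) (n t : ℕ) {r r' : ℝ} (hr : r ≤ r') :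
    Rp ρ β h n t r' ≤ Rp ρ β h n t r := by
  unfold Rp
  refine integral_mono (integrable_pe2_fun73 hd β h _) (integrable_pe2_fun73 hd β h _) fun η => ?_
  refine pe2_mono73 hd β h η fun s s' => ?_
  by_cases h1 : r' < ‖emb (pos s t) - emb (pos s' t)‖
  · rw [if_pos h1, if_pos (lt_of_le_of_lt hr h1)]
  · rw [if_neg h1]
    split_ifs <;> norm_num

open Classical in
lemma rp_zero63 {d : ℕ} (hd : 0 < d) (β : ℝ) (h : Vec d) (n : ℕ) : Rp ρ β h n 0 0 = 0 := by
  unfold Rp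
  have h1 : ∀ η : Env d, pe2 β h η (fun s s' : Fin n → Step d =>
      if 0 < ‖emb (pos s 0) - emb (pos s' 0)‖ then (1 : ℝ) else 0) = 0 := by
    intro η
    have h2 : (fun s s' : Fin n → Step d =>
        if 0 < ‖emb (pos s 0) - emb (pos s' 0)‖ then (1 : ℝ) else 0) = fun _ _ => 0 := by
      funext s s'
      rw [pos_zero73, pos_zero73, sub_self, norm_zero]
      simp
    rw [h2]
    unfold pe2
    rw [pe_const73 hd, pe_const73 hd]
  simp only [h1, integral_zero]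

/-- Chebyshev for two replicas. -/
lemma rp_cheb63 {d : ℕ} (hd : 0 < d) (β : ℝ) (h : Vec d) (n t : ℕ) (M : Vec d) {r B : ℝ}
    (hr : 0 < r)
    (hM : ∫ η, pe β h η (fun s : Fin n → Step d => inc 0 t M s ^ 2) ∂(law d ρ) ≤ B) :
    Rp ρ β h n t r ≤ 8 * B / r ^ 2 := by
  have h1 := rpq63 (ρ := ρ) hd β h n 0 t M r (r / 2)
  have h2 := tlq63 (ρ := ρ) hd β h n 0 t M (s := r / 2) (by positivity) hM
  have e1 : r - 2 * (r / 2) = 0 := by ring
  rw [e1, rp_zero63 hd] at h1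
  have e2 : B / (r / 2) ^ 2 = 4 * B / r ^ 2 := by
    field_simp
    norm_num
  rw [e2] at h2
  have e3 : 8 * B / r ^ 2 = 2 * (4 * B / r ^ 2) := by ring
  linarith

/-- **Theorem NS from the leaves.** -/
theorem mainN63 {β : ℝ} (hT : TypN ρ β) (hV : VarP 2 ρ β) (hA : AvgP ρ β) : NsN ρ β := by
  intro R κ hκ
  obtain ⟨c, hc0, hc1, hcore⟩ := coreN63 hT hV hA R κ hκ
  obtain ⟨R₁, hR1, hRR1⟩ : ∃ R₁ : ℝ, 1 ≤ R₁ ∧ R ≤ R₁ :=
    ⟨max R 1, le_max_right _ _, le_max_left _ _⟩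
  obtain ⟨a, ha⟩ : ∃ a : ℝ, a = c / (2 * (1 + c)) := ⟨_, rfl⟩
  have ha0 : 0 < a := by rw [ha]; positivity
  have ha2 : 2 * a * (1 + 1 / c) = 1 := by
    rw [ha]
    field_simp
    ring
  obtain ⟨K, hK⟩ : ∃ K : ℝ, K = 4 * Real.sqrt (R₁ / κ) := ⟨_, rfl⟩
  have hK0 : 0 < K := by rw [hK]; positivity
  refine ⟨a, (K + 1) * (1 / c) ^ a, ha0, by positivity, fun h n t w hw hwt htn hW => ?_⟩
  have ht0' : (0 : ℝ) < t := by linarith
  have ht0 : 0 < t := by exact_mod_cast ht0'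
  set y : ℝ := w / t with hy
  have hy0 : 0 < y := by positivity
  set D : ℝ := Real.sqrt t * (y / c) ^ a with hD
  have hD0 : 0 < D := by positivity
  have hr : (K + 1) * (1 / c) ^ a * Real.sqrt t * y ^ a = (K + 1) * D := by
    rw [hD, div_eq_mul_one_div y c, Real.mul_rpow hy0.le (by positivity)]
    ring
  rw [hr]
  have hD2 : D ^ 2 = t * (y / c) ^ (2 * a) := by
    rw [hD, mul_pow, Real.sq_sqrt ht0'.le, two_mul, Real.rpow_add (by positivity), sq]
  by_cases hDt : D ^ 2 ≤ t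
  · refine lt_of_le_of_lt (rp_anti63 (by norm_num) β h n t (r := D) (by nlinarith)) ?_
    refine hcore h n t w D htn hw hD0 hDt (le_of_eq ?_) hW
    have e1 : D ^ 2 / t = (y / c) ^ (2 * a) := by
      rw [hD2]
      field_simp
    rw [e1, hD2]
    have e2 : (y / c) ^ (2 * a) * ((y / c) ^ (2 * a)) ^ (1 / c) = y / c := by
      rw [← Real.rpow_mul (by positivity), ← Real.rpow_add (by positivity)]
      have e3 : 2 * a + 2 * a * (1 / c) = 1 := by
        calc 2 * a + 2 * a * (1 / c) = 2 * a * (1 + 1 / c) := by ring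
          _ = 1 := ha2
      rw [e3, Real.rpow_one]
    calc w = c * t * (y / c) := by
          rw [hy]
          field_simp
      _ = c * t * ((y / c) ^ (2 * a) * ((y / c) ^ (2 * a)) ^ (1 / c)) := by rw [e2]
      _ = c * (t * (y / c) ^ (2 * a)) * ((y / c) ^ (2 * a)) ^ (1 / c) := by ring
  · push Not at hDt
    obtain ⟨M, hM⟩ := hW 0 t ht0 htn (by push_cast; linarith)
    have hM' : ∫ η, pe β h η (fun s : Fin n → Step 2 => inc 0 t M s ^ 2) ∂(law 2 ρ) ≤ R₁ * t := by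
      refine hM.trans ?_
      push_cast
      rw [sub_zero]
      exact mul_le_mul_of_nonneg_right hRR1 ht0'.le
    refine lt_of_le_of_lt (rp_cheb63 (by norm_num) β h n t M (by positivity) hM') ?_
    rw [div_lt_iff₀ (by positivity)]
    have hK2 : K ^ 2 = 16 * (R₁ / κ) := by
      rw [hK, mul_pow, Real.sq_sqrt (by positivity)]
      norm_num
    have e4 : κ * (K ^ 2 * D ^ 2) = 16 * R₁ * D ^ 2 := by
      rw [hK2]
      field_simp
    have e5 : K ^ 2 * D ^ 2 ≤ ((K + 1) * D) ^ 2 := by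
      have e9 : K ^ 2 ≤ (K + 1) ^ 2 := pow_le_pow_left₀ hK0.le (by linarith) 2
      have e10 : ((K + 1) * D) ^ 2 = (K + 1) ^ 2 * D ^ 2 := mul_pow _ _ _
      rw [e10]
      exact mul_le_mul_of_nonneg_right e9 (sq_nonneg _)
    have e6 := mul_le_mul_of_nonneg_left e5 hκ.le
    have hR10 : 0 < R₁ := by linarith
    have e7 : R₁ * t < R₁ * D ^ 2 := mul_lt_mul_of_pos_left hDt hR10
    have e8 : 0 < R₁ * t := by positivity
    linarith

end Pool.Agent.W_7d29a1_NS
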