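import Pool.Agent.W_7d29a1_NS.DefsN72
import Pool.Agent.W_7d29a1_S90.RpT73
import Pool.Agent.W_7d29a1_S90.SiI39
import Pool.Agent.W_7d29a1_Q29.Ce39
import Pool.Agent.W_7d29a1_Q29.Qf39
import Pool.Agent.W_7d29a1_h46u.TubU

/-!
Theorem NS, leaf LOW: low rows are rare.
-/

namespace Pool.Agent.W_7d29a1_NS

open MeasureTheory ProbabilityTheory Filter Topology Pool.Agent.W_MP_7d29a1_pr
  Pool.Agent.W_7d29a1_h46 Pool.Agent.W_7d29a1_h46u Pool.Agent.W_7d29a1_D2.B35
  Pool.Agent.W_7d29a1_Q29 Pool.Agent.W_7d29a1_S90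

variable {d : ℕ} {ρ : Measure ℝ}

/-- The rounded shift by `m`. -/
noncomputable def sft39 (m : Vec d) (y : Site d) : Site d := fun j => y j + ⌊m j⌋

lemma sft_near39 (m : Vec d) (y : Site d) : ‖emb (sft39 m y) - emb y - m‖ ≤ d := by
  refine (TubU_norm _).trans ?_
  have h1 : ∀ j : Fin d, |(emb (sft39 m y) - emb y - m) j| ≤ 1 := by
    intro j
    have h2 : (emb (sft39 m y) - emb y - m) j = (⌊m j⌋ : ℝ) - m j := by
      simp [emb, sft39]
    rw [h2, abs_le]
    constructor
    · linarith [Int.lt_floor_add_one (m j)]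
    · linarith [Int.floor_le (m j)]
  refine (Finset.sum_le_sum fun j _ => h1 j).trans ?_
  simp

open Classical in
/-- The sites `y` such that the ball of radius `r` around `y + m` is in the block `b`. -/
noncomputable def Yb39 (n i : ℕ) (o : Site d) (m : Vec d) (r : ℝ) (b : Site d) :
    Finset (Site d) :=
  (boxF d n).filter fun y => ∀ z : Site d, ‖emb z - emb y - m‖ ≤ r → blk i o z = b

open Classical in
lemma Yb_mem39 {n i : ℕ} {o : Site d} {m : Vec d} {r : ℝ} {b y : Site d}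
    (hy : y ∈ Yb39 n i o m r b) : ∀ z : Site d, ‖emb z - emb y - m‖ ≤ r → blk i o z = b := by
  unfold Yb39 at hy
  exact (Finset.mem_filter.1 hy).2

lemma Yb_card39 {r : ℝ} (hr : (d : ℝ) ≤ r) (n i : ℕ) (o : Site d) (m : Vec d) (b : Site d) :
    (Yb39 n i o m r b).card ≤ 2 ^ (d * i) := by
  classical
  have h1 : ∀ y ∈ Yb39 n i o m r b, blk i o (sft39 m y) = b := fun y hy =>
    Yb_mem39 hy _ ((sft_near39 m y).trans hr)
  have h2 : (Yb39 n i o m r b).card ≤ (Fintype.piFinset fun j : Fin d =>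
      Finset.Ico (b j * 2 ^ i - o j) (b j * 2 ^ i - o j + 2 ^ i)).card := by
    refine Finset.card_le_card_of_injOn (sft39 m) ?_ ?_
    · intro y hy
      rw [Finset.mem_coe, Fintype.mem_piFinset]
      intro j
      have h3 := congrFun (h1 y (Finset.mem_coe.1 hy)) j
      simp only [blk] at h3
      have h4 : (0 : ℤ) < 2 ^ i := by positivity
      have h5 := Int.ediv_mul_le (sft39 m y j + o j) h4.ne'
      have h6 := Int.lt_ediv_add_one_mul_self (sft39 m y j + o j) h4
      rw [h3] at h5 h6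
      rw [add_mul, one_mul] at h6
      rw [Finset.mem_Ico]
      constructor
      · linarith
      · linarith
    · intro y _ y' _ hyy
      funext j
      have h3 := congrFun hyy j
      simp only [sft39] at h3
      linarith
  refine h2.trans ?_
  rw [Fintype.card_piFinset]
  have h3 : ∀ j : Fin d, (Finset.Ico (b j * 2 ^ i - o j) (b j * 2 ^ i - o j + 2 ^ i)).card =
      2 ^ i := by
    intro j
    rw [Int.card_Ico, add_sub_cancel_left]
    have h5 : ((2 : ℤ) ^ i) = ((2 ^ i : ℕ) : ℤ) := by push_cast; rfl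
    rw [h5, Int.toNat_natCast]
  simp only [h3]
  rw [Finset.prod_const, Finset.card_univ, Fintype.card_fin, ← pow_mul, mul_comm]

lemma pe2_add39 (β : ℝ) (h : Vec d) (η : Env d) {n : ℕ}
    (f g : (Fin n → Step d) → (Fin n → Step d) → ℝ) :
    pe2 β h η (fun s s' => f s s' + g s s') = pe2 β h η f + pe2 β h η g := by
  unfold pe2
  simp_rw [pe_add73]

lemma pe2_mul39 (β : ℝ) (h : Vec d) (η : Env d) {n : ℕ} (c : ℝ)
    (f : (Fin n → Step d) → (Fin n → Step d) → ℝ) :
    pe2 β h η (fun s s' => c * f s s') = c * pe2 β h η f := by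
  unfold pe2
  simp_rw [pe_mul73]

lemma pe2_sum39 {ι : Type*} (S : Finset ι) (β : ℝ) (h : Vec d) (η : Env d) {n : ℕ}
    (f : ι → (Fin n → Step d) → (Fin n → Step d) → ℝ) :
    pe2 β h η (fun s s' => ∑ i ∈ S, f i s s') = ∑ i ∈ S, pe2 β h η (f i) := by
  unfold pe2
  simp_rw [pe_sum73]

variable [IsProbabilityMeasure ρ]

lemma meas_qb39 (β : ℝ) (h : Vec d) (n t i : ℕ) (o b : Site d) :
    Measurable (qb β h n t i o b) := by
  unfold qb
  exact meas_pe39 β h _

lemma qb_bd39 (hd : 0 < d) (β : ℝ) (h : Vec d) (n t i : ℕ) (o b : Site d) (η : Env d) :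
    0 ≤ qb β h n t i o b η ∧ qb β h n t i o b η ≤ 1 := by
  unfold qb
  refine pe_bd39 hd β h η fun s => ?_
  split_ifs <;> constructor <;> norm_num

lemma meas_Hi39 (β : ℝ) (h : Vec d) (n t : ℕ) (a : ℝ) (τ i : ℕ) (o b : Site d) :
    MeasurableSet {η : Env d | Hi ρ β h n t a τ i o b η} := by
  unfold Hi
  refine measurableSet_le (measurable_cE ?_ _) (measurable_const.mul ?_)
  · exact (measurable_cE (meas_qb39 β h n t i o b) _).sqrt
  · exact (measurable_cE (meas_qb39 β h n t i o b) _).sqrt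

omit [IsProbabilityMeasure ρ] in
lemma dep_Hi39 (β : ℝ) (h : Vec d) (n t : ℕ) (a : ℝ) {τ : ℕ} (i : ℕ) (o b : Site d)
    {η η' : Env d} (hη : ∀ p ∈ Pa d (τ - 1), η p = η' p) :
    Hi ρ β h n t a τ i o b η ↔ Hi ρ β h n t a τ i o b η' := by
  unfold Hi
  have h1 := cE_dep (ρ := ρ) (Pa d (τ - 1)) (fun ξ => Real.sqrt (nb ρ β h n t τ i o b ξ)) hη
  have h2 : nb ρ β h n t (τ - 1) i o b η = nb ρ β h n t (τ - 1) i o b η' :=
    cE_dep (ρ := ρ) (Pa d (τ - 1)) (qb β h n t i o b) hη
  rw [h1, h2]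

open Classical in
/-- **Leaf LOW**: low rows are rare. -/
theorem lowP39 {β : ℝ} (hd : 0 < d) (hS : SibP d ρ β) (hL : LoaP d ρ β) : LowP d ρ β := by
  obtain ⟨q, c, hc0, hc1, hS⟩ := hS
  refine ⟨c, hc0, hc1, fun h n τ t hτ htt htn m r g a i o hr hg hgi ha => ?_⟩
  have hτn : τ ≤ n := htt.le.trans htn
  set X : Site d → Env d → ℝ :=
    fun b η => if Hi ρ β h n t a τ i o b η then (0 : ℝ) else 1 with hX
  have hXm : ∀ b, Measurable (X b) := fun b =>
    Measurable.ite (meas_Hi39 β h n t a τ i o b) measurable_const measurable_const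
  have hX01 : ∀ b η, 0 ≤ X b η ∧ X b η ≤ 1 := by
    intro b η
    simp only [hX]
    split_ifs <;> constructor <;> norm_num
  have hXd : ∀ b y, DependsOn (X b) ({(τ, y)}ᶜ : Set (ℕ × Site d)) := by
    intro b y η η' hη
    simp only [hX]
    have h1 := dep_Hi39 (ρ := ρ) β h n t a (τ := τ) i o b (η := η) (η' := η') (by
      intro p hp
      refine hη p ?_
      have hp' : p.1 ≤ τ - 1 := hp
      intro hpy
      have hpy' : p = (τ, y) := hpy
      rw [hpy'] at hp'
      simp only at hp'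
      omega)
    by_cases h2 : Hi ρ β h n t a τ i o b η
    · rw [if_pos h2, if_pos (h1.1 h2)]
    · rw [if_neg h2, if_neg (fun h3 => h2 (h1.2 h3))]
  set Bs : Finset (Site d) := (boxF d n).image (blk i o) with hBs
  set Y : Site d → Finset (Site d) := Yb39 n i o m r with hY
  obtain ⟨Fr, hFr⟩ : ∃ Fr : Site d → (Fin n → Step d) → Prop,
      ∀ b s, Fr b s ↔ blk i o (pos s t) ≠ b :=
    ⟨fun b s => blk i o (pos s t) ≠ b, fun _ _ => Iff.rfl⟩
  set f1 : Site d → Site d → (Fin n → Step d) → (Fin n → Step d) → ℝ := fun b y s s' =>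
    if pos s τ = y ∧ pos s' τ ≠ y ∧ Fr b s' then (1 : ℝ) else 0 with hf1
  set f2 : Site d → Site d → (Fin n → Step d) → ℝ := fun b y s =>
    if pos s τ = y ∧ Fr b s then (1 : ℝ) else 0 with hf2
  have hf1b : ∀ b y s s', 0 ≤ f1 b y s s' ∧ f1 b y s s' ≤ 1 := by
    intro b y s s'
    simp only [hf1]
    split_ifs <;> constructor <;> norm_num
  have hf2b : ∀ b y s, 0 ≤ f2 b y s ∧ f2 b y s ≤ 1 := by
    intro b y s
    simp only [hf2]
    split_ifs <;> constructor <;> norm_num
  have hi1 : ∀ b y, Integrable (fun η => X b η * pe2 β h η (f1 b y)) (law d ρ) := fun b y =>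
    int_bd39 ((hXm b).mul (meas_pe239 β h _)) fun η => by
      have k1 := pe2_bd39 hd β h η (hf1b b y)
      exact ⟨mul_nonneg (hX01 b η).1 k1.1, mul_le_one₀ (hX01 b η).2 k1.1 k1.2⟩
  have hi2 : ∀ b y, Integrable (fun η => X b η * pe β h η (f2 b y)) (law d ρ) := fun b y =>
    int_bd39 ((hXm b).mul (meas_pe39 β h _)) fun η => by
      have k1 := pe_bd39 hd β h η (hf2b b y)
      exact ⟨mul_nonneg (hX01 b η).1 k1.1, mul_le_one₀ (hX01 b η).2 k1.1 k1.2⟩
  have hi3 : ∀ b, Integrable (fun η => X b η * qb β h n t i o b η) (law d ρ) := fun b =>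
    int_bd39 ((hXm b).mul (meas_qb39 β h n t i o b)) fun η => by
      have k1 := qb_bd39 hd β h n t i o b η
      exact ⟨mul_nonneg (hX01 b η).1 k1.1, mul_le_one₀ (hX01 b η).2 k1.1 k1.2⟩
  have hcard : ∀ b, ((Y b).card : ℝ) ≤ 2 ^ (d * i) := fun b => by
    have := Yb_card39 hr n i o m b
    exact_mod_cast this
  -- one block
  have k1 : ∀ b, g * ∑ y ∈ Y b, (c * (∫ η, X b η * pe2 β h η (f1 b y) ∂(law d ρ)) -
      ∫ η, X b η * pe β h η (f2 b y) ∂(law d ρ)) ≤
      2 * (a + g ^ 2 * 2 ^ (d * i)) * ∫ η, X b η * qb β h n t i o b η ∂(law d ρ) := by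
    intro b
    have h1 : ∀ y ∈ Y b, c * (∫ η, X b η * pe2 β h η (f1 b y) ∂(law d ρ)) -
        ∫ η, X b η * pe β h η (f2 b y) ∂(law d ρ) ≤
        ∫ η, X b η * (zt ρ q (η (τ, y)) * qb β h n t i o b η) ∂(law d ρ) := by
      intro y _
      have h2 := hS h n τ hτ hτn y (Fr b) (X b) (hXm b) (hX01 b) (hXd b y)
      have h3 : ∀ η : Env d, pe β h η (fun s : Fin n → Step d =>
          if ¬ Fr b s then (1 : ℝ) else 0) = qb β h n t i o b η := by
        intro η
        unfold qb
        congr 1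
        funext s
        by_cases h4 : blk i o (pos s t) = b
        · rw [if_pos h4, if_pos fun h5 => (hFr b s).1 h5 h4]
        · rw [if_neg h4, if_neg fun h5 => h5 ((hFr b s).2 h4)]
      simp only [h3] at h2
      exact h2
    refine (mul_le_mul_of_nonneg_left (Finset.sum_le_sum h1) hg).trans ?_
    have h4 : ∑ y ∈ Y b, ∫ η, X b η * (zt ρ q (η (τ, y)) * qb β h n t i o b η) ∂(law d ρ) =
        ∫ η, X b η * ((∑ y ∈ Y b, zt ρ q (η (τ, y))) * qb β h n t i o b η) ∂(law d ρ) := by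
      rw [← integral_finsetSum]
      · refine integral_congr_ae (Eventually.of_forall fun η => ?_)
        show ∑ y ∈ Y b, X b η * (zt ρ q (η (τ, y)) * qb β h n t i o b η) =
          X b η * ((∑ y ∈ Y b, zt ρ q (η (τ, y))) * qb β h n t i o b η)
        rw [Finset.sum_mul, Finset.mul_sum]
      · intro y _
        have hzm : Measurable fun η : Env d => zt ρ q (η (τ, y)) :=
          (meas_zt39 ρ q).comp (measurable_pi_apply (τ, y))
        refine Integrable.of_bound
          ((hXm b).mul (hzm.mul (meas_qb39 β h n t i o b))).aestronglyMeasurable 1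
          (Eventually.of_forall fun η => ?_)
        rw [Real.norm_eq_abs, abs_mul, abs_mul, abs_of_nonneg (hX01 b η).1,
          abs_of_nonneg (qb_bd39 hd β h n t i o b η).1]
        exact mul_le_one₀ (hX01 b η).2 (mul_nonneg (abs_nonneg _)
          (qb_bd39 hd β h n t i o b η).1) (mul_le_one₀ (zt_bd39 ρ q _)
          (qb_bd39 hd β h n t i o b η).1 (qb_bd39 hd β h n t i o b η).2)
    rw [h4]
    have h5 : g * (Y b).card ≤ 1 / 2 := (mul_le_mul_of_nonneg_left (hcard b) hg).trans hgi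
    refine (hL q h n τ t hτ htt htn g a i o b (Y b) hg h5 ha).trans ?_
    refine mul_le_mul_of_nonneg_right ?_ (integral_nonneg fun η =>
      mul_nonneg (hX01 b η).1 (qb_bd39 hd β h n t i o b η).1)
    have h6 := mul_le_mul_of_nonneg_left (hcard b) (sq_nonneg g)
    linarith
  -- all blocks
  have k2 : ∑ b ∈ Bs, ∫ η, X b η * qb β h n t i o b η ∂(law d ρ) ≤ 1 := by
    rw [← integral_finsetSum _ fun b _ => hi3 b]
    have h1 : ∀ η : Env d, ∑ b ∈ Bs, X b η * qb β h n t i o b η ≤ 1 := by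
      intro η
      have h2 : ∑ b ∈ Bs, X b η * qb β h n t i o b η ≤ ∑ b ∈ Bs, qb β h n t i o b η :=
        Finset.sum_le_sum fun b _ => mul_le_of_le_one_left
          (qb_bd39 hd β h n t i o b η).1 (hX01 b η).2
      refine h2.trans ?_
      unfold qb
      rw [← pe_sum73]
      refine (pe_bd39 hd β h η fun s => ?_).2
      rw [Finset.sum_ite_eq]
      split_ifs <;> constructor <;> norm_num
    have h3 := integral_mono (μ := law d ρ)
      (integrable_finsetSum _ fun b _ => hi3 b) (integrable_const (1 : ℝ)) h1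
    simpa using h3
  have k3 : g * (c * (∑ b ∈ Bs, ∑ y ∈ Y b, ∫ η, X b η * pe2 β h η (f1 b y) ∂(law d ρ)) -
      ∑ b ∈ Bs, ∑ y ∈ Y b, ∫ η, X b η * pe β h η (f2 b y) ∂(law d ρ)) ≤
      2 * (a + g ^ 2 * 2 ^ (d * i)) := by
    have h1 := Finset.sum_le_sum fun b (_ : b ∈ Bs) => k1 b
    rw [← Finset.mul_sum, ← Finset.mul_sum] at h1
    have h2 : 2 * (a + g ^ 2 * 2 ^ (d * i)) *
        ∑ b ∈ Bs, ∫ η, X b η * qb β h n t i o b η ∂(law d ρ) ≤
        2 * (a + g ^ 2 * 2 ^ (d * i)) * 1 :=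
      mul_le_mul_of_nonneg_left k2 (by positivity)
    have h3 : ∑ b ∈ Bs, ∑ y ∈ Y b, (c * (∫ η, X b η * pe2 β h η (f1 b y) ∂(law d ρ)) -
        ∫ η, X b η * pe β h η (f2 b y) ∂(law d ρ)) =
        c * (∑ b ∈ Bs, ∑ y ∈ Y b, ∫ η, X b η * pe2 β h η (f1 b y) ∂(law d ρ)) -
        ∑ b ∈ Bs, ∑ y ∈ Y b, ∫ η, X b η * pe β h η (f2 b y) ∂(law d ρ) := by
      simp only [Finset.sum_sub_distrib, Finset.mul_sum]
    rw [h3] at h1
    linarith
  -- the main term
  have k4 : Lo ρ β h n t a τ i o ≤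
      (∑ b ∈ Bs, ∑ y ∈ Y b, ∫ η, X b η * pe2 β h η (f1 b y) ∂(law d ρ)) +
        Tl ρ β h n τ t m r + Tl ρ β h n τ t m r + Nb ρ β h n t i o (2 * r) := by
    set T : (Fin n → Step d) → ℝ := fun s => if r < inc τ t m s then (1 : ℝ) else 0 with hT
    set N : (Fin n → Step d) → ℝ := fun s =>
      if ∃ z : Site d, blk i o z ≠ blk i o (pos s t) ∧ ‖emb z - emb (pos s t)‖ ≤ 2 * r
        then (1 : ℝ) else 0 with hN
    have hT0 : ∀ s, 0 ≤ T s := fun s => by simp only [hT]; split_ifs <;> norm_num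
    have hN0 : ∀ s, 0 ≤ N s := fun s => by simp only [hN]; split_ifs <;> norm_num
    have e1 : (∑ b ∈ Bs, ∑ y ∈ Y b, ∫ η, X b η * pe2 β h η (f1 b y) ∂(law d ρ)) =
        ∫ η, ∑ b ∈ Bs, ∑ y ∈ Y b, X b η * pe2 β h η (f1 b y) ∂(law d ρ) := by
      rw [integral_finsetSum _ fun b _ => integrable_finsetSum _ fun y _ => hi1 b y]
      refine Finset.sum_congr rfl fun b _ => ?_
      rw [integral_finsetSum _ fun y _ => hi1 b y]
    have iA : Integrable (fun η => ∑ b ∈ Bs, ∑ y ∈ Y b, X b η * pe2 β h η (f1 b y))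
        (law d ρ) := integrable_finsetSum _ fun b _ => integrable_finsetSum _ fun y _ => hi1 b y
    have iT : Integrable (fun η => pe β h η T) (law d ρ) := integrable_pe_fun73 hd β h T
    have iN : Integrable (fun η => pe β h η N) (law d ρ) := integrable_pe_fun73 hd β h N
    have iL : Integrable (fun η : Env d => pe2 β h η (fun s s' : Fin n → Step d =>
        if ¬ Hi ρ β h n t a τ i o (blk i o (pos s t)) η ∧
          blk i o (pos s' t) ≠ blk i o (pos s t) then (1 : ℝ) else 0)) (law d ρ) := by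
      refine integrable_pe73 hd β h (C := 1)
        (f := fun η s => pe β h η fun s' : Fin n → Step d =>
          if ¬ Hi ρ β h n t a τ i o (blk i o (pos s t)) η ∧
            blk i o (pos s' t) ≠ blk i o (pos s t) then (1 : ℝ) else 0) ?_ ?_
      · intro s
        refine measurable_pe73 β h (f := fun η s' =>
          if ¬ Hi ρ β h n t a τ i o (blk i o (pos s t)) η ∧
            blk i o (pos s' t) ≠ blk i o (pos s t) then (1 : ℝ) else 0) fun s' => ?_
        refine Measurable.ite ?_ measurable_const measurable_const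
        exact (meas_Hi39 β h n t a τ i o (blk i o (pos s t))).compl.inter
          (MeasurableSet.const _)
      · intro η s
        refine abs_pe_le73 hd β h η fun s' => ?_
        split_ifs <;> norm_num
    have e2 : Tl ρ β h n τ t m r = ∫ η, pe β h η T ∂(law d ρ) := rfl
    have e3 : Nb ρ β h n t i o (2 * r) = ∫ η, pe β h η N ∂(law d ρ) := rfl
    have iAT : Integrable (fun η => (∑ b ∈ Bs, ∑ y ∈ Y b, X b η * pe2 β h η (f1 b y)) +
        pe β h η T) (law d ρ) := iA.add iT
    have iATT : Integrable (fun η => (∑ b ∈ Bs, ∑ y ∈ Y b, X b η * pe2 β h η (f1 b y)) +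
        pe β h η T + pe β h η T) (law d ρ) := iAT.add iT
    rw [e1, e2, e3, ← integral_add iA iT, ← integral_add iAT iT, ← integral_add iATT iN]
    unfold Lo
    refine integral_mono iL (iATT.add iN) fun η => ?_
    have hpt : ∀ s s' : Fin n → Step d,
        (if ¬ Hi ρ β h n t a τ i o (blk i o (pos s t)) η ∧
          blk i o (pos s' t) ≠ blk i o (pos s t) then (1 : ℝ) else 0) ≤
        (∑ b ∈ Bs, ∑ y ∈ Y b, X b η * f1 b y s s') + T s + T s' + N s := by
      intro s s'
      have hA0 : 0 ≤ ∑ b ∈ Bs, ∑ y ∈ Y b, X b η * f1 b y s s' :=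
        Finset.sum_nonneg fun b _ => Finset.sum_nonneg fun y _ =>
          mul_nonneg (hX01 b η).1 (hf1b b y s s').1
      have hle1 : (if ¬ Hi ρ β h n t a τ i o (blk i o (pos s t)) η ∧
          blk i o (pos s' t) ≠ blk i o (pos s t) then (1 : ℝ) else 0) ≤ 1 := by
        split_ifs <;> norm_num
      by_cases c1 : r < inc τ t m s
      · have : T s = 1 := if_pos c1
        linarith [hT0 s', hN0 s]
      by_cases c2 : r < inc τ t m s'
      · have : T s' = 1 := if_pos c2
        linarith [hT0 s, hN0 s]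
      by_cases c3 : ∃ z : Site d, blk i o z ≠ blk i o (pos s t) ∧
          ‖emb z - emb (pos s t)‖ ≤ 2 * r
      · have : N s = 1 := if_pos c3
        linarith [hT0 s, hT0 s']
      by_cases c4 : ¬ Hi ρ β h n t a τ i o (blk i o (pos s t)) η ∧
          blk i o (pos s' t) ≠ blk i o (pos s t)
      swap
      · rw [if_neg c4]
        linarith [hT0 s, hT0 s', hN0 s]
      rw [if_pos c4]
      have c1' : ‖emb (pos s t) - emb (pos s τ) - m‖ ≤ r := not_lt.1 c1
      have c2' : ‖emb (pos s' t) - emb (pos s' τ) - m‖ ≤ r := not_lt.1 c2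
      have hball : ∀ z : Site d, ‖emb z - emb (pos s τ) - m‖ ≤ r →
          blk i o z = blk i o (pos s t) := by
        intro z hz
        by_contra hne
        refine c3 ⟨z, hne, ?_⟩
        have e4 : emb z - emb (pos s t) = (emb z - emb (pos s τ) - m) -
            (emb (pos s t) - emb (pos s τ) - m) := by abel
        rw [e4]
        refine (norm_sub_le _ _).trans ?_
        linarith
      have hyY : pos s τ ∈ Y (blk i o (pos s t)) := by
        simp only [hY]
        unfold Yb39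
        exact Finset.mem_filter.2 ⟨pos_mem_boxF39 s hτn, hball⟩
      have hbB : blk i o (pos s t) ∈ Bs :=
        Finset.mem_image.2 ⟨pos s t, pos_mem_boxF39 s htn, rfl⟩
      have hne : pos s' τ ≠ pos s τ := by
        intro he
        rw [he] at c2'
        exact c4.2 (hball _ c2')
      have hone : X (blk i o (pos s t)) η * f1 (blk i o (pos s t)) (pos s τ) s s' = 1 := by
        have g1 : X (blk i o (pos s t)) η = 1 := if_neg c4.1
        have g2 : f1 (blk i o (pos s t)) (pos s τ) s s' = 1 :=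
          if_pos ⟨rfl, hne, (hFr _ _).2 c4.2⟩
        rw [g1, g2, mul_one]
      have h7 : X (blk i o (pos s t)) η * f1 (blk i o (pos s t)) (pos s τ) s s' ≤
          ∑ y ∈ Y (blk i o (pos s t)), X (blk i o (pos s t)) η *
            f1 (blk i o (pos s t)) y s s' :=
        Finset.single_le_sum (f := fun y => X (blk i o (pos s t)) η *
          f1 (blk i o (pos s t)) y s s')
          (fun y _ => mul_nonneg (hX01 _ η).1 (hf1b _ y s s').1) hyY
      have h8 : ∑ y ∈ Y (blk i o (pos s t)), X (blk i o (pos s t)) η *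
            f1 (blk i o (pos s t)) y s s' ≤ ∑ b ∈ Bs, ∑ y ∈ Y b, X b η * f1 b y s s' :=
        Finset.single_le_sum (f := fun b => ∑ y ∈ Y b, X b η * f1 b y s s')
          (fun b _ => Finset.sum_nonneg fun y _ => mul_nonneg (hX01 b η).1 (hf1b b y s s').1) hbB
      linarith [hT0 s, hT0 s', hN0 s]
    refine (pe2_mono73 hd β h η hpt).trans ?_
    rw [pe2_add39 β h η (fun s s' => (∑ b ∈ Bs, ∑ y ∈ Y b, X b η * f1 b y s s') + T s + T s')
      (fun s _ => N s), pe2_add39 β h η
      (fun s s' => (∑ b ∈ Bs, ∑ y ∈ Y b, X b η * f1 b y s s') + T s) (fun _ s' => T s'),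
      pe2_add39 β h η (fun s s' => ∑ b ∈ Bs, ∑ y ∈ Y b, X b η * f1 b y s s') (fun s _ => T s),
      pe2_fst73 hd, pe2_snd73 hd, pe2_fst73 hd, pe2_sum39]
    refine le_of_eq ?_
    congr 3
    refine Finset.sum_congr rfl fun b _ => ?_
    rw [pe2_sum39]
    exact Finset.sum_congr rfl fun y _ => pe2_mul39 β h η _ _
  -- the error term
  have k5 : ∑ b ∈ Bs, ∑ y ∈ Y b, ∫ η, X b η * pe β h η (f2 b y) ∂(law d ρ) ≤
      Tl ρ β h n τ t m r := by
    set T : (Fin n → Step d) → ℝ := fun s => if r < inc τ t m s then (1 : ℝ) else 0 with hT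
    have e1 : (∑ b ∈ Bs, ∑ y ∈ Y b, ∫ η, X b η * pe β h η (f2 b y) ∂(law d ρ)) =
        ∫ η, ∑ b ∈ Bs, ∑ y ∈ Y b, X b η * pe β h η (f2 b y) ∂(law d ρ) := by
      rw [integral_finsetSum _ fun b _ => integrable_finsetSum _ fun y _ => hi2 b y]
      refine Finset.sum_congr rfl fun b _ => ?_
      rw [integral_finsetSum _ fun y _ => hi2 b y]
    have e2 : Tl ρ β h n τ t m r = ∫ η, pe β h η T ∂(law d ρ) := rfl
    rw [e1, e2]
    refine integral_mono (integrable_finsetSum _ fun b _ => integrable_finsetSum _ fun y _ =>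
      hi2 b y) (integrable_pe_fun73 hd β h T) fun η => ?_
    have h1 : ∑ b ∈ Bs, ∑ y ∈ Y b, X b η * pe β h η (f2 b y) ≤
        ∑ b ∈ Bs, ∑ y ∈ Y b, pe β h η (f2 b y) :=
      Finset.sum_le_sum fun b _ => Finset.sum_le_sum fun y _ => mul_le_of_le_one_left
        (pe_bd39 hd β h η (hf2b b y)).1 (hX01 b η).2
    refine h1.trans ?_
    have h2 : ∑ b ∈ Bs, ∑ y ∈ Y b, pe β h η (f2 b y) =
        pe β h η (fun s => ∑ b ∈ Bs, ∑ y ∈ Y b, f2 b y s) := by
      rw [pe_sum73]
      exact Finset.sum_congr rfl fun b _ => (pe_sum73 _ _ _ _ _).symm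
    rw [h2]
    refine pe_mono73 hd β h η fun s => ?_
    by_cases c1 : r < inc τ t m s
    · have g1 : T s = 1 := if_pos c1
      rw [g1]
      have h3 : ∀ b ∈ Bs, ∑ y ∈ Y b, f2 b y s ≤
          if blk i o (sft39 m (pos s τ)) = b then (1 : ℝ) else 0 := by
        intro b _
        have h4 : ∑ y ∈ Y b, f2 b y s ≤ ∑ y ∈ Y b, if pos s τ = y then (1 : ℝ) else 0 := by
          refine Finset.sum_le_sum fun y _ => ?_
          simp only [hf2]
          by_cases g2 : pos s τ = y
          · rw [if_pos g2]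
            split_ifs <;> norm_num
          · rw [if_neg g2, if_neg fun g3 => g2 g3.1]
        refine h4.trans ?_
        rw [Finset.sum_ite_eq]
        by_cases g2 : pos s τ ∈ Y b
        · rw [if_pos g2, if_pos]
          exact Yb_mem39 g2 _ ((sft_near39 m _).trans hr)
        · rw [if_neg g2]
          split_ifs <;> norm_num
      refine (Finset.sum_le_sum h3).trans ?_
      rw [Finset.sum_ite_eq]
      split_ifs <;> norm_num
    · have g1 : T s = 0 := if_neg c1
      rw [g1]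
      refine le_of_eq (Finset.sum_eq_zero fun b _ => Finset.sum_eq_zero fun y hy => ?_)
      refine if_neg fun g2 => (hFr b s).1 g2.2 ?_
      have g3 : ‖emb (pos s t) - emb (pos s τ) - m‖ ≤ r := not_lt.1 c1
      rw [g2.1] at g3
      exact Yb_mem39 hy _ g3
  refine le_trans (mul_le_mul_of_nonneg_left ?_ hg) k3
  have h9 := mul_le_mul_of_nonneg_left k4 hc0.le
  nlinarith [h9, k5]

end Pool.Agent.W_7d29a1_NS
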