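import Pool.Agent.W_7d29a1_NS.DefsN72
import Pool.Agent.W_7d29a1_S90.RpT73
import Pool.Agent.W_7d29a1_Q29.Ce39
import Pool.Agent.W_7d29a1_S90.StM86

/-!
Typical concentration: the general inequality, from the chain of the blocks.
-/

namespace Pool.Agent.W_7d29a1_NS

open MeasureTheory ProbabilityTheory Filter Topology Pool.Agent.W_MP_7d29a1_pr
  Pool.Agent.W_7d29a1_h46 Pool.Agent.W_7d29a1_h46u Pool.Agent.W_7d29a1_D2.B35
  Pool.Agent.W_7d29a1_Q29 Pool.Agent.W_7d29a1_S90

variable {d : ℕ} {ρ : Measure ℝ} [IsProbabilityMeasure ρ]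

lemma measurable_qb90 (β : ℝ) (h : Vec d) (n t i : ℕ) (o b : Site d) :
    Measurable (qb β h n t i o b : Env d → ℝ) := by
  unfold qb
  exact measurable_pe73 β h fun s => measurable_const

lemma measurable_nb90 (β : ℝ) (h : Vec d) (n t τ i : ℕ) (o b : Site d) :
    Measurable (nb ρ β h n t τ i o b) := by
  have h1 : nb ρ β h n t τ i o b = cE ρ (Pa d τ) (qb β h n t i o b) := rfl
  rw [h1]
  exact Pool.Agent.W_7d29a1_Q29.measurable_cE (measurable_qb90 β h n t i o b) _

lemma measurableSet_Hi90 (β : ℝ) (h : Vec d) (n t : ℕ) (a : ℝ) (τ i : ℕ) (o b : Site d) :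
    MeasurableSet {η : Env d | Hi ρ β h n t a τ i o b η} :=
  measurableSet_le
    (Pool.Agent.W_7d29a1_Q29.measurable_cE (measurable_nb90 β h n t τ i o b).sqrt _)
    ((measurable_nb90 β h n t (τ - 1) i o b).sqrt.const_mul _)

omit [IsProbabilityMeasure ρ] in
lemma Hi_dep90 (β : ℝ) (h : Vec d) (n t : ℕ) (a : ℝ) (τ i : ℕ) (o b : Site d) {η η' : Env d}
    (hη : ∀ p ∈ Pa d (τ - 1), η p = η' p) :
    Hi ρ β h n t a τ i o b η ↔ Hi ρ β h n t a τ i o b η' := by
  unfold Hi
  rw [Pool.Agent.W_7d29a1_Q29.cE_dep (Pa d (τ - 1))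
    (fun ξ => Real.sqrt (nb ρ β h n t τ i o b ξ)) hη]
  unfold nb
  rw [Pool.Agent.W_7d29a1_Q29.cE_dep (Pa d (τ - 1)) (qb β h n t i o b) hη]

lemma measurable_Nh90 (β : ℝ) (h : Vec d) (n t : ℕ) (a : ℕ → ℝ) (lev : ℕ → ℕ) (o : Site d)
    (τ₀ τ : ℕ) (x : Site d) : Measurable (Nh ρ β h n t a lev o τ₀ τ x) := by
  classical
  unfold Nh
  refine Finset.measurable_sum _ fun σ _ => ?_
  exact Measurable.ite (measurableSet_Hi90 β h n t (a σ) σ (lev σ) o (blk (lev σ) o x))
    measurable_const measurable_const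

omit [IsProbabilityMeasure ρ] in
lemma Nh_dep90 (β : ℝ) (h : Vec d) (n t : ℕ) (a : ℕ → ℝ) (lev : ℕ → ℕ) (o : Site d)
    (τ₀ τ : ℕ) (x : Site d) {η η' : Env d} (hη : ∀ p ∈ Pa d τ, η p = η' p) :
    Nh ρ β h n t a lev o τ₀ τ x η = Nh ρ β h n t a lev o τ₀ τ x η' := by
  classical
  unfold Nh
  refine Finset.sum_congr rfl fun σ hσ => ?_
  rw [Finset.mem_Ioc] at hσ
  have h1 : Hi ρ β h n t (a σ) σ (lev σ) o (blk (lev σ) o x) η ↔
      Hi ρ β h n t (a σ) σ (lev σ) o (blk (lev σ) o x) η' := by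
    refine Hi_dep90 β h n t (a σ) σ (lev σ) o _ fun p hp => hη p ?_
    have h2 : p.1 ≤ σ - 1 := hp
    show p.1 ≤ τ
    omega
  simp only [h1]

omit [IsProbabilityMeasure ρ] in
lemma Nh_bd90 (β : ℝ) (h : Vec d) (n t : ℕ) {a : ℕ → ℝ} (ha : ∀ σ, 0 ≤ a σ) (lev : ℕ → ℕ)
    (o : Site d) (τ₀ τ : ℕ) (x : Site d) (η : Env d) :
    0 ≤ Nh ρ β h n t a lev o τ₀ τ x η ∧
      Nh ρ β h n t a lev o τ₀ τ x η ≤ ∑ σ ∈ Finset.Ioc τ₀ τ, a σ := by
  classical
  unfold Nh
  constructor
  · refine Finset.sum_nonneg fun σ _ => ?_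
    split_ifs
    · exact ha σ
    · exact le_rfl
  · refine Finset.sum_le_sum fun σ _ => ?_
    split_ifs
    · exact le_rfl
    · exact ha σ

/-- The mean over two replicas of a bounded measurable function is integrable. -/
lemma integrable_pe2_90 (hd : 0 < d) (β : ℝ) (h : Vec d) {n : ℕ}
    {F : Env d → (Fin n → Step d) → (Fin n → Step d) → ℝ}
    (hF : ∀ s s', Measurable fun η => F η s s') {C : ℝ} (hC : ∀ η s s', |F η s s'| ≤ C) :
    Integrable (fun η : Env d => pe2 β h η (F η)) (law d ρ) := by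
  unfold pe2
  exact integrable_pe73 hd β h (f := fun η s => pe β h η fun s' => F η s s')
    (fun s => measurable_pe73 β h (f := fun η s' => F η s s') fun s' => hF s s')
    (C := C) fun η s => abs_pe_le73 hd β h η fun s' => hC η s s'

omit [IsProbabilityMeasure ρ] in
lemma ind_bd90 (p : Prop) [Decidable p] : |(if p then (1 : ℝ) else 0)| ≤ 1 := by
  split_ifs <;> simp

/-- The last part of the typical concentration. -/
lemma last90 (hd : 0 < d) (β : ℝ) (hC : ChnP d ρ β) (h : Vec d) {n t τ₀ : ℕ} (hτ : τ₀ < t)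
    (ht : t ≤ n) {a : ℕ → ℝ} (lev : ℕ → ℕ) (o : Site d) (U : Finset (Site d)) {ε A : ℝ}
    (ha : ∀ σ, 0 ≤ a σ) (hlev : Antitone lev)
    (hU : ∀ x ∈ U, ∀ z : Site d, blk (lev (τ₀ + 1)) o z = blk (lev (τ₀ + 1)) o x → z ∈ U)
    (hε : 0 ≤ ε) (q : Site d → Env d → Prop) [∀ y η, Decidable (q y η)]
    (hq : ∀ y η, q y η ↔ (y ∈ U ∧ cE ρ (Pa d (t - 1)) (Qt β h n t y) η < ε ∧
      A / 2 ≤ Nh ρ β h n t a lev o τ₀ (t - 1) y η)) :
    ∫ η, pe β h η (fun s : Fin n → Step d => if q (pos s t) η then (1 : ℝ) else 0) ∂(law d ρ) ≤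
      Real.sqrt ε * Real.exp (-(A / 2)) * Real.sqrt U.card := by
  classical
  have hνm : ∀ y : Site d, Measurable (cE ρ (Pa d (t - 1)) (Qt β h n t y)) := fun y =>
    Pool.Agent.W_7d29a1_Q29.measurable_cE (measurable_Qt39 β h n t y) _
  have hν0 : ∀ (y : Site d) (η : Env d), 0 ≤ cE ρ (Pa d (t - 1)) (Qt β h n t y) η := fun y η =>
    Pool.Agent.W_7d29a1_Q29.cE_nonneg (fun η => Qt_nonneg39 β h n t y η) _ η
  have hν1 : ∀ (y : Site d) (η : Env d), cE ρ (Pa d (t - 1)) (Qt β h n t y) η ≤ 1 := fun y η =>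
    Pool.Agent.W_7d29a1_Q29.cE_le (measurable_Qt39 β h n t y)
      (fun η => Qt_nonneg39 β h n t y η) (fun η => Qt_le_one39 β h ht y η) _ η
  have hNm : ∀ y : Site d, Measurable (Nh ρ β h n t a lev o τ₀ (t - 1) y) := fun y =>
    measurable_Nh90 β h n t a lev o τ₀ (t - 1) y
  set A0 : ℝ := ∑ σ ∈ Finset.Ioc τ₀ (t - 1), a σ with hA0
  -- the function `g`
  have hgm : ∀ y : Site d, Measurable fun η : Env d => if q y η then (1 : ℝ) else 0 := by
    intro y
    have hset : MeasurableSet {η : Env d | q y η} := by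
      have h1 : {η : Env d | q y η} = {_η : Env d | y ∈ U} ∩
          ({η | cE ρ (Pa d (t - 1)) (Qt β h n t y) η < ε} ∩
            {η | A / 2 ≤ Nh ρ β h n t a lev o τ₀ (t - 1) y η}) := by
        ext η
        exact hq y η
      rw [h1]
      exact (MeasurableSet.const _).inter ((measurableSet_lt (hνm y) measurable_const).inter
        (measurableSet_le measurable_const (hNm y)))
    exact Measurable.ite hset measurable_const measurable_const
  have hgd : ∀ y : Site d, DependsOn (fun η : Env d => if q y η then (1 : ℝ) else 0)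
      (Pa d (t - 1)) := by
    intro y η η' hη
    have h1 : q y η ↔ q y η' := by
      rw [hq, hq, Pool.Agent.W_7d29a1_Q29.cE_dep (Pa d (t - 1)) (Qt β h n t y) hη,
        Nh_dep90 β h n t a lev o τ₀ (t - 1) y hη]
    simp only [h1]
  have hbd : ∀ (y : Site d) (η : Env d), (if q y η then (1 : ℝ) else 0) *
      cE ρ (Pa d (t - 1)) (Qt β h n t y) η ≤
        if y ∈ U then Real.sqrt ε * Real.exp (-(A / 2)) *
          (Real.sqrt (cE ρ (Pa d (t - 1)) (Qt β h n t y) η) *
            Real.exp (Nh ρ β h n t a lev o τ₀ (t - 1) y η)) else 0 := by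
    intro y η
    by_cases hy : y ∈ U
    · rw [if_pos hy]
      by_cases hqy : q y η
      · rw [if_pos hqy, one_mul]
        obtain ⟨-, h2, h3⟩ := (hq y η).1 hqy
        set v := cE ρ (Pa d (t - 1)) (Qt β h n t y) η with hv
        have h4 : Real.sqrt v * Real.sqrt v = v := Real.mul_self_sqrt (hν0 y η)
        have h5 : Real.sqrt v ≤ Real.sqrt ε := Real.sqrt_le_sqrt h2.le
        have h6 : 1 ≤ Real.exp (-(A / 2)) * Real.exp (Nh ρ β h n t a lev o τ₀ (t - 1) y η) := by
          rw [← Real.exp_add]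
          exact Real.one_le_exp (by linarith)
        calc v = Real.sqrt v * Real.sqrt v * 1 := by rw [h4, mul_one]
          _ ≤ Real.sqrt ε * Real.sqrt v *
              (Real.exp (-(A / 2)) * Real.exp (Nh ρ β h n t a lev o τ₀ (t - 1) y η)) :=
            mul_le_mul (mul_le_mul_of_nonneg_right h5 (Real.sqrt_nonneg _)) h6 zero_le_one
              (by positivity)
          _ = _ := by ring
      · rw [if_neg hqy, zero_mul]
        positivity
    · rw [if_neg hy, if_neg fun hqy => hy ((hq y η).1 hqy).1, zero_mul]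
  have hint : ∀ y : Site d, Integrable (fun η => Real.sqrt ε * Real.exp (-(A / 2)) *
      (Real.sqrt (cE ρ (Pa d (t - 1)) (Qt β h n t y) η) *
        Real.exp (Nh ρ β h n t a lev o τ₀ (t - 1) y η))) (law d ρ) := by
    intro y
    refine Integrable.const_mul ?_ _
    refine Integrable.mono' (integrable_const (1 * Real.exp A0))
      (((hνm y).sqrt).mul (hNm y).exp).aestronglyMeasurable (Eventually.of_forall fun η => ?_)
    rw [Real.norm_eq_abs, abs_of_nonneg (by positivity)]
    refine mul_le_mul ?_ (Real.exp_le_exp.2 (Nh_bd90 β h n t ha lev o τ₀ (t - 1) y η).2)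
      (by positivity) zero_le_one
    rw [Real.sqrt_le_one]
    exact hν1 y η
  have hQg : ∀ y : Site d, Integrable (fun η => Qt β h n t y η *
      (if q y η then (1 : ℝ) else 0)) (law d ρ) := by
    intro y
    refine Integrable.mono' (integrable_const (1 * 1))
      ((measurable_Qt39 β h n t y).mul (hgm y)).aestronglyMeasurable
        (Eventually.of_forall fun η => ?_)
    rw [Real.norm_eq_abs, abs_mul]
    refine mul_le_mul ?_ (ind_bd90 _) (abs_nonneg _) zero_le_one
    rw [abs_of_nonneg (Qt_nonneg39 β h n t y η)]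
    exact Qt_le_one39 β h ht y η
  have hpe : ∀ η : Env d, pe β h η (fun s : Fin n → Step d =>
      if q (pos s t) η then (1 : ℝ) else 0) =
        ∑ y ∈ boxF d n, Qt β h n t y η * (if q y η then (1 : ℝ) else 0) := fun η =>
    pe_pos86 β h η ht fun y => if q y η then (1 : ℝ) else 0
  have hone : ∀ y : Site d, ∫ η, Qt β h n t y η * (if q y η then (1 : ℝ) else 0) ∂(law d ρ) ≤
      if y ∈ U then ∫ η, Real.sqrt ε * Real.exp (-(A / 2)) *
        (Real.sqrt (cE ρ (Pa d (t - 1)) (Qt β h n t y) η) *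
          Real.exp (Nh ρ β h n t a lev o τ₀ (t - 1) y η)) ∂(law d ρ) else 0 := by
    intro y
    rw [Pool.Agent.W_7d29a1_Q29.int_mul_cE (Pa d (t - 1)) (hQg y) (hgd y)]
    have hmono : ∀ η : Env d, cE ρ (Pa d (t - 1)) (Qt β h n t y) η *
        (if q y η then (1 : ℝ) else 0) ≤ if y ∈ U then Real.sqrt ε * Real.exp (-(A / 2)) *
          (Real.sqrt (cE ρ (Pa d (t - 1)) (Qt β h n t y) η) *
            Real.exp (Nh ρ β h n t a lev o τ₀ (t - 1) y η)) else 0 := by
      intro η
      rw [mul_comm]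
      exact hbd y η
    have hint2 : Integrable (fun η => cE ρ (Pa d (t - 1)) (Qt β h n t y) η *
        (if q y η then (1 : ℝ) else 0)) (law d ρ) := by
      refine Integrable.mono' (integrable_const (1 * 1))
        ((hνm y).mul (hgm y)).aestronglyMeasurable (Eventually.of_forall fun η => ?_)
      rw [Real.norm_eq_abs, abs_mul]
      refine mul_le_mul ?_ (ind_bd90 _) (abs_nonneg _) zero_le_one
      rw [abs_of_nonneg (hν0 y η)]
      exact hν1 y η
    by_cases hy : y ∈ U
    · simp only [if_pos hy] at hmono ⊢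
      exact integral_mono hint2 (hint y) hmono
    · simp only [if_neg hy] at hmono ⊢
      exact integral_nonpos hmono
  calc ∫ η, pe β h η (fun s : Fin n → Step d => if q (pos s t) η then (1 : ℝ) else 0) ∂(law d ρ)
      = ∑ y ∈ boxF d n, ∫ η, Qt β h n t y η * (if q y η then (1 : ℝ) else 0) ∂(law d ρ) := by
        simp only [hpe]
        exact integral_finsetSum _ fun y _ => hQg y
    _ ≤ ∑ y ∈ boxF d n, if y ∈ U then ∫ η, Real.sqrt ε * Real.exp (-(A / 2)) *
        (Real.sqrt (cE ρ (Pa d (t - 1)) (Qt β h n t y) η) *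
          Real.exp (Nh ρ β h n t a lev o τ₀ (t - 1) y η)) ∂(law d ρ) else 0 :=
        Finset.sum_le_sum fun y _ => hone y
    _ ≤ ∑ y ∈ U, ∫ η, Real.sqrt ε * Real.exp (-(A / 2)) *
        (Real.sqrt (cE ρ (Pa d (t - 1)) (Qt β h n t y) η) *
          Real.exp (Nh ρ β h n t a lev o τ₀ (t - 1) y η)) ∂(law d ρ) := by
        rw [← Finset.sum_filter]
        refine Finset.sum_le_sum_of_subset_of_nonneg (fun y hy => (Finset.mem_filter.1 hy).2)
          fun y _ _ => integral_nonneg fun η => by positivity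
    _ = Real.sqrt ε * Real.exp (-(A / 2)) * ∫ η, ∑ y ∈ U,
        Real.sqrt (cE ρ (Pa d (t - 1)) (Qt β h n t y) η) *
          Real.exp (Nh ρ β h n t a lev o τ₀ (t - 1) y η) ∂(law d ρ) := by
        rw [← integral_finsetSum _ fun y _ => hint y, ← integral_const_mul]
        refine integral_congr_ae (Eventually.of_forall fun η => ?_)
        simp only [Finset.mul_sum]
    _ ≤ Real.sqrt ε * Real.exp (-(A / 2)) * Real.sqrt U.card :=
        mul_le_mul_of_nonneg_left (hC h n t τ₀ hτ ht a lev o U ha hlev hU) (by positivity)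

/-- **Leaf TYA.** -/
theorem tyaP90 (hd : 0 < d) (β : ℝ) (hC : ChnP d ρ β) : TyaP d ρ β := by
  classical
  intro h n t τ₀ hτ ht a lev o U D ε ha hlev hU hD hA hε
  set A : ℝ := ∑ σ ∈ Finset.Ioc τ₀ (t - 1), a σ with hAdef
  have hνm : ∀ y : Site d, Measurable (cE ρ (Pa d (t - 1)) (Qt β h n t y)) := fun y =>
    Pool.Agent.W_7d29a1_Q29.measurable_cE (measurable_Qt39 β h n t y) _
  have hlast := last90 hd β hC h hτ ht lev o U (ε := ε) (A := A) ha hlev hU hε
    (fun y η => y ∈ U ∧ cE ρ (Pa d (t - 1)) (Qt β h n t y) η < ε ∧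
      A / 2 ≤ Nh ρ β h n t a lev o τ₀ (t - 1) y η) (fun y η => Iff.rfl)
  set IK : Env d → (Fin n → Step d) → ℝ := fun η s =>
    if pos s t ∈ U ∧ cE ρ (Pa d (t - 1)) (Qt β h n t (pos s t)) η < ε ∧
      A / 2 ≤ Nh ρ β h n t a lev o τ₀ (t - 1) (pos s t) η then (1 : ℝ) else 0 with hIK
  set IU : (Fin n → Step d) → ℝ := fun s => if pos s t ∉ U then (1 : ℝ) else 0 with hIU
  set IT : Env d → (Fin n → Step d) → (Fin n → Step d) → ℝ := fun η s s' =>
    if D < ‖emb (pos s t) - emb (pos s' t)‖ ∧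
      cE ρ (Pa d (t - 1)) (Qt β h n t (pos s t)) η < ε then (1 : ℝ) else 0 with hIT
  set IL : ℕ → Env d → (Fin n → Step d) → (Fin n → Step d) → ℝ := fun σ η s s' =>
    if ¬ Hi ρ β h n t (a σ) σ (lev σ) o (blk (lev σ) o (pos s t)) η ∧
      blk (lev σ) o (pos s' t) ≠ blk (lev σ) o (pos s t) then (1 : ℝ) else 0 with hIL
  -- pointwise
  have hpt : ∀ η s s', IT η s s' ≤ IU s + 2 / A * ∑ σ ∈ Finset.Ioc τ₀ (t - 1),
      a σ * IL σ η s s' + IK η s := by
    intro η s s'
    have hIU0 : 0 ≤ IU s := by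
      simp only [hIU]
      split_ifs <;> norm_num
    have hIK0 : 0 ≤ IK η s := by
      simp only [hIK]
      split_ifs <;> norm_num
    have hIL0 : ∀ σ, 0 ≤ IL σ η s s' := by
      intro σ
      simp only [hIL]
      split_ifs <;> norm_num
    have hS0 : 0 ≤ 2 / A * ∑ σ ∈ Finset.Ioc τ₀ (t - 1), a σ * IL σ η s s' :=
      mul_nonneg (by positivity) (Finset.sum_nonneg fun σ _ => mul_nonneg (ha σ) (hIL0 σ))
    by_cases hT : D < ‖emb (pos s t) - emb (pos s' t)‖ ∧
      cE ρ (Pa d (t - 1)) (Qt β h n t (pos s t)) η < ε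
    · have h1 : IT η s s' = 1 := by
        simp only [hIT]
        exact if_pos hT
      rw [h1]
      by_cases hsU : pos s t ∈ U
      · by_cases hN : A / 2 ≤ Nh ρ β h n t a lev o τ₀ (t - 1) (pos s t) η
        · have h2 : IK η s = 1 := by
            simp only [hIK]
            exact if_pos ⟨hsU, hT.2, hN⟩
          linarith
        · push Not at hN
          have h3 : A - Nh ρ β h n t a lev o τ₀ (t - 1) (pos s t) η ≤
              ∑ σ ∈ Finset.Ioc τ₀ (t - 1), a σ * IL σ η s s' := by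
            rw [hAdef]
            unfold Nh
            rw [← Finset.sum_sub_distrib]
            refine Finset.sum_le_sum fun σ hσ => ?_
            by_cases hH : Hi ρ β h n t (a σ) σ (lev σ) o (blk (lev σ) o (pos s t)) η
            · rw [if_pos hH, sub_self]
              exact mul_nonneg (ha σ) (hIL0 σ)
            · rw [if_neg hH, sub_zero]
              rcases (ha σ).lt_or_eq with h4 | h4
              · have h5 : IL σ η s s' = 1 := by
                  simp only [hIL]
                  refine if_pos ⟨hH, fun hb => ?_⟩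
                  have h6 := hD σ hσ h4 (pos s t) (pos s' t) hb.symm
                  exact absurd h6 (not_le.2 hT.1)
                rw [h5, mul_one]
              · rw [← h4, zero_mul]
          have h4 : 1 ≤ 2 / A * ∑ σ ∈ Finset.Ioc τ₀ (t - 1), a σ * IL σ η s s' := by
            rw [div_mul_eq_mul_div, le_div_iff₀ hA]
            linarith
          linarith
      · have h2 : IU s = 1 := by
          simp only [hIU]
          exact if_pos hsU
        linarith
    · have h1 : IT η s s' = 0 := by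
        simp only [hIT]
        exact if_neg hT
      rw [h1]
      positivity
  -- measurability
  have hIKm : ∀ s, Measurable fun η => IK η s := by
    intro s
    refine Measurable.ite ?_ measurable_const measurable_const
    exact (MeasurableSet.const _).inter ((measurableSet_lt (hνm (pos s t)) measurable_const).inter
      (measurableSet_le measurable_const (measurable_Nh90 β h n t a lev o τ₀ (t - 1) (pos s t))))
  have hITm : ∀ s s', Measurable fun η => IT η s s' := by
    intro s s'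
    refine Measurable.ite ?_ measurable_const measurable_const
    exact (MeasurableSet.const _).inter (measurableSet_lt (hνm (pos s t)) measurable_const)
  have hILm : ∀ σ s s', Measurable fun η => IL σ η s s' := by
    intro σ s s'
    refine Measurable.ite ?_ measurable_const measurable_const
    exact (measurableSet_Hi90 β h n t (a σ) σ (lev σ) o _).compl.inter (MeasurableSet.const _)
  have hILb : ∀ σ η s s', |IL σ η s s'| ≤ 1 := fun σ η s s' => ind_bd90 _
  -- the mean
  have hpe : ∀ η : Env d, pe2 β h η (IT η) ≤ pe β h η IU +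
      2 / A * ∑ σ ∈ Finset.Ioc τ₀ (t - 1), a σ * pe2 β h η (IL σ η) + pe β h η (IK η) := by
    intro η
    refine (pe2_mono73 hd β h η (hpt η)).trans (le_of_eq ?_)
    have h1 : ∀ s, pe β h η (fun s' => IU s + 2 / A * ∑ σ ∈ Finset.Ioc τ₀ (t - 1),
        a σ * IL σ η s s' + IK η s) = IU s + 2 / A * ∑ σ ∈ Finset.Ioc τ₀ (t - 1),
          a σ * pe β h η (fun s' => IL σ η s s') + IK η s := by
      intro s
      rw [pe_add73 β h η (fun s' => IU s + 2 / A * ∑ σ ∈ Finset.Ioc τ₀ (t - 1),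
        a σ * IL σ η s s') (fun _ => IK η s), pe_const73 hd,
        pe_add73 β h η (fun _ => IU s) (fun s' => 2 / A * ∑ σ ∈ Finset.Ioc τ₀ (t - 1),
          a σ * IL σ η s s'), pe_const73 hd, pe_mul73,
        pe_sum73 (Finset.Ioc τ₀ (t - 1)) β h η (fun σ s' => a σ * IL σ η s s')]
      simp only [pe_mul73]
    unfold pe2
    simp only [h1]
    rw [pe_add73 β h η (fun s => IU s + 2 / A * ∑ σ ∈ Finset.Ioc τ₀ (t - 1),
        a σ * pe β h η (fun s' => IL σ η s s')) (fun s => IK η s),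
      pe_add73 β h η IU (fun s => 2 / A * ∑ σ ∈ Finset.Ioc τ₀ (t - 1),
          a σ * pe β h η (fun s' => IL σ η s s')), pe_mul73,
      pe_sum73 (Finset.Ioc τ₀ (t - 1)) β h η
        (fun σ s => a σ * pe β h η (fun s' => IL σ η s s'))]
    simp only [pe_mul73]
  have hiT : Integrable (fun η => pe2 β h η (IT η)) (law d ρ) :=
    integrable_pe2_90 hd β h hITm (C := 1) fun η s s' => ind_bd90 _
  have hiL : ∀ σ, Integrable (fun η => pe2 β h η (IL σ η)) (law d ρ) := fun σ =>
    integrable_pe2_90 hd β h (hILm σ) (C := 1) fun η s s' => ind_bd90 _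
  have hiK : Integrable (fun η => pe β h η (IK η)) (law d ρ) :=
    integrable_pe73 hd β h hIKm (C := 1) fun η s => ind_bd90 _
  have hiU : Integrable (fun η : Env d => pe β h η IU) (law d ρ) := integrable_pe_fun73 hd β h IU
  have hiS : Integrable (fun η => 2 / A * ∑ σ ∈ Finset.Ioc τ₀ (t - 1), a σ *
      pe2 β h η (IL σ η)) (law d ρ) :=
    (integrable_finsetSum _ fun σ _ => (hiL σ).const_mul (a σ)).const_mul _
  have hTy : Ty ρ β h n t D ε = ∫ η, pe2 β h η (IT η) ∂(law d ρ) := rfl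
  have hLo : ∀ σ, Lo ρ β h n t (a σ) σ (lev σ) o = ∫ η, pe2 β h η (IL σ η) ∂(law d ρ) :=
    fun σ => rfl
  calc Ty ρ β h n t D ε = ∫ η, pe2 β h η (IT η) ∂(law d ρ) := hTy
    _ ≤ ∫ η, (pe β h η IU + 2 / A * ∑ σ ∈ Finset.Ioc τ₀ (t - 1), a σ * pe2 β h η (IL σ η) +
          pe β h η (IK η)) ∂(law d ρ) := integral_mono hiT ((hiU.add hiS).add hiK) hpe
    _ = (∫ η, pe β h η IU ∂(law d ρ)) + 2 / A * (∑ σ ∈ Finset.Ioc τ₀ (t - 1),
          a σ * Lo ρ β h n t (a σ) σ (lev σ) o) + ∫ η, pe β h η (IK η) ∂(law d ρ) := by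
        have e1 : (∫ η, (pe β h η IU + 2 / A * ∑ σ ∈ Finset.Ioc τ₀ (t - 1),
            a σ * pe2 β h η (IL σ η) + pe β h η (IK η)) ∂(law d ρ)) =
            (∫ η, (pe β h η IU + 2 / A * ∑ σ ∈ Finset.Ioc τ₀ (t - 1),
              a σ * pe2 β h η (IL σ η)) ∂(law d ρ)) + ∫ η, pe β h η (IK η) ∂(law d ρ) :=
          integral_add (hiU.add hiS) hiK
        have e2 : (∫ η, (pe β h η IU + 2 / A * ∑ σ ∈ Finset.Ioc τ₀ (t - 1),
              a σ * pe2 β h η (IL σ η)) ∂(law d ρ)) = (∫ η, pe β h η IU ∂(law d ρ)) +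
            ∫ η, 2 / A * ∑ σ ∈ Finset.Ioc τ₀ (t - 1), a σ * pe2 β h η (IL σ η) ∂(law d ρ) :=
          integral_add hiU hiS
        have e3 : (∫ η, 2 / A * ∑ σ ∈ Finset.Ioc τ₀ (t - 1), a σ * pe2 β h η (IL σ η)
            ∂(law d ρ)) = 2 / A * ∑ σ ∈ Finset.Ioc τ₀ (t - 1),
              a σ * Lo ρ β h n t (a σ) σ (lev σ) o := by
          rw [integral_const_mul, integral_finsetSum _ fun σ _ => (hiL σ).const_mul (a σ)]
          congr 1
          refine Finset.sum_congr rfl fun σ _ => ?_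
          rw [integral_const_mul, hLo]
        rw [e1, e2, e3]
    _ ≤ _ := add_le_add (le_of_eq rfl) hlast

end Pool.Agent.W_7d29a1_NS
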