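import Pool.Agent.W_7d29a1_NS.Var63
import Pool.Agent.W_7d29a1_NS.DefsN72

/-!
Leaf VAR: the variance of the probability of a half plane, predictable weights.
-/

namespace Pool.Agent.W_7d29a1_NS

open MeasureTheory ProbabilityTheory Filter Topology Pool.Agent.W_MP_7d29a1_pr
  Pool.Agent.W_7d29a1_h46 Pool.Agent.W_7d29a1_h46u Pool.Agent.W_7d29a1_D2.B35
  Pool.Agent.W_7d29a1_Q29 Pool.Agent.W_7d29a1_Q29.D85 Pool.Agent.W_7d29a1_S90

variable {d : ℕ} {ρ : Measure ℝ} [IsProbabilityMeasure ρ]

open Classical in
/-- Leaf VAR. -/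
theorem varP63 (hd : 0 < d) {β : ℝ} (hS : SibP d ρ β) : VarP d ρ β := by
  obtain ⟨q, c, hc0, hc1, hmain⟩ := hS
  refine ⟨c, hc0, hc1, fun h n e T he hT G sd A hGm hG01 hGdep => ?_⟩
  have hTn : ∀ t ∈ T, 1 ≤ t ∧ t ≤ n := fun t ht => Finset.mem_Icc.1 (hT ht)
  set F : Env d → ℝ := fun η => pe β h η (fun s : Fin n → Step d =>
    if A (pos s e) then (1 : ℝ) else 0) with hF
  have hFm : Measurable F := meas_pe39 β h _
  have hF01 : ∀ η, 0 ≤ F η ∧ F η ≤ 1 := fun η => pe_bd39 hd β h η fun s => by
    split_ifs <;> norm_num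
  set sg : ℕ → Site d → ℝ := fun t y => if sd t y then (1 : ℝ) else -1 with hsg
  have hsg1 : ∀ t y, |sg t y| = 1 := fun t y => by
    simp only [hsg]
    split_ifs <;> norm_num
  set g : ℕ × Site d → Env d → ℝ := fun p η => sg p.1 p.2 * G p.1 p.2 η with hg
  have hdepc : ∀ p : ℕ × Site d, 1 ≤ p.1 → ∀ p' : ℕ × Site d, p.1 ≤ p'.1 →
      DependsOn (G p.1 p.2) ({p'}ᶜ : Set (ℕ × Site d)) := by
    intro p hp p' hpp η η' hη
    refine hGdep p.1 p.2 fun r hr => hη r ?_
    intro h1
    rw [Set.mem_singleton_iff] at h1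
    have h2 : r.1 ≤ p.1 - 1 := hr
    rw [h1] at h2
    omega
  set I : Finset (ℕ × Site d) := T ×ˢ boxF d n with hI
  have hI1 : ∀ p ∈ I, 1 ≤ p.1 ∧ p.1 ≤ n := fun p hp => hTn p.1 (Finset.mem_product.1 hp).1
  have hgdep : ∀ p ∈ I, ∀ p' : ℕ × Site d, p.1 ≤ p'.1 → DependsOn (g p) ({p'}ᶜ : Set (ℕ × Site d)) := by
    intro p hp p' hpp η η' hη
    simp only [hg]
    rw [hdepc p (hI1 p hp).1 p' hpp hη]
  have hdual := dual63 (ρ := ρ) q I F hFm hF01 g
    (fun p _ => (hGm p.1 p.2).const_mul _)
    (fun p _ η => by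
      simp only [hg]
      rw [abs_mul, hsg1, one_mul, abs_of_nonneg (hG01 p.1 p.2 η).1]
      exact (hG01 p.1 p.2 η).2)
    (fun p hp => hgdep p hp p le_rfl)
    (fun p hp p' hp' _ => by
      rcases le_total p.1 p'.1 with h1 | h1
      · exact Or.inr (hgdep p hp p' h1)
      · exact Or.inl (hgdep p' hp' p h1))
  -- the right side
  have hright : ∑ p ∈ I, ∫ η, g p η ^ 2 ∂(law d ρ) ≤
      ∑ t ∈ T, ∫ η, ∑ y ∈ boxF d n, G t y η ∂(law d ρ) := by
    rw [hI, Finset.sum_product]
    refine Finset.sum_le_sum fun t ht => ?_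
    have hgi : ∀ y ∈ boxF d n, Integrable (fun η => g (t, y) η ^ 2) (law d ρ) := by
      intro y _
      refine Integrable.of_bound (((hGm t y).const_mul _).pow_const 2).aestronglyMeasurable 1
        (Eventually.of_forall fun η => ?_)
      simp only [hg]
      rw [Real.norm_eq_abs, abs_pow, abs_mul, hsg1, one_mul, abs_of_nonneg (hG01 t y η).1]
      exact pow_le_one₀ (hG01 t y η).1 (hG01 t y η).2
    have hGi : ∀ y ∈ boxF d n, Integrable (G t y) (law d ρ) := fun y _ =>
      int_bd39 (hGm t y) (hG01 t y)
    rw [← integral_finsetSum _ hgi]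
    refine integral_mono (integrable_finsetSum _ hgi) (integrable_finsetSum _ hGi) fun η => ?_
    refine Finset.sum_le_sum fun y _ => ?_
    have h5 : g (t, y) η ^ 2 = G t y η ^ 2 := by
      simp only [hg]
      rw [mul_pow, ← sq_abs (sg t y), hsg1, one_pow, one_mul]
    rw [h5]
    exact pow_le_of_le_one (hG01 t y η).1 (hG01 t y η).2 two_ne_zero
  -- one row
  have hrow : ∀ t ∈ T, (c * (∫ η, pe2 β h η (fun s s' : Fin n → Step d =>
        if ¬ (sd t (pos s t) ↔ A (pos s' e)) then G t (pos s t) η else 0) ∂(law d ρ)) -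
      2 * ∫ η, pe β h η (fun s : Fin n → Step d =>
        if ¬ (sd t (pos s t) ↔ A (pos s e)) then (1 : ℝ) else 0) ∂(law d ρ)) ≤
      ∑ y ∈ boxF d n, ∫ η, g (t, y) η * zt ρ q (η (t, y)) * F η ∂(law d ρ) := by
    intro t ht
    obtain ⟨ht1, htn⟩ := hTn t ht
    obtain ⟨Fr, hFr⟩ : ∃ Fr : Site d → (Fin n → Step d) → Prop,
        ∀ y s, Fr y s ↔ ¬ (sd t y ↔ A (pos s e)) := ⟨fun y s => ¬ (sd t y ↔ A (pos s e)),
      fun _ _ => Iff.rfl⟩
    -- one site
    have hsite : ∀ y ∈ boxF d n,
        c * (∫ η, G t y η * pe2 β h η (fun s s' : Fin n → Step d =>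
          if pos s t = y ∧ Fr y s' then (1 : ℝ) else 0) ∂(law d ρ)) -
        2 * (∫ η, pe β h η (fun s : Fin n → Step d =>
          if pos s t = y ∧ Fr y s then (1 : ℝ) else 0) ∂(law d ρ)) ≤
        ∫ η, g (t, y) η * zt ρ q (η (t, y)) * F η ∂(law d ρ) := by
      intro y _
      have h1 := hmain h n t ht1 htn y (Fr y) (G t y) (hGm t y) (hG01 t y)
        (hdepc (t, y) ht1 (t, y) le_rfl)
      have b1 : ∀ η : Env d, 0 ≤ pe β h η (fun s : Fin n → Step d =>
          if pos s t = y ∧ Fr y s then (1 : ℝ) else 0) ∧ pe β h η (fun s : Fin n → Step d =>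
          if pos s t = y ∧ Fr y s then (1 : ℝ) else 0) ≤ 1 := fun η =>
        pe_bd39 hd β h η fun s => by split_ifs <;> norm_num
      have hGP : Integrable (fun η : Env d => G t y η * pe β h η (fun s : Fin n → Step d =>
            if pos s t = y ∧ Fr y s then (1 : ℝ) else 0)) (law d ρ) :=
        int_bd39 ((hGm t y).mul (meas_pe39 β h _)) fun η =>
            ⟨mul_nonneg (hG01 t y η).1 (b1 η).1, mul_le_one₀ (hG01 t y η).2 (b1 η).1 (b1 η).2⟩
      have h2 : (∫ η, G t y η * pe β h η (fun s : Fin n → Step d =>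
          if pos s t = y ∧ Fr y s then (1 : ℝ) else 0) ∂(law d ρ)) ≤
          ∫ η, pe β h η (fun s : Fin n → Step d =>
            if pos s t = y ∧ Fr y s then (1 : ℝ) else 0) ∂(law d ρ) := by
        refine integral_mono hGP (int_bd39 (meas_pe39 β h _) b1) fun η => ?_
        exact mul_le_of_le_one_left (b1 η).1 (hG01 t y η).2
      have h2' : 0 ≤ ∫ η, pe β h η (fun s : Fin n → Step d =>
            if pos s t = y ∧ Fr y s then (1 : ℝ) else 0) ∂(law d ρ) :=
        integral_nonneg fun η => (b1 η).1
      -- the pairs which meet at `y`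
      have hG2 : ∀ f : (Fin n → Step d) → (Fin n → Step d) → ℝ,
          (∀ s s', 0 ≤ f s s' ∧ f s s' ≤ 1) →
          Integrable (fun η : Env d => G t y η * pe2 β h η f) (law d ρ) := by
        intro f hf
        refine int_bd39 ((hGm t y).mul (meas_pe239 β h _)) fun η => ?_
        have b2 := pe2_bd39 hd β h η hf
        exact ⟨mul_nonneg (hG01 t y η).1 b2.1, mul_le_one₀ (hG01 t y η).2 b2.1 b2.2⟩
      have h6 : (∫ η, G t y η * pe2 β h η (fun s s' : Fin n → Step d =>
          if pos s t = y ∧ Fr y s' then (1 : ℝ) else 0) ∂(law d ρ)) ≤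
          (∫ η, G t y η * pe2 β h η (fun s s' : Fin n → Step d =>
            if pos s t = y ∧ pos s' t ≠ y ∧ Fr y s' then (1 : ℝ) else 0) ∂(law d ρ)) +
          ∫ η, G t y η * pe β h η (fun s : Fin n → Step d =>
            if pos s t = y ∧ Fr y s then (1 : ℝ) else 0) ∂(law d ρ) := by
        have i2 := hG2 (fun s s' : Fin n → Step d =>
            if pos s t = y ∧ pos s' t ≠ y ∧ Fr y s' then (1 : ℝ) else 0)
            (fun s s' => by split_ifs <;> norm_num)
        rw [← integral_add i2 hGP]
        refine integral_mono (hG2 _ (fun s s' => by split_ifs <;> norm_num)) (i2.add hGP)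
          fun η => ?_
        show G t y η * _ ≤ G t y η * _ + G t y η * _
        rw [← mul_add]
        refine mul_le_mul_of_nonneg_left ?_ (hG01 t y η).1
        rw [← pe2_snd73 hd β h η (fun s : Fin n → Step d =>
          if pos s t = y ∧ Fr y s then (1 : ℝ) else 0)]
        have h7 : pe2 β h η (fun s s' : Fin n → Step d =>
            if pos s t = y ∧ pos s' t ≠ y ∧ Fr y s' then (1 : ℝ) else 0) +
            pe2 β h η (fun _ s' : Fin n → Step d =>
              if pos s' t = y ∧ Fr y s' then (1 : ℝ) else 0) =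
            pe2 β h η (fun s s' : Fin n → Step d =>
              (if pos s t = y ∧ pos s' t ≠ y ∧ Fr y s' then (1 : ℝ) else 0) +
              if pos s' t = y ∧ Fr y s' then (1 : ℝ) else 0) := by
          unfold pe2
          rw [← pe_add73]
          congr 1
          funext s
          rw [← pe_add73]
        rw [h7]
        refine pe2_mono73 hd β h η fun s s' => ?_
        by_cases a1 : pos s t = y <;> by_cases a2 : pos s' t = y <;> by_cases a3 : Fr y s' <;>
          simp [a1, a2, a3]
      have hzm : Measurable fun η : Env d => zt ρ q (η (t, y)) :=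
        (meas_zt39 ρ q).comp (measurable_pi_apply (t, y))
      have h3 : ∫ η, G t y η * (zt ρ q (η (t, y)) * pe β h η (fun s : Fin n → Step d =>
          if ¬ Fr y s then (1 : ℝ) else 0)) ∂(law d ρ) =
          ∫ η, g (t, y) η * zt ρ q (η (t, y)) * F η ∂(law d ρ) := by
        by_cases hy : sd t y
        · refine integral_congr_ae (Eventually.of_forall fun η => ?_)
          have e1 : (fun s : Fin n → Step d => if ¬ Fr y s then (1 : ℝ) else 0) =
              fun s => if A (pos s e) then (1 : ℝ) else 0 := by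
            funext s
            simp only [hFr, hy, true_iff, not_not]
          simp only [hg, hsg, hF, if_pos hy, one_mul]
          rw [e1]
          ring
        · have e1 : (fun s : Fin n → Step d => if ¬ Fr y s then (1 : ℝ) else 0) =
              fun s => 1 - if A (pos s e) then (1 : ℝ) else 0 := by
            funext s
            simp only [hFr, hy, false_iff, not_not]
            split_ifs <;> norm_num
          have e2 : ∀ η : Env d, pe β h η (fun s : Fin n → Step d =>
              if ¬ Fr y s then (1 : ℝ) else 0) = 1 - F η := by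
            intro η
            rw [e1, pe_sub73, pe_const73 hd]
          have hi1 : Integrable (fun η : Env d => G t y η * zt ρ q (η (t, y))) (law d ρ) := by
            refine Integrable.of_bound ((hGm t y).mul hzm).aestronglyMeasurable 1
              (Eventually.of_forall fun η => ?_)
            rw [Real.norm_eq_abs, abs_mul, abs_of_nonneg (hG01 t y η).1]
            exact mul_le_one₀ (hG01 t y η).2 (abs_nonneg _) (zt_bd39 ρ q _)
          have hi2 : Integrable (fun η : Env d => G t y η * zt ρ q (η (t, y)) * F η)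
              (law d ρ) := by
            refine Integrable.of_bound (((hGm t y).mul hzm).mul hFm).aestronglyMeasurable 1
              (Eventually.of_forall fun η => ?_)
            rw [Real.norm_eq_abs, abs_mul, abs_mul, abs_of_nonneg (hG01 t y η).1,
              abs_of_nonneg (hF01 η).1]
            exact mul_le_one₀ (mul_le_one₀ (hG01 t y η).2 (abs_nonneg _) (zt_bd39 ρ q _))
              (hF01 η).1 (hF01 η).2
          have e3 : ∀ η : Env d, G t y η * (zt ρ q (η (t, y)) * pe β h η
              (fun s : Fin n → Step d => if ¬ Fr y s then (1 : ℝ) else 0)) =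
              G t y η * zt ρ q (η (t, y)) - G t y η * zt ρ q (η (t, y)) * F η := by
            intro η
            rw [e2]
            ring
          simp only [e3]
          rw [integral_sub hi1 hi2, orth63 q (t, y) (hdepc (t, y) ht1 (t, y) le_rfl) hi1,
            zero_sub, ← integral_neg]
          refine integral_congr_ae (Eventually.of_forall fun η => ?_)
          simp only [hg, hsg, if_neg hy]
          ring
      rw [h3] at h1
      nlinarith [mul_le_mul_of_nonneg_left h6 hc0.le, mul_le_mul_of_nonneg_left h2 hc0.le]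
    -- the sum over the sites
    refine le_trans (le_of_eq ?_) (Finset.sum_le_sum hsite)
    rw [Finset.sum_sub_distrib, ← Finset.mul_sum, ← Finset.mul_sum]
    congr 1
    · congr 1
      rw [← integral_finsetSum]
      · refine integral_congr_ae (Eventually.of_forall fun η => ?_)
        show pe2 β h η _ = ∑ y ∈ boxF d n, G t y η * pe2 β h η (fun s s' : Fin n → Step d =>
          if pos s t = y ∧ Fr y s' then (1 : ℝ) else 0)
        rw [← pe2_lin63 (boxF d n) β h η (fun y => G t y η)
          (fun y (s s' : Fin n → Step d) =>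
            if pos s t = y ∧ Fr y s' then (1 : ℝ) else 0)]
        congr 1
        funext s s'
        rw [Finset.sum_eq_single_of_mem (pos s t) (pos_mem_boxF39 s htn)]
        · by_cases a1 : (sd t (pos s t) ↔ A (pos s' e))
          · have a2 : ¬ Fr (pos s t) s' := fun h9 => (hFr _ _).1 h9 a1
            simp [a1, a2]
          · have a2 : Fr (pos s t) s' := (hFr _ _).2 a1
            simp [a1, a2]
        · intro y _ hy
          rw [if_neg fun h1 => hy h1.1.symm, mul_zero]
      · intro y _
        exact int_bd39 ((hGm t y).mul (meas_pe239 β h _)) fun η => by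
          have b2 := pe2_bd39 hd β h η (f := fun s s' : Fin n → Step d =>
            if pos s t = y ∧ Fr y s' then (1 : ℝ) else 0)
            (fun s s' => by split_ifs <;> norm_num)
          exact ⟨mul_nonneg (hG01 t y η).1 b2.1, mul_le_one₀ (hG01 t y η).2 b2.1 b2.2⟩
    · congr 1
      rw [← integral_finsetSum]
      · refine integral_congr_ae (Eventually.of_forall fun η => ?_)
        show pe β h η _ = ∑ y ∈ boxF d n, pe β h η (fun s : Fin n → Step d =>
          if pos s t = y ∧ Fr y s then (1 : ℝ) else 0)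
        rw [← pe_sum73]
        congr 1
        funext s
        rw [Finset.sum_eq_single_of_mem (pos s t) (pos_mem_boxF39 s htn)]
        · by_cases a1 : (sd t (pos s t) ↔ A (pos s e))
          · have a2 : ¬ Fr (pos s t) s := fun h9 => (hFr _ _).1 h9 a1
            simp [a1, a2]
          · have a2 : Fr (pos s t) s := (hFr _ _).2 a1
            simp [a1, a2]
        · intro y _ hy
          rw [if_neg fun h1 => hy h1.1.symm]
      · intro y _
        exact int_bd39 (meas_pe39 β h _) fun η => pe_bd39 hd β h η fun s => by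
          split_ifs <;> norm_num
  -- the end
  calc _ ≤ ∑ t ∈ T, ∑ y ∈ boxF d n, ∫ η, g (t, y) η * zt ρ q (η (t, y)) * F η ∂(law d ρ) :=
        Finset.sum_le_sum hrow
    _ = ∑ p ∈ I, ∫ η, g p η * zt ρ q (η p) * F η ∂(law d ρ) := by
        rw [hI, Finset.sum_product]
    _ ≤ _ := hdual
    _ ≤ _ := Real.sqrt_le_sqrt hright

end Pool.Agent.W_7d29a1_NS
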