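import Pool.Agent.W_7d29a1_NS.SibP39
import Pool.Agent.W_7d29a1_NS.Low39
import Pool.Agent.W_7d29a1_NS.LoA99
import Pool.Agent.W_7d29a1_NS.Chn24
import Pool.Agent.W_7d29a1_NS.Off44
import Pool.Agent.W_7d29a1_NS.Tya90
import Pool.Agent.W_7d29a1_NS.TypB72
import Pool.Agent.W_7d29a1_NS.VarP63
import Pool.Agent.W_7d29a1_NS.Avg71
import Pool.Agent.W_7d29a1_NS.End63

/-!
Theorem NS: the leaves plugged.
-/

namespace Pool.Agent.W_7d29a1_NS

open MeasureTheory ProbabilityTheory Filter Topology Pool.Agent.W_MP_7d29a1_pr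
  Pool.Agent.W_7d29a1_h46 Pool.Agent.W_7d29a1_h46u Pool.Agent.W_7d29a1_D2.B35
  Pool.Agent.W_7d29a1_Q29 Pool.Agent.W_7d29a1_S90

variable {ρ : Measure ℝ} [IsProbabilityMeasure ρ]

/-- Low rows are rare, no hypothesis left. -/
theorem lowG72 {d : ℕ} (hd : 0 < d) (hρ : EM ρ) (hnc : ∀ c : ℝ, ρ {c} ≠ 1) {β : ℝ} (hβ : 0 < β) :
    LowP d ρ β := lowP39 hd (sibP39 hd hρ hnc hβ) (loa99 hd β)

/-- Typical concentration, no hypothesis left. -/
theorem typG72 (hρ : EM ρ) (hnc : ∀ c : ℝ, ρ {c} ≠ 1) {β : ℝ} (hβ : 0 < β) : TypN ρ β :=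
  typN72 (lowG72 (by norm_num) hρ hnc hβ) (tyaP90 (by norm_num) β (chn24 (by norm_num) β))
    (offP44 (by norm_num) β)

/-- The bounded functional, no hypothesis left. -/
theorem varG72 {d : ℕ} (hd : 0 < d) (hρ : EM ρ) (hnc : ∀ c : ℝ, ρ {c} ≠ 1) {β : ℝ} (hβ : 0 < β) :
    VarP d ρ β := varP63 hd (sibP39 hd hρ hnc hβ)

/-- **Theorem NS**, no hypothesis left: in dimension two, for every tilt, a polymer whose windows
of length at least `w` are diffusive has its replicas at distance at most `C √t (w / t) ^ c`. -/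
theorem nsN72 (hρ : EM ρ) (hnc : ∀ c : ℝ, ρ {c} ≠ 1) {β : ℝ} (hβ : 0 < β) : NsN ρ β :=
  mainN63 (typG72 hρ hnc hβ) (varG72 (by norm_num) hρ hnc hβ) (avgP71 β)

end Pool.Agent.W_7d29a1_NS
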