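import Pool.Agent.W_7d29a1_NS.DefsN72
import Pool.Agent.W_7d29a1_S90.TopN17

/-!
Theorem NS: the macroscopic form and the polynomial form from the general form.
-/

namespace Pool.Agent.W_7d29a1_NS

open MeasureTheory ProbabilityTheory Filter Topology Pool.Agent.W_MP_7d29a1_pr
  Pool.Agent.W_7d29a1_h46 Pool.Agent.W_7d29a1_h46u Pool.Agent.W_7d29a1_D2.B35
  Pool.Agent.W_7d29a1_Q29 Pool.Agent.W_7d29a1_S90

variable {d : ℕ} {ρ : Measure ℝ} [IsProbabilityMeasure ρ] {β : ℝ}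

omit [IsProbabilityMeasure ρ] in
lemma Wd_mono17 {h : Vec d} {n : ℕ} {w w' R R' : ℝ} (hw : w ≤ w') (hR : R ≤ R')
    (hW : Wd ρ β h n w R) : Wd ρ β h n w' R' := by
  intro τ t h1 h2 h3
  obtain ⟨m, hm⟩ := hW τ t h1 h2 (hw.trans h3)
  refine ⟨m, hm.trans (mul_le_mul_of_nonneg_right hR ?_)⟩
  have : (τ : ℝ) < t := by exact_mod_cast h1
  linarith

/-- The distance of two replicas and the second moment. -/
lemma Rp_le17 (hd : 0 < d) (h : Vec d) (n t : ℕ) (m : Vec d) {r : ℝ} (hr : 0 < r) :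
    Rp ρ β h n t r ≤ 4 / r ^ 2 *
      ∫ η, pe β h η (fun s : Fin n → Step d => ‖emb (pos s t) - m‖ ^ 2) ∂(law d ρ) := by
  classical
  have hpe : ∀ f : (Fin n → Step d) → ℝ, ∀ η : Env d, pe β h η f =
      ∑ s : Fin n → Step d, wgt β h η s / Z β h η n * f s := by
    intro f η
    unfold pe
    rw [Finset.sum_div]
    exact Finset.sum_congr rfl fun s _ => by ring
  have hint : ∀ f : (Fin n → Step d) → ℝ, Integrable (fun η : Env d => pe β h η f) (law d ρ) := by
    intro f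
    simp only [hpe]
    exact integrable_finsetSum _ fun s _ => (pw17_int hd β h s).mul_const _
  have hpt : ∀ η : Env d, pe2 β h η (fun s s' : Fin n → Step d =>
      if r < ‖emb (pos s t) - emb (pos s' t)‖ then (1 : ℝ) else 0) ≤
      4 / r ^ 2 * pe β h η (fun s : Fin n → Step d => ‖emb (pos s t) - m‖ ^ 2) := by
    intro η
    set F : ℝ := pe β h η (fun s : Fin n → Step d => ‖emb (pos s t) - m‖ ^ 2) with hF
    have hP : ∀ s : Fin n → Step d, 0 ≤ wgt β h η s / Z β h η n := fun s => pw17_nonneg β h η s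
    have hS := pw17_sum hd β h η n
    have h1 : ∀ s s' : Fin n → Step d,
        (if r < ‖emb (pos s t) - emb (pos s' t)‖ then (1 : ℝ) else 0) ≤
          2 / r ^ 2 * ‖emb (pos s t) - m‖ ^ 2 + 2 / r ^ 2 * ‖emb (pos s' t) - m‖ ^ 2 := by
      intro s s'
      split_ifs with h2
      · have h3 : ‖emb (pos s t) - emb (pos s' t)‖ ≤
            ‖emb (pos s t) - m‖ + ‖emb (pos s' t) - m‖ := by
          have h4 : emb (pos s t) - emb (pos s' t) =
              (emb (pos s t) - m) - (emb (pos s' t) - m) := by abel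
          rw [h4]
          exact norm_sub_le _ _
        have h5 : r ^ 2 ≤ (‖emb (pos s t) - m‖ + ‖emb (pos s' t) - m‖) ^ 2 :=
          pow_le_pow_left₀ hr.le (h2.le.trans h3) 2
        have h6 : r ^ 2 ≤ 2 * ‖emb (pos s t) - m‖ ^ 2 + 2 * ‖emb (pos s' t) - m‖ ^ 2 := by
          nlinarith [sq_nonneg (‖emb (pos s t) - m‖ - ‖emb (pos s' t) - m‖)]
        have h7 : 2 / r ^ 2 * ‖emb (pos s t) - m‖ ^ 2 + 2 / r ^ 2 * ‖emb (pos s' t) - m‖ ^ 2 =
            (2 * ‖emb (pos s t) - m‖ ^ 2 + 2 * ‖emb (pos s' t) - m‖ ^ 2) / r ^ 2 := by ring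
        rw [h7, one_le_div (by positivity)]
        exact h6
      · positivity
    have h8 : ∀ s : Fin n → Step d, pe β h η (fun s' : Fin n → Step d =>
        if r < ‖emb (pos s t) - emb (pos s' t)‖ then (1 : ℝ) else 0) ≤
          2 / r ^ 2 * ‖emb (pos s t) - m‖ ^ 2 + 2 / r ^ 2 * F := by
      intro s
      rw [hF, hpe, hpe]
      calc ∑ s' : Fin n → Step d, wgt β h η s' / Z β h η n *
            (if r < ‖emb (pos s t) - emb (pos s' t)‖ then (1 : ℝ) else 0)
          ≤ ∑ s' : Fin n → Step d, wgt β h η s' / Z β h η n *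
            (2 / r ^ 2 * ‖emb (pos s t) - m‖ ^ 2 + 2 / r ^ 2 * ‖emb (pos s' t) - m‖ ^ 2) :=
            Finset.sum_le_sum fun s' _ => mul_le_mul_of_nonneg_left (h1 s s') (hP s')
        _ = (∑ s' : Fin n → Step d, wgt β h η s' / Z β h η n) *
              (2 / r ^ 2 * ‖emb (pos s t) - m‖ ^ 2) + 2 / r ^ 2 *
              ∑ s' : Fin n → Step d, wgt β h η s' / Z β h η n * ‖emb (pos s' t) - m‖ ^ 2 := by
            rw [Finset.sum_mul, Finset.mul_sum, ← Finset.sum_add_distrib]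
            exact Finset.sum_congr rfl fun s' _ => by ring
        _ = _ := by rw [hS, one_mul]
    calc pe2 β h η (fun s s' : Fin n → Step d =>
          if r < ‖emb (pos s t) - emb (pos s' t)‖ then (1 : ℝ) else 0)
        = ∑ s : Fin n → Step d, wgt β h η s / Z β h η n * pe β h η (fun s' : Fin n → Step d =>
          if r < ‖emb (pos s t) - emb (pos s' t)‖ then (1 : ℝ) else 0) := by
          unfold pe2
          rw [hpe]
      _ ≤ ∑ s : Fin n → Step d, wgt β h η s / Z β h η n *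
          (2 / r ^ 2 * ‖emb (pos s t) - m‖ ^ 2 + 2 / r ^ 2 * F) :=
          Finset.sum_le_sum fun s _ => mul_le_mul_of_nonneg_left (h8 s) (hP s)
      _ = 2 / r ^ 2 * (∑ s : Fin n → Step d, wgt β h η s / Z β h η n *
            ‖emb (pos s t) - m‖ ^ 2) +
            (∑ s : Fin n → Step d, wgt β h η s / Z β h η n) * (2 / r ^ 2 * F) := by
          rw [Finset.sum_mul, Finset.mul_sum, ← Finset.sum_add_distrib]
          exact Finset.sum_congr rfl fun s _ => by ring
      _ = 4 / r ^ 2 * F := by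
          rw [hS, ← hpe, ← hF]
          ring
  have h2 : ∀ η : Env d, 0 ≤ pe2 β h η (fun s s' : Fin n → Step d =>
      if r < ‖emb (pos s t) - emb (pos s' t)‖ then (1 : ℝ) else 0) := by
    intro η
    unfold pe2
    rw [hpe]
    refine Finset.sum_nonneg fun s _ => mul_nonneg (pw17_nonneg β h η s) ?_
    rw [hpe]
    refine Finset.sum_nonneg fun s' _ => mul_nonneg (pw17_nonneg β h η s') ?_
    simp only
    split_ifs
    · exact zero_le_one
    · exact le_rfl
  unfold Rp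
  rw [← integral_const_mul]
  exact integral_mono_of_nonneg (ae_of_all _ h2) ((hint _).const_mul _) (ae_of_all _ hpt)

/-- Small times: two replicas at the time `t`, from the windows `(0, t + w']` and `(t, t + w']`. -/
lemma small17 (hd : 0 < d) {h : Vec d} {n t w' : ℕ} {w R r : ℝ} (hr : 0 < r) (hw' : 0 < w')
    (hw : w ≤ w') (htn : t + w' ≤ n) (hW : Wd ρ β h n w R) :
    Rp ρ β h n t r ≤ 4 / r ^ 2 * (2 * R * (t + w') + 2 * R * w') := by
  have hpe : ∀ f : (Fin n → Step d) → ℝ, ∀ η : Env d, pe β h η f =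
      ∑ s : Fin n → Step d, wgt β h η s / Z β h η n * f s := by
    intro f η
    unfold pe
    rw [Finset.sum_div]
    exact Finset.sum_congr rfl fun s _ => by ring
  obtain ⟨m1, hm1⟩ := hW 0 (t + w') (by omega) htn (by push_cast; linarith [(Nat.cast_nonneg t : (0 : ℝ) ≤ t)])
  obtain ⟨m2, hm2⟩ := hW t (t + w') (by omega) htn (by push_cast; linarith)
  rw [pe17 hd h] at hm1 hm2
  refine (Rp_le17 hd h n t (m1 - m2) hr).trans ?_
  refine mul_le_mul_of_nonneg_left ?_ (by positivity)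
  rw [pe17 hd h]
  have h1 : ∀ s : Fin n → Step d, pb17 ρ β h s * ‖emb (pos s t) - (m1 - m2)‖ ^ 2 ≤
      2 * (pb17 ρ β h s * inc 0 (t + w') m1 s ^ 2) +
        2 * (pb17 ρ β h s * inc t (t + w') m2 s ^ 2) := by
    intro s
    have h2 : ‖emb (pos s t) - (m1 - m2)‖ ≤ inc 0 (t + w') m1 s + inc t (t + w') m2 s := by
      unfold inc
      have h0 : (emb (pos s 0) : Vec d) = 0 := by
        have : pos s 0 = 0 := by
          unfold pos
          simp
        rw [this]
        unfold emb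
        ext j
        simp
      rw [h0, sub_zero]
      have h4 : emb (pos s t) - (m1 - m2) =
          (emb (pos s (t + w')) - m1) - (emb (pos s (t + w')) - emb (pos s t) - m2) := by abel
      rw [h4]
      exact norm_sub_le _ _
    have h3 : ‖emb (pos s t) - (m1 - m2)‖ ^ 2 ≤
        2 * inc 0 (t + w') m1 s ^ 2 + 2 * inc t (t + w') m2 s ^ 2 := by
      have h5 := pow_le_pow_left₀ (norm_nonneg _) h2 2
      nlinarith [sq_nonneg (inc 0 (t + w') m1 s - inc t (t + w') m2 s)]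
    have h6 := mul_le_mul_of_nonneg_left h3 (pb17_nonneg (ρ := ρ) (β := β) h s)
    calc pb17 ρ β h s * ‖emb (pos s t) - (m1 - m2)‖ ^ 2
        ≤ pb17 ρ β h s * (2 * inc 0 (t + w') m1 s ^ 2 + 2 * inc t (t + w') m2 s ^ 2) := h6
      _ = _ := by ring
  refine (Finset.sum_le_sum fun s _ => h1 s).trans ?_
  rw [Finset.sum_add_distrib, ← Finset.mul_sum, ← Finset.mul_sum]
  push_cast at hm1 hm2
  linarith

/-- **Macroscopic windows.** -/
theorem ndP17 (hG : NsN ρ β) : NdP ρ β := by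
  intro R r κ hr hκ
  -- the constants
  set R' : ℝ := max R 1 with hR'
  have hR1 : 1 ≤ R' := le_max_right _ _
  obtain ⟨c, C, hc, hC, hN⟩ := hG R' κ hκ
  have hr' : ∃ r' : ℝ, 0 < r' ∧ r' ≤ 1 / 2 ∧ r' ≤ r ∧ 40 * R' * r' ^ 2 < κ * r ^ 2 := by
    have h0 : 0 < κ / (41 * R') := by positivity
    refine ⟨min (1 / 2) (min r (r * Real.sqrt (κ / (41 * R')))), by positivity,
      min_le_left _ _, (min_le_right _ _).trans (min_le_left _ _), ?_⟩
    have h1 : min (1 / 2 : ℝ) (min r (r * Real.sqrt (κ / (41 * R')))) ≤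
        r * Real.sqrt (κ / (41 * R')) := (min_le_right _ _).trans (min_le_right _ _)
    have h2 : (min (1 / 2 : ℝ) (min r (r * Real.sqrt (κ / (41 * R'))))) ^ 2 ≤
        r ^ 2 * (κ / (41 * R')) := by
      refine (pow_le_pow_left₀ (by positivity) h1 2).trans (le_of_eq ?_)
      rw [mul_pow, Real.sq_sqrt h0.le]
    have h3 : 41 * R' * (r ^ 2 * (κ / (41 * R'))) = κ * r ^ 2 := by field_simp
    have h4 : 40 * R' * (r ^ 2 * (κ / (41 * R'))) < 41 * R' * (r ^ 2 * (κ / (41 * R'))) := by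
      have : 0 < R' * (r ^ 2 * (κ / (41 * R'))) := by positivity
      linarith
    calc 40 * R' * (min (1 / 2 : ℝ) (min r (r * Real.sqrt (κ / (41 * R'))))) ^ 2
        ≤ 40 * R' * (r ^ 2 * (κ / (41 * R'))) := mul_le_mul_of_nonneg_left h2 (by positivity)
      _ < κ * r ^ 2 := by rw [← h3]; exact h4
  obtain ⟨r', hr0, hr2, hrr, hrκ⟩ := hr'
  set ε : ℝ := min (r' ^ 2) (r' ^ 2 * (r / C) ^ (1 / c)) with hε
  have hε0 : 0 < ε := by positivity
  have hε1 : ε ≤ r' ^ 2 := min_le_left _ _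
  have hε2 : ε ≤ r' ^ 2 * (r / C) ^ (1 / c) := min_le_right _ _
  refine ⟨ε, hε0, ⌈ε⁻¹⌉₊ + 1, fun h n hn hW t ht => ?_⟩
  have hn1 : (1 : ℝ) ≤ n := by
    have : 1 ≤ n := by omega
    exact_mod_cast this
  have hn0 : (0 : ℝ) < n := by linarith
  have hnε : 1 ≤ ε * n := by
    have h1 : ε⁻¹ ≤ n := by
      refine (Nat.le_ceil _).trans ?_
      have : ⌈ε⁻¹⌉₊ ≤ n := by omega
      exact_mod_cast this
    calc (1 : ℝ) = ε * ε⁻¹ := (mul_inv_cancel₀ hε0.ne').symm
      _ ≤ ε * n := mul_le_mul_of_nonneg_left h1 hε0.le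
  have hW' : Wd ρ β h n (ε * n) R' := Wd_mono17 le_rfl (le_max_left _ _) hW
  have hεr : ε * n ≤ r' ^ 2 * n := mul_le_mul_of_nonneg_right hε1 hn0.le
  by_cases hcase : r' ^ 2 * n ≤ t
  · -- large times
    have htn : (t : ℝ) ≤ n := by exact_mod_cast ht
    have ht0 : (0 : ℝ) < t := lt_of_lt_of_le (by positivity) hcase
    refine lt_of_le_of_lt (Rp_anti17 (by norm_num) h n t ?_)
      (hN h n t (ε * n) hnε (hεr.trans hcase) ht hW')
    have h2 : ε * n / t ≤ (r / C) ^ (1 / c) := by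
      rw [div_le_iff₀ ht0]
      calc ε * n ≤ r' ^ 2 * (r / C) ^ (1 / c) * n := mul_le_mul_of_nonneg_right hε2 hn0.le
        _ = (r / C) ^ (1 / c) * (r' ^ 2 * n) := by ring
        _ ≤ (r / C) ^ (1 / c) * t := mul_le_mul_of_nonneg_left hcase (by positivity)
    have h3 : (ε * n / t) ^ c ≤ r / C := by
      refine (Real.rpow_le_rpow (by positivity) h2 hc.le).trans (le_of_eq ?_)
      rw [← Real.rpow_mul (by positivity), one_div, inv_mul_cancel₀ hc.ne', Real.rpow_one]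
    calc C * Real.sqrt t * (ε * n / t) ^ c ≤ C * Real.sqrt t * (r / C) :=
          mul_le_mul_of_nonneg_left h3 (by positivity)
      _ = r * Real.sqrt t := by field_simp
      _ ≤ r * Real.sqrt n := mul_le_mul_of_nonneg_left (Real.sqrt_le_sqrt htn) hr.le
  · -- small times
    push Not at hcase
    set w' : ℕ := ⌈ε * n⌉₊ with hw'
    have hw1 : (w' : ℝ) ≤ 2 * (ε * n) := by
      have h1 : (w' : ℝ) < ε * n + 1 := Nat.ceil_lt_add_one (by positivity)
      linarith
    have hr4 : r' ^ 2 ≤ 1 / 4 := by nlinarith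
    have htw : t + w' ≤ n := by
      have h1 : (t : ℝ) + w' ≤ n := by
        have h3 : r' ^ 2 * n ≤ 1 / 4 * n := mul_le_mul_of_nonneg_right hr4 hn0.le
        linarith
      exact_mod_cast h1
    have hw0 : 0 < w' := Nat.ceil_pos.2 (by positivity)
    refine lt_of_le_of_lt (small17 (by norm_num) (r := r * Real.sqrt n) (by positivity) hw0
      (Nat.le_ceil _) htw hW') ?_
    have h1 : (r * Real.sqrt n) ^ 2 = r ^ 2 * n := by
      rw [mul_pow, Real.sq_sqrt hn0.le]
    rw [h1, div_mul_eq_mul_div, div_lt_iff₀ (by positivity)]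
    have h3 : 2 * R' * (t + w') + 2 * R' * w' ≤ 10 * R' * (r' ^ 2 * n) := by
      have h4 : (t : ℝ) + 2 * w' ≤ 5 * (r' ^ 2 * n) := by linarith
      have h5 := mul_le_mul_of_nonneg_left h4 (by positivity : (0 : ℝ) ≤ 2 * R')
      linarith
    have h6 := mul_lt_mul_of_pos_right hrκ hn0
    linarith

/-- **Polynomial scales.** -/
theorem nsP17 (hG : NsN ρ β) : NsP ρ β := by
  intro α R κ hα hκ
  set R' : ℝ := max R 1 with hR'
  have hR1 : 1 ≤ R' := le_max_right _ _
  obtain ⟨c, C, hc, hC, hN⟩ := hG R' κ hκ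
  set α' : ℝ := max α 0 with hα'
  have hα1 : α' < 1 := max_lt hα one_pos
  have hα0 : 0 ≤ α' := le_max_right _ _
  have hα2 : 0 < 1 - α' := by linarith
  -- small times: `t ≤ n ^ (1 - 2 b)`
  set b : ℝ := min ((1 - α') / 4) (c * (1 - α') / 2) with hb
  have hb0 : 0 < b := lt_min (by positivity) (by positivity)
  have hb2 : b ≤ (1 - α') / 4 := min_le_left _ _
  have hb1 : b ≤ c * (1 - α') / 2 := min_le_right _ _
  have hb3 : b ≤ 1 / 4 := by linarith
  refine ⟨b / 2, by positivity, ?_⟩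
  have lim : ∀ {x : ℝ}, 0 < x → Tendsto (fun n : ℕ => (n : ℝ) ^ x) atTop atTop := fun hx =>
    (tendsto_rpow_atTop hx).comp tendsto_natCast_atTop_atTop
  have hev : ∀ᶠ n : ℕ in atTop, 1 ≤ n ∧ C ≤ (n : ℝ) ^ (c * (1 - α') / 4) ∧
      4 ≤ (n : ℝ) ^ (1 - α') ∧ 2 ≤ (n : ℝ) ^ (2 * b) ∧ 41 * R' / κ ≤ (n : ℝ) ^ b := by
    filter_upwards [eventually_ge_atTop 1,
      (lim (by positivity : 0 < c * (1 - α') / 4)).eventually_ge_atTop C,
      (lim hα2).eventually_ge_atTop 4,
      (lim (by positivity : 0 < 2 * b)).eventually_ge_atTop 2,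
      (lim hb0).eventually_ge_atTop (41 * R' / κ)] with n h1 h2 h3 h4 h5
    exact ⟨h1, h2, h3, h4, h5⟩
  obtain ⟨N₀, hN₀⟩ := eventually_atTop.1 hev
  refine ⟨N₀, fun h n hn hW t ht => ?_⟩
  obtain ⟨hn1, hn2, hn3, hn4, hn5⟩ := hN₀ n hn
  have hn1' : (1 : ℝ) ≤ n := by exact_mod_cast hn1
  have hn0 : (0 : ℝ) < n := by linarith
  have hw1 : (1 : ℝ) ≤ (n : ℝ) ^ α' := Real.one_le_rpow hn1' hα0
  have hW' : Wd ρ β h n ((n : ℝ) ^ α') R' :=
    Wd_mono17 (Real.rpow_le_rpow_of_exponent_le hn1' (le_max_left _ _)) (le_max_left _ _) hW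
  set D : ℝ := (n : ℝ) ^ (1 / 2 - b) with hD
  have hD0 : 0 < D := by positivity
  have hD2 : D ^ 2 = (n : ℝ) ^ (1 - 2 * b) := by
    rw [hD, ← Real.rpow_natCast, ← Real.rpow_mul hn0.le]
    congr 1
    push_cast
    ring
  have hw3 : (n : ℝ) ^ α' ≤ D ^ 2 := by
    rw [hD2]
    exact Real.rpow_le_rpow_of_exponent_le hn1' (by linarith)
  by_cases hcase : D ^ 2 ≤ t
  · -- large times
    have htn : (t : ℝ) ≤ n := by exact_mod_cast ht
    have ht0 : (0 : ℝ) < t := lt_of_lt_of_le (by positivity) hcase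
    refine lt_of_le_of_lt (Rp_anti17 (by norm_num) h n t ?_)
      (hN h n t ((n : ℝ) ^ α') hw1 (hw3.trans hcase) ht hW')
    have h2 : (n : ℝ) ^ α' / t ≤ (n : ℝ) ^ (α' - (1 - 2 * b)) := by
      rw [div_le_iff₀ ht0, Real.rpow_sub hn0]
      calc (n : ℝ) ^ α' = (n : ℝ) ^ α' / (n : ℝ) ^ (1 - 2 * b) * (n : ℝ) ^ (1 - 2 * b) := by
            field_simp
        _ ≤ (n : ℝ) ^ α' / (n : ℝ) ^ (1 - 2 * b) * t := by
            rw [hD2] at hcase
            exact mul_le_mul_of_nonneg_left hcase (by positivity)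
    have h3 : ((n : ℝ) ^ α' / t) ^ c ≤ (n : ℝ) ^ ((α' - (1 - 2 * b)) * c) := by
      rw [Real.rpow_mul hn0.le]
      exact Real.rpow_le_rpow (by positivity) h2 hc.le
    have h4 : (α' - (1 - 2 * b)) * c ≤ -(c * (1 - α') / 2) := by
      have h5 : c * (2 * b) ≤ c * ((1 - α') / 2) := mul_le_mul_of_nonneg_left (by linarith) hc.le
      nlinarith
    calc C * Real.sqrt t * ((n : ℝ) ^ α' / t) ^ c
        ≤ (n : ℝ) ^ (c * (1 - α') / 4) * (n : ℝ) ^ ((1 : ℝ) / 2) *
            (n : ℝ) ^ (-(c * (1 - α') / 2)) := by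
          refine mul_le_mul (mul_le_mul hn2 ?_ (Real.sqrt_nonneg _) (by positivity)) ?_
            (by positivity) (by positivity)
          · rw [← Real.sqrt_eq_rpow]
            exact Real.sqrt_le_sqrt htn
          · exact h3.trans (Real.rpow_le_rpow_of_exponent_le hn1' h4)
      _ = (n : ℝ) ^ (c * (1 - α') / 4 + 1 / 2 + -(c * (1 - α') / 2)) := by
          rw [Real.rpow_add hn0, Real.rpow_add hn0]
      _ ≤ (n : ℝ) ^ ((1 : ℝ) / 2 - b / 2) :=
          Real.rpow_le_rpow_of_exponent_le hn1' (by linarith)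
  · -- small times
    push Not at hcase
    set w' : ℕ := ⌈(n : ℝ) ^ α'⌉₊ with hw'
    have hw2 : (w' : ℝ) ≤ 2 * (n : ℝ) ^ α' := by
      have h1 : (w' : ℝ) < (n : ℝ) ^ α' + 1 := Nat.ceil_lt_add_one (by positivity)
      linarith
    have hw4 : 4 * (n : ℝ) ^ α' ≤ n := by
      calc 4 * (n : ℝ) ^ α' ≤ (n : ℝ) ^ (1 - α') * (n : ℝ) ^ α' :=
            mul_le_mul_of_nonneg_right hn3 (by positivity)
        _ = n := by
            rw [← Real.rpow_add hn0]
            simp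
    have hD3 : 2 * D ^ 2 ≤ n := by
      calc 2 * D ^ 2 ≤ (n : ℝ) ^ (2 * b) * D ^ 2 :=
            mul_le_mul_of_nonneg_right hn4 (by positivity)
        _ = n := by
            rw [hD2, ← Real.rpow_add hn0]
            simp
    have htw : t + w' ≤ n := by
      have h1 : (t : ℝ) + w' ≤ n := by linarith
      exact_mod_cast h1
    have hw0 : 0 < w' := Nat.ceil_pos.2 (by positivity)
    refine lt_of_le_of_lt (small17 (by norm_num) (r := (n : ℝ) ^ ((1 : ℝ) / 2 - b / 2))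
      (by positivity) hw0 (Nat.le_ceil _) htw hW') ?_
    have h1 : ((n : ℝ) ^ ((1 : ℝ) / 2 - b / 2)) ^ 2 = D ^ 2 * (n : ℝ) ^ b := by
      rw [hD2, ← Real.rpow_natCast, ← Real.rpow_mul hn0.le, ← Real.rpow_add hn0]
      congr 1
      push_cast
      ring
    rw [h1, div_mul_eq_mul_div, div_lt_iff₀ (by positivity)]
    have h3 : 2 * R' * (t + w') + 2 * R' * w' ≤ 10 * R' * D ^ 2 := by
      have h4 : (t : ℝ) + 2 * w' ≤ 5 * D ^ 2 := by linarith
      have h5 := mul_le_mul_of_nonneg_left h4 (by positivity : (0 : ℝ) ≤ 2 * R')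
      linarith
    have h6 : 41 * R' ≤ κ * (n : ℝ) ^ b := by
      rw [div_le_iff₀ hκ] at hn5
      linarith
    have h7 := mul_le_mul_of_nonneg_left h6 (by positivity : (0 : ℝ) ≤ D ^ 2)
    have h8 : 0 < R' * D ^ 2 := by positivity
    calc 4 * (2 * R' * (t + w') + 2 * R' * w') ≤ 4 * (10 * R' * D ^ 2) :=
          mul_le_mul_of_nonneg_left h3 (by norm_num)
      _ = 40 * (R' * D ^ 2) := by ring
      _ < 41 * (R' * D ^ 2) := by linarith
      _ = D ^ 2 * (41 * R') := by ring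
      _ ≤ D ^ 2 * (κ * (n : ℝ) ^ b) := h7
      _ = κ * (D ^ 2 * (n : ℝ) ^ b) := by ring

end Pool.Agent.W_7d29a1_NS
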