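import Pool.Agent.W_7d29a1_NS.TopN17
import Pool.Agent.W_7d29a1_NS.Glue72
import Pool.Agent.W_7d29a1_NS.End63

/-!
Theorem NS: all leaves plugged, problem level.
-/

namespace Pool.Agent.W_7d29a1_NS

open MeasureTheory ProbabilityTheory Filter Topology Pool.Agent.W_MP_7d29a1_pr
  Pool.Agent.W_7d29a1_h46 Pool.Agent.W_7d29a1_h46u Pool.Agent.W_7d29a1_D2.B35
  Pool.Agent.W_7d29a1_Q29 Pool.Agent.W_7d29a1_S90

variable {Ω : Type*} [MeasurableSpace Ω] {μ : Measure Ω} [IsProbabilityMeasure μ] {d : ℕ}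
  {ρ : Measure ℝ} [IsProbabilityMeasure ρ] {ω : ℕ × Site d → Ω → ℝ} {β : ℝ}

/-- **Theorem NS**, law level. -/
theorem nsN17 (hρ : EM ρ) (hnc : ∀ c : ℝ, ρ {c} ≠ 1) (hβ : 0 < β) : NsN ρ β :=
  mainN63 (typG72 hρ hnc hβ) (varG72 (by norm_num) hρ hnc hβ) (avgP71 β)

open Classical in
/-- **Theorem NS** (dimension two, every `β > 0`, every tilt): if all windows of length at least `w`
of the polymer of length `n` are diffusive, two replicas in the same environment are, at every time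
`t`, at distance at most `C √t (w / t) ^ c` with probability `> 1 - κ`. -/
theorem nsP17' (hω : IID μ ρ ω) (hρ : EM ρ) (hnc : ∀ c : ℝ, ρ {c} ≠ 1) (hβ : 0 < β) (hd : d = 2)
    (R : ℝ) {κ : ℝ} (hκ : 0 < κ) :
    ∃ c C : ℝ, 0 < c ∧ ∀ (h : Vec d) (n t w : ℕ), 0 < w → w ≤ t → t ≤ n →
      (∀ i j : ℕ, i + w ≤ j → j ≤ n → ∃ m : Vec d,
        ∫ x, ∑ s : Fin n → Step d, PolT β h (fun p => ω p x) {s} *
          ‖emb (pos s j) - emb (pos s i) - m‖ ^ 2 ∂μ ≤ R * (j - i)) →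
      ∫ x, ∑ s : Fin n → Step d, PolT β h (fun p => ω p x) {s} *
        PolT β h (fun p => ω p x) {s' : Fin n → Step d |
          C * Real.sqrt t * ((w : ℝ) / t) ^ c < ‖emb (pos s t) - emb (pos s' t)‖} ∂μ < κ :=
  topNq17 hω (nsN17 hρ hnc hβ) hd R hκ

open Classical in
/-- **Theorem NS**, macroscopic windows. -/
theorem nsM17 (hω : IID μ ρ ω) (hρ : EM ρ) (hnc : ∀ c : ℝ, ρ {c} ≠ 1) (hβ : 0 < β) (hd : d = 2)
    (R : ℝ) {r κ : ℝ} (hr : 0 < r) (hκ : 0 < κ) :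
    ∃ ε : ℝ, 0 < ε ∧ ∀ᶠ n : ℕ in atTop, ∀ h : Vec d,
      (∀ i j : ℕ, i + ε * n ≤ j → j ≤ n → ∃ m : Vec d,
        ∫ x, ∑ s : Fin n → Step d, PolT β h (fun p => ω p x) {s} *
          ‖emb (pos s j) - emb (pos s i) - m‖ ^ 2 ∂μ ≤ R * (j - i)) → ∀ t : ℕ, t ≤ n →
      ∫ x, ∑ s : Fin n → Step d, PolT β h (fun p => ω p x) {s} *
        PolT β h (fun p => ω p x) {s' : Fin n → Step d |
          r * Real.sqrt n < ‖emb (pos s t) - emb (pos s' t)‖} ∂μ < κ :=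
  topNr17 hω (nsN17 hρ hnc hβ) hd R hr hκ

end Pool.Agent.W_7d29a1_NS
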