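import Mathlib

/-!
Theorem NV: the abstract part (a function which moves little on a closed set).
-/

namespace Pool.Agent.W_7d29a1_NS

open MeasureTheory Filter Topology Set

/-- The abstract part of Theorem NV. -/
lemma absNv72 {F V : ℝ → ℝ} {D : Set ℝ} {l q p δ : ℝ} (hV : Continuous V) (hV0 : ∀ s, 0 ≤ V s)
    (hF : ∀ s, HasDerivAt F (V s) s) (hD : IsClosed D) (hDl : D ⊆ Icc 0 l) (hl : 0 ≤ l)
    (hq : 0 < q) (hp : 0 ≤ p) (hδ : 0 ≤ δ)
    (H : ∀ u ∈ D, ∀ w ∈ D, u ≤ w → F w - F u ≤ q →
      ∫ s in D ∩ Icc u w, V s ≤ p + δ * (volume (D ∩ Icc u w)).toReal) :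
    ∫ s in D, V s ≤ ((F l - F 0) / q + 1) * p + 2 * δ * l := by
  classical
  have hmono : Monotone F := monotone_of_deriv_nonneg (fun s => (hF s).differentiableAt)
    (fun s => by rw [(hF s).deriv]; exact hV0 s)
  have hFc : Continuous F := continuous_iff_continuousAt.2 fun s => (hF s).continuousAt
  have hl0 : 0 ≤ F l - F 0 := sub_nonneg.2 (hmono hl)
  obtain ⟨N, hN⟩ : ∃ N : ℕ, N = ⌊(F l - F 0) / q⌋₊ := ⟨_, rfl⟩
  set E : ℕ → Set ℝ := fun k => D ∩ F ⁻¹' Ico (F 0 + k * q) (F 0 + (k + 1) * q) with hE
  have hEm : ∀ k, MeasurableSet (E k) := fun k =>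
    hD.measurableSet.inter (hFc.measurable measurableSet_Ico)
  have hEf : ∀ k, volume (E k) < ⊤ := fun k =>
    (measure_mono (fun s hs => hDl hs.1)).trans_lt (by simp)
  have hVi : ∀ B : Set ℝ, B ⊆ Icc 0 l → IntegrableOn V B := fun B hB =>
    (hV.continuousOn.integrableOn_compact isCompact_Icc).mono_set hB
  have hdis : ∀ i j, i ≠ j → Disjoint (E i) (E j) := by
    intro i j hij
    rw [Set.disjoint_left]
    rintro s ⟨_, h1, h2⟩ ⟨_, h3, h4⟩
    rcases lt_or_gt_of_ne hij with h | h
    · have : ((i : ℝ) + 1) ≤ j := by exact_mod_cast h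
      have := mul_le_mul_of_nonneg_right this hq.le
      linarith
    · have : ((j : ℝ) + 1) ≤ i := by exact_mod_cast h
      have := mul_le_mul_of_nonneg_right this hq.le
      linarith
  have hcov : D ⊆ ⋃ k ∈ Finset.range (N + 1), E k := by
    intro s hs
    have h0 := hDl hs
    have h1 : 0 ≤ F s - F 0 := sub_nonneg.2 (hmono h0.1)
    have h2 : F s ≤ F l := hmono h0.2
    obtain ⟨k, hk⟩ : ∃ k : ℕ, k = ⌊(F s - F 0) / q⌋₊ := ⟨_, rfl⟩
    have h3 : (k : ℝ) ≤ (F s - F 0) / q := by
      rw [hk]
      exact Nat.floor_le (by positivity)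
    have h4 : (F s - F 0) / q < k + 1 := by
      rw [hk]
      exact Nat.lt_floor_add_one _
    rw [le_div_iff₀ hq] at h3
    rw [div_lt_iff₀ hq] at h4
    have h5 : k ≤ N := by
      rw [hk, hN]
      exact Nat.floor_le_floor (div_le_div_of_nonneg_right (by linarith) hq.le)
    simp only [Set.mem_iUnion, Finset.mem_range]
    exact ⟨k, by omega, hs, by constructor <;> linarith⟩
  -- one cell
  have hcell : ∀ k, ∫ s in E k, V s ≤
      p + δ * ((volume (E k)).toReal + (volume (E (k + 1))).toReal) := by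
    intro k
    set K : Set ℝ := D ∩ F ⁻¹' Icc (F 0 + k * q) (F 0 + (k + 1) * q) with hK
    have hKc : IsCompact K :=
      (isCompact_Icc.of_isClosed_subset hD hDl).inter_right (isClosed_Icc.preimage hFc)
    have hEK : E k ⊆ K := fun s hs => ⟨hs.1, hs.2.1, hs.2.2.le⟩
    rcases K.eq_empty_or_nonempty with h0 | h0
    · have h1 : E k = ∅ := Set.subset_eq_empty hEK h0
      rw [h1]
      simp only [Measure.restrict_empty, integral_zero_measure]
      positivity
    · obtain ⟨u, hu, hu'⟩ := hKc.exists_isLeast h0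
      obtain ⟨w, hw, hw'⟩ := hKc.exists_isGreatest h0
      have huw : u ≤ w := hu' hw
      have hKe : K = D ∩ Icc u w := by
        ext s
        constructor
        · intro hs
          exact ⟨hs.1, hu' hs, hw' hs⟩
        · intro hs
          exact ⟨hs.1, hu.2.1.trans (hmono hs.2.1), (hmono hs.2.2).trans hw.2.2⟩
      have h1 := H u hu.1 w hw.1 huw (by
        have h2 := hu.2.1
        have h3 := hw.2.2
        linarith)
      rw [← hKe] at h1
      have h2 : ∫ s in E k, V s ≤ ∫ s in K, V s :=
        setIntegral_mono_set (hVi K fun s hs => hDl hs.1) (Eventually.of_forall fun s => hV0 s)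
          (Eventually.of_forall hEK)
      refine h2.trans (h1.trans ?_)
      have h3 : K ⊆ E k ∪ E (k + 1) := by
        intro s hs
        rcases lt_or_eq_of_le hs.2.2 with h4 | h4
        · exact Or.inl ⟨hs.1, hs.2.1, h4⟩
        · refine Or.inr ⟨hs.1, ?_, ?_⟩
          · push_cast
            exact h4.ge
          · push_cast
            linarith
      have h4 : (volume K).toReal ≤ (volume (E k)).toReal + (volume (E (k + 1))).toReal := by
        rw [← ENNReal.toReal_add (hEf k).ne (hEf (k + 1)).ne]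
        exact ENNReal.toReal_mono (ENNReal.add_ne_top.2 ⟨(hEf k).ne, (hEf (k + 1)).ne⟩)
          ((measure_mono h3).trans (measure_union_le _ _))
      have := mul_le_mul_of_nonneg_left h4 hδ
      linarith
  -- the sum of the volumes
  have hvol : ∀ (f : ℕ → ℕ), Function.Injective f → ∀ M : ℕ,
      ∑ k ∈ Finset.range M, (volume (E (f k))).toReal ≤ l := by
    intro f hf M
    have h1 : ∑ k ∈ Finset.range M, volume (E (f k)) =
        volume (⋃ k ∈ Finset.range M, E (f k)) := by
      rw [measure_biUnion_finset]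
      · intro i _ j _ hij
        exact hdis _ _ fun h => hij (hf h)
      · intro i _
        exact hEm _
    rw [← ENNReal.toReal_sum fun k _ => (hEf _).ne, h1]
    have h2 : volume (⋃ k ∈ Finset.range M, E (f k)) ≤ volume (Icc (0 : ℝ) l) := by
      refine measure_mono ?_
      intro s hs
      simp only [Set.mem_iUnion] at hs
      obtain ⟨k, _, hk⟩ := hs
      exact hDl hk.1
    refine (ENNReal.toReal_mono (by simp) h2).trans ?_
    rw [Real.volume_Icc, sub_zero, ENNReal.toReal_ofReal hl]
  have h1 : ∫ s in D, V s ≤ ∫ s in ⋃ k ∈ Finset.range (N + 1), E k, V s := by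
    refine setIntegral_mono_set (hVi _ ?_) (Eventually.of_forall fun s => hV0 s)
      (Eventually.of_forall hcov)
    intro s hs
    simp only [Set.mem_iUnion] at hs
    obtain ⟨k, _, hk⟩ := hs
    exact hDl hk.1
  refine h1.trans ?_
  rw [integral_biUnion_finset]
  · refine (Finset.sum_le_sum fun k _ => hcell k).trans ?_
    rw [Finset.sum_add_distrib, ← Finset.mul_sum, Finset.sum_add_distrib, Finset.sum_const,
      Finset.card_range, nsmul_eq_mul]
    have h2 := hvol id Function.injective_id (N + 1)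
    have h3 := hvol (fun k => k + 1) (add_left_injective 1) (N + 1)
    have h4 : (N : ℝ) ≤ (F l - F 0) / q := by
      rw [hN]
      exact Nat.floor_le (by positivity)
    have h5 : ((N + 1 : ℕ) : ℝ) * p ≤ ((F l - F 0) / q + 1) * p := by
      push_cast
      exact mul_le_mul_of_nonneg_right (by linarith) hp
    have h6 : δ * (∑ k ∈ Finset.range (N + 1), (volume (E k)).toReal +
        ∑ k ∈ Finset.range (N + 1), (volume (E (k + 1))).toReal) ≤ δ * (l + l) :=
      mul_le_mul_of_nonneg_left (add_le_add h2 h3) hδ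
    linarith
  · intro k _
    exact hEm k
  · intro i _ j _ hij
    exact hdis i j hij
  · intro k _
    exact hVi _ fun s hs => hDl hs.1

end Pool.Agent.W_7d29a1_NS
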