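import Pool.Agent.W_7d29a1_NS.NvA72
import Pool.Agent.W_7d29a1_NS.Glue72
import Pool.Agent.W_7d29a1_S90.KaT10
import Pool.Agent.W_7d29a1_S90.KmT71
import Pool.Agent.W_7d29a1_S90.KrT28
import Pool.Agent.W_7d29a1_S90.CsT75
import Pool.Agent.W_7d29a1_S90.CsK54

/-!
Theorem NV: in dimension two, for all large `n`, the mean velocities at which the polymer is
diffusive on macroscopic windows have small measure.
-/

namespace Pool.Agent.W_7d29a1_NS

open MeasureTheory ProbabilityTheory Filter Topology Pool.Agent.W_MP_7d29a1_pr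
  Pool.Agent.W_7d29a1_h46 Pool.Agent.W_7d29a1_h46u Pool.Agent.W_7d29a1_D2.B35
  Pool.Agent.W_7d29a1_Q29 Pool.Agent.W_7d29a1_S90

variable {d : ℕ} {ρ : Measure ℝ} [IsProbabilityMeasure ρ]

omit [IsProbabilityMeasure ρ] in
lemma pe2_co72 (hd : 0 < d) (β : ℝ) (h : Vec d) {n : ℕ} (η : Env d)
    (f g : (Fin n → Step d) → ℝ) :
    pe2 β h η (fun s s' => (f s - f s') * (g s - g s')) = 2 * co28 β h η f g := by
  unfold pe2 co28
  have h1 : ∀ s : Fin n → Step d, pe β h η (fun s' => (f s - f s') * (g s - g s')) =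
      f s * g s + ((-(pe β h η g)) * f s + ((-(pe β h η f)) * g s +
        pe β h η (fun s' => f s' * g s'))) := by
    intro s
    have h2 : (fun s' : Fin n → Step d => (f s - f s') * (g s - g s')) =
        fun s' => f s * g s + ((-(f s)) * g s' + ((-(g s)) * f s' + f s' * g s')) := by
      funext s'
      ring
    rw [h2, pe_add73 β h η (fun _ => f s * g s) (fun s' => (-(f s)) * g s' + ((-(g s)) * f s' +
      f s' * g s')), pe_add73 β h η (fun s' => (-(f s)) * g s') (fun s' => (-(g s)) * f s' +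
      f s' * g s'), pe_add73 β h η (fun s' => (-(g s)) * f s') (fun s' => f s' * g s'),
      pe_const73 hd, pe_mul73, pe_mul73]
    ring
  simp only [h1]
  rw [pe_add73 β h η (fun s => f s * g s) (fun s => (-(pe β h η g)) * f s +
    ((-(pe β h η f)) * g s + pe β h η (fun s' => f s' * g s'))),
    pe_add73 β h η (fun s => (-(pe β h η g)) * f s) (fun s => (-(pe β h η f)) * g s +
      pe β h η (fun s' => f s' * g s')),
    pe_add73 β h η (fun s => (-(pe β h η f)) * g s) (fun _ => pe β h η (fun s' => f s' * g s')),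
    pe_const73 hd, pe_mul73, pe_mul73]
  ring

/-- The covariance with the clamp. -/
lemma cc_bd72 (hd : 0 < d) (β : ℝ) (h e : Vec d) (n : ℕ) {a b : ℝ} (hab : a ≤ b) :
    0 ≤ Cc ρ β h e n n a b ∧ Cc ρ β h e n n a b ≤ Vr ρ β h e n n := by
  set y : (Fin n → Step d) → ℝ := fun s => inner ℝ e (emb (pos s n)) with hy
  set f : (Fin n → Step d) → ℝ := fun s => cl e n a b s with hf
  have hCc : Cc ρ β h e n n a b = ∫ η, co28 β h η f y ∂(law d ρ) := rfl
  have hVn : Vr ρ β h e n n = ∫ η, co28 β h η y y ∂(law d ρ) := by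
    unfold Vr co28
    refine integral_congr_ae (Eventually.of_forall fun η => ?_)
    show pe β h η (fun s : Fin n → Step d => (inner ℝ e (emb (pos s n)) : ℝ) ^ 2) -
      pe β h η (fun s : Fin n → Step d => inner ℝ e (emb (pos s n))) ^ 2 =
      pe β h η (fun s => y s * y s) - pe β h η y * pe β h η y
    have : (fun s : Fin n → Step d => (inner ℝ e (emb (pos s n)) : ℝ) ^ 2) =
        fun s => y s * y s := by
      funext s
      simp only [hy]
      ring
    rw [this, sq]
  have hkey : ∀ s s' : Fin n → Step d, 0 ≤ (f s - f s') * (y s - y s') ∧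
      (f s - f s') * (y s - y s') ≤ (y s - y s') ^ 2 := by
    intro s s'
    have h1 : |f s - f s'| ≤ |y s - y s'| := clamp_lip28 a b (y s) (y s')
    have h2 : 0 ≤ (f s - f s') * (y s - y s') := by
      rcases le_total (y s) (y s') with h3 | h3
      · have h4 : f s ≤ f s' := max_le_max le_rfl (min_le_min le_rfl h3)
        nlinarith
      · have h4 : f s' ≤ f s := max_le_max le_rfl (min_le_min le_rfl h3)
        nlinarith
    refine ⟨h2, ?_⟩
    rw [← abs_of_nonneg h2, abs_mul, ← sq_abs (y s - y s'), sq]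
    exact mul_le_mul_of_nonneg_right h1 (abs_nonneg _)
  have hpt : ∀ η : Env d, 0 ≤ co28 β h η f y ∧ co28 β h η f y ≤ co28 β h η y y := by
    intro η
    have h1 := pe2_co72 hd β h η f y
    have h2 := pe2_co72 hd β h η y y
    have h3 : 0 ≤ pe2 β h η (fun s s' => (f s - f s') * (y s - y s')) :=
      pe_nonneg73 hd β h η fun s => pe_nonneg73 hd β h η fun s' => (hkey s s').1
    have h4 : pe2 β h η (fun s s' => (f s - f s') * (y s - y s')) ≤
        pe2 β h η (fun s s' => (y s - y s') * (y s - y s')) :=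
      pe2_mono73 hd β h η fun s s' => by
        have := (hkey s s').2
        rwa [sq] at this
    constructor <;> linarith
  rw [hCc, hVn]
  exact ⟨integral_nonneg fun η => (hpt η).1, integral_mono (integrable_co28 hd β h f y)
    (integrable_co28 hd β h y y) fun η => (hpt η).2⟩

/-! ### The set of the diffusive tilts is closed -/

lemma quad72 (hd : 0 < d) (β : ℝ) (h : Vec d) (n τ t : ℕ) (m : Vec d) :
    ∫ η, pe β h η (fun s : Fin n → Step d => inc τ t m s ^ 2) ∂(law d ρ) =
      ∑ j, ((∫ η, pe β h η (fun s : Fin n → Step d => ((emb (pos s t) - emb (pos s τ)) j) ^ 2)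
        ∂(law d ρ)) - 2 * m j * (∫ η, pe β h η (fun s : Fin n → Step d =>
          (emb (pos s t) - emb (pos s τ)) j) ∂(law d ρ)) + m j ^ 2) := by
  have h1 : ∀ s : Fin n → Step d, inc τ t m s ^ 2 =
      ∑ j, (((emb (pos s t) - emb (pos s τ)) j) ^ 2 +
        ((-(2 * m j)) * (emb (pos s t) - emb (pos s τ)) j + m j ^ 2)) := by
    intro s
    unfold inc
    rw [EuclideanSpace.norm_sq_eq]
    refine Finset.sum_congr rfl fun j _ => ?_
    rw [Real.norm_eq_abs, sq_abs]
    show ((emb (pos s t) - emb (pos s τ)) j - m j) ^ 2 = _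
    ring
  simp only [h1]
  have h2 : ∀ η : Env d, pe β h η (fun s : Fin n → Step d =>
      ∑ j, (((emb (pos s t) - emb (pos s τ)) j) ^ 2 +
        ((-(2 * m j)) * (emb (pos s t) - emb (pos s τ)) j + m j ^ 2))) =
      ∑ j, (pe β h η (fun s : Fin n → Step d => ((emb (pos s t) - emb (pos s τ)) j) ^ 2) +
        ((-(2 * m j)) * pe β h η (fun s : Fin n → Step d => (emb (pos s t) - emb (pos s τ)) j) +
          m j ^ 2)) := by
    intro η
    rw [pe_sum73]
    refine Finset.sum_congr rfl fun j _ => ?_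
    rw [pe_add73 β h η (fun s : Fin n → Step d => ((emb (pos s t) - emb (pos s τ)) j) ^ 2)
      (fun s => (-(2 * m j)) * (emb (pos s t) - emb (pos s τ)) j + m j ^ 2),
      pe_add73 β h η (fun s : Fin n → Step d => (-(2 * m j)) * (emb (pos s t) - emb (pos s τ)) j)
      (fun _ => m j ^ 2), pe_mul73, pe_const73 hd]
  simp only [h2]
  have i1 : ∀ f : (Fin n → Step d) → ℝ, Integrable (fun η : Env d => pe β h η f) (law d ρ) :=
    fun f => integrable_pe_fun73 hd β h f
  rw [integral_finsetSum]
  · refine Finset.sum_congr rfl fun j _ => ?_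
    have h3 : ∀ (p q : Env d → ℝ) (c k : ℝ), Integrable p (law d ρ) → Integrable q (law d ρ) →
        ∫ η, (p η + (c * q η + k)) ∂(law d ρ) =
          ∫ η, p η ∂(law d ρ) + (c * ∫ η, q η ∂(law d ρ) + k) := by
      intro p q c k hp hq
      have h4 : Integrable (fun η => c * q η + k) (law d ρ) :=
        (hq.const_mul c).add (integrable_const k)
      rw [integral_add hp h4, integral_add (hq.const_mul c) (integrable_const k),
        integral_const_mul]
      simp
    rw [h3 _ _ _ _ (i1 _) (i1 _)]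
    ring
  · intro j _
    exact (i1 _).add (((i1 _).const_mul _).add (integrable_const _))

lemma clo72 (hd : 0 < d) (β : ℝ) (h e : Vec d) (n : ℕ) (w R : ℝ) :
    IsClosed {s : ℝ | Wd ρ β (h + s • e) n w R} := by
  have hc : ∀ f : (Fin n → Step d) → ℝ,
      Continuous fun s : ℝ => ∫ η, pe β (h + s • e) η f ∂(law d ρ) := fun f =>
    continuous_iff_continuousAt.2 fun s => (ped10 (ρ := ρ) hd β h e f s).continuousAt
  have hset : {s : ℝ | Wd ρ β (h + s • e) n w R} = ⋂ (τ : ℕ) (t : ℕ) (_ : τ < t) (_ : t ≤ n)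
      (_ : w ≤ (t : ℝ) - τ), {s : ℝ | ∃ m : Vec d,
        ∫ η, pe β (h + s • e) η (fun x : Fin n → Step d => inc τ t m x ^ 2) ∂(law d ρ) ≤
          R * ((t : ℝ) - τ)} := by
    ext s
    simp only [Set.mem_iInter]
    exact Iff.rfl
  rw [hset]
  refine isClosed_iInter fun τ => isClosed_iInter fun t => isClosed_iInter fun _ =>
    isClosed_iInter fun _ => isClosed_iInter fun _ => ?_
  have e1 : {s : ℝ | ∃ m : Vec d,
      ∫ η, pe β (h + s • e) η (fun x : Fin n → Step d => inc τ t m x ^ 2) ∂(law d ρ) ≤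
        R * ((t : ℝ) - τ)} = {s : ℝ | ∑ j, ((∫ η, pe β (h + s • e) η
        (fun x : Fin n → Step d => ((emb (pos x t) - emb (pos x τ)) j) ^ 2) ∂(law d ρ)) -
          (∫ η, pe β (h + s • e) η (fun x : Fin n → Step d =>
            (emb (pos x t) - emb (pos x τ)) j) ∂(law d ρ)) ^ 2) ≤ R * ((t : ℝ) - τ)} := by
    ext s
    constructor
    · rintro ⟨m, hm⟩
      rw [quad72 hd] at hm
      refine le_trans (Finset.sum_le_sum fun j _ => ?_) hm
      nlinarith [sq_nonneg (m j - ∫ η, pe β (h + s • e) η (fun x : Fin n → Step d =>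
        (emb (pos x t) - emb (pos x τ)) j) ∂(law d ρ))]
    · intro hs
      refine ⟨WithLp.toLp 2 fun j => ∫ η, pe β (h + s • e) η (fun x : Fin n → Step d =>
        (emb (pos x t) - emb (pos x τ)) j) ∂(law d ρ), ?_⟩
      rw [quad72 hd]
      refine le_trans (Finset.sum_le_sum fun j _ => ?_) hs
      show _ - 2 * (∫ η, pe β (h + s • e) η (fun x : Fin n → Step d =>
        (emb (pos x t) - emb (pos x τ)) j) ∂(law d ρ)) * _ +
          (∫ η, pe β (h + s • e) η (fun x : Fin n → Step d =>
        (emb (pos x t) - emb (pos x τ)) j) ∂(law d ρ)) ^ 2 ≤ _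
      nlinarith
  rw [e1]
  refine isClosed_le (continuous_finsetSum _ fun j _ => (hc _).sub ((hc _).pow 2))
    continuous_const

end Pool.Agent.W_7d29a1_NS
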