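import Pool.Agent.W_7d29a1_NS.NvB72

/-!
Theorem NV: the theorem.
-/

namespace Pool.Agent.W_7d29a1_NS

open MeasureTheory ProbabilityTheory Filter Topology Pool.Agent.W_MP_7d29a1_pr
  Pool.Agent.W_7d29a1_h46 Pool.Agent.W_7d29a1_h46u Pool.Agent.W_7d29a1_D2.B35
  Pool.Agent.W_7d29a1_Q29 Pool.Agent.W_7d29a1_S90

variable {d : ℕ} {ρ : Measure ℝ} [IsProbabilityMeasure ρ]

/-- The derivative of the drift is the mean quenched variance. -/
lemma cv_vr72 (β : ℝ) (h e : Vec d) (n : ℕ) : Cv ρ β h e n n = Vr ρ β h e n n := by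
  unfold Cv Vr
  refine integral_congr_ae (Eventually.of_forall fun η => ?_)
  show pe β h η (fun s : Fin n → Step d => inner ℝ e (emb (pos s n)) *
      inner ℝ e (emb (pos s n))) - pe β h η (fun s : Fin n → Step d =>
      inner ℝ e (emb (pos s n))) * pe β h η (fun s : Fin n → Step d =>
      inner ℝ e (emb (pos s n))) = _
  have : (fun s : Fin n → Step d => (inner ℝ e (emb (pos s n)) : ℝ) *
      inner ℝ e (emb (pos s n))) = fun s => inner ℝ e (emb (pos s n)) ^ 2 := by
    funext s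
    ring
  rw [this]
  ring

/-- Theorem NV along a line, the core. -/
lemma core72 (hd : 0 < d) (β : ℝ) {h e : Vec d} (he : ‖e‖ = 1) {n : ℕ} (hn : 1 ≤ n)
    {w R A κ r l : ℝ} (hR : 1 ≤ R) (hA : 0 < A) (hκ : 0 ≤ κ) (hr : 0 ≤ r) (hl : 0 ≤ l)
    (hw : w ≤ n) (hRp : ∀ s : ℝ, Wd ρ β (h + s • e) n w R → Rp ρ β (h + s • e) n n r ≤ κ) :
    ∫ s in {s : ℝ | s ∈ Set.Icc 0 l ∧ Wd ρ β (h + s • e) n w R},
      Vr ρ β (h + s • e) e n n ≤
      (2 * n / (A * Real.sqrt n) + 1) * (5 / 2 * Real.sqrt (R * n)) +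
        2 * Real.sqrt (R * n * (A ^ 2 * n * κ + r ^ 2) / 2) * l := by
  have hn0 : (0 : ℝ) < n := by exact_mod_cast hn
  have hsn : 0 < Real.sqrt n := Real.sqrt_pos.2 hn0
  have hRn : 0 < R * n := by positivity
  have hsR : 0 < Real.sqrt (R * n) := Real.sqrt_pos.2 hRn
  have hsRq : Real.sqrt (R * n) ^ 2 = R * n := Real.sq_sqrt hRn.le
  set F : ℝ → ℝ := fun s => Ft ρ β (h + s • e) e n n with hF
  set V : ℝ → ℝ := fun s => Vr ρ β (h + s • e) e n n with hV
  have hca := caT10 (ρ := ρ) hd β h e n n le_rfl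
  have hVe : ∀ s, Cv ρ β (h + s • e) e n n = V s := fun s => cv_vr72 β _ e n
  have hVc : Continuous V := by
    have := hca.1
    simp only [hVe] at this
    exact this
  have hFd : ∀ s, HasDerivAt F (V s) s := fun s => by
    have := hca.2 s
    rw [hVe] at this
    exact this
  have hcs := fun s : ℝ => csT75 (ρ := ρ) hd β (h + s • e) e n n le_rfl
  have hV0 : ∀ s, 0 ≤ V s := fun s => (hcs s).1
  set D : Set ℝ := {s : ℝ | s ∈ Set.Icc 0 l ∧ Wd ρ β (h + s • e) n w R} with hD
  have hDc : IsClosed D := isClosed_Icc.inter (clo72 hd β h e n w R)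
  have hDl : D ⊆ Set.Icc 0 l := fun s hs => hs.1
  -- second moments on `D`
  have hSm : ∀ s ∈ D, Sm ρ β (h + s • e) e n n (F s) ≤ R * n := by
    intro s hs
    refine csK54 (ρ := ρ) hd β (h + s • e) e n n 1 R he hn le_rfl (by simp) (by linarith) ?_
    intro τ t h1 h2 h3
    refine hs.2 τ t h1 h2 (hw.trans ?_)
    rwa [Real.rpow_one] at h3
  have hVR : ∀ s ∈ D, V s ≤ R * n := fun s hs => ((hcs s).2.2.1 0).1.trans (hSm s hs)
  -- the range of the drift
  have hFn : ∀ s, |F s| ≤ n := by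
    intro s
    have h1 := (csT75 (ρ := ρ) hd β (h + s • e) e n 0 (by omega)).2.2.2.1 he
    have h2 : Ft ρ β (h + s • e) e n 0 = 0 := by
      unfold Ft
      have h3 : ∀ η : Env d, pe β (h + s • e) η (fun x : Fin n → Step d =>
          (inner ℝ e (emb (pos x 0)) : ℝ)) = 0 := by
        intro η
        have h4 : (fun x : Fin n → Step d => (inner ℝ e (emb (pos x 0)) : ℝ)) =
            fun _ => (0 : ℝ) := by
          funext x
          rw [pos_zero73, emb_zero73, inner_zero_right]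
        rw [h4, pe_const73 hd]
      simp only [h3, integral_zero]
    rw [h2] at h1
    simpa using h1
  have hp : 0 ≤ 5 / 2 * Real.sqrt (R * n) := by positivity
  obtain ⟨δ, hδ⟩ : ∃ δ, δ = Real.sqrt (R * n * (A ^ 2 * n * κ + r ^ 2) / 2) := ⟨_, rfl⟩
  have hδ0 : 0 ≤ δ := by rw [hδ]; exact Real.sqrt_nonneg _
  have hmain := absNv72 (F := F) (V := V) (D := D) (l := l) (q := A * Real.sqrt n)
    (p := 5 / 2 * Real.sqrt (R * n)) (δ := δ) hVc hV0 hFd hDc hDl hl (by positivity) hp hδ0 ?_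
  · rw [← hδ]
    refine hmain.trans ?_
    refine add_le_add_left (mul_le_mul_of_nonneg_right (add_le_add_left
      (div_le_div_of_nonneg_right ?_ (by positivity)) _) hp) _
    have h1 := abs_le.1 (hFn l)
    have h2 := abs_le.1 (hFn 0)
    linarith [h1.2, h2.1]
  -- one piece
  intro u hu v hv huv hq
  have hIV : ∫ s in Set.Icc u v, V s = F v - F u := by
    rw [integral_Icc_eq_integral_Ioc, ← intervalIntegral.integral_of_le huv]
    exact intervalIntegral.integral_eq_sub_of_hasDerivAt (fun s _ => hFd s)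
      (hVc.intervalIntegrable _ _)
  have hVi : IntegrableOn V (Set.Icc u v) := hVc.continuousOn.integrableOn_compact isCompact_Icc
  have hsplit : (∫ s in D ∩ Set.Icc u v, V s) + (∫ s in Set.Icc u v \ D, V s) = F v - F u := by
    rw [← hIV, Set.inter_comm]
    exact integral_inter_add_sdiff hDc.measurableSet hVi
  have hvol : 0 ≤ δ * (volume (D ∩ Set.Icc u v)).toReal := mul_nonneg hδ0 ENNReal.toReal_nonneg
  have hVd : 0 ≤ ∫ s in Set.Icc u v \ D, V s := integral_nonneg fun s => hV0 s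
  rcases lt_or_ge (F v - Real.sqrt (R * n)) (F u + Real.sqrt (R * n)) with hab | hab
  · have : F v - F u ≤ 5 / 2 * Real.sqrt (R * n) := by linarith
    linarith
  -- the clamp
  obtain ⟨a, ha⟩ : ∃ a, a = F u + Real.sqrt (R * n) := ⟨_, rfl⟩
  obtain ⟨b, hb⟩ : ∃ b, b = F v - Real.sqrt (R * n) := ⟨_, rfl⟩
  rw [← ha, ← hb] at hab
  set C : ℝ → ℝ := fun s => Cc ρ β (h + s • e) e n n a b with hC
  set G : ℝ → ℝ := fun s => Fc ρ β (h + s • e) e n n a b with hG
  have hka := kaT10 (ρ := ρ) hd β h e n n a b le_rfl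
  have hCc : Continuous C := hka.1
  have hCb : ∀ s, 0 ≤ C s ∧ C s ≤ V s := fun s => cc_bd72 hd β _ e n hab
  have hCi : IntegrableOn C (Set.Icc u v) := hCc.continuousOn.integrableOn_compact isCompact_Icc
  have hIC : ∫ s in Set.Icc u v, C s = G v - G u := by
    rw [integral_Icc_eq_integral_Ioc, ← intervalIntegral.integral_of_le huv]
    exact intervalIntegral.integral_eq_sub_of_hasDerivAt (fun s _ => hka.2 s)
      (hCc.intervalIntegrable _ _)
  have hsC : (∫ s in D ∩ Set.Icc u v, C s) + (∫ s in Set.Icc u v \ D, C s) = G v - G u := by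
    rw [← hIC, Set.inter_comm]
    exact integral_inter_add_sdiff hDc.measurableSet hCi
  have hGu : G u ≤ a + Real.sqrt (R * n) / 4 := by
    have h1 := (kmT71 (ρ := ρ) hd β (h + u • e) e n n a b (F u) le_rfl hab).1 (by linarith)
    refine h1.trans ?_
    have h2 : a - F u = Real.sqrt (R * n) := by rw [ha]; ring
    rw [h2]
    have h3 : Sm ρ β (h + u • e) e n n (F u) / (4 * Real.sqrt (R * n)) ≤
        Real.sqrt (R * n) / 4 := by
      rw [div_le_iff₀ (by positivity)]
      have := hSm u hu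
      nlinarith
    linarith
  have hGv : b - Real.sqrt (R * n) / 4 ≤ G v := by
    have h1 := (kmT71 (ρ := ρ) hd β (h + v • e) e n n a b (F v) le_rfl hab).2 (by linarith)
    refine le_trans ?_ h1
    have h2 : F v - b = Real.sqrt (R * n) := by rw [hb]; ring
    rw [h2]
    have h3 : Sm ρ β (h + v • e) e n n (F v) / (4 * Real.sqrt (R * n)) ≤
        Real.sqrt (R * n) / 4 := by
      rw [div_le_iff₀ (by positivity)]
      have := hSm v hv
      nlinarith
    linarith
  have hCD : ∫ s in D ∩ Set.Icc u v, C s ≤ δ * (volume (D ∩ Set.Icc u v)).toReal := by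
    have hfin : volume (D ∩ Set.Icc u v) < ⊤ :=
      (measure_mono Set.inter_subset_right).trans_lt (by simp)
    have h1 : ∫ s in D ∩ Set.Icc u v, C s ≤ ∫ _s in D ∩ Set.Icc u v, δ := by
      refine setIntegral_mono_on (hCi.mono_set Set.inter_subset_right)
        (integrableOn_const hfin.ne) (hDc.measurableSet.inter measurableSet_Icc)
        fun s hs => ?_
      rw [hδ]
      refine Real.le_sqrt_of_sq_le ?_
      have h2 := (krT28 (ρ := ρ) hd β (h + s • e) e n n a b he le_rfl hab).2 r hr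
      have h3 : (b - a) ^ 2 ≤ A ^ 2 * n := by
        have h4 : b - a ≤ A * Real.sqrt n := by
          rw [ha, hb]
          linarith
        have h5 : 0 ≤ b - a := sub_nonneg.2 hab
        calc (b - a) ^ 2 ≤ (A * Real.sqrt n) ^ 2 := pow_le_pow_left₀ h5 h4 2
          _ = A ^ 2 * n := by rw [mul_pow, Real.sq_sqrt hn0.le]
      have h4 := hRp s hs.1.2
      have h5 : (0 : ℝ) ≤ Rp ρ β (h + s • e) n n r := by
        unfold Rp
        refine integral_nonneg fun η => pe_nonneg73 hd β _ η fun x =>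
          pe_nonneg73 hd β _ η fun x' => ?_
        beta_reduce
        split_ifs
        · exact zero_le_one
        · exact le_rfl
      have h6 : (b - a) ^ 2 * Rp ρ β (h + s • e) n n r ≤ A ^ 2 * n * κ :=
        mul_le_mul h3 h4 h5 (by positivity)
      have h7 : V s * ((b - a) ^ 2 * Rp ρ β (h + s • e) n n r + r ^ 2) ≤
          R * n * (A ^ 2 * n * κ + r ^ 2) :=
        mul_le_mul (hVR s hs.1) (by linarith) (by positivity) hRn.le
      have h8 : 2 * C s ^ 2 ≤ V s * ((b - a) ^ 2 * Rp ρ β (h + s • e) n n r + r ^ 2) := h2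
      linarith
    refine h1.trans (le_of_eq ?_)
    rw [setIntegral_const, smul_eq_mul, mul_comm]
    rfl
  have hCV : ∫ s in Set.Icc u v \ D, C s ≤ ∫ s in Set.Icc u v \ D, V s :=
    setIntegral_mono_on (hCi.mono_set Set.diff_subset) (hVi.mono_set Set.diff_subset)
      (measurableSet_Icc.diff hDc.measurableSet) fun s _ => (hCb s).2
  linarith

end Pool.Agent.W_7d29a1_NS
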