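import Pool.Agent.W_7d29a1_NS.NvC72

/-!
Theorem NV: the constants, the measure of the set of the velocities, the theorem in the letters of
the problem.
-/

namespace Pool.Agent.W_7d29a1_NS

open MeasureTheory ProbabilityTheory Filter Topology Pool.Agent.W_MP_7d29a1_pr
  Pool.Agent.W_7d29a1_h46 Pool.Agent.W_7d29a1_h46u Pool.Agent.W_7d29a1_D2.B35
  Pool.Agent.W_7d29a1_Q29 Pool.Agent.W_7d29a1_S90

variable {ρ : Measure ℝ} [IsProbabilityMeasure ρ]

/-- Theorem NV, integrated form: the diffusive tilts carry a small part of the motion of the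
drift. -/
theorem nvI72 (hρ : EM ρ) (hnc : ∀ c : ℝ, ρ {c} ≠ 1) {β : ℝ} (hβ : 0 < β) :
    ∀ R l δ : ℝ, 0 < l → 0 < δ → ∃ ε : ℝ, 0 < ε ∧ ∃ N₀ : ℕ, ∀ (h e : Vec 2) (n : ℕ), ‖e‖ = 1 →
      N₀ ≤ n →
      ∫ s in {s : ℝ | s ∈ Set.Icc 0 l ∧ Wd ρ β (h + s • e) n (ε * n) R},
        Vr ρ β (h + s • e) e n n ≤ δ * n := by
  intro R l δ hl hδ
  have hd : 0 < 2 := by norm_num
  obtain ⟨R', hR'⟩ : ∃ R', R' = max R 1 := ⟨_, rfl⟩
  have hR1 : 1 ≤ R' := by rw [hR']; exact le_max_right _ _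
  have hRR : R ≤ R' := by rw [hR']; exact le_max_left _ _
  have hR0 : 0 < R' := by linarith
  obtain ⟨S, hS⟩ : ∃ S, S = Real.sqrt R' := ⟨_, rfl⟩
  have hS0 : 0 < S := by rw [hS]; exact Real.sqrt_pos.2 hR0
  have hS2 : S ^ 2 = R' := by rw [hS]; exact Real.sq_sqrt hR0.le
  obtain ⟨A, hA⟩ : ∃ A, A = 20 * S / δ := ⟨_, rfl⟩
  have hA0 : 0 < A := by rw [hA]; positivity
  obtain ⟨κ, hκ⟩ : ∃ κ, κ = δ ^ 2 / (16 * l ^ 2 * R' * A ^ 2) := ⟨_, rfl⟩
  have hκ0 : 0 < κ := by rw [hκ]; positivity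
  obtain ⟨c, C, hc, hC, hNs⟩ := nsN72 hρ hnc hβ R' κ hκ0
  obtain ⟨η, hη⟩ : ∃ η, η = δ / (4 * l * S * C) := ⟨_, rfl⟩
  have hη0 : 0 < η := by rw [hη]; positivity
  obtain ⟨ε, hε⟩ : ∃ ε, ε = min 1 (η ^ (1 / c)) := ⟨_, rfl⟩
  have hε0 : 0 < ε := by rw [hε]; positivity
  have hε1 : ε ≤ 1 := by rw [hε]; exact min_le_left _ _
  have hεc : ε ^ c ≤ η := by
    have h1 : ε ≤ η ^ (1 / c) := by rw [hε]; exact min_le_right _ _
    have h2 : ε ^ c ≤ (η ^ (1 / c)) ^ c := Real.rpow_le_rpow hε0.le h1 hc.le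
    rwa [← Real.rpow_mul hη0.le, one_div_mul_cancel hc.ne', Real.rpow_one] at h2
  obtain ⟨N₀, hN₀⟩ := exists_nat_ge (max (1 / ε) ((10 * S / δ) ^ 2))
  refine ⟨ε, hε0, N₀ + 1, fun h e n he hn => ?_⟩
  have hn1 : 1 ≤ n := by omega
  have hn0 : (0 : ℝ) < n := by exact_mod_cast hn1
  have hnN : (N₀ : ℝ) ≤ n := by exact_mod_cast (by omega : N₀ ≤ n)
  have hεn : 1 ≤ ε * n := by
    have h1 := (le_max_left _ _).trans (hN₀.trans hnN)
    rw [div_le_iff₀ hε0] at h1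
    linarith
  have hsn : 0 < Real.sqrt n := Real.sqrt_pos.2 hn0
  have hsn2 : Real.sqrt n ^ 2 = n := Real.sq_sqrt hn0.le
  have hns : 10 * S / δ ≤ Real.sqrt n :=
    Real.le_sqrt_of_sq_le ((le_max_right _ _).trans (hN₀.trans hnN))
  rw [div_le_iff₀ hδ] at hns
  have hwn : ε * n ≤ n := by nlinarith
  have hWd : ∀ s : ℝ, Wd ρ β (h + s • e) n (ε * n) R → Wd ρ β (h + s • e) n (ε * n) R' := by
    intro s hs τ t h1 h2 h3
    obtain ⟨m, hm⟩ := hs τ t h1 h2 h3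
    refine ⟨m, hm.trans (mul_le_mul_of_nonneg_right hRR ?_)⟩
    linarith
  obtain ⟨r, hr⟩ : ∃ r, r = C * Real.sqrt n * (ε * n / n) ^ c := ⟨_, rfl⟩
  have hrε : ε * n / n = ε := by field_simp
  have hr0 : 0 ≤ r := by rw [hr]; positivity
  have hr2 : r ≤ C * Real.sqrt n * η := by
    rw [hr, hrε]
    exact mul_le_mul_of_nonneg_left hεc (by positivity)
  have hmain := core72 (ρ := ρ) hd β (h := h) he hn1 (w := ε * n) (R := R') (A := A) (κ := κ)
    (r := r) (l := l) hR1 hA0 hκ0.le hr0 hl.le hwn (fun s hs => by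
      rw [hr]
      exact (hNs (h + s • e) n n (ε * n) hεn hwn le_rfl hs).le)
  have hsub : {s : ℝ | s ∈ Set.Icc 0 l ∧ Wd ρ β (h + s • e) n (ε * n) R} ⊆
      {s : ℝ | s ∈ Set.Icc 0 l ∧ Wd ρ β (h + s • e) n (ε * n) R'} := fun s hs =>
    ⟨hs.1, hWd s hs.2⟩
  have hca := (caT10 (ρ := ρ) hd β h e n n le_rfl).1
  have hVe : ∀ s : ℝ, Cv ρ β (h + s • e) e n n = Vr ρ β (h + s • e) e n n :=
    fun s => cv_vr72 β _ e n
  simp only [hVe] at hca
  have h1 : ∫ s in {s : ℝ | s ∈ Set.Icc 0 l ∧ Wd ρ β (h + s • e) n (ε * n) R},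
      Vr ρ β (h + s • e) e n n ≤
      ∫ s in {s : ℝ | s ∈ Set.Icc 0 l ∧ Wd ρ β (h + s • e) n (ε * n) R'},
        Vr ρ β (h + s • e) e n n := by
    refine setIntegral_mono_set ((hca.continuousOn.integrableOn_compact isCompact_Icc).mono_set
      fun s hs => hs.1) (Eventually.of_forall fun s => ?_) (Eventually.of_forall hsub)
    exact (csT75 (ρ := ρ) hd β (h + s • e) e n n le_rfl).1
  refine h1.trans (hmain.trans ?_)
  have e1 : Real.sqrt (R' * n) = S * Real.sqrt n := by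
    rw [Real.sqrt_mul hR0.le, hS]
  rw [e1]
  -- the second term
  have h2 : Real.sqrt (R' * n * (A ^ 2 * n * κ + r ^ 2) / 2) ≤ δ * n / (4 * l) := by
    refine Real.sqrt_le_iff.2 ⟨by positivity, ?_⟩
    have h3 : R' * n * (A ^ 2 * n * κ) = δ ^ 2 * n ^ 2 / (16 * l ^ 2) := by
      rw [hκ]
      field_simp
    have h4 : R' * n * r ^ 2 ≤ δ ^ 2 * n ^ 2 / (16 * l ^ 2) := by
      have h5 : r ^ 2 ≤ (C * Real.sqrt n * η) ^ 2 := pow_le_pow_left₀ hr0 hr2 2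
      have h6 : (C * Real.sqrt n * η) ^ 2 = δ ^ 2 * n / (16 * l ^ 2 * R') := by
        rw [mul_pow, mul_pow, hsn2, hη, ← hS2]
        field_simp
        ring
      rw [h6] at h5
      calc R' * n * r ^ 2 ≤ R' * n * (δ ^ 2 * n / (16 * l ^ 2 * R')) :=
            mul_le_mul_of_nonneg_left h5 (by positivity)
        _ = δ ^ 2 * n ^ 2 / (16 * l ^ 2) := by field_simp
    have h7 : (δ * n / (4 * l)) ^ 2 = δ ^ 2 * n ^ 2 / (16 * l ^ 2) := by
      field_simp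
      ring
    rw [h7]
    have h8 : R' * n * (A ^ 2 * n * κ + r ^ 2) / 2 =
        (R' * n * (A ^ 2 * n * κ) + R' * n * r ^ 2) / 2 := by ring
    rw [h8, h3]
    linarith
  have h3 : 2 * Real.sqrt (R' * n * (A ^ 2 * n * κ + r ^ 2) / 2) * l ≤ δ * n / 2 := by
    have h4 : 2 * Real.sqrt (R' * n * (A ^ 2 * n * κ + r ^ 2) / 2) * l ≤
        2 * (δ * n / (4 * l)) * l :=
      mul_le_mul_of_nonneg_right (mul_le_mul_of_nonneg_left h2 (by norm_num)) hl.le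
    have h5 : 2 * (δ * n / (4 * l)) * l = δ * n / 2 := by
      field_simp
      ring
    linarith
  -- the first term
  have h4 : (2 * n / (A * Real.sqrt n) + 1) * (5 / 2 * (S * Real.sqrt n)) ≤ δ * n / 2 := by
    have h5 : 2 * n / (A * Real.sqrt n) * (5 / 2 * (S * Real.sqrt n)) = δ * n / 4 := by
      rw [hA]
      field_simp
      ring
    have h6 : 5 / 2 * (S * Real.sqrt n) ≤ δ * n / 4 := by
      have h7 : S * 10 * Real.sqrt n ≤ Real.sqrt n * δ * Real.sqrt n :=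
        mul_le_mul_of_nonneg_right (by linarith) hsn.le
      have h8 : Real.sqrt n * δ * Real.sqrt n = δ * n := by
        rw [mul_comm (Real.sqrt n) δ, mul_assoc, ← sq, hsn2]
      linarith
    rw [add_mul, h5, one_mul]
    linarith
  linarith

/-- **Theorem NV**: in dimension two, for every `R`, `l`, `δ > 0` there are `ε > 0` and `N₀` such
that for all `n ≥ N₀`, all tilts `h` and all unit vectors `e`, the mean velocities
`E E_n^{h+se} ⟨e, S_n⟩ / n`, `0 ≤ s ≤ l`, of the tilts all of whose windows of length at least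
`ε n` are diffusive (mean square at most `R` times the length) form a set of Lebesgue measure at
most `δ`. -/
theorem nv72 (hρ : EM ρ) (hnc : ∀ c : ℝ, ρ {c} ≠ 1) {β : ℝ} (hβ : 0 < β) :
    ∀ R l δ : ℝ, 0 < l → 0 < δ → ∃ ε : ℝ, 0 < ε ∧ ∃ N₀ : ℕ, ∀ (h e : Vec 2) (n : ℕ), ‖e‖ = 1 →
      N₀ ≤ n →
      volume ((fun s : ℝ => Ft ρ β (h + s • e) e n n / n) ''
        {s : ℝ | s ∈ Set.Icc 0 l ∧ Wd ρ β (h + s • e) n (ε * n) R}) ≤ ENNReal.ofReal δ := by
  intro R l δ hl hδ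
  have hd : 0 < 2 := by norm_num
  obtain ⟨ε, hε, N₀, hN⟩ := nvI72 hρ hnc hβ R l δ hl hδ
  refine ⟨ε, hε, N₀ + 1, fun h e n he hn => ?_⟩
  have hn1 : 1 ≤ n := by omega
  have hn0 : (0 : ℝ) < n := by exact_mod_cast hn1
  have h1 := hN h e n he (by omega)
  set D : Set ℝ := {s : ℝ | s ∈ Set.Icc 0 l ∧ Wd ρ β (h + s • e) n (ε * n) R} with hD
  have hDc : IsClosed D := isClosed_Icc.inter (clo72 hd β h e n _ R)
  have hca := caT10 (ρ := ρ) hd β h e n n le_rfl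
  have hVe : ∀ s : ℝ, Cv ρ β (h + s • e) e n n = Vr ρ β (h + s • e) e n n :=
    fun s => cv_vr72 β _ e n
  simp only [hVe] at hca
  have hV0 : ∀ s : ℝ, 0 ≤ Vr ρ β (h + s • e) e n n := fun s =>
    (csT75 (ρ := ρ) hd β (h + s • e) e n n le_rfl).1
  have hder : ∀ s ∈ D, HasFDerivWithinAt (fun s : ℝ => Ft ρ β (h + s • e) e n n / n)
      ((1 : ℝ →L[ℝ] ℝ).smulRight (Vr ρ β (h + s • e) e n n / n)) D s := by
    intro s _
    exact ((hca.2 s).div_const (n : ℝ)).hasDerivWithinAt.hasFDerivWithinAt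
  have h2 := addHaar_image_le_lintegral_abs_det_fderiv volume hDc.measurableSet hder
  refine h2.trans ?_
  have hi : IntegrableOn (fun s : ℝ => Vr ρ β (h + s • e) e n n / n) D :=
    ((hca.1.div_const (n : ℝ)).continuousOn.integrableOn_compact isCompact_Icc).mono_set
      fun s hs => hs.1
  have h3 : ∫⁻ s in D, ENNReal.ofReal |((1 : ℝ →L[ℝ] ℝ).smulRight
      (Vr ρ β (h + s • e) e n n / n)).det| = ENNReal.ofReal
      (∫ s in D, Vr ρ β (h + s • e) e n n / n) := by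
    rw [ofReal_integral_eq_lintegral_ofReal hi (Eventually.of_forall fun s =>
      div_nonneg (hV0 s) hn0.le)]
    refine lintegral_congr fun s => ?_
    rw [ContinuousLinearMap.det_smulRight]
    simp only [ContinuousLinearMap.one_apply, one_mul]
    rw [abs_of_nonneg (div_nonneg (hV0 s) hn0.le)]
  rw [h3, integral_div]
  refine ENNReal.ofReal_le_ofReal ?_
  rw [div_le_iff₀ hn0]
  exact h1

end Pool.Agent.W_7d29a1_NS
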