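import Pool.Agent.W_7d29a1_NS.DefsN72
import Pool.Agent.W_7d29a1_S90.RpT73

/-!
Theorem NS, leaf OFF: the offset of the grids (the diagonal offsets `(u, …, u)` are enough).
-/

set_option autoImplicit false

namespace Pool.Agent.W_7d29a1_NS

open MeasureTheory ProbabilityTheory Filter Topology Pool.Agent.W_MP_7d29a1_pr
  Pool.Agent.W_7d29a1_h46 Pool.Agent.W_7d29a1_h46u Pool.Agent.W_7d29a1_D2.B35
  Pool.Agent.W_7d29a1_Q29 Pool.Agent.W_7d29a1_S90

open Classical in
/-- The number of offsets for which `x` is near the boundary of its block, one coordinate. -/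
lemma cnt94 {i M : ℕ} (k : ℕ) (hi : i ≤ M) (x : ℤ) :
    ((Finset.range (2 ^ M)).filter fun u : ℕ => ∃ z : ℤ, |z - x| ≤ k ∧
      (z + u) / 2 ^ i ≠ (x + u) / 2 ^ i).card ≤ 2 * k * 2 ^ (M - i) := by
  have hB : (2 : ℤ) ^ i = ((2 ^ i : ℕ) : ℤ) := by push_cast; rfl
  have hB0 : (0 : ℤ) < ((2 ^ i : ℕ) : ℤ) := by positivity
  rw [hB]
  set B : ℤ := ((2 ^ i : ℕ) : ℤ) with hBd
  refine (Finset.card_le_card_of_injOn (fun u : ℕ => ((x + u) % B, u / 2 ^ i))
    (t := (Finset.Ico (0 : ℤ) k ∪ Finset.Ico (B - k) B) ×ˢ Finset.range (2 ^ (M - i)))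
    ?_ ?_).trans ?_
  · intro u hu
    obtain ⟨hu1, z, hz1, hz2⟩ := Finset.mem_filter.1 (Finset.mem_coe.1 hu)
    rw [Finset.mem_range] at hu1
    refine Finset.mem_coe.2 (Finset.mem_product.2 ⟨?_, ?_⟩)
    · have h0 : 0 ≤ (x + u) % B := Int.emod_nonneg _ hB0.ne'
      have h1 : (x + u) % B < B := Int.emod_lt_of_pos _ hB0
      by_contra hcon
      rw [Finset.mem_union, Finset.mem_Ico, Finset.mem_Ico] at hcon
      push Not at hcon
      have h2 : (k : ℤ) ≤ (x + u) % B := by
        by_contra h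
        exact absurd (hcon.1 h0) (by omega)
      have h3 : (x + u) % B < B - k := by
        by_contra h
        have := hcon.2 (not_lt.1 h)
        omega
      apply hz2
      have h4 := Int.mul_ediv_add_emod (x + u) B
      have h5 : z + (u : ℤ) = ((x + u) % B + (z - x)) + B * ((x + u) / B) := by linarith
      rw [abs_le] at hz1
      rw [h5, Int.add_mul_ediv_left _ _ hB0.ne', Int.ediv_eq_zero_of_lt (by omega) (by omega)]
      ring
    · rw [Finset.mem_range]
      refine Nat.div_lt_of_lt_mul ?_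
      rw [← pow_add, Nat.add_sub_cancel' hi]
      exact hu1
  · intro u _ v _ huv
    have h1 : (x + (u : ℤ)) % B = (x + v) % B := congrArg Prod.fst huv
    have h2 : u / 2 ^ i = v / 2 ^ i := congrArg Prod.snd huv
    have h3 : (u : ℤ) ≡ v [ZMOD B] := Int.ModEq.add_left_cancel' x h1
    have h4 : u ≡ v [MOD 2 ^ i] := Int.natCast_modEq_iff.1 h3
    have h5 := Nat.div_add_mod u (2 ^ i)
    have h6 := Nat.div_add_mod v (2 ^ i)
    have h7 : u % 2 ^ i = v % 2 ^ i := h4
    rw [← h5, ← h6, h2, h7]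
  · rw [Finset.card_product, Finset.card_range]
    refine Nat.mul_le_mul_right _ ((Finset.card_union_le _ _).trans ?_)
    rw [Int.card_Ico, Int.card_Ico]
    omega

open Classical in
/-- Leaf OFF. -/
theorem offP94 {d : ℕ} {ρ : Measure ℝ} [IsProbabilityMeasure ρ] (hd : 0 < d) (β : ℝ) :
    OffP d ρ β := by
  intro h n t S lev w r hw hr
  set M : ℕ := S.sup lev with hM
  have hle : ∀ s ∈ S, lev s ≤ M := fun s hs => Finset.le_sup (f := lev) hs
  -- one level
  have key : ∀ (i : ℕ) (r : ℝ), i ≤ M → 0 ≤ r →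
      ∑ u ∈ Finset.range (2 ^ M), Nb ρ β h n t i (fun _ => (u : ℤ)) r ≤
        2 ^ M * (2 * d * r / 2 ^ i) := by
    intro i r hi hr
    have h1 : ∀ s : Fin n → Step d, ∑ u ∈ Finset.range (2 ^ M),
        (if ∃ z : Site d, blk i (fun _ => (u : ℤ)) z ≠ blk i (fun _ => (u : ℤ)) (pos s t) ∧
          ‖emb z - emb (pos s t)‖ ≤ r then (1 : ℝ) else 0) ≤ 2 ^ M * (2 * d * r / 2 ^ i) := by
      intro s
      set x : Site d := pos s t with hx
      have h2 : ∀ u ∈ Finset.range (2 ^ M),
          (if ∃ z : Site d, blk i (fun _ => (u : ℤ)) z ≠ blk i (fun _ => (u : ℤ)) x ∧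
            ‖emb z - emb x‖ ≤ r then (1 : ℝ) else 0) ≤
          ∑ j : Fin d, if ∃ z : ℤ, |z - x j| ≤ (⌊r⌋₊ : ℕ) ∧
            (z + (u : ℤ)) / 2 ^ i ≠ (x j + u) / 2 ^ i then (1 : ℝ) else 0 := by
        intro u _
        by_cases hz : ∃ z : Site d, blk i (fun _ => (u : ℤ)) z ≠ blk i (fun _ => (u : ℤ)) x ∧
            ‖emb z - emb x‖ ≤ r
        · rw [if_pos hz]
          obtain ⟨z, hz1, hz2⟩ := hz
          obtain ⟨j, hj⟩ := Function.ne_iff.1 hz1
          have h3 : |(z j : ℝ) - x j| ≤ r := by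
            have := (PiLp.norm_apply_le (emb z - emb x) j).trans hz2
            simpa [emb, Real.norm_eq_abs] using this
          have h4 : |z j - x j| ≤ ((⌊r⌋₊ : ℕ) : ℤ) := by
            rw [Int.natCast_floor_eq_floor hr]
            rw [Int.le_floor]
            push_cast
            exact h3
          refine le_trans (le_of_eq ?_) (Finset.single_le_sum (a := j) (f := fun j : Fin d =>
            if ∃ z : ℤ, |z - x j| ≤ (⌊r⌋₊ : ℕ) ∧
            (z + (u : ℤ)) / 2 ^ i ≠ (x j + u) / 2 ^ i then (1 : ℝ) else 0)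
            (fun j _ => by split_ifs <;> norm_num) (Finset.mem_univ j))
          beta_reduce
          rw [if_pos ⟨z j, h4, hj⟩]
        · rw [if_neg hz]
          exact Finset.sum_nonneg fun j _ => by split_ifs <;> norm_num
      refine (Finset.sum_le_sum h2).trans ?_
      rw [Finset.sum_comm]
      have h5 : ∀ j ∈ (Finset.univ : Finset (Fin d)), (∑ u ∈ Finset.range (2 ^ M),
          if ∃ z : ℤ, |z - x j| ≤ (⌊r⌋₊ : ℕ) ∧ (z + (u : ℤ)) / 2 ^ i ≠ (x j + u) / 2 ^ i
            then (1 : ℝ) else 0) ≤ 2 * r * 2 ^ (M - i) := by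
        intro j _
        rw [Finset.sum_boole]
        have h6 : ((((Finset.range (2 ^ M)).filter fun u : ℕ => ∃ z : ℤ, |z - x j| ≤ (⌊r⌋₊ : ℕ) ∧
          (z + u) / 2 ^ i ≠ (x j + u) / 2 ^ i).card : ℕ) : ℝ) ≤
            ((2 * ⌊r⌋₊ * 2 ^ (M - i) : ℕ) : ℝ) := by
          exact_mod_cast cnt94 ⌊r⌋₊ hi (x j)
        refine h6.trans ?_
        push_cast
        have h7 := Nat.floor_le hr
        have h8 : (0 : ℝ) < 2 ^ (M - i) := by positivity
        nlinarith
      refine (Finset.sum_le_sum h5).trans (le_of_eq ?_)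
      rw [Finset.sum_const, Finset.card_univ, Fintype.card_fin, nsmul_eq_mul]
      have h9 : (2 : ℝ) ^ M = 2 ^ i * 2 ^ (M - i) := by
        rw [← pow_add, Nat.add_sub_cancel' hi]
      rw [h9]
      have h10 : (2 : ℝ) ^ i ≠ 0 := by positivity
      field_simp
    calc ∑ u ∈ Finset.range (2 ^ M), Nb ρ β h n t i (fun _ => (u : ℤ)) r
        = ∫ η, ∑ u ∈ Finset.range (2 ^ M), pe β h η (fun s : Fin n → Step d =>
          if ∃ z : Site d, blk i (fun _ => (u : ℤ)) z ≠ blk i (fun _ => (u : ℤ)) (pos s t) ∧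
            ‖emb z - emb (pos s t)‖ ≤ r then (1 : ℝ) else 0) ∂(law d ρ) := by
          rw [integral_finset_sum _ fun u _ => integrable_pe_fun73 hd β h _]
          rfl
      _ ≤ ∫ _η : Env d, (2 : ℝ) ^ M * (2 * d * r / 2 ^ i) ∂(law d ρ) := by
          refine integral_mono (integrable_finset_sum _ fun u _ => integrable_pe_fun73 hd β h _)
            (integrable_const _) fun η => ?_
          beta_reduce
          rw [← pe_sum73]
          refine (pe_mono73 hd β h η h1).trans (le_of_eq ?_)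
          exact pe_const73 hd β h η _
      _ = _ := by simp
  -- the average
  have hne : (Finset.range (2 ^ M)).Nonempty := ⟨0, by simp⟩
  obtain ⟨u, -, hu⟩ := Finset.exists_le_of_sum_le (s := Finset.range (2 ^ M))
    (f := fun u : ℕ => ∑ s ∈ S, w s * Nb ρ β h n t (lev s) (fun _ => (u : ℤ)) (r s))
    (g := fun _ => ∑ s ∈ S, w s * (2 * d * r s / 2 ^ lev s)) hne (by
      rw [Finset.sum_comm, Finset.sum_const, Finset.card_range, nsmul_eq_mul, Finset.mul_sum]
      refine Finset.sum_le_sum fun s hs => ?_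
      rw [← Finset.mul_sum]
      refine (mul_le_mul_of_nonneg_left (key (lev s) (r s) (hle s hs) (hr s hs))
        (hw s hs)).trans (le_of_eq ?_)
      push_cast
      ring)
  exact ⟨fun _ => (u : ℤ), hu⟩

end Pool.Agent.W_7d29a1_NS
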