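import Pool.Agent.W_7d29a1_NS.Nd17

/-!
Theorem NS for an arbitrary probability space.
-/

namespace Pool.Agent.W_7d29a1_NS

open MeasureTheory ProbabilityTheory Filter Topology Pool.Agent.W_MP_7d29a1_pr
  Pool.Agent.W_7d29a1_h46 Pool.Agent.W_7d29a1_h46u Pool.Agent.W_7d29a1_D2.B35
  Pool.Agent.W_7d29a1_Q29 Pool.Agent.W_7d29a1_S90

variable {Ω : Type*} [MeasurableSpace Ω] {μ : Measure Ω} [IsProbabilityMeasure μ] {d : ℕ}
  {ρ : Measure ℝ} [IsProbabilityMeasure ρ] {ω : ℕ × Site d → Ω → ℝ} {β : ℝ}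

/-- A window which is not diffusive. -/
lemma win17 (hω : IID μ ρ ω) (hd : 0 < d) {h : Vec d} {n : ℕ} {w R : ℝ}
    (hW : ¬ Wd ρ β h n w R) :
    ∃ τ t : ℕ, τ < t ∧ t ≤ n ∧ w ≤ (t : ℝ) - τ ∧ ∀ m : Vec d, R * ((t : ℝ) - τ) <
      ∫ x, ∑ s : Fin n → Step d, PolT β h (fun p => ω p x) {s} *
        ‖emb (pos s t) - emb (pos s τ) - m‖ ^ 2 ∂μ := by
  unfold Wd at hW
  push Not at hW
  obtain ⟨τ, t, h1, h2, h3, h4⟩ := hW
  refine ⟨τ, t, h1, h2, h3, fun m => ?_⟩
  have h5 := tr17 (β := β) hd hω h (fun s : Fin n → Step d => inc τ t m s ^ 2)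
  unfold inc at h5
  rw [h5]
  exact h4 m

/-- The windows at the problem level. -/
lemma Wd_of17 (hω : IID μ ρ ω) (hd : 0 < d) {h : Vec d} {n : ℕ} {w R : ℝ}
    (hW : ∀ τ t : ℕ, τ < t → t ≤ n → w ≤ (t : ℝ) - τ → ∃ m : Vec d,
      ∫ x, ∑ s : Fin n → Step d, PolT β h (fun p => ω p x) {s} *
        ‖emb (pos s t) - emb (pos s τ) - m‖ ^ 2 ∂μ ≤ R * ((t : ℝ) - τ)) :
    Wd ρ β h n w R := by
  by_contra hcon
  obtain ⟨τ, t, h1, h2, h3, h4⟩ := win17 hω hd hcon
  obtain ⟨m, hm⟩ := hW τ t h1 h2 h3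
  exact absurd hm (not_le.2 (h4 m))

open Classical in
/-- **Replicas in dimension two, general form**: for every tilt, all `n`, all times `t ≤ n` and all
`w ≤ t`, either a window of length at least `w` is not diffusive, or two replicas in the same
environment are at distance at most `C √t (w / t) ^ c` at the time `t`. -/
theorem topN17 (hω : IID μ ρ ω) (hG : NsN ρ β) (hd : d = 2) {R κ : ℝ} (hκ : 0 < κ) :
    ∃ c C : ℝ, 0 < c ∧ 0 < C ∧ ∀ (h : Vec d) (n t : ℕ) (w : ℝ), 1 ≤ w → w ≤ t → t ≤ n →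
      (∃ τ' t' : ℕ, τ' < t' ∧ t' ≤ n ∧ w ≤ (t' : ℝ) - τ' ∧ ∀ m : Vec d,
        R * ((t' : ℝ) - τ') < ∫ x, ∑ s : Fin n → Step d, PolT β h (fun p => ω p x) {s} *
            ‖emb (pos s t') - emb (pos s τ') - m‖ ^ 2 ∂μ) ∨
      ∫ x, ∑ s : Fin n → Step d, ∑ s' : Fin n → Step d, PolT β h (fun p => ω p x) {s} *
        PolT β h (fun p => ω p x) {s'} *
          (if C * Real.sqrt t * (w / t) ^ c < ‖emb (pos s t) - emb (pos s' t)‖ then (1 : ℝ)
            else 0) ∂μ < κ := by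
  subst hd
  obtain ⟨c, C, hc, hC, hN⟩ := hG R κ hκ
  refine ⟨c, C, hc, hC, fun h n t w h1 h2 h3 => ?_⟩
  by_cases hW : Wd ρ β h n w R
  · right
    rw [rp17 hω h]
    exact hN h n t w h1 h2 h3 hW
  · exact Or.inl (win17 hω (by norm_num) hW)

open Classical in
/-- **No separated replicas in dimension two**: for every tilt, either a macroscopic window is not
diffusive, or two replicas in the same environment are at distance `o(√n)` at all times. -/
theorem topNd17 (hω : IID μ ρ ω) (hG : NsN ρ β) (hd : d = 2) {R r κ : ℝ} (hr : 0 < r)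
    (hκ : 0 < κ) :
    ∃ ε : ℝ, 0 < ε ∧ ∀ᶠ n : ℕ in atTop, ∀ h : Vec d,
      (∃ τ t : ℕ, τ < t ∧ t ≤ n ∧ ε * n ≤ (t : ℝ) - τ ∧ ∀ m : Vec d,
        R * ((t : ℝ) - τ) < ∫ x, ∑ s : Fin n → Step d, PolT β h (fun p => ω p x) {s} *
            ‖emb (pos s t) - emb (pos s τ) - m‖ ^ 2 ∂μ) ∨
      ∀ t : ℕ, t ≤ n →
        ∫ x, ∑ s : Fin n → Step d, ∑ s' : Fin n → Step d, PolT β h (fun p => ω p x) {s} *
          PolT β h (fun p => ω p x) {s'} *
            (if r * Real.sqrt n < ‖emb (pos s t) - emb (pos s' t)‖ then (1 : ℝ) else 0) ∂μ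
              < κ := by
  subst hd
  obtain ⟨ε, hε, N₀, hN⟩ := ndP17 hG R r κ hr hκ
  refine ⟨ε, hε, ?_⟩
  filter_upwards [eventually_ge_atTop N₀] with n hn
  intro h
  by_cases hW : Wd ρ β h n (ε * n) R
  · right
    intro t ht
    rw [rp17 hω h]
    exact hN h n hn hW t ht
  · exact Or.inl (win17 hω (by norm_num) hW)

open Classical in
/-- **Replicas in dimension two**: for every tilt, either a window of length at least `n ^ α` is
not diffusive, or two replicas in the same environment are at distance at most `n ^ (1/2 - c)` at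
all times. -/
theorem topNs17 (hω : IID μ ρ ω) (hG : NsN ρ β) (hd : d = 2) {α R κ : ℝ} (hα : α < 1)
    (hκ : 0 < κ) :
    ∃ c : ℝ, 0 < c ∧ ∀ᶠ n : ℕ in atTop, ∀ h : Vec d,
      (∃ τ t : ℕ, τ < t ∧ t ≤ n ∧ (n : ℝ) ^ α ≤ (t : ℝ) - τ ∧ ∀ m : Vec d,
        R * ((t : ℝ) - τ) < ∫ x, ∑ s : Fin n → Step d, PolT β h (fun p => ω p x) {s} *
            ‖emb (pos s t) - emb (pos s τ) - m‖ ^ 2 ∂μ) ∨
      ∀ t : ℕ, t ≤ n →
        ∫ x, ∑ s : Fin n → Step d, ∑ s' : Fin n → Step d, PolT β h (fun p => ω p x) {s} *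
          PolT β h (fun p => ω p x) {s'} *
            (if (n : ℝ) ^ ((1 : ℝ) / 2 - c) < ‖emb (pos s t) - emb (pos s' t)‖ then (1 : ℝ)
              else 0) ∂μ < κ := by
  subst hd
  obtain ⟨c, hc, N₀, hN⟩ := nsP17 hG α R κ hα hκ
  refine ⟨c, hc, ?_⟩
  filter_upwards [eventually_ge_atTop N₀] with n hn
  intro h
  by_cases hW : W2 ρ β h n α R
  · right
    intro t ht
    rw [rp17 hω h]
    exact hN h n hn hW t ht
  · exact Or.inl (win17 (w := (n : ℝ) ^ α) hω (by norm_num) hW)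

open Classical in
/-- **Diffusive polymers in dimension two** (one tilt, for example `h = 0`): if the macroscopic
windows are diffusive, the distance of two replicas in the same environment is `o(√n)` in
probability. -/
theorem topNt17 (hω : IID μ ρ ω) (hG : NsN ρ β) (hd : d = 2) (h : Vec d) {R : ℝ}
    (hW : ∀ ε : ℝ, 0 < ε → ∀ᶠ n : ℕ in atTop, ∀ τ t : ℕ, τ < t → t ≤ n →
      ε * n ≤ (t : ℝ) - τ → ∃ m : Vec d,
        ∫ x, ∑ s : Fin n → Step d, PolT β h (fun p => ω p x) {s} *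
          ‖emb (pos s t) - emb (pos s τ) - m‖ ^ 2 ∂μ ≤ R * ((t : ℝ) - τ)) {r : ℝ} (hr : 0 < r) :
    Tendsto (fun n : ℕ => ∫ x, ∑ s : Fin n → Step d, ∑ s' : Fin n → Step d,
      PolT β h (fun p => ω p x) {s} * PolT β h (fun p => ω p x) {s'} *
        (if r * Real.sqrt n < ‖emb (pos s n) - emb (pos s' n)‖ then (1 : ℝ) else 0) ∂μ)
      atTop (𝓝 0) := by
  rw [Metric.tendsto_atTop]
  intro κ hκ
  obtain ⟨ε, hε, hN⟩ := topNd17 (R := R) hω hG hd hr hκ
  obtain ⟨N₁, hN₁⟩ := eventually_atTop.1 (hN.and (hW ε hε))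
  refine ⟨N₁, fun n hn => ?_⟩
  obtain ⟨h1, h2⟩ := hN₁ n hn
  have h3 : ∀ x : Ω, 0 ≤ ∑ s : Fin n → Step d, ∑ s' : Fin n → Step d,
      PolT β h (fun p => ω p x) {s} * PolT β h (fun p => ω p x) {s'} *
        (if r * Real.sqrt n < ‖emb (pos s n) - emb (pos s' n)‖ then (1 : ℝ) else 0) := by
    intro x
    refine Finset.sum_nonneg fun s _ => Finset.sum_nonneg fun s' _ => ?_
    rw [PolT_single17, PolT_single17]
    refine mul_nonneg (mul_nonneg (pw17_nonneg β h _ s) (pw17_nonneg β h _ s')) ?_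
    split_ifs
    · exact zero_le_one
    · exact le_rfl
  rw [Real.dist_eq, sub_zero, abs_of_nonneg (integral_nonneg h3)]
  rcases h1 h with h4 | h4
  · obtain ⟨τ, t, e1, e2, e3, e4⟩ := h4
    obtain ⟨m, hm⟩ := h2 τ t e1 e2 e3
    exact absurd hm (not_le.2 (e4 m))
  · exact h4 n le_rfl

open Classical in
/-- The replica probability as a mean of polymer probabilities. -/
lemma rq17 (hω : IID μ ρ ω) (h : Vec d) (n t : ℕ) (r : ℝ) :
    ∫ x, ∑ s : Fin n → Step d, PolT β h (fun p => ω p x) {s} *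
      PolT β h (fun p => ω p x) {s' : Fin n → Step d | r < ‖emb (pos s t) - emb (pos s' t)‖} ∂μ =
      Rp ρ β h n t r := by
  rw [← rp17 hω h n t r]
  refine integral_congr_ae (ae_of_all _ fun x => ?_)
  simp only
  refine Finset.sum_congr rfl fun s _ => ?_
  have h1 : PolT β h (fun p => ω p x)
      {s' : Fin n → Step d | r < ‖emb (pos s t) - emb (pos s' t)‖} =
      ∑ s' : Fin n → Step d, PolT β h (fun p => ω p x) {s'} *
        (if r < ‖emb (pos s t) - emb (pos s' t)‖ then (1 : ℝ) else 0) := by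
    have h2 : ∀ s' : Fin n → Step d, PolT β h (fun p => ω p x) {s'} *
        (if r < ‖emb (pos s t) - emb (pos s' t)‖ then (1 : ℝ) else 0) =
        (if r < ‖emb (pos s t) - emb (pos s' t)‖ then wgt β h (fun p => ω p x) s' else 0) /
          Z β h (fun p => ω p x) n := by
      intro s'
      rw [PolT_single17]
      split_ifs <;> ring
    simp only [h2]
    rw [← Finset.sum_div]
    unfold PolT ZT
    rfl
  rw [h1, Finset.mul_sum]
  exact Finset.sum_congr rfl fun s' _ => by ring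

/-- **Replicas in dimension two**, short form: if all windows of length at least `w` of the polymer
of length `n` are diffusive, two replicas in the same environment are at distance at most
`C √t (w / t) ^ c` at the time `t`. -/
theorem topNq17 (hω : IID μ ρ ω) (hG : NsN ρ β) (hd : d = 2) (R : ℝ) {κ : ℝ} (hκ : 0 < κ) :
    ∃ c C : ℝ, 0 < c ∧ ∀ (h : Vec d) (n t w : ℕ), 0 < w → w ≤ t → t ≤ n →
      (∀ i j : ℕ, i + w ≤ j → j ≤ n → ∃ m : Vec d,
        ∫ x, ∑ s : Fin n → Step d, PolT β h (fun p => ω p x) {s} *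
          ‖emb (pos s j) - emb (pos s i) - m‖ ^ 2 ∂μ ≤ R * (j - i)) →
      ∫ x, ∑ s : Fin n → Step d, PolT β h (fun p => ω p x) {s} *
        PolT β h (fun p => ω p x) {s' : Fin n → Step d |
          C * Real.sqrt t * ((w : ℝ) / t) ^ c < ‖emb (pos s t) - emb (pos s' t)‖} ∂μ < κ := by
  subst hd
  obtain ⟨c, C, hc, _, hN⟩ := hG R κ hκ
  refine ⟨c, C, hc, fun h n t w h1 h2 h3 h4 => ?_⟩
  rw [rq17 hω h]
  refine hN h n t w (by exact_mod_cast h1) (by exact_mod_cast h2) h3 ?_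
  refine Wd_of17 hω (by norm_num) fun i j e1 e2 e3 => h4 i j ?_ e2
  have : (i : ℝ) + w ≤ j := by linarith
  exact_mod_cast this

/-- **No separated replicas in dimension two**, short form: if all macroscopic windows are
diffusive, two replicas in the same environment are at distance `o(√n)` at all times. -/
theorem topNr17 (hω : IID μ ρ ω) (hG : NsN ρ β) (hd : d = 2) (R : ℝ) {r κ : ℝ} (hr : 0 < r)
    (hκ : 0 < κ) :
    ∃ ε : ℝ, 0 < ε ∧ ∀ᶠ n : ℕ in atTop, ∀ h : Vec d,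
      (∀ i j : ℕ, i + ε * n ≤ j → j ≤ n → ∃ m : Vec d,
        ∫ x, ∑ s : Fin n → Step d, PolT β h (fun p => ω p x) {s} *
          ‖emb (pos s j) - emb (pos s i) - m‖ ^ 2 ∂μ ≤ R * (j - i)) → ∀ t : ℕ, t ≤ n →
      ∫ x, ∑ s : Fin n → Step d, PolT β h (fun p => ω p x) {s} *
        PolT β h (fun p => ω p x) {s' : Fin n → Step d |
          r * Real.sqrt n < ‖emb (pos s t) - emb (pos s' t)‖} ∂μ < κ := by
  subst hd
  obtain ⟨ε, hε, N₀, hN⟩ := ndP17 hG R r κ hr hκ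
  refine ⟨ε, hε, ?_⟩
  filter_upwards [eventually_ge_atTop N₀] with n hn
  intro h h4 t ht
  rw [rq17 hω h]
  refine hN h n hn ?_ t ht
  exact Wd_of17 hω (by norm_num) fun i j e1 e2 e3 => h4 i j (by linarith) e2

end Pool.Agent.W_7d29a1_NS
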