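import Pool.Agent.W_7d29a1_NS.NvD72
import Pool.Agent.W_7d29a1_S90.TrDI63

/-!
Theorem NV in the letters of the problem.
-/

namespace Pool.Agent.W_7d29a1_NS

open MeasureTheory ProbabilityTheory Filter Topology Pool.Agent.W_MP_7d29a1_pr
  Pool.Agent.W_7d29a1_h46 Pool.Agent.W_7d29a1_h46u Pool.Agent.W_7d29a1_D2.B35
  Pool.Agent.W_7d29a1_Q29 Pool.Agent.W_7d29a1_S90

variable {ρ : Measure ℝ} [IsProbabilityMeasure ρ]

/-- The mean of a function of the walk, in the letters of the problem. -/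
lemma trf72 {Ω : Type*} [MeasurableSpace Ω] {μ : Measure Ω} [IsProbabilityMeasure μ]
    {β : ℝ} {ω : ℕ × Site 2 → Ω → ℝ} (hω : IID μ ρ ω) (h : Vec 2) {n : ℕ}
    (f : (Fin n → Step 2) → ℝ) :
    ∫ x, ∑ s : Fin n → Step 2, PolT β h (fun p => ω p x) {s} * f s ∂μ =
      ∫ η, pe β h η f ∂(law 2 ρ) := by
  have h1 := LawU_integral (mp_env hω)
    (integrable_pe_fun73 (ρ := ρ) (d := 2) (by norm_num) β h f).aestronglyMeasurable
  rw [← h1]
  refine integral_congr_ae (Eventually.of_forall fun x => ?_)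
  exact (pe_eq63 β h _ _).symm

/-- **Theorem NV** in the letters of the problem: in dimension two, for all large `n`, uniformly in
the tilt `h` and the direction `e`, the set of the mean velocities (in the direction `e`) of the
tilts `h + s e`, `0 ≤ s ≤ l`, at which all windows of length at least `ε n` are diffusive (mean
square at most `R` times the length) has Lebesgue measure at most `δ`. -/
theorem topNv72 {Ω : Type*} [MeasurableSpace Ω] {μ : Measure Ω} [IsProbabilityMeasure μ] {d : ℕ}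
    {β : ℝ} {ω : ℕ × Site d → Ω → ℝ} (hω : IID μ ρ ω) (hρ : EM ρ)
    (hnc : ∀ c : ℝ, ρ {c} ≠ 1) (hβ : 0 < β) (hd : d = 2) :
    ∀ R l δ : ℝ, 0 < l → 0 < δ → ∃ ε : ℝ, 0 < ε ∧ ∀ᶠ n : ℕ in atTop, ∀ h e : Vec d, ‖e‖ = 1 →
      volume {v : ℝ | ∃ s ∈ Set.Icc 0 l,
        v * n = ∫ x, ∑ w : Fin n → Step d, PolT β (h + s • e) (fun p => ω p x) {w} *
          inner ℝ e (emb (pos w n)) ∂μ ∧
        ∀ i j : ℕ, i < j → j ≤ n → ε * n ≤ (j : ℝ) - i → ∃ m : Vec d,
          ∫ x, ∑ w : Fin n → Step d, PolT β (h + s • e) (fun p => ω p x) {w} *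
            ‖emb (pos w j) - emb (pos w i) - m‖ ^ 2 ∂μ ≤ R * ((j : ℝ) - i)} ≤
        ENNReal.ofReal δ := by
  subst hd
  intro R l δ hl hδ
  obtain ⟨ε, hε, N₀, hN⟩ := nv72 hρ hnc hβ R l δ hl hδ
  refine ⟨ε, hε, eventually_atTop.2 ⟨N₀ + 1, fun n hn h e he => ?_⟩⟩
  have hn0 : (0 : ℝ) < n := by exact_mod_cast (by omega : 0 < n)
  refine le_trans (measure_mono ?_) (hN h e n he (by omega))
  rintro v ⟨s, hs, hv, hW⟩
  refine ⟨s, ⟨hs, ?_⟩, ?_⟩
  · intro i j hij hjn hlen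
    obtain ⟨m, hm⟩ := hW i j hij hjn hlen
    rw [trf72 hω] at hm
    exact ⟨m, hm⟩
  · show Ft ρ β (h + s • e) e n n / n = v
    rw [trf72 hω] at hv
    rw [div_eq_iff hn0.ne', hv]
    rfl

end Pool.Agent.W_7d29a1_NS
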