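import Pool.Agent.W_7d29a1_NS.DefsN72
import Pool.Agent.W_7d29a1_S90.StM86
import Pool.Agent.W_7d29a1_S90.RpT73

/-!
Leaf TYA of Theorem NS: typical concentration, the general inequality.
-/

namespace Pool.Agent.W_7d29a1_NS

open MeasureTheory ProbabilityTheory Filter Topology Pool.Agent.W_MP_7d29a1_pr
  Pool.Agent.W_7d29a1_h46 Pool.Agent.W_7d29a1_h46u Pool.Agent.W_7d29a1_D2.B35
  Pool.Agent.W_7d29a1_Q29 Pool.Agent.W_7d29a1_S90

variable {d : ℕ} {ρ : Measure ℝ}

lemma qb_meas18 (β : ℝ) (h : Vec d) (n t i : ℕ) (o b : Site d) :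
    Measurable (qb β h n t i o b) := by
  classical
  unfold qb
  exact measurable_pe73 β h
    (f := fun _ s => if blk i o (pos s t) = b then (1 : ℝ) else 0) fun _ => measurable_const

lemma nb_meas18 [IsProbabilityMeasure ρ] (β : ℝ) (h : Vec d) (n t τ i : ℕ) (o b : Site d) :
    Measurable (nb ρ β h n t τ i o b) := measurable_cE (qb_meas18 β h n t i o b) _

lemma hi_meas18 [IsProbabilityMeasure ρ] (β : ℝ) (h : Vec d) (n t : ℕ) (a : ℝ) (τ i : ℕ)
    (o b : Site d) : MeasurableSet {η : Env d | Hi ρ β h n t a τ i o b η} := by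
  have h1 : Measurable fun ξ : Env d => Real.sqrt (nb ρ β h n t τ i o b ξ) :=
    (nb_meas18 β h n t τ i o b).sqrt
  exact measurableSet_le (measurable_cE h1 _)
    ((nb_meas18 β h n t (τ - 1) i o b).sqrt.const_mul _)

lemma hi_dep18 (β : ℝ) (h : Vec d) (n t : ℕ) (a : ℝ) (τ i : ℕ) (o b : Site d) {η η' : Env d}
    (hη : ∀ p ∈ Pa d (τ - 1), η p = η' p) :
    Hi ρ β h n t a τ i o b η ↔ Hi ρ β h n t a τ i o b η' := by
  unfold Hi nb
  rw [cE_dep (ρ := ρ) (Pa d (τ - 1)) (fun ξ => Real.sqrt (cE ρ (Pa d τ) (qb β h n t i o b) ξ)) hη,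
    cE_dep (ρ := ρ) (Pa d (τ - 1)) (qb β h n t i o b) hη]

lemma nh_meas18 [IsProbabilityMeasure ρ] (β : ℝ) (h : Vec d) (n t : ℕ) (a : ℕ → ℝ) (lev : ℕ → ℕ)
    (o : Site d) (τ₀ τ : ℕ) (x : Site d) : Measurable (Nh ρ β h n t a lev o τ₀ τ x) := by
  classical
  unfold Nh
  exact Finset.measurable_sum _ fun σ _ =>
    Measurable.ite (hi_meas18 β h n t (a σ) σ (lev σ) o _) measurable_const measurable_const

lemma nh_nonneg18 (β : ℝ) (h : Vec d) (n t : ℕ) {a : ℕ → ℝ} (ha : ∀ σ, 0 ≤ a σ) (lev : ℕ → ℕ)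
    (o : Site d) (τ₀ τ : ℕ) (x : Site d) (η : Env d) : 0 ≤ Nh ρ β h n t a lev o τ₀ τ x η := by
  classical
  unfold Nh
  refine Finset.sum_nonneg fun σ _ => ?_
  split_ifs
  · exact ha σ
  · exact le_rfl

lemma nh_le18 (β : ℝ) (h : Vec d) (n t : ℕ) {a : ℕ → ℝ} (ha : ∀ σ, 0 ≤ a σ) (lev : ℕ → ℕ)
    (o : Site d) (τ₀ τ : ℕ) (x : Site d) (η : Env d) :
    Nh ρ β h n t a lev o τ₀ τ x η ≤ ∑ σ ∈ Finset.Ioc τ₀ τ, a σ := by
  classical
  unfold Nh
  refine Finset.sum_le_sum fun σ _ => ?_
  split_ifs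
  · exact le_rfl
  · exact ha σ

lemma nh_dep18 (β : ℝ) (h : Vec d) (n t : ℕ) (a : ℕ → ℝ) (lev : ℕ → ℕ)
    (o : Site d) (τ₀ : ℕ) (x : Site d) :
    DependsOn (Nh ρ β h n t a lev o τ₀ (t - 1) x) (Pa d (t - 1)) := by
  classical
  intro η η' hη
  unfold Nh
  refine Finset.sum_congr rfl fun σ hσ => ?_
  have h1 : Hi ρ β h n t (a σ) σ (lev σ) o (blk (lev σ) o x) η ↔
      Hi ρ β h n t (a σ) σ (lev σ) o (blk (lev σ) o x) η' :=
    hi_dep18 β h n t (a σ) σ (lev σ) o _ fun p hp => hη p (by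
      have h2 : p.1 ≤ σ - 1 := hp
      have h3 := (Finset.mem_Ioc.1 hσ).2
      show p.1 ≤ t - 1
      omega)
  by_cases h2 : Hi ρ β h n t (a σ) σ (lev σ) o (blk (lev σ) o x) η
  · rw [if_pos h2, if_pos (h1.1 h2)]
  · rw [if_neg h2, if_neg fun h3 => h2 (h1.2 h3)]

/-- Leaf TYA. -/
theorem tyaP18 [IsProbabilityMeasure ρ] (hd : 0 < d) (β : ℝ) (hC : ChnP d ρ β) : TyaP d ρ β := by
  classical
  intro h n t τ₀ hτt htn a lev o U D ε ha hlev hU hblk hW hε
  set W : ℝ := ∑ σ ∈ Finset.Ioc τ₀ (t - 1), a σ with hWdef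
  set S : Set (ℕ × Site d) := Pa d (t - 1) with hS
  set ν : Site d → Env d → ℝ := fun x η => cE ρ S (Qt β h n t x) η with hν
  set N : Site d → Env d → ℝ := fun x η => Nh ρ β h n t a lev o τ₀ (t - 1) x η with hN
  have hQ0 : ∀ (y : Site d) (η : Env d), 0 ≤ Qt β h n t y η := fun y η =>
    Qt_nonneg39 β h n t y η
  have hQ1 : ∀ (y : Site d) (η : Env d), Qt β h n t y η ≤ 1 := fun y η => Qt_le_one39 β h htn y η
  have hQm : ∀ y : Site d, Measurable (Qt β h n t y) := fun y => measurable_Qt39 β h n t y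
  have hν0 : ∀ x η, 0 ≤ ν x η := fun x η => cE_nonneg (fun η => hQ0 x η) S η
  have hν1 : ∀ x η, ν x η ≤ 1 := fun x η =>
    cE_le (hQm x) (fun η => hQ0 x η) (fun η => hQ1 x η) S η
  have hνm : ∀ x, Measurable (ν x) := fun x => measurable_cE (hQm x) S
  have hNm : ∀ x, Measurable (N x) := fun x => nh_meas18 β h n t a lev o τ₀ (t - 1) x
  have hN1 : ∀ x η, N x η ≤ W := fun x η => nh_le18 β h n t ha lev o τ₀ (t - 1) x η
  -- the three indicators
  set A : (Fin n → Step d) → ℝ := fun s => if pos s t ∉ U then (1 : ℝ) else 0 with hA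
  set L : ℕ → Env d → (Fin n → Step d) → (Fin n → Step d) → ℝ := fun σ η s s' =>
    if ¬ Hi ρ β h n t (a σ) σ (lev σ) o (blk (lev σ) o (pos s t)) η ∧
      blk (lev σ) o (pos s' t) ≠ blk (lev σ) o (pos s t) then (1 : ℝ) else 0 with hL
  set g : Site d → Env d → ℝ := fun x η => if ν x η < ε ∧ W / 2 ≤ N x η then (1 : ℝ) else 0
    with hg
  set B : Env d → (Fin n → Step d) → ℝ := fun η s => if pos s t ∈ U then g (pos s t) η else 0
    with hB
  have hg0 : ∀ x η, 0 ≤ g x η := fun x η => by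
    show (0 : ℝ) ≤ if ν x η < ε ∧ W / 2 ≤ N x η then (1 : ℝ) else 0
    split_ifs <;> norm_num
  have hg1 : ∀ x η, g x η ≤ 1 := fun x η => by
    show (if ν x η < ε ∧ W / 2 ≤ N x η then (1 : ℝ) else 0) ≤ 1
    split_ifs <;> norm_num
  have hgm : ∀ x, Measurable (g x) := fun x =>
    Measurable.ite ((measurableSet_lt (hνm x) measurable_const).inter
      (measurableSet_le measurable_const (hNm x))) measurable_const measurable_const
  have hgS : ∀ x, DependsOn (g x) S := fun x η η' hη => by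
    show (if ν x η < ε ∧ W / 2 ≤ N x η then (1 : ℝ) else 0) =
      if ν x η' < ε ∧ W / 2 ≤ N x η' then (1 : ℝ) else 0
    have h1 : ν x η = ν x η' := cE_dep (ρ := ρ) S (Qt β h n t x) hη
    have h2 : N x η = N x η' := nh_dep18 β h n t a lev o τ₀ x hη
    rw [h1, h2]
  have hA0 : ∀ s, 0 ≤ A s ∧ A s ≤ 1 := fun s => by
    show (0 : ℝ) ≤ (if pos s t ∉ U then (1 : ℝ) else 0) ∧
      (if pos s t ∉ U then (1 : ℝ) else 0) ≤ 1
    split_ifs <;> norm_num
  have hL0 : ∀ σ η s s', 0 ≤ L σ η s s' ∧ L σ η s s' ≤ 1 := fun σ η s s' => by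
    show (0 : ℝ) ≤ (if ¬ Hi ρ β h n t (a σ) σ (lev σ) o (blk (lev σ) o (pos s t)) η ∧
      blk (lev σ) o (pos s' t) ≠ blk (lev σ) o (pos s t) then (1 : ℝ) else 0) ∧
      (if ¬ Hi ρ β h n t (a σ) σ (lev σ) o (blk (lev σ) o (pos s t)) η ∧
      blk (lev σ) o (pos s' t) ≠ blk (lev σ) o (pos s t) then (1 : ℝ) else 0) ≤ 1
    split_ifs <;> norm_num
  have hB0 : ∀ η s, 0 ≤ B η s ∧ B η s ≤ 1 := fun η s => by
    show (0 : ℝ) ≤ (if pos s t ∈ U then g (pos s t) η else 0) ∧
      (if pos s t ∈ U then g (pos s t) η else 0) ≤ 1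
    split_ifs
    · exact ⟨hg0 _ _, hg1 _ _⟩
    · norm_num
  -- the pointwise inequality
  have hpt : ∀ (η : Env d) (s s' : Fin n → Step d),
      (if D < ‖emb (pos s t) - emb (pos s' t)‖ ∧ ν (pos s t) η < ε then (1 : ℝ) else 0) ≤
        (A s + 2 / W * ∑ σ ∈ Finset.Ioc τ₀ (t - 1), a σ * L σ η s s') + B η s := by
    intro η s s'
    have hsum0 : 0 ≤ ∑ σ ∈ Finset.Ioc τ₀ (t - 1), a σ * L σ η s s' :=
      Finset.sum_nonneg fun σ _ => mul_nonneg (ha σ) (hL0 σ η s s').1
    have hs1 : 0 ≤ 2 / W * ∑ σ ∈ Finset.Ioc τ₀ (t - 1), a σ * L σ η s s' :=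
      mul_nonneg (by positivity) hsum0
    by_cases hc : D < ‖emb (pos s t) - emb (pos s' t)‖ ∧ ν (pos s t) η < ε
    · rw [if_pos hc]
      by_cases hUs : pos s t ∈ U
      · by_cases hNs : W / 2 ≤ N (pos s t) η
        · have hb : B η s = 1 := by
            show (if pos s t ∈ U then (if ν (pos s t) η < ε ∧ W / 2 ≤ N (pos s t) η then (1 : ℝ)
              else 0) else 0) = 1
            rw [if_pos hUs, if_pos ⟨hc.2, hNs⟩]
          rw [hb]
          linarith [(hA0 s).1]
        · have h1 : W - N (pos s t) η ≤ ∑ σ ∈ Finset.Ioc τ₀ (t - 1), a σ * L σ η s s' := by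
            have h2 : N (pos s t) η = ∑ σ ∈ Finset.Ioc τ₀ (t - 1),
              if Hi ρ β h n t (a σ) σ (lev σ) o (blk (lev σ) o (pos s t)) η then a σ else 0 :=
              rfl
            rw [h2, hWdef, ← Finset.sum_sub_distrib]
            refine Finset.sum_le_sum fun σ hσ => ?_
            by_cases h3 : Hi ρ β h n t (a σ) σ (lev σ) o (blk (lev σ) o (pos s t)) η
            · rw [if_pos h3, sub_self]
              exact mul_nonneg (ha σ) (hL0 σ η s s').1
            · rw [if_neg h3, sub_zero]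
              rcases (ha σ).eq_or_lt with h4 | h4
              · rw [← h4, zero_mul]
              · have h5 : blk (lev σ) o (pos s' t) ≠ blk (lev σ) o (pos s t) := by
                  intro h6
                  have h7 := hblk σ hσ h4 (pos s t) (pos s' t) h6.symm
                  linarith [hc.1]
                have h6 : L σ η s s' = 1 := if_pos ⟨h3, h5⟩
                rw [h6, mul_one]
          have h2 : W / 2 ≤ ∑ σ ∈ Finset.Ioc τ₀ (t - 1), a σ * L σ η s s' := by
            linarith [not_le.1 hNs]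
          have h3 : 1 ≤ 2 / W * ∑ σ ∈ Finset.Ioc τ₀ (t - 1), a σ * L σ η s s' := by
            have h4 := mul_le_mul_of_nonneg_left h2 (by positivity : (0 : ℝ) ≤ 2 / W)
            have h5 : 2 / W * (W / 2) = 1 := by field_simp
            linarith
          linarith [(hA0 s).1, (hB0 η s).1]
      · have h1 : A s = 1 := if_pos hUs
        rw [h1]
        linarith [(hB0 η s).1]
    · rw [if_neg hc]
      linarith [(hA0 s).1, (hB0 η s).1]
  -- measurability
  have hLm : ∀ σ s s', Measurable fun η => L σ η s s' := fun σ s s' => by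
    refine Measurable.ite ?_ measurable_const measurable_const
    by_cases h1 : blk (lev σ) o (pos s' t) ≠ blk (lev σ) o (pos s t)
    · have h2 : {η : Env d | ¬ Hi ρ β h n t (a σ) σ (lev σ) o (blk (lev σ) o (pos s t)) η ∧
          blk (lev σ) o (pos s' t) ≠ blk (lev σ) o (pos s t)} =
          {η : Env d | Hi ρ β h n t (a σ) σ (lev σ) o (blk (lev σ) o (pos s t)) η}ᶜ := by
        ext η
        simp [h1]
      rw [h2]
      exact (hi_meas18 β h n t (a σ) σ (lev σ) o _).compl
    · have h2 : {η : Env d | ¬ Hi ρ β h n t (a σ) σ (lev σ) o (blk (lev σ) o (pos s t)) η ∧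
          blk (lev σ) o (pos s' t) ≠ blk (lev σ) o (pos s t)} = ∅ := by
        ext η
        simp [not_not.1 h1]
      rw [h2]
      exact MeasurableSet.empty
  have hLi : ∀ σ, Integrable (fun η => pe2 β h η (L σ η)) (law d ρ) := fun σ => by
    unfold pe2
    exact integrable_pe73 hd β h (f := fun η s => pe β h η fun s' => L σ η s s')
      (fun s => measurable_pe73 β h (f := fun η s' => L σ η s s') fun s' => hLm σ s s')
      (C := 1) fun η s => abs_pe_le73 hd β h η fun s' => by
        rw [abs_of_nonneg (hL0 σ η s s').1]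
        exact (hL0 σ η s s').2
  have hAi : Integrable (fun η => pe β h η A) (law d ρ) :=
    integrable_pe_fun73 hd β h A
  have hBi : Integrable (fun η => pe β h η (B η)) (law d ρ) :=
    integrable_pe73 hd β h (f := B) (fun s => by
      by_cases hs : pos s t ∈ U
      · have h1 : (fun η => B η s) = g (pos s t) := funext fun η => if_pos hs
        rw [h1]
        exact hgm _
      · have h1 : (fun η => B η s) = fun _ => (0 : ℝ) := funext fun η => if_neg hs
        rw [h1]
        exact measurable_const) (C := 1) fun η s => by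
        rw [abs_of_nonneg (hB0 η s).1]
        exact (hB0 η s).2
  -- the inequality for the polymer measures
  have hpe : ∀ η : Env d, pe2 β h η (fun s s' : Fin n → Step d =>
      if D < ‖emb (pos s t) - emb (pos s' t)‖ ∧ ν (pos s t) η < ε then (1 : ℝ) else 0) ≤
      (pe β h η A + 2 / W * ∑ σ ∈ Finset.Ioc τ₀ (t - 1), a σ * pe2 β h η (L σ η)) +
        pe β h η (B η) := by
    intro η
    have h1 : ∀ s : Fin n → Step d, pe β h η (fun s' : Fin n → Step d =>
        if D < ‖emb (pos s t) - emb (pos s' t)‖ ∧ ν (pos s t) η < ε then (1 : ℝ) else 0) ≤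
        (A s + 2 / W * ∑ σ ∈ Finset.Ioc τ₀ (t - 1), a σ * pe β h η (L σ η s)) + B η s := by
      intro s
      refine (pe_mono73 hd β h η (hpt η s)).trans (le_of_eq ?_)
      rw [pe_add73, pe_add73, pe_const73 hd, pe_const73 hd, pe_mul73, pe_sum73]
      congr 3
      exact Finset.sum_congr rfl fun σ _ => pe_mul73 β h η (a σ) (L σ η s)
    refine (pe_mono73 hd β h η h1).trans (le_of_eq ?_)
    rw [pe_add73, pe_add73, pe_mul73, pe_sum73]
    congr 3
    exact Finset.sum_congr rfl fun σ _ => pe_mul73 β h η (a σ) fun s => pe β h η (L σ η s)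
  -- integrate
  have hTi : Integrable (fun η => pe2 β h η (fun s s' : Fin n → Step d =>
      if D < ‖emb (pos s t) - emb (pos s' t)‖ ∧ ν (pos s t) η < ε then (1 : ℝ) else 0))
      (law d ρ) := by
    have hm : ∀ s s' : Fin n → Step d, Measurable fun η =>
        if D < ‖emb (pos s t) - emb (pos s' t)‖ ∧ ν (pos s t) η < ε then (1 : ℝ) else 0 := by
      intro s s'
      refine Measurable.ite ?_ measurable_const measurable_const
      exact (MeasurableSet.const _).inter (measurableSet_lt (hνm _) measurable_const)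
    unfold pe2
    refine integrable_pe73 hd β h (f := fun η s => pe β h η fun s' : Fin n → Step d =>
      if D < ‖emb (pos s t) - emb (pos s' t)‖ ∧ ν (pos s t) η < ε then (1 : ℝ) else 0)
      (fun s => measurable_pe73 β h (f := fun η (s' : Fin n → Step d) =>
        if D < ‖emb (pos s t) - emb (pos s' t)‖ ∧ ν (pos s t) η < ε then (1 : ℝ) else 0)
          fun s' => hm s s')
      (C := 1) fun η s => abs_pe_le73 hd β h η fun s' => by
        split_ifs <;> norm_num
  have hI2 : Integrable (fun η => 2 / W * ∑ σ ∈ Finset.Ioc τ₀ (t - 1), a σ *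
      pe2 β h η (L σ η)) (law d ρ) :=
    (integrable_finsetSum _ fun σ _ => (hLi σ).const_mul (a σ)).const_mul _
  have hI12 : Integrable (fun η => pe β h η A + 2 / W * ∑ σ ∈ Finset.Ioc τ₀ (t - 1), a σ *
      pe2 β h η (L σ η)) (law d ρ) := hAi.add hI2
  have hmain : Ty ρ β h n t D ε ≤ ((∫ η, pe β h η A ∂(law d ρ)) +
      2 / W * ∑ σ ∈ Finset.Ioc τ₀ (t - 1), a σ * Lo ρ β h n t (a σ) σ (lev σ) o) +
        ∫ η, pe β h η (B η) ∂(law d ρ) := by
    have h1 : ∫ η, ((pe β h η A + 2 / W * ∑ σ ∈ Finset.Ioc τ₀ (t - 1), a σ *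
        pe2 β h η (L σ η)) + pe β h η (B η)) ∂(law d ρ) = ((∫ η, pe β h η A ∂(law d ρ)) +
        2 / W * ∑ σ ∈ Finset.Ioc τ₀ (t - 1), a σ * Lo ρ β h n t (a σ) σ (lev σ) o) +
          ∫ η, pe β h η (B η) ∂(law d ρ) := by
      rw [integral_add hI12 hBi, integral_add hAi hI2, integral_const_mul,
        integral_finsetSum _ fun σ _ => (hLi σ).const_mul (a σ)]
      congr 3
      exact Finset.sum_congr rfl fun σ _ => integral_const_mul _ _
    rw [← h1]
    exact integral_mono hTi (hI12.add hBi) hpe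
  -- the last term
  have hlast : ∫ η, pe β h η (B η) ∂(law d ρ) ≤
      Real.sqrt ε * Real.exp (-(W / 2)) * Real.sqrt U.card := by
    have hQg : ∀ x, Integrable (fun η => Qt β h n t x η * g x η) (law d ρ) := fun x =>
      (int_Qt86 β h htn x).mono' ((hQm x).mul (hgm x)).aestronglyMeasurable
        (Eventually.of_forall fun η => by
          rw [Real.norm_eq_abs, abs_of_nonneg (mul_nonneg (hQ0 x η) (hg0 x η))]
          exact mul_le_of_le_one_right (hQ0 x η) (hg1 x η))
    have hsq : ∀ x, Integrable (fun η => Real.sqrt (ν x η) * Real.exp (N x η)) (law d ρ) :=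
      fun x => by
        refine Integrable.mono' (integrable_const (1 * Real.exp W))
          ((hνm x).sqrt.mul (Real.measurable_exp.comp (hNm x))).aestronglyMeasurable
          (Eventually.of_forall fun η => ?_)
        rw [Real.norm_eq_abs, abs_of_nonneg (mul_nonneg (Real.sqrt_nonneg _)
          (Real.exp_pos _).le)]
        exact mul_le_mul (Real.sqrt_le_one.2 (hν1 x η)) (Real.exp_le_exp.2 (hN1 x η))
          (Real.exp_pos _).le zero_le_one
    have h1 : ∫ η, pe β h η (B η) ∂(law d ρ) ≤ ∫ η, ∑ x ∈ U, Qt β h n t x η * g x η ∂(law d ρ) := by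
      refine integral_mono hBi (integrable_finsetSum _ fun x _ => hQg x) fun η => ?_
      show pe β h η (fun s : Fin n → Step d => if pos s t ∈ U then g (pos s t) η else 0) ≤
        ∑ x ∈ U, Qt β h n t x η * g x η
      rw [pe_pos86 β h η htn fun y => if y ∈ U then g y η else 0]
      have h2 : ∑ y ∈ boxF d n, Qt β h n t y η * (if y ∈ U then g y η else 0) =
          ∑ y ∈ (boxF d n).filter (fun y => y ∈ U), Qt β h n t y η * g y η := by
        rw [Finset.sum_filter]
        exact Finset.sum_congr rfl fun y _ => by split_ifs <;> simp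
      rw [h2]
      refine Finset.sum_le_sum_of_subset_of_nonneg (fun y hy => (Finset.mem_filter.1 hy).2)
        fun y _ _ => mul_nonneg (hQ0 y η) (hg0 y η)
    have h3 : ∫ η, ∑ x ∈ U, Qt β h n t x η * g x η ∂(law d ρ) =
        ∫ η, ∑ x ∈ U, ν x η * g x η ∂(law d ρ) := by
      have hνg : ∀ x, Integrable (fun η => ν x η * g x η) (law d ρ) := fun x =>
        Integrable.mono' (integrable_const 1) ((hνm x).mul (hgm x)).aestronglyMeasurable
          (Eventually.of_forall fun η => by
            rw [Real.norm_eq_abs, abs_of_nonneg (mul_nonneg (hν0 x η) (hg0 x η))]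
            exact (mul_le_of_le_one_right (hν0 x η) (hg1 x η)).trans (hν1 x η))
      rw [integral_finsetSum _ fun x _ => hQg x, integral_finsetSum _ fun x _ => hνg x]
      exact Finset.sum_congr rfl fun x _ => int_mul_cE S (hQg x) (hgS x)
    have hνg : ∀ x, Integrable (fun η => ν x η * g x η) (law d ρ) := fun x =>
      Integrable.mono' (integrable_const 1) ((hνm x).mul (hgm x)).aestronglyMeasurable
        (Eventually.of_forall fun η => by
          rw [Real.norm_eq_abs, abs_of_nonneg (mul_nonneg (hν0 x η) (hg0 x η))]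
          exact (mul_le_of_le_one_right (hν0 x η) (hg1 x η)).trans (hν1 x η))
    have h4 : ∫ η, ∑ x ∈ U, ν x η * g x η ∂(law d ρ) ≤
        ∫ η, Real.sqrt ε * Real.exp (-(W / 2)) *
          ∑ x ∈ U, Real.sqrt (ν x η) * Real.exp (N x η) ∂(law d ρ) := by
      refine integral_mono (integrable_finsetSum _ fun x _ => hνg x)
        ((integrable_finsetSum _ fun x _ => hsq x).const_mul _) fun η => ?_
      show ∑ x ∈ U, ν x η * g x η ≤ Real.sqrt ε * Real.exp (-(W / 2)) *
          ∑ x ∈ U, Real.sqrt (ν x η) * Real.exp (N x η)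
      rw [Finset.mul_sum]
      refine Finset.sum_le_sum fun x _ => ?_
      have hr : 0 ≤ Real.sqrt ε * Real.exp (-(W / 2)) *
          (Real.sqrt (ν x η) * Real.exp (N x η)) := by positivity
      by_cases hc : ν x η < ε ∧ W / 2 ≤ N x η
      · have h5 : g x η = 1 := if_pos hc
        rw [h5, mul_one]
        have h6 : ν x η = Real.sqrt (ν x η) * Real.sqrt (ν x η) :=
          (Real.mul_self_sqrt (hν0 x η)).symm
        have h7 : Real.sqrt (ν x η) ≤ Real.sqrt ε := Real.sqrt_le_sqrt hc.1.le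
        have h8 : 1 ≤ Real.exp (-(W / 2)) * Real.exp (N x η) := by
          rw [← Real.exp_add]
          exact Real.one_le_exp (by linarith [hc.2])
        calc ν x η = Real.sqrt (ν x η) * Real.sqrt (ν x η) := h6
          _ ≤ Real.sqrt ε * Real.sqrt (ν x η) :=
            mul_le_mul_of_nonneg_right h7 (Real.sqrt_nonneg _)
          _ ≤ Real.sqrt ε * Real.sqrt (ν x η) *
              (Real.exp (-(W / 2)) * Real.exp (N x η)) :=
            le_mul_of_one_le_right (by positivity) h8
          _ = Real.sqrt ε * Real.exp (-(W / 2)) *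
              (Real.sqrt (ν x η) * Real.exp (N x η)) := by ring
      · have h5 : g x η = 0 := if_neg hc
        rw [h5, mul_zero]
        exact hr
    rw [integral_const_mul] at h4
    have h5 := hC h n t τ₀ hτt htn a lev o U ha hlev hU
    have h6 : Real.sqrt ε * Real.exp (-(W / 2)) * ∫ η, ∑ x ∈ U, Real.sqrt (ν x η) *
        Real.exp (N x η) ∂(law d ρ) ≤ Real.sqrt ε * Real.exp (-(W / 2)) * Real.sqrt U.card :=
      mul_le_mul_of_nonneg_left h5 (by positivity)
    linarith
  have hfin : ∫ η, pe β h η A ∂(law d ρ) =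
      ∫ η, pe β h η (fun s : Fin n → Step d => if pos s t ∉ U then (1 : ℝ) else 0)
        ∂(law d ρ) := rfl
  linarith

end Pool.Agent.W_7d29a1_NS
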