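import Pool.Agent.W_7d29a1_NS.DefsN72
import Pool.Agent.W_7d29a1_S90.CsO54
import Pool.Agent.W_7d29a1_Q29.Brid72

/-!
Theorem NS, leaf TYP: levels, blocks and sums.
-/

namespace Pool.Agent.W_7d29a1_NS

open MeasureTheory ProbabilityTheory Filter Topology Pool.Agent.W_MP_7d29a1_pr
  Pool.Agent.W_7d29a1_h46 Pool.Agent.W_7d29a1_h46u Pool.Agent.W_7d29a1_D2.B35
  Pool.Agent.W_7d29a1_Q29 Pool.Agent.W_7d29a1_S90

/-- The level of the row `σ`. -/
noncomputable def lev54 (L K : ℝ) (t σ : ℕ) : ℕ :=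
  Nat.clog 2 ⌈L * Real.sqrt (K * ((t - σ : ℕ) : ℝ))⌉₊

lemma le_clog54 (r : ℝ) : r ≤ 2 ^ Nat.clog 2 ⌈r⌉₊ := by
  have h1 : r ≤ (⌈r⌉₊ : ℝ) := Nat.le_ceil r
  have h2 : ⌈r⌉₊ ≤ 2 ^ Nat.clog 2 ⌈r⌉₊ := Nat.le_pow_clog (by norm_num) _
  exact h1.trans (by exact_mod_cast h2)

lemma clog_le54 {r : ℝ} (hr : 1 ≤ r) : (2 : ℝ) ^ Nat.clog 2 ⌈r⌉₊ ≤ 4 * r := by
  have h0 : (⌈r⌉₊ : ℝ) < r + 1 := Nat.ceil_lt_add_one (by linarith)
  rcases Nat.lt_or_ge 1 ⌈r⌉₊ with h1 | h1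
  · have h2 : 2 ^ (Nat.clog 2 ⌈r⌉₊).pred < ⌈r⌉₊ := Nat.pow_pred_clog_lt_self (by norm_num) h1
    have h3 : 0 < Nat.clog 2 ⌈r⌉₊ := Nat.clog_pos (by norm_num) h1
    have h4 : (2 : ℝ) ^ Nat.clog 2 ⌈r⌉₊ = 2 * 2 ^ (Nat.clog 2 ⌈r⌉₊).pred := by
      conv_lhs => rw [← Nat.succ_pred_eq_of_pos h3]
      rw [Nat.succ_eq_add_one, pow_succ]
      ring
    have h5 : (2 : ℝ) ^ (Nat.clog 2 ⌈r⌉₊).pred < ⌈r⌉₊ := by exact_mod_cast h2
    rw [h4]
    linarith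
  · rw [Nat.clog_of_right_le_one h1]
    norm_num
    linarith

lemma antitone54 {L K : ℝ} (hL : 0 ≤ L) (hK : 0 ≤ K) (t : ℕ) : Antitone (lev54 L K t) := by
  intro a b hab
  unfold lev54
  refine Nat.clog_mono_right 2 (Nat.ceil_mono ?_)
  have h1 : ((t - b : ℕ) : ℝ) ≤ ((t - a : ℕ) : ℝ) := by exact_mod_cast Nat.sub_le_sub_left hab t
  gcongr

lemma lev_bd54 {L K : ℝ} (hL : 0 ≤ L) (hK : 0 ≤ K) (h1 : 1 ≤ L * Real.sqrt K) {t σ : ℕ}
    (hs : 1 ≤ t - σ) : L * Real.sqrt (K * ((t - σ : ℕ) : ℝ)) ≤ 2 ^ lev54 L K t σ ∧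
      (2 : ℝ) ^ lev54 L K t σ ≤ 4 * (L * Real.sqrt (K * ((t - σ : ℕ) : ℝ))) := by
  refine ⟨le_clog54 _, clog_le54 ?_⟩
  have h2 : (1 : ℝ) ≤ ((t - σ : ℕ) : ℝ) := by exact_mod_cast hs
  refine h1.trans ?_
  gcongr
  nlinarith

lemma abs_sub_le_of_blk54 {d i : ℕ} {o x z : Site d} (h : blk i o x = blk i o z) (j : Fin d) :
    |(x j : ℝ) - z j| ≤ 2 ^ i := by
  have h1 : (x j + o j) / 2 ^ i = (z j + o j) / 2 ^ i := congrFun h j
  have h2 : (0 : ℤ) < 2 ^ i := by positivity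
  have h3 := Int.emod_add_mul_ediv (x j + o j) (2 ^ i)
  have h4 := Int.emod_add_mul_ediv (z j + o j) (2 ^ i)
  have h5 := Int.emod_nonneg (x j + o j) h2.ne'
  have h6 := Int.emod_nonneg (z j + o j) h2.ne'
  have h7 := Int.emod_lt_of_pos (x j + o j) h2
  have h8 := Int.emod_lt_of_pos (z j + o j) h2
  have h9 : |x j - z j| ≤ 2 ^ i := by
    rw [abs_le]
    rw [h1] at h3
    constructor <;> linarith
  exact_mod_cast h9

lemma same54 (i : ℕ) (o x z : Site 2) (hb : blk i o x = blk i o z) :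
    ‖emb x - emb z‖ ≤ Real.sqrt 2 * 2 ^ i := by
  rw [EuclideanSpace.norm_eq, Fin.sum_univ_two]
  refine Real.sqrt_le_iff.2 ⟨by positivity, ?_⟩
  have h1 : ∀ j : Fin 2, ‖(emb x - emb z) j‖ ^ 2 ≤ (2 ^ i) ^ 2 := by
    intro j
    have h2 : (emb x - emb z) j = (x j : ℝ) - z j := by simp [emb]
    rw [h2, Real.norm_eq_abs]
    exact pow_le_pow_left₀ (abs_nonneg _) (abs_sub_le_of_blk54 hb j) 2
  rw [mul_pow, Real.sq_sqrt (by norm_num)]
  linarith [h1 0, h1 1]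

lemma exU54 (i : ℕ) (o : Site 2) (M : Vec 2) (r : ℝ) (hr : 0 ≤ r) : ∃ U : Finset (Site 2),
    (∀ x ∈ U, ∀ z : Site 2, blk i o z = blk i o x → z ∈ U) ∧
    (∀ x : Site 2, ‖emb x - M‖ ≤ r → x ∈ U) ∧
    (U.card : ℝ) ≤ (2 * (r + Real.sqrt 2 * 2 ^ i) + 1) ^ 2 := by
  classical
  refine ⟨(ballW M (r + Real.sqrt 2 * 2 ^ i)).filter fun x =>
    ∃ z : Site 2, blk i o z = blk i o x ∧ ‖emb z - M‖ ≤ r, ?_, ?_, ?_⟩
  · intro x hx z hz
    rw [Finset.mem_filter] at hx ⊢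
    obtain ⟨_, y, hy, hyM⟩ := hx
    refine ⟨mem_ballW ?_, y, hy.trans hz.symm, hyM⟩
    have h1 := same54 i o y z (hy.trans hz.symm)
    calc ‖emb z - M‖ = ‖(emb y - M) - (emb y - emb z)‖ := by congr 1; abel
      _ ≤ ‖emb y - M‖ + ‖emb y - emb z‖ := norm_sub_le _ _
      _ ≤ r + Real.sqrt 2 * 2 ^ i := by linarith
  · intro x hx
    rw [Finset.mem_filter]
    refine ⟨mem_ballW (hx.trans ?_), x, rfl, hx⟩
    have : (0 : ℝ) ≤ Real.sqrt 2 * 2 ^ i := by positivity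
    linarith
  · refine le_trans ?_ (card_ballW M (by positivity))
    exact_mod_cast Finset.card_filter_le _ _

open Classical in
/-- The mass outside a set which contains a ball. -/
lemma out54 {ρ : Measure ℝ} [IsProbabilityMeasure ρ] (β : ℝ) (h : Vec 2) (n t : ℕ)
    (U : Finset (Site 2)) (M : Vec 2) {r : ℝ} (hr : 0 < r)
    (hU : ∀ x : Site 2, ‖emb x - M‖ ≤ r → x ∈ U) :
    (∫ η, pe β h η (fun s : Fin n → Step 2 =>
      if pos s t ∉ U then (1 : ℝ) else 0) ∂(law 2 ρ)) ≤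
    (∫ η, pe β h η (fun s : Fin n → Step 2 => inc 0 t M s ^ 2) ∂(law 2 ρ)) / r ^ 2 := by
  refine le_trans ?_ (Tl_le54 (by norm_num) β h 0 t M hr)
  unfold Tl
  refine integral_mono (integrable_pe54 (by norm_num) β h _) (integrable_pe54 (by norm_num) β h _)
    fun η => ?_
  refine pe_mono31 (by norm_num) β h η fun s => ?_
  by_cases h1 : pos s t ∈ U
  · rw [if_neg (not_not.2 h1)]
    split_ifs
    · exact zero_le_one
    · exact le_refl _
  · have h2 : r < inc 0 t M s := by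
      by_contra h3
      rw [inc_zero54, not_lt] at h3
      exact h1 (hU _ h3)
    rw [if_pos h1, if_pos h2]

lemma log54 (a b : ℕ) (ha : 1 ≤ a) (hab : a ≤ b + 1) :
    Real.log (((b : ℝ) + 1) / a) ≤ ∑ s ∈ Finset.Icc a b, 1 / (s : ℝ) := by
  have ha' : (0 : ℝ) < a := by exact_mod_cast ha
  induction b with
  | zero =>
    have h1 : a = 1 := by omega
    subst h1
    simp
  | succ b ih =>
    rcases Nat.lt_or_ge (b + 1) a with h1 | h1
    · have h2 : a = b + 2 := by omega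
      subst h2
      rw [Finset.Icc_eq_empty (by omega), Finset.sum_empty]
      push_cast
      have h3 : ((b : ℝ) + 1 + 1) / (b + 2) = 1 := by
        rw [div_eq_one_iff_eq (by positivity)]
        ring
      rw [h3, Real.log_one]
    · rw [← Finset.insert_Icc_right_eq_Icc_add_one h1, Finset.sum_insert (by simp)]
      have h2 := ih h1
      have hb : (0 : ℝ) < (b : ℝ) + 1 := by positivity
      have h3 : Real.log ((((b + 1 : ℕ) : ℝ) + 1) / a) =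
          Real.log (((b : ℝ) + 1) / a) + Real.log (((b : ℝ) + 2) / (b + 1)) := by
        rw [← Real.log_mul (by positivity) (by positivity)]
        congr 1
        push_cast
        field_simp
        ring
      have h4 : Real.log (((b : ℝ) + 2) / (b + 1)) ≤ 1 / ((b + 1 : ℕ) : ℝ) := by
        refine (Real.log_le_sub_one_of_pos (by positivity)).trans (le_of_eq ?_)
        push_cast
        field_simp
        ring
      rw [h3]
      linarith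

lemma low54 {g c Lo T N a B : ℝ} (hg : 0 < g) (hc : 0 < c)
    (h : g * (c * (Lo - 2 * T - N) - T) ≤ 2 * (a + g ^ 2 * B)) :
    Lo ≤ 2 * T + N + (T + 2 * a / g + 2 * (g * B)) / c := by
  have h1 : c * (Lo - 2 * T - N) - T ≤ 2 * a / g + 2 * (g * B) := by
    have h2 : 2 * a / g + 2 * (g * B) = (2 * (a + g ^ 2 * B)) / g := by
      field_simp
    rw [h2, le_div_iff₀ hg]
    linarith
  have h3 : Lo - 2 * T - N ≤ (T + 2 * a / g + 2 * (g * B)) / c := by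
    rw [le_div_iff₀ hc]
    linarith
  linarith

/-- Windows: second moments and tails. -/
lemma cheb54 {ρ : Measure ℝ} [IsProbabilityMeasure ρ] {β : ℝ} {h : Vec 2} {n : ℕ} {w R K : ℝ}
    (hW : Ww ρ β h n w R) {τ t : ℕ} (hτ : τ < t) (ht : t ≤ n) (hw : w ≤ (t : ℝ) - τ)
    (hK : 0 < K) : ∃ m : Vec 2,
      (∫ η, pe β h η (fun s : Fin n → Step 2 => inc τ t m s ^ 2) ∂(law 2 ρ)) ≤
        R * ((t : ℝ) - τ) ∧ Tl ρ β h n τ t m (Real.sqrt (K * ((t - τ : ℕ) : ℝ))) ≤ R / K := by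
  obtain ⟨m, hm⟩ := hW τ t hτ ht hw
  have h1 : ((t - τ : ℕ) : ℝ) = (t : ℝ) - τ := by
    rw [Nat.cast_sub hτ.le]
  have h2 : (0 : ℝ) < (t : ℝ) - τ := by
    rw [sub_pos]
    exact_mod_cast hτ
  refine ⟨m, hm, ?_⟩
  refine (Tl_le54 (by norm_num) β h τ t m (Real.sqrt_pos.2 (by rw [h1]; positivity))).trans ?_
  rw [Real.sq_sqrt (by rw [h1]; positivity), h1]
  rw [div_le_div_iff₀ (by positivity) hK]
  nlinarith

end Pool.Agent.W_7d29a1_NS
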