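import Pool.Agent.W_7d29a1_NS.DefsN72
import Pool.Agent.W_7d29a1_S90.InK99

/-!
Leaf TYP of Theorem NS: the level of a distance, the union of blocks, the harmonic sum.
-/

namespace Pool.Agent.W_7d29a1_NS

open MeasureTheory ProbabilityTheory Filter Topology Pool.Agent.W_MP_7d29a1_pr
  Pool.Agent.W_7d29a1_h46 Pool.Agent.W_7d29a1_h46u Pool.Agent.W_7d29a1_D2.B35
  Pool.Agent.W_7d29a1_Q29 Pool.Agent.W_7d29a1_S90

/-- The level of the distance `A`. -/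
lemma clog72 {A : ℝ} (hA : 1 ≤ A) :
    A ≤ 2 ^ Nat.clog 2 ⌈A⌉₊ ∧ (2 : ℝ) ^ Nat.clog 2 ⌈A⌉₊ ≤ 4 * A := by
  have h1 : A ≤ (⌈A⌉₊ : ℝ) := Nat.le_ceil A
  have h2 : ((⌈A⌉₊ : ℕ) : ℝ) ≤ ((2 ^ Nat.clog 2 ⌈A⌉₊ : ℕ) : ℝ) := by
    exact_mod_cast Nat.le_pow_clog (by norm_num) _
  refine ⟨h1.trans (by exact_mod_cast h2), ?_⟩
  rcases le_or_gt ⌈A⌉₊ 1 with h3 | h3
  · rw [Nat.clog_of_right_le_one h3]
    norm_num
    linarith
  · have h4 := Nat.pow_pred_clog_lt_self (b := 2) (by norm_num) h3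
    have h5 : 0 < Nat.clog 2 ⌈A⌉₊ := Nat.clog_pos (by norm_num) h3
    obtain ⟨k, hk⟩ : ∃ k, Nat.clog 2 ⌈A⌉₊ = k + 1 := ⟨_, (Nat.succ_pred_eq_of_pos h5).symm⟩
    rw [hk] at h4 ⊢
    have h6 : (((2 : ℕ) ^ k : ℕ) : ℝ) < ((⌈A⌉₊ : ℕ) : ℝ) := by exact_mod_cast h4
    have h7 : ((⌈A⌉₊ : ℕ) : ℝ) < A + 1 := Nat.ceil_lt_add_one (by linarith)
    rw [pow_succ]
    push_cast at h6
    linarith

/-- Two sites of a block. -/
lemma blk_abs72 {d : ℕ} {i : ℕ} {o x z : Site d} (h : blk i o x = blk i o z) (j : Fin d) :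
    |x j - z j| < 2 ^ i := by
  have h1 : (x j + o j) / 2 ^ i = (z j + o j) / 2 ^ i := congrFun h j
  have hp : (0 : ℤ) < 2 ^ i := by positivity
  have h2 := Int.emod_add_mul_ediv (x j + o j) (2 ^ i)
  have h3 := Int.emod_add_mul_ediv (z j + o j) (2 ^ i)
  have h4 := Int.emod_nonneg (x j + o j) hp.ne'
  have h5 := Int.emod_nonneg (z j + o j) hp.ne'
  have h6 := Int.emod_lt_of_pos (x j + o j) hp
  have h7 := Int.emod_lt_of_pos (z j + o j) hp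
  rw [h1] at h2
  rw [abs_lt]
  constructor <;> linarith

lemma blk_dist72 {i : ℕ} {o x z : Site 2} (h : blk i o x = blk i o z) :
    ‖emb x - emb z‖ ≤ 2 * 2 ^ i := by
  have h0 : ∀ j : Fin 2, ((x j : ℝ) - z j) ^ 2 ≤ (2 ^ i) ^ 2 := by
    intro j
    have h1 := blk_abs72 h j
    have h2 : |((x j : ℝ) - z j)| ≤ 2 ^ i := by
      have : ((|x j - z j| : ℤ) : ℝ) ≤ ((2 ^ i : ℤ) : ℝ) := by exact_mod_cast h1.le
      push_cast at this
      exact this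
    rw [← sq_abs]
    exact pow_le_pow_left₀ (abs_nonneg _) h2 2
  rw [EuclideanSpace.norm_eq, Fin.sum_univ_two]
  have e : ∀ j : Fin 2, ‖(emb x - emb z) j‖ ^ 2 = ((x j : ℝ) - z j) ^ 2 := by
    intro j
    rw [Real.norm_eq_abs, sq_abs]
    rfl
  rw [e 0, e 1]
  refine Real.sqrt_le_iff.2 ⟨by positivity, ?_⟩
  nlinarith [h0 0, h0 1, sq_nonneg ((2 : ℝ) ^ i)]

open Classical in
/-- A union of blocks which contains a ball. -/
lemma uset72 (m : Vec 2) (N i : ℕ) (o : Site 2) : ∃ U : Finset (Site 2),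
    (∀ x ∈ U, ∀ z : Site 2, blk i o z = blk i o x → z ∈ U) ∧
    (U.card : ℝ) ≤ (2 * (N + 1 + 2 ^ i) + 1) ^ 2 ∧
    ∀ x : Site 2, ‖emb x - m‖ ≤ N → x ∈ U := by
  set V : Finset (Site 2) := Fintype.piFinset fun j =>
    Finset.Icc (⌊m j⌋ - (N + 1 + 2 ^ i)) (⌊m j⌋ + (N + 1 + 2 ^ i)) with hV
  set U : Finset (Site 2) := V.filter fun z => ∃ x : Site 2,
    (∀ j, |x j - ⌊m j⌋| ≤ N + 1) ∧ blk i o z = blk i o x with hU
  have hin : ∀ x z : Site 2, (∀ j, |x j - ⌊m j⌋| ≤ N + 1) → blk i o z = blk i o x → z ∈ U := by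
    intro x z hx hz
    rw [hU, Finset.mem_filter]
    refine ⟨?_, x, hx, hz⟩
    rw [hV, Fintype.mem_piFinset]
    intro j
    have h1 := abs_lt.1 (blk_abs72 hz j)
    have h2 := abs_le.1 (hx j)
    rw [Finset.mem_Icc]
    constructor <;> linarith [h1.1, h1.2, h2.1, h2.2]
  refine ⟨U, ?_, ?_, ?_⟩
  · intro x hx z hz
    rw [hU, Finset.mem_filter] at hx
    obtain ⟨_, y, hy, hxy⟩ := hx
    exact hin y z hy (hz.trans hxy)
  · have h1 : (U.card : ℝ) ≤ V.card := by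
      exact_mod_cast Finset.card_filter_le _ _
    refine h1.trans (le_of_eq ?_)
    rw [hV, Fintype.card_piFinset, Fin.prod_univ_two]
    simp only [Int.card_Icc]
    have e : ∀ a : ℤ, (a + (N + 1 + 2 ^ i) + 1 - (a - (N + 1 + 2 ^ i))).toNat =
        2 * (N + 1 + 2 ^ i) + 1 := by
      intro a
      have : a + ((N : ℤ) + 1 + 2 ^ i) + 1 - (a - (N + 1 + 2 ^ i)) =
          ((2 * (N + 1 + 2 ^ i) + 1 : ℕ) : ℤ) := by
        push_cast
        ring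
      rw [this, Int.toNat_natCast]
    rw [e, e]
    push_cast
    ring
  · intro x hx
    refine hin x x (fun j => ?_) rfl
    have h1 : |(x j : ℝ) - m j| ≤ N := by
      have h2 : |(emb x - m) j| ≤ ‖emb x - m‖ := by
        have := EuclideanSpace.norm_eq (emb x - m)
        rw [this]
        refine Real.le_sqrt_of_sq_le ?_
        rw [sq_abs]
        have h3 := Finset.single_le_sum (f := fun j => ‖(emb x - m) j‖ ^ 2)
          (fun j _ => sq_nonneg _) (Finset.mem_univ j)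
        simpa [Real.norm_eq_abs, sq_abs] using h3
      exact h2.trans hx
    have h2 := Int.floor_le (m j)
    have h3 := Int.lt_floor_add_one (m j)
    have h4 := abs_le.1 h1
    have h5 : |((x j - ⌊m j⌋ : ℤ) : ℝ)| ≤ N + 1 := by
      push_cast
      rw [abs_le]
      constructor <;> linarith [h4.1, h4.2]
    exact_mod_cast h5

/-- The sum over the rows. -/
lemma reidx72 (f : ℕ → ℝ) {t s₁ : ℕ} (h : s₁ + 1 ≤ t) :
    ∑ σ ∈ Finset.Ioc (t - s₁ - 1) (t - 1), f (t - σ) = ∑ s ∈ Finset.Icc 1 s₁, f s := by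
  refine Finset.sum_nbij' (fun σ => t - σ) (fun s => t - s) ?_ ?_ ?_ ?_ ?_
  · intro σ hσ
    rw [Finset.mem_Ioc] at hσ
    rw [Finset.mem_Icc]
    omega
  · intro s hs
    rw [Finset.mem_Icc] at hs
    rw [Finset.mem_Ioc]
    omega
  · intro σ hσ
    rw [Finset.mem_Ioc] at hσ
    show t - (t - σ) = σ
    omega
  · intro s hs
    rw [Finset.mem_Icc] at hs
    show t - (t - s) = s
    omega
  · intro σ _
    rfl

/-- The harmonic sum over the rows `w ≤ s ≤ s₁`. -/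
lemma harm72 {w : ℝ} (hw : 1 ≤ w) (s₁ : ℕ) :
    Real.log (((s₁ : ℝ) + 1) / (2 * w)) ≤
      ∑ s ∈ Finset.Icc 1 s₁, (if w ≤ (s : ℝ) then 1 / (s : ℝ) else 0) := by
  have ha : 1 ≤ ⌈w⌉₊ := Nat.one_le_ceil_iff.2 (by linarith)
  have h1 := harm99 ha s₁
  have h2 : ∑ s ∈ Finset.Ico ⌈w⌉₊ (s₁ + 1), 1 / (s : ℝ) ≤
      ∑ s ∈ Finset.Icc 1 s₁, (if w ≤ (s : ℝ) then 1 / (s : ℝ) else 0) := by
    have h3 : ∑ s ∈ Finset.Ico ⌈w⌉₊ (s₁ + 1), 1 / (s : ℝ) =
        ∑ s ∈ Finset.Ico ⌈w⌉₊ (s₁ + 1), (if w ≤ (s : ℝ) then 1 / (s : ℝ) else 0) := by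
      refine Finset.sum_congr rfl fun s hs => ?_
      rw [Finset.mem_Ico] at hs
      rw [if_pos (Nat.ceil_le.1 hs.1)]
    rw [h3]
    refine Finset.sum_le_sum_of_subset_of_nonneg ?_ fun s _ _ => ?_
    · intro s hs
      rw [Finset.mem_Ico] at hs
      rw [Finset.mem_Icc]
      omega
    · split_ifs
      · positivity
      · exact le_rfl
  refine le_trans ?_ (h1.trans h2)
  have h3 : ((⌈w⌉₊ : ℕ) : ℝ) ≤ 2 * w := by
    have := Nat.ceil_lt_add_one (by linarith : 0 ≤ w)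
    linarith
  have h4 : (1 : ℝ) ≤ ((⌈w⌉₊ : ℕ) : ℝ) := by exact_mod_cast ha
  rw [Real.log_div (by positivity) (by positivity)]
  have h5 := Real.log_le_log (by linarith) h3
  linarith

end Pool.Agent.W_7d29a1_NS
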