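import Pool.Agent.W_7d29a1_NS.Dual63
import Pool.Agent.W_7d29a1_S90.RpT73
import Pool.Agent.W_7d29a1_S90.Sib39

/-!
The variance of the probability of a half plane.
-/

namespace Pool.Agent.W_7d29a1_NS

open MeasureTheory ProbabilityTheory Filter Topology Pool.Agent.W_MP_7d29a1_pr
  Pool.Agent.W_7d29a1_h46 Pool.Agent.W_7d29a1_h46u Pool.Agent.W_7d29a1_D2.B35
  Pool.Agent.W_7d29a1_Q29 Pool.Agent.W_7d29a1_Q29.D85 Pool.Agent.W_7d29a1_S90

open Classical in
/-- The influence of one site, for an event of the walk and a weight which does not see the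
site. -/
def SibN (d : ℕ) (ρ : Measure ℝ) (β : ℝ) : Prop := ∃ q c : ℝ, 0 < c ∧ c ≤ 1 ∧
  ∀ (h : Vec d) (n τ : ℕ), 1 ≤ τ → τ ≤ n → ∀ (y : Site d) (Fr : (Fin n → Step d) → Prop)
    (χ : Env d → ℝ), Measurable χ → (∀ η, 0 ≤ χ η ∧ χ η ≤ 1) →
    DependsOn χ ({(τ, y)}ᶜ : Set (ℕ × Site d)) →
    c * (∫ η, χ η * pe2 β h η (fun s s' : Fin n → Step d =>
        if pos s τ = y ∧ pos s' τ ≠ y ∧ Fr s' then (1 : ℝ) else 0) ∂(law d ρ)) -
      (∫ η, χ η * pe β h η (fun s : Fin n → Step d =>
        if pos s τ = y ∧ Fr s then (1 : ℝ) else 0) ∂(law d ρ)) ≤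
    ∫ η, χ η * (zt ρ q (η (τ, y)) * pe β h η (fun s : Fin n → Step d =>
      if ¬ Fr s then (1 : ℝ) else 0)) ∂(law d ρ)

variable {d : ℕ} {ρ : Measure ℝ} [IsProbabilityMeasure ρ]

theorem sibN63 (hd : 0 < d) (hρ : EM ρ) (hnc : ∀ c : ℝ, ρ {c} ≠ 1) {β : ℝ} (hβ : 0 < β) :
    SibN d ρ β := sibG39 hd hρ hnc hβ

lemma pe2_lin63 {ι : Type*} (S : Finset ι) (β : ℝ) (h : Vec d) (η : Env d) {n : ℕ} (a : ι → ℝ)
    (f : ι → (Fin n → Step d) → (Fin n → Step d) → ℝ) :
    pe2 β h η (fun s s' => ∑ i ∈ S, a i * f i s s') = ∑ i ∈ S, a i * pe2 β h η (f i) := by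
  unfold pe2
  have h1 : ∀ s : Fin n → Step d, pe β h η (fun s' => ∑ i ∈ S, a i * f i s s') =
      ∑ i ∈ S, a i * pe β h η (fun s' => f i s s') := by
    intro s
    rw [pe_sum73]
    exact Finset.sum_congr rfl fun i _ => pe_mul73 _ _ _ _ _
  simp only [h1]
  rw [pe_sum73]
  exact Finset.sum_congr rfl fun i _ => pe_mul73 _ _ _ _ _

open Classical in
/-- **VAR.** -/
theorem varN63 (hd : 0 < d) {β : ℝ} (hS : SibN d ρ β) : ∃ c : ℝ, 0 < c ∧ c ≤ 1 ∧
    ∀ (h : Vec d) (n : ℕ) (T : Finset ℕ) (Ev : (Fin n → Step d) → Prop)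
      (sd : ℕ → Set (Site d)) (ε : ℝ),
      0 < ε → T ⊆ Finset.Icc 1 n →
      ∑ t ∈ T, (c * ∫ η, pe2 β h η (fun s s' : Fin n → Step d =>
          if ε ≤ cE ρ (Pa d (t - 1)) (Qt β h n t (pos s t)) η ∧ pos s' t ≠ pos s t ∧
            (pos s t ∈ sd t ↔ ¬ Ev s') then (1 : ℝ) else 0) ∂(law d ρ) -
        ∫ η, pe β h η (fun s : Fin n → Step d =>
          if (pos s t ∈ sd t ↔ ¬ Ev s) then (1 : ℝ) else 0) ∂(law d ρ)) ≤
        Real.sqrt (T.card / ε) := by
  obtain ⟨q, c, hc0, hc1, hmain⟩ := hS
  refine ⟨c, hc0, hc1, fun h n T Ev sd ε hε hT => ?_⟩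
  have hTn : ∀ t ∈ T, 1 ≤ t ∧ t ≤ n := fun t ht => Finset.mem_Icc.1 (hT ht)
  -- the weights
  set G : ℕ → Site d → Env d → ℝ := fun t y η =>
    if ε ≤ cE ρ (Pa d (t - 1)) (Qt β h n t y) η then (1 : ℝ) else 0 with hG
  set F : Env d → ℝ := fun η => pe β h η (fun s : Fin n → Step d =>
    if Ev s then (1 : ℝ) else 0) with hF
  have hGm : ∀ t y, Measurable (G t y) := fun t y => by
    refine Measurable.ite ?_ measurable_const measurable_const
    exact measurableSet_le measurable_const (measurable_cE (measurable_Qt39 β h n t y) _)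
  have hG01 : ∀ t y η, 0 ≤ G t y η ∧ G t y η ≤ 1 := fun t y η => by
    simp only [hG]
    split_ifs <;> norm_num
  have hFm : Measurable F := meas_pe39 β h _
  have hF01 : ∀ η, 0 ≤ F η ∧ F η ≤ 1 := fun η => pe_bd39 hd β h η fun s => by
    split_ifs <;> norm_num
  have hGdep : ∀ t y, DependsOn (G t y) (Pa d (t - 1)) := fun t y η η' hη => by
    simp only [hG]
    rw [cE_dep (Pa d (t - 1)) (Qt β h n t y) hη]
  set sg : ℕ → Site d → ℝ := fun t y => if y ∈ sd t then (1 : ℝ) else -1 with hsg
  have hsg1 : ∀ t y, |sg t y| = 1 := fun t y => by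
    simp only [hsg]
    split_ifs <;> norm_num
  set g : ℕ × Site d → Env d → ℝ := fun p η => sg p.1 p.2 * G p.1 p.2 η with hg
  have hdepc : ∀ p : ℕ × Site d, 1 ≤ p.1 → ∀ p' : ℕ × Site d, p.1 ≤ p'.1 →
      DependsOn (G p.1 p.2) ({p'}ᶜ : Set (ℕ × Site d)) := by
    intro p hp p' hpp η η' hη
    refine hGdep p.1 p.2 fun r hr => hη r ?_
    intro h1
    rw [Set.mem_singleton_iff] at h1
    have h2 : r.1 ≤ p.1 - 1 := hr
    rw [h1] at h2
    omega
  set I : Finset (ℕ × Site d) := T ×ˢ boxF d n with hI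
  have hI1 : ∀ p ∈ I, 1 ≤ p.1 ∧ p.1 ≤ n := fun p hp => hTn p.1 (Finset.mem_product.1 hp).1
  have hgdep : ∀ p ∈ I, ∀ p' : ℕ × Site d, p.1 ≤ p'.1 → DependsOn (g p) ({p'}ᶜ : Set (ℕ × Site d)) := by
    intro p hp p' hpp η η' hη
    simp only [hg]
    rw [hdepc p (hI1 p hp).1 p' hpp hη]
  have hdual := dual63 (ρ := ρ) q I F hFm hF01 g
    (fun p _ => (hGm p.1 p.2).const_mul _)
    (fun p _ η => by
      simp only [hg]
      rw [abs_mul, hsg1, one_mul, abs_of_nonneg (hG01 p.1 p.2 η).1]
      exact (hG01 p.1 p.2 η).2)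
    (fun p hp => hgdep p hp p le_rfl)
    (fun p hp p' hp' _ => by
      rcases le_total p.1 p'.1 with h1 | h1
      · exact Or.inr (hgdep p hp p' h1)
      · exact Or.inl (hgdep p' hp' p h1))
  -- the right side
  have hright : ∑ p ∈ I, ∫ η, g p η ^ 2 ∂(law d ρ) ≤ T.card / ε := by
    rw [hI, Finset.sum_product]
    have h1 : ∀ t ∈ T, ∑ y ∈ boxF d n, ∫ η, g (t, y) η ^ 2 ∂(law d ρ) ≤ 1 / ε := by
      intro t ht
      have hgi : ∀ y ∈ boxF d n, Integrable (fun η => g (t, y) η ^ 2) (law d ρ) := by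
        intro y _
        refine Integrable.of_bound (((hGm t y).const_mul _).pow_const 2).aestronglyMeasurable 1
          (Eventually.of_forall fun η => ?_)
        simp only [hg]
        rw [Real.norm_eq_abs, abs_pow, abs_mul, hsg1, one_mul, abs_of_nonneg (hG01 t y η).1]
        exact pow_le_one₀ (hG01 t y η).1 (hG01 t y η).2
      rw [← integral_finsetSum _ hgi]
      have h2 : ∀ η : Env d, ∑ y ∈ boxF d n, g (t, y) η ^ 2 ≤ 1 / ε := by
        intro η
        rw [le_div_iff₀ hε, Finset.sum_mul]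
        have h3 : ∀ y ∈ boxF d n, g (t, y) η ^ 2 * ε ≤
            cE ρ (Pa d (t - 1)) (Qt β h n t y) η := by
          intro y _
          have h4 : 0 ≤ cE ρ (Pa d (t - 1)) (Qt β h n t y) η :=
            cE_nonneg (fun _ => Qt_nonneg39 _ _ _ _ _ _) _ _
          have h5 : g (t, y) η ^ 2 = G t y η ^ 2 := by
            simp only [hg]
            rw [mul_pow, ← sq_abs (sg t y), hsg1, one_pow, one_mul]
          rw [h5]
          simp only [hG]
          split_ifs with h6
          · simpa using h6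
          · simpa using h4
        refine (Finset.sum_le_sum h3).trans (le_of_eq ?_)
        unfold cE
        have hi : ∀ y : Site d, Integrable
            (fun ξ : Env d => Qt β h n t y (spl (Pa d (t - 1)) η ξ)) (law d ρ) := fun y => by
          refine Integrable.mono' (integrable_const (1 : ℝ)) ?_
            (Eventually.of_forall fun ξ => by
              rw [Real.norm_eq_abs, abs_of_nonneg (Qt_nonneg39 β h n t y _)]
              exact Qt_le_one39 β h (hTn t ht).2 y _)
          exact ((measurable_Qt39 β h n t y).comp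
            (measurable_spl_right (Pa d (t - 1)) η)).aestronglyMeasurable
        rw [← integral_finsetSum _ fun y _ => hi y]
        have h7 : ∀ ξ : Env d, ∑ y ∈ boxF d n, Qt β h n t y (spl (Pa d (t - 1)) η ξ) = 1 :=
          fun ξ => Qt_sum_box39 hd β h (hTn t ht).2 (hTn t ht).2 _
        simp only [h7]
        simp
      have h8 := integral_mono (integrable_finsetSum _ hgi) (integrable_const (1 / ε)) h2
      simpa using h8
    refine (Finset.sum_le_sum h1).trans (le_of_eq ?_)
    rw [Finset.sum_const, nsmul_eq_mul]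
    ring
  -- one row
  have hrow : ∀ t ∈ T, (c * ∫ η, pe2 β h η (fun s s' : Fin n → Step d =>
          if ε ≤ cE ρ (Pa d (t - 1)) (Qt β h n t (pos s t)) η ∧ pos s' t ≠ pos s t ∧
            (pos s t ∈ sd t ↔ ¬ Ev s') then (1 : ℝ) else 0) ∂(law d ρ) -
        ∫ η, pe β h η (fun s : Fin n → Step d =>
          if (pos s t ∈ sd t ↔ ¬ Ev s) then (1 : ℝ) else 0) ∂(law d ρ)) ≤
      ∑ y ∈ boxF d n, ∫ η, g (t, y) η * zt ρ q (η (t, y)) * F η ∂(law d ρ) := by
    intro t ht
    obtain ⟨ht1, htn⟩ := hTn t ht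
    obtain ⟨Fr, hFr⟩ : ∃ Fr : Site d → (Fin n → Step d) → Prop,
        ∀ y s, Fr y s ↔ (y ∈ sd t ↔ ¬ Ev s) := ⟨fun y s => (y ∈ sd t ↔ ¬ Ev s),
      fun _ _ => Iff.rfl⟩
    -- one site
    have hsite : ∀ y ∈ boxF d n,
        c * (∫ η, G t y η * pe2 β h η (fun s s' : Fin n → Step d =>
          if pos s t = y ∧ pos s' t ≠ y ∧ Fr y s' then (1 : ℝ) else 0) ∂(law d ρ)) -
        (∫ η, pe β h η (fun s : Fin n → Step d =>
          if pos s t = y ∧ Fr y s then (1 : ℝ) else 0) ∂(law d ρ)) ≤
        ∫ η, g (t, y) η * zt ρ q (η (t, y)) * F η ∂(law d ρ) := by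
      intro y _
      have h1 := hmain h n t ht1 htn y (Fr y) (G t y) (hGm t y) (hG01 t y)
        (hdepc (t, y) ht1 (t, y) le_rfl)
      have b1 : ∀ η : Env d, 0 ≤ pe β h η (fun s : Fin n → Step d =>
          if pos s t = y ∧ Fr y s then (1 : ℝ) else 0) ∧ pe β h η (fun s : Fin n → Step d =>
          if pos s t = y ∧ Fr y s then (1 : ℝ) else 0) ≤ 1 := fun η =>
        pe_bd39 hd β h η fun s => by split_ifs <;> norm_num
      have h2 : (∫ η, G t y η * pe β h η (fun s : Fin n → Step d =>
          if pos s t = y ∧ Fr y s then (1 : ℝ) else 0) ∂(law d ρ)) ≤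
          ∫ η, pe β h η (fun s : Fin n → Step d =>
            if pos s t = y ∧ Fr y s then (1 : ℝ) else 0) ∂(law d ρ) := by
        refine integral_mono ?_ (int_bd39 (meas_pe39 β h _) b1) fun η => ?_
        · exact int_bd39 ((hGm t y).mul (meas_pe39 β h _)) fun η =>
            ⟨mul_nonneg (hG01 t y η).1 (b1 η).1, mul_le_one₀ (hG01 t y η).2 (b1 η).1 (b1 η).2⟩
        · exact mul_le_of_le_one_left (b1 η).1 (hG01 t y η).2
      have hzm : Measurable fun η : Env d => zt ρ q (η (t, y)) :=
        (meas_zt39 ρ q).comp (measurable_pi_apply (t, y))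
      have h3 : ∫ η, G t y η * (zt ρ q (η (t, y)) * pe β h η (fun s : Fin n → Step d =>
          if ¬ Fr y s then (1 : ℝ) else 0)) ∂(law d ρ) =
          ∫ η, g (t, y) η * zt ρ q (η (t, y)) * F η ∂(law d ρ) := by
        by_cases hy : y ∈ sd t
        · refine integral_congr_ae (Eventually.of_forall fun η => ?_)
          have e1 : (fun s : Fin n → Step d => if ¬ Fr y s then (1 : ℝ) else 0) =
              fun s => if Ev s then (1 : ℝ) else 0 := by
            funext s
            simp only [hFr, hy, true_iff, not_not]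
          simp only [hg, hsg, hF, if_pos hy, one_mul]
          rw [e1]
          ring
        · have e1 : (fun s : Fin n → Step d => if ¬ Fr y s then (1 : ℝ) else 0) =
              fun s => 1 - if Ev s then (1 : ℝ) else 0 := by
            funext s
            simp only [hFr, hy, false_iff, not_not]
            split_ifs <;> norm_num
          have e2 : ∀ η : Env d, pe β h η (fun s : Fin n → Step d =>
              if ¬ Fr y s then (1 : ℝ) else 0) = 1 - F η := by
            intro η
            rw [e1, pe_sub73, pe_const73 hd]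
          have hi1 : Integrable (fun η : Env d => G t y η * zt ρ q (η (t, y))) (law d ρ) := by
            refine Integrable.of_bound ((hGm t y).mul hzm).aestronglyMeasurable 1
              (Eventually.of_forall fun η => ?_)
            rw [Real.norm_eq_abs, abs_mul, abs_of_nonneg (hG01 t y η).1]
            exact mul_le_one₀ (hG01 t y η).2 (abs_nonneg _) (zt_bd39 ρ q _)
          have hi2 : Integrable (fun η : Env d => G t y η * zt ρ q (η (t, y)) * F η)
              (law d ρ) := by
            refine Integrable.of_bound (((hGm t y).mul hzm).mul hFm).aestronglyMeasurable 1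
              (Eventually.of_forall fun η => ?_)
            rw [Real.norm_eq_abs, abs_mul, abs_mul, abs_of_nonneg (hG01 t y η).1,
              abs_of_nonneg (hF01 η).1]
            exact mul_le_one₀ (mul_le_one₀ (hG01 t y η).2 (abs_nonneg _) (zt_bd39 ρ q _))
              (hF01 η).1 (hF01 η).2
          have e3 : ∀ η : Env d, G t y η * (zt ρ q (η (t, y)) * pe β h η
              (fun s : Fin n → Step d => if ¬ Fr y s then (1 : ℝ) else 0)) =
              G t y η * zt ρ q (η (t, y)) - G t y η * zt ρ q (η (t, y)) * F η := by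
            intro η
            rw [e2]
            ring
          simp only [e3]
          rw [integral_sub hi1 hi2, orth63 q (t, y) (hdepc (t, y) ht1 (t, y) le_rfl) hi1,
            zero_sub, ← integral_neg]
          refine integral_congr_ae (Eventually.of_forall fun η => ?_)
          simp only [hg, hsg, if_neg hy]
          ring
      rw [h3] at h1
      linarith
    -- the sum over the sites
    refine le_trans (le_of_eq ?_) (Finset.sum_le_sum hsite)
    rw [Finset.sum_sub_distrib, ← Finset.mul_sum]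
    congr 1
    · congr 1
      rw [← integral_finsetSum]
      · refine integral_congr_ae (Eventually.of_forall fun η => ?_)
        show pe2 β h η _ = ∑ y ∈ boxF d n, G t y η * pe2 β h η (fun s s' : Fin n → Step d =>
          if pos s t = y ∧ pos s' t ≠ y ∧ Fr y s' then (1 : ℝ) else 0)
        rw [← pe2_lin63 (boxF d n) β h η (fun y => G t y η)
          (fun y (s s' : Fin n → Step d) =>
            if pos s t = y ∧ pos s' t ≠ y ∧ Fr y s' then (1 : ℝ) else 0)]
        congr 1
        funext s s'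
        rw [Finset.sum_eq_single_of_mem (pos s t) (pos_mem_boxF39 s htn)]
        · simp only [hG, hFr]
          by_cases a1 : ε ≤ cE ρ (Pa d (t - 1)) (Qt β h n t (pos s t)) η
          · simp [a1]
          · simp [a1]
        · intro y _ hy
          rw [if_neg fun h1 => hy h1.1.symm, mul_zero]
      · intro y _
        exact int_bd39 ((hGm t y).mul (meas_pe239 β h _)) fun η => by
          have b2 := pe2_bd39 hd β h η (f := fun s s' : Fin n → Step d =>
            if pos s t = y ∧ pos s' t ≠ y ∧ Fr y s' then (1 : ℝ) else 0)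
            (fun s s' => by split_ifs <;> norm_num)
          exact ⟨mul_nonneg (hG01 t y η).1 b2.1, mul_le_one₀ (hG01 t y η).2 b2.1 b2.2⟩
    · rw [← integral_finsetSum]
      · refine integral_congr_ae (Eventually.of_forall fun η => ?_)
        show pe β h η _ = ∑ y ∈ boxF d n, pe β h η (fun s : Fin n → Step d =>
          if pos s t = y ∧ Fr y s then (1 : ℝ) else 0)
        rw [← pe_sum73]
        congr 1
        funext s
        rw [Finset.sum_eq_single_of_mem (pos s t) (pos_mem_boxF39 s htn)]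
        · simp [hFr]
        · intro y _ hy
          rw [if_neg fun h1 => hy h1.1.symm]
      · intro y _
        exact int_bd39 (meas_pe39 β h _) fun η => pe_bd39 hd β h η fun s => by
          split_ifs <;> norm_num
  -- the end
  calc _ ≤ ∑ t ∈ T, ∑ y ∈ boxF d n, ∫ η, g (t, y) η * zt ρ q (η (t, y)) * F η ∂(law d ρ) :=
        Finset.sum_le_sum hrow
    _ = ∑ p ∈ I, ∫ η, g p η * zt ρ q (η p) * F η ∂(law d ρ) := by
        rw [hI, Finset.sum_product]
    _ ≤ _ := hdual
    _ ≤ Real.sqrt (T.card / ε) := Real.sqrt_le_sqrt hright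

end Pool.Agent.W_7d29a1_NS
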